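import Pool.Agent.P.MP_f1a348_lc.CE.Iface

/-!
Project CE: basic facts on quadratic functions, singular vectors and elementary elements.
-/

namespace Pool.Agent.P.MP_f1a348_lc.CE

open Matrix Module Pool.Agent.P.MP_f1a348_lc.PG Pool.Agent.P.MP_f1a348_lc.UP

set_option linter.unusedSectionVars false

variable {p n : ℕ} [Fact p.Prime] {ℓ : Ix n → ℕ} {B : Sub p n} {Q Q' : QS p n} {θ : Fn p n}
  {C D N g h z : Mat p n} {x y u v s : Vec p n} {W W' : VS p n} {a b c : Ix n}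

/-! ### polar forms -/

theorem Pol.zero (H : Pol θ C) : θ 0 = 0 := by
  have := H 0 0
  rw [add_zero, ip_zero_right, add_zero] at this
  exact left_eq_add.1 this

theorem Pol.symm (H : Pol θ C) (x y : Vec p n) : ip (C *ᵥ x) y = ip (C *ᵥ y) x := by
  have h1 := H x y
  have h2 := H y x
  rw [add_comm y x, h1] at h2
  linear_combination h2

theorem Pol.st_eq (H : Pol θ C) : st C = C :=
  mat_ext fun x => ip_ext fun y => by rw [← ip_mulVec_right, ip_comm, H.symm]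

theorem Pol.uniq (H : Pol θ C) (H' : Pol θ D) : C = D :=
  mat_ext fun x => ip_ext fun y => by linear_combination H' x y - H x y

theorem Pol.neg (H : Pol θ C) (x : Vec p n) : θ (-x) = ip (C *ᵥ x) x - θ x := by
  have := H x (-x)
  rw [add_neg_cancel, H.zero, ip_neg_right] at this
  linear_combination -this

theorem pol_com (C : Mat p n) : Pol (fun x => ip (C *ᵥ x) x) (C + st C) := fun x y => by
  simp only [Matrix.mulVec_add, Matrix.add_mulVec, ip_add_left, ip_add_right]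
  rw [← ip_mulVec_right C x y, ip_comm x]
  ring

theorem Pol.comp (H : Pol θ C) (D : Mat p n) : Pol (fun x => θ (D *ᵥ x)) (st D * C * D) :=
  fun x y => by
  simp only [Matrix.mulVec_add, H _ _]
  rw [ip_mulVec_right, Matrix.mulVec_mulVec, Matrix.mulVec_mulVec]

theorem Pol.sub {η : Fn p n} (H : Pol θ C) (H' : Pol η D) : Pol (θ - η) (C - D) := fun x y => by
  simp only [Pi.sub_apply, H x y, H' x y, Matrix.sub_mulVec, ip_sub_left]; ring

theorem Adm.zero (H : Adm ℓ B Q) (hθ : θ ∈ Q) : θ 0 = 0 :=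
  let ⟨_, _, e⟩ := H.pol θ hθ
  e.zero

/-- members of `Q` are additive on orthogonal pairs -/
theorem Adm.add (H : Adm ℓ B Q) (hθ : θ ∈ Q) (e : y ∈ perp (orb (Com B) x)) :
    θ (x + y) = θ x + θ y := by
  obtain ⟨C, hC, hp⟩ := H.pol θ hθ
  rw [hp, mem_perp_orb.1 e C hC, add_zero]

theorem Adm.add_sing (H : Adm ℓ B Q) (hθ : θ ∈ Q) (e : s ∈ perp (orb (Com B) x))
    (hs : Sing Q s) : θ (x + s) = θ x := by rw [H.add hθ e, hs θ hθ, add_zero]

/-! ### orthogonality -/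

theorem perp_of_perp (hB : Alg ℓ B) (hW : Stab B W) (hx : x ∈ perp W) (hy : y ∈ W) :
    y ∈ perp (orb (Com B) x) :=
  perp_orb_symm hB (perp_anti (hW.orb_le hy) hx)

theorem orb_le_perp (hB : Alg ℓ B) (hW : Stab B W) (hx : x ∈ perp W) : orb (Com B) x ≤ perp W :=
  (hW.perp hB).orb_le hx

theorem le_perp_symm (e : W ≤ perp W') : W' ≤ perp W := fun w hw u hu => by
  rw [ip_comm]; exact e hu w hw

theorem mem_orb_com (hC : C ∈ Com B) (x : Vec p n) : C *ᵥ x ∈ orb (Com B) x :=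
  mem_orb.2 ⟨C, hC, rfl⟩

theorem stab_top : Stab B ⊤ := fun _ _ _ _ => trivial

theorem orb_add_le (x y : Vec p n) : orb (Com B) (x + y) ≤ orb (Com B) x ⊔ orb (Com B) y :=
  ((stab_orb x).sup (stab_orb y)).orb_le (Submodule.add_mem_sup (self_mem_orb x) (self_mem_orb y))

theorem orb_zero : orb (Com B) (0 : Vec p n) = ⊥ :=
  le_bot_iff.1 (stab_bot.orb_le (zero_mem _))

theorem orb_map (hg : g ∈ B) (e : y ∈ orb (Com B) x) : g *ᵥ y ∈ orb (Com B) (g *ᵥ x) := by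
  obtain ⟨C, hC, rfl⟩ := mem_orb.1 e
  exact mem_orb.2 ⟨C, hC, com_mulVec hC hg x⟩

theorem perp_orb_map (hg : g ∈ B) (hu : Un g) (e : y ∈ perp (orb (Com B) x)) :
    g *ᵥ y ∈ perp (orb (Com B) (g *ᵥ x)) :=
  mem_perp_orb.2 fun C hC => by rw [com_mulVec hC hg, hu.ip]; exact mem_perp_orb.1 e C hC

/-! ### singular vectors -/

theorem Sing.zero (H : Adm ℓ B Q) : Sing Q (0 : Vec p n) := fun _ hθ => H.zero hθ

theorem Sing.com (H : Adm ℓ B Q) (hx : Sing Q x) (hC : C ∈ Com B) : Sing Q (C *ᵥ x) :=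
  fun θ hθ => hx _ (H.comp θ hθ C hC)

theorem Sing.of_orb (H : Adm ℓ B Q) (hx : Sing Q x) (hy : y ∈ orb (Com B) x) : Sing Q y := by
  obtain ⟨C, hC, rfl⟩ := mem_orb.1 hy
  exact hx.com H hC

theorem Sing.isot (H : Adm ℓ B Q) (hx : Sing Q x) : x ∈ perp (orb (Com B) x) :=
  mem_perp_orb.2 fun C hC => hx (fun x => ip (C *ᵥ x) x) (H.com C hC)

theorem Sing.orb_le (H : Geo ℓ B Q) (hx : Sing Q x) : orb (Com B) x ≤ perp (orb (Com B) x) :=
  orb_le_perp H.str.alg (stab_orb x) (hx.isot H.adm)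

theorem Sing.smul (H : Adm ℓ B Q) (hx : Sing Q x) (c : ZMod p) : Sing Q (c • x) :=
  hx.of_orb H (Submodule.smul_mem _ c (self_mem_orb x))

theorem Sing.neg (H : Adm ℓ B Q) (hx : Sing Q x) : Sing Q (-x) :=
  hx.of_orb H (neg_mem (self_mem_orb x))

theorem Sing.add (H : Adm ℓ B Q) (hx : Sing Q x) (hy : Sing Q y) (e : y ∈ perp (orb (Com B) x)) :
    Sing Q (x + y) := fun θ hθ => by rw [H.add_sing hθ e hy, hx θ hθ]

theorem Sing.sub (H : Adm ℓ B Q) (hx : Sing Q x) (hy : Sing Q y) (e : y ∈ perp (orb (Com B) x)) :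
    Sing Q (x - y) := by
  rw [sub_eq_add_neg]; exact hx.add H (hy.neg H) (neg_mem e)

theorem Sing.anti (e : Q ≤ Q') (hx : Sing Q' x) : Sing Q x := fun θ hθ => hx θ (e hθ)

/-- there are no singular vectors in trivial blocks -/
theorem Sing.triv (H : Geo ℓ B Q) (hs : Sing Q x) (hx : x ∈ Vb ℓ a) (t : Triv ℓ B a) : x = 0 := by
  by_contra h0
  obtain ⟨C, hC, h1⟩ := exists_cb_ne
    (cb_trans H.str ((triv_rev H.str).2 t) (cb_symm H.str t) : Cb ℓ B a.rev a ≠ ⊥)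
  refine h1 (cb_inj H.str hC hx h0 (eq_zero_of_ip H.str.lab (cb_mulVec_mem hC x) fun y hy => ?_))
  obtain ⟨c, rfl⟩ := triv_line H.str t hx h0 hy
  rw [ip_smul_right, mem_perp_orb.1 (hs.isot H.adm) C hC.1, mul_zero]

theorem Sing.ntriv (H : Geo ℓ B Q) (hs : Sing Q x) (hx : x ∈ Vb ℓ a) (h0 : x ≠ 0) :
    ¬ Triv ℓ B a := fun t => h0 (hs.triv H hx t)

theorem Sing.c0 (H : Geo ℓ B Q) (hs : Sing Q x) : x (c0 n) = 0 := by
  have := congrFun ((hs.com H.adm (com_pr H.str.alg (PG.c0 n))).triv H (pr_mulVec_mem _ x)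
    (triv_c0 H.str.alg)) (PG.c0 n)
  rwa [pr_mulVec, if_pos rfl] at this

theorem Sing.eo (H : Geo ℓ B Q) (hs : Sing Q x) : eo ℓ B *ᵥ x = x := by
  ext β
  by_cases t : Triv ℓ B β
  · have := congrFun ((hs.com H.adm (com_pr H.str.alg β)).triv H (pr_mulVec_mem _ x) t) β
    rw [pr_mulVec, if_pos rfl] at this
    rw [PG.eo, Matrix.mulVec_diagonal, this, Pi.zero_apply, mul_zero]
  · rw [PG.eo, Matrix.mulVec_diagonal, if_neg t, one_mul]

/-! ### the unitary group of `Q` -/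

theorem uq_one (hB : Alg ℓ B) : UQ B Q 1 := ⟨u1_one hB, fun _ _ x => by rw [Matrix.one_mulVec]⟩

theorem UQ.mul (H : Str ℓ B) (hg : UQ B Q g) (hh : UQ B Q h) : UQ B Q (g * h) :=
  ⟨hg.1.mul H.lab H.alg hh.1, fun θ hθ x => by
    rw [← Matrix.mulVec_mulVec, hg.2 θ hθ, hh.2 θ hθ]⟩

theorem UQ.star (H : Str ℓ B) (hg : UQ B Q g) : UQ B Q (st g) :=
  ⟨hg.1.star H.lab H.alg, fun θ hθ x => by rw [← hg.2 θ hθ, hg.1.2.1.mulVec_st]⟩

theorem UQ.mem (hg : UQ B Q g) : g ∈ B := hg.1.1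

theorem UQ.un (hg : UQ B Q g) : Un g := hg.1.2.1

theorem UQ.anti (e : Q ≤ Q') (hg : UQ B Q' g) : UQ B Q g := ⟨hg.1, fun θ hθ => hg.2 θ (e hθ)⟩

theorem UQ.sing (hg : UQ B Q g) (hx : Sing Q x) : Sing Q (g *ᵥ x) :=
  fun θ hθ => by rw [hg.2 θ hθ, hx θ hθ]

theorem UQ.vb (H : Str ℓ B) (hg : UQ B Q g) (hx : x ∈ Vb ℓ a) : g *ᵥ x ∈ Vb ℓ a :=
  (H.alg.dg g hg.mem).mulVec_mem hx

theorem grp_uq (H : Str ℓ B) : Grp {z | UQ B Q z} :=
  ⟨uq_one H.alg, fun _ a _ b => UQ.mul H a b, fun _ a => UQ.un a, fun _ a => UQ.star H a⟩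

/-! ### pointwise stabilisers -/

theorem fx_one : Fx W (1 : Mat p n) := fun w _ => Matrix.one_mulVec w

theorem fx_bot : Fx ⊥ g := fun w hw => by rw [(Submodule.mem_bot _).1 hw, Matrix.mulVec_zero]

theorem Fx.mul (hg : Fx W g) (hh : Fx W h) : Fx W (g * h) := fun w hw => by
  rw [← Matrix.mulVec_mulVec, hh w hw, hg w hw]

theorem Fx.star (hg : Fx W g) (hu : Un g) : Fx W (st g) := fun w hw => by
  conv_lhs => rw [← hg w hw]
  exact hu.st_mulVec w

theorem Fx.anti (hg : Fx W g) (e : W' ≤ W) : Fx W' g := fun w hw => hg w (e hw)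

theorem Fx.sup (hg : Fx W g) (hg' : Fx W' g) : Fx (W ⊔ W') g := fun w hw => by
  obtain ⟨a, ha, b, hb, rfl⟩ := Submodule.mem_sup.1 hw
  rw [Matrix.mulVec_add, hg a ha, hg' b hb]

theorem fx_orb (hg : g ∈ B) (e : g *ᵥ x = x) : Fx (orb (Com B) x) g := fun w hw => by
  obtain ⟨C, hC, rfl⟩ := mem_orb.1 hw
  rw [← com_mulVec hC hg, e]

theorem Fx.sub_mem (hg : Fx W g) (hu : Un g) (x : Vec p n) : g *ᵥ x - x ∈ perp W := fun w hw => by
  rw [ip_sub_right, ip_mulVec_right, hg.star hu w hw, sub_self]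

theorem Fx.perp (hg : Fx W g) (hu : Un g) (hx : x ∈ perp W) : g *ᵥ x ∈ perp W := by
  simpa using add_mem (hg.sub_mem hu x) hx

theorem Fx.im_le (hg : Fx W g) (hu : Un g) : im (g - 1) ≤ PG.perp W := fun y hy => by
  obtain ⟨x, rfl⟩ := mem_im.1 hy
  rw [Matrix.sub_mulVec, Matrix.one_mulVec]
  exact hg.sub_mem hu x

theorem fx_perp_im (hu : Un g) : Fx (perp (im (g - 1))) g := fun w hw => by
  have : Fx (perp (im (g - 1))) (st g) := fun w hw => ip_ext fun y => by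
    have := hw ((g - 1) *ᵥ y) (mem_im.2 ⟨y, rfl⟩)
    rw [Matrix.sub_mulVec, Matrix.one_mulVec, ip_sub_left, ip_mulVec, ip_comm, ip_comm y] at this
    exact sub_eq_zero.1 this
  simpa using this.star hu.star w hw

theorem Fx.not_mem (hg : Fx W g) (hu : Un g) (hx : x ∉ W) : g *ᵥ x ∉ W := fun e => hx (by
  rw [← hu.st_mulVec x, hg.star hu _ e]; exact e)

/-- an element that fixes `W` maps `W + D x` to `W + D (g x)` -/
theorem Fx.map_sup (hg : Fx W g) (hB : g ∈ B) (e : y ∈ W ⊔ orb (Com B) x) :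
    g *ᵥ y ∈ W ⊔ orb (Com B) (g *ᵥ x) := by
  obtain ⟨a, ha, b, hb, rfl⟩ := Submodule.mem_sup.1 e
  rw [Matrix.mulVec_add, hg a ha]
  exact Submodule.add_mem_sup ha (orb_map hB hb)

theorem os_of_fx (e : Fx (im (z - 1)) g) (e' : Fx (im (g - 1)) z) : Os g z :=
  ⟨mat_ext fun x => by
    rw [← Matrix.mulVec_mulVec, Matrix.sub_mulVec g, e _ (mem_im.2 ⟨x, rfl⟩), Matrix.one_mulVec,
      sub_self, Matrix.zero_mulVec],
  mat_ext fun x => by
    rw [← Matrix.mulVec_mulVec, Matrix.sub_mulVec z, e' _ (mem_im.2 ⟨x, rfl⟩), Matrix.one_mulVec,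
      sub_self, Matrix.zero_mulVec]⟩

/-- if `g` fixes the image of `z - 1`, the supports are orthogonal -/
theorem os_of_fx' (hg : Un g) (hz : Un z) (e : Fx (im (z - 1)) g) : Os g z :=
  os_of_fx e ((fx_perp_im hz).anti (e.im_le hg))

theorem Os.symm (e : Os g z) : Os z g := ⟨e.2, e.1⟩

theorem Os.comm (e : Os g z) : g * z = z * g := by
  have h1 := e.1
  have h2 := e.2
  simp only [mul_sub, sub_mul, mul_one, one_mul] at h1 h2
  linear_combination (norm := abel) h1 - h2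

/-! ### Siegel elements -/

theorem st_sgl (N : Mat p n) : st (sgl N) = sgl (-N) := by
  simp only [sgl, st_sub, st_add, st_one, st_st, st_neg]; abel

theorem sgl_st (N : Mat p n) : sgl (st N) = sgl (-N) := by
  simp only [sgl, st_st, st_neg]; abel

theorem sgl_zero : sgl (0 : Mat p n) = 1 := by simp [sgl]

theorem sgl_mulVec (N : Mat p n) (x : Vec p n) : sgl N *ᵥ x = x + N *ᵥ x - st N *ᵥ x := by
  rw [sgl, Matrix.sub_mulVec, Matrix.add_mulVec, Matrix.one_mulVec]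

theorem Sieg.ss (H : Sieg B Q N) : st N * st N = 0 := by rw [← st_mul, H.nn, st_zero]

theorem Sieg.neg (A : Adm ℓ B Q) (H : Sieg B Q N) : Sieg B Q (-N) where
  mem := neg_mem H.mem
  nn := by rw [neg_mul_neg, H.nn]
  sn := by rw [st_neg, neg_mul_neg, H.sn]
  ns := by rw [st_neg, neg_mul_neg, H.ns]
  im x := by rw [Matrix.neg_mulVec]; exact (H.im x).neg A
  ims x := by rw [st_neg, Matrix.neg_mulVec]; exact (H.ims x).neg A

theorem Sieg.star (hB : Alg ℓ B) (H : Sieg B Q N) : Sieg B Q (st N) where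
  mem := hB.star N H.mem
  nn := H.ss
  sn := by rw [st_st, H.ns]
  ns := by rw [st_st, H.sn]
  im := H.ims
  ims x := by rw [st_st]; exact H.im x

theorem Sieg.anti (e : Q ≤ Q') (H : Sieg B Q' N) : Sieg B Q N :=
  ⟨H.mem, H.nn, H.sn, H.ns, fun x => (H.im x).anti e, fun x => (H.ims x).anti e⟩

theorem sgl_conj (hu : Un g) (N : Mat p n) : g * sgl N * st g = sgl (g * N * st g) := by
  simp only [sgl, mul_sub, sub_mul, mul_add, add_mul, mul_one, hu.mul_st, st_mul, st_st, mul_assoc]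

theorem Sieg.conj (hB : Alg ℓ B) (H : Sieg B Q N) (hg : UQ B Q g) : Sieg B Q (g * N * st g) := by
  have k : ∀ X Y : Mat p n, X * Y = 0 → g * X * st g * (g * Y * st g) = 0 := fun X Y e => by
    rw [mul_assoc, mul_assoc g Y, ← mul_assoc (st g), hg.un.st_mul, one_mul, mul_assoc,
      ← mul_assoc X, e, zero_mul, mul_zero]
  have e : st (g * N * st g) = g * st N * st g := by rw [st_mul, st_mul, st_st, mul_assoc]
  refine ⟨hB.mul _ (hB.mul _ hg.mem _ H.mem) _ (hB.star _ hg.mem), k _ _ H.nn, ?_, ?_, fun x => ?_,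
    fun x => ?_⟩
  · rw [e]; exact k _ _ H.sn
  · rw [e]; exact k _ _ H.ns
  · rw [← Matrix.mulVec_mulVec, ← Matrix.mulVec_mulVec]; exact hg.sing (H.im _)
  · rw [e, ← Matrix.mulVec_mulVec, ← Matrix.mulVec_mulVec]; exact hg.sing (H.ims _)

theorem Sieg.uq (G : Geo ℓ B Q) (H : Sieg B Q N) : UQ B Q (sgl N) := by
  have hB := G.str.alg
  refine ⟨⟨sub_mem (add_mem hB.one H.mem) (hB.star N H.mem), ?_, ?_⟩, fun θ hθ x => ?_⟩
  · rw [Un, st_sgl]
    simp only [sgl, st_neg, mul_sub, sub_mul, mul_add, add_mul, mul_one, one_mul, neg_mul, H.nn,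
      H.sn, H.ns, H.ss]
    abel
  · have h1 := (H.im e0).c0 G
    rw [((hB.dg N H.mem).tri G.str.lab).mulVec_c0, e0, Pi.single_eq_same, mul_one] at h1
    rw [sgl, Matrix.sub_apply, Matrix.add_apply, st_apply, rev_c0, h1, Matrix.one_apply_eq]
    ring
  · obtain ⟨P, hP, e⟩ := G.adm.pol θ hθ
    have h1 : ip (P *ᵥ (N *ᵥ x)) (st N *ᵥ x) = 0 := by
      rw [← ip_mulVec, ← com_mulVec hP H.mem, Matrix.mulVec_mulVec x N N, H.nn,
        Matrix.zero_mulVec, Matrix.mulVec_zero, ip_zero_left]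
    have h2 : ip (P *ᵥ x) (st N *ᵥ x) = ip (P *ᵥ x) (N *ᵥ x) := by
      rw [← ip_mulVec, ← com_mulVec hP H.mem, e.symm]
    rw [sgl_mulVec, sub_eq_add_neg, e, e, H.im x θ hθ, (H.ims x).neg G.adm θ hθ, ip_neg_right,
      Matrix.mulVec_add, ip_add_left, h1, h2]
    ring

/-! ### the elementary group -/

theorem Sieg.eu (H : Sieg B Q N) : sgl N ∈ EU B Q := Submonoid.subset_closure ⟨N, H, rfl⟩

theorem eu_ind {P : Mat p n → Prop} (h1 : P 1) (h2 : ∀ N z, Sieg B Q N → z ∈ EU B Q → P z →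
    P (sgl N * z)) (hz : z ∈ EU B Q) : P z := by
  induction hz using Submonoid.closure_induction_left with
  | one => exact h1
  | mul_left x hx y hy ih => obtain ⟨N, hN, rfl⟩ := hx; exact h2 N y hN hy ih

theorem eu_uq (G : Geo ℓ B Q) (hz : z ∈ EU B Q) : UQ B Q z :=
  eu_ind (uq_one G.str.alg) (fun _ _ hN _ ih => (hN.uq G).mul G.str ih) hz

theorem eu_star (A : Adm ℓ B Q) (hz : z ∈ EU B Q) : st z ∈ EU B Q :=
  eu_ind (P := fun z => st z ∈ EU B Q) (by rw [st_one]; exact one_mem _)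
    (fun _ _ hN _ ih => by rw [st_mul, st_sgl]; exact mul_mem ih (hN.neg A).eu) hz

theorem eu_conj (hB : Alg ℓ B) (hg : UQ B Q g) (hz : z ∈ EU B Q) : g * z * st g ∈ EU B Q :=
  eu_ind (P := fun z => g * z * st g ∈ EU B Q) (by rw [mul_one, hg.un.mul_st]; exact one_mem _)
    (fun N z hN _ ih => by
      have : g * (sgl N * z) * st g = g * sgl N * st g * (g * z * st g) := by
        simp only [mul_assoc]; rw [← mul_assoc (st g) g, hg.un.st_mul, one_mul]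
      rw [this, sgl_conj hg.un]
      exact mul_mem (hN.conj hB hg).eu ih) hz

theorem eu_conj' (H : Str ℓ B) (hg : UQ B Q g) (hz : z ∈ EU B Q) : st g * z * g ∈ EU B Q := by
  simpa using eu_conj H.alg (hg.star H) hz

theorem eu_anti (e : Q ≤ Q') : EU B Q' ≤ EU B Q :=
  Submonoid.closure_mono fun _ ⟨N, hN, h⟩ => ⟨N, hN.anti e, h⟩

theorem grp_eu (G : Geo ℓ B Q) : Grp (EU B Q : Set (Mat p n)) :=
  ⟨one_mem _, fun _ a _ b => mul_mem a b, fun _ a => (eu_uq G a).un, fun _ a => eu_star G.adm a⟩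

theorem btw_eu (G : Geo ℓ B Q) : Btw B Q (EU B Q : Set (Mat p n)) :=
  ⟨grp_eu G, fun _ a => eu_uq G a, fun _ a => a⟩

theorem btw_uq (G : Geo ℓ B Q) : Btw B Q {z | UQ B Q z} :=
  ⟨grp_uq G.str, fun _ a => a, fun _ a => eu_uq G a⟩

/-! ### operators of rank one -/

theorem kill_of_ims (e : ∀ v, st N *ᵥ v ∈ W) (hv : v ∈ perp W) : N *ᵥ v = 0 :=
  ip_nondeg fun w => by rw [ip_mulVec, ip_comm]; exact hv _ (e w)

theorem kill_of_im (e : ∀ v, N *ᵥ v ∈ W) (hv : v ∈ perp W) : st N *ᵥ v = 0 :=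
  kill_of_ims (by rwa [st_st]) hv

theorem ims_of_kill (e : ∀ v ∈ perp W, N *ᵥ v = 0) (v : Vec p n) : st N *ᵥ v ∈ W := by
  rw [← perp_perp W]
  exact fun w hw => by rw [← ip_mulVec, e w hw, ip_zero_left]

theorem R1.kill (H : R1 ℓ B Q N x y) (hv : v ∈ perp (orb (Com B) x)) : N *ᵥ v = 0 :=
  kill_of_ims H.ims hv

theorem R1.kills (H : R1 ℓ B Q N x y) (hv : v ∈ perp (orb (Com B) y)) : st N *ᵥ v = 0 :=
  kill_of_im H.im hv

theorem R1.star (hB : Alg ℓ B) (H : R1 ℓ B Q N x y) : R1 ℓ B Q (st N) y x :=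
  ⟨hB.star N H.mem, H.by', H.bx, H.sy, H.sx, perp_orb_symm hB H.orth, H.ims,
    fun v => by rw [st_st]; exact H.im v⟩

theorem R1.neg (H : R1 ℓ B Q N x y) : R1 ℓ B Q (-N) x y :=
  ⟨neg_mem H.mem, H.bx, H.by', H.sx, H.sy, H.orth,
    fun v => by rw [Matrix.neg_mulVec]; exact neg_mem (H.im v),
    fun v => by rw [st_neg, Matrix.neg_mulVec]; exact neg_mem (H.ims v)⟩

theorem R1.sieg (G : Geo ℓ B Q) (H : R1 ℓ B Q N x y) : Sieg B Q N where
  mem := H.mem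
  nn := mat_ext fun v => by
    rw [← Matrix.mulVec_mulVec, Matrix.zero_mulVec]
    exact H.kill (orb_le_perp G.str.alg (stab_orb x) H.orth (H.im v))
  sn := mat_ext fun v => by
    rw [← Matrix.mulVec_mulVec, Matrix.zero_mulVec]; exact H.kills (H.sy.orb_le G (H.im v))
  ns := mat_ext fun v => by
    rw [← Matrix.mulVec_mulVec, Matrix.zero_mulVec]; exact H.kill (H.sx.orb_le G (H.ims v))
  im v := H.sy.of_orb G.adm (H.im v)
  ims v := H.sx.of_orb G.adm (H.ims v)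

theorem R1.fx' (H : R1 ℓ B Q N x y) : Fx (perp (orb (Com B) x ⊔ orb (Com B) y)) (sgl N) :=
  fun w hw => by
  rw [sgl_mulVec, H.kill (mem_perp_sup.1 hw).1, H.kills (mem_perp_sup.1 hw).2, add_zero, sub_zero]

theorem R1.fx (hB : Alg ℓ B) (hW : Stab B W) (H : R1 ℓ B Q N x y) (hx : x ∈ perp W)
    (hy : y ∈ perp W) : Fx W (sgl N) :=
  H.fx'.anti fun _ hw => mem_perp_sup.2 ⟨perp_of_perp hB hW hx hw, perp_of_perp hB hW hy hw⟩

theorem R1.im_le (H : R1 ℓ B Q N x y) : PG.im (sgl N - 1) ≤ orb (Com B) x ⊔ orb (Com B) y :=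
  fun w hw => by
  obtain ⟨v, rfl⟩ := mem_im.1 hw
  rw [Matrix.sub_mulVec, sgl_mulVec, Matrix.one_mulVec,
    show v + N *ᵥ v - st N *ᵥ v - v = -(st N *ᵥ v) + N *ᵥ v by abel]
  exact Submodule.add_mem_sup (neg_mem (H.ims v)) (H.im v)

theorem R1.small (G : Geo ℓ B Q) (H : R1 ℓ B Q N x y) : Small ℓ B 2 (PG.im (sgl N - 1)) := by
  obtain ⟨a, ha⟩ := H.bx
  obtain ⟨b, hb⟩ := H.by'
  exact ((small_orb G.str ha).sup G.str.alg (small_orb G.str hb)).of_le
    (stab_im (sub_mem ((H.sieg G).uq G).mem G.str.alg.one)) H.im_le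

theorem R1.conj (S : Str ℓ B) (H : R1 ℓ B Q N x y) (hg : UQ B Q g) :
    R1 ℓ B Q (g * N * st g) (g *ᵥ x) (g *ᵥ y) where
  mem := S.alg.mul _ (S.alg.mul _ hg.mem _ H.mem) _ (S.alg.star _ hg.mem)
  bx := let ⟨a, ha⟩ := H.bx; ⟨a, hg.vb S ha⟩
  by' := let ⟨a, ha⟩ := H.by'; ⟨a, hg.vb S ha⟩
  sx := hg.sing H.sx
  sy := hg.sing H.sy
  orth := perp_orb_map hg.mem hg.un H.orth
  im v := by
    rw [← Matrix.mulVec_mulVec, ← Matrix.mulVec_mulVec]; exact orb_map hg.mem (H.im _)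
  ims v := by
    rw [st_mul, st_mul, st_st, ← Matrix.mulVec_mulVec, ← Matrix.mulVec_mulVec]
    exact orb_map hg.mem (H.ims _)

/-- an operator of rank one with given ends that sends `u` to `s` -/
theorem r1x (H : Str ℓ B) (hx : x ∈ Vb ℓ c) (hu : u ∈ Vb ℓ b) (hn : u ∉ perp (orb (Com B) x))
    (hs : s ∈ Vb ℓ b) : ∃ N ∈ B, N *ᵥ u = s ∧ (∀ v, N *ᵥ v ∈ orb (Com B) s) ∧
      (∀ v, st N *ᵥ v ∈ orb (Com B) x) ∧ ∀ v ∈ perp (orb (Com B) x), N *ᵥ v = 0 := by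
  have hP := (stab_orb (B := B) x).perp H.alg
  obtain ⟨N, hN, e1, e2⟩ := dens H hP hu hn hs
  refine ⟨N, hN, e1, fun v => ?_, ims_of_kill e2, e2⟩
  have htop : perp (orb (Com B) x) ⊔ orb (Com B) u = ⊤ := by
    have h1 : perp (perp (orb (Com B) x) ⊔ orb (Com B) u) = ⊥ := by
      refine (Submodule.eq_bot_iff _).2 fun w hw => ?_
      obtain ⟨h2, h3⟩ := mem_perp_sup.1 hw
      rw [perp_perp] at h2
      by_contra h0
      exact hn (perp_orb_symm H.alg (mem_of_orb H ((stab_orb u).perp H.alg) hx h2 h0 h3))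
    rw [← perp_perp (_ ⊔ _), h1, perp_bot]
  obtain ⟨k, hk, w, hw, rfl⟩ := Submodule.mem_sup.1 (htop ▸ Submodule.mem_top : v ∈ _)
  rw [Matrix.mulVec_add, e2 k hk, zero_add, ← e1]
  exact orb_map hN hw

/-! ### the elementary group of a complement -/

theorem R1.ew (H : R1 ℓ B Q N x y) (hx : x ∈ perp W) (hy : y ∈ perp W) : sgl N ∈ EW ℓ B Q W :=
  Submonoid.subset_closure ⟨N, x, y, H, hx, hy, rfl⟩

theorem ew_ind {P : Mat p n → Prop} (h1 : P 1) (h2 : ∀ N x y z, R1 ℓ B Q N x y → x ∈ perp W →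
    y ∈ perp W → z ∈ EW ℓ B Q W → P z → P (sgl N * z)) (hz : z ∈ EW ℓ B Q W) : P z := by
  induction hz using Submonoid.closure_induction_left with
  | one => exact h1
  | mul_left x hx y hy ih =>
    obtain ⟨N, u, v, hN, a, b, rfl⟩ := hx; exact h2 N u v y hN a b hy ih

theorem ew_le_eu (G : Geo ℓ B Q) : EW ℓ B Q W ≤ EU B Q :=
  Submonoid.closure_mono fun _ ⟨N, _, _, hN, _, _, h⟩ => ⟨N, hN.sieg G, h⟩

theorem ew_uq (G : Geo ℓ B Q) (hz : z ∈ EW ℓ B Q W) : UQ B Q z := eu_uq G (ew_le_eu G hz)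

theorem ew_anti (e : W ≤ W') : EW ℓ B Q W' ≤ EW ℓ B Q W :=
  Submonoid.closure_mono fun _ ⟨N, x, y, hN, a, b, h⟩ =>
    ⟨N, x, y, hN, perp_anti e a, perp_anti e b, h⟩

theorem ew_fx (hB : Alg ℓ B) (hW : Stab B W) (hz : z ∈ EW ℓ B Q W) : Fx W z :=
  ew_ind fx_one (fun _ _ _ _ hN a b _ ih => (hN.fx hB hW a b).mul ih) hz

theorem ew_star (hz : z ∈ EW ℓ B Q W) : st z ∈ EW ℓ B Q W :=
  ew_ind (P := fun z => st z ∈ EW ℓ B Q W) (by rw [st_one]; exact one_mem _)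
    (fun _ _ _ _ hN a b _ ih => by rw [st_mul, st_sgl]; exact mul_mem ih (hN.neg.ew a b)) hz

theorem ew_conj (S : Str ℓ B) (hg : UQ B Q g) (e : ∀ x ∈ perp W, g *ᵥ x ∈ perp W')
    (hz : z ∈ EW ℓ B Q W) : g * z * st g ∈ EW ℓ B Q W' :=
  ew_ind (P := fun z => g * z * st g ∈ EW ℓ B Q W')
    (by rw [mul_one, hg.un.mul_st]; exact one_mem _)
    (fun N x y z hN a b _ ih => by
      have : g * (sgl N * z) * st g = g * sgl N * st g * (g * z * st g) := by
        simp only [mul_assoc]; rw [← mul_assoc (st g) g, hg.un.st_mul, one_mul]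
      rw [this, sgl_conj hg.un]
      exact mul_mem ((hN.conj S hg).ew (e x a) (e y b)) ih) hz

end Pool.Agent.P.MP_f1a348_lc.CE
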