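import Pool.Agent.P.MP_f1a348_lc.CE.GLB

/-!
Project CE: extension of an additive function to all singular vectors.
-/

namespace Pool.Agent.P.MP_f1a348_lc.CE

open Matrix Module Pool.Agent.P.MP_f1a348_lc.PG Pool.Agent.P.MP_f1a348_lc.UP Glu

/-- used by TGLH and TENG -/
theorem TGL0.rm_small {p n : ℕ} [Fact p.Prime] {ℓ : Ix n → ℕ} {B : Sub p n} {W : VS p n}
    {b : Ix n} (h : Str ℓ B) {r k : ℕ} (hW : Small ℓ B r W) (hd : 2 * r + k ≤ db ℓ B b) :
    Rm ℓ B W b k := Glu.rm_small h hW hd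

theorem c_GL0 (p n : ℕ) [Fact p.Prime] (hC : C_CW p n) : C_GL0 p n := by
  intro ℓ B Q W r b f G hW nt hd hf
  classical
  have S := G.str
  have hf' : ∀ T x y, TS B Q W T → x ∈ T → y ∈ T → x ∈ Vb ℓ b → y ∈ Vb ℓ b → x ∉ W →
      y ∉ W ⊔ orb (Com B) x → f (x + y) = f x + f y := fun T x y h hx hy bx bY =>
    hf x y (h.sv hx bx) (h.sv hy bY) (h.orth hx hy)
  have step : ∀ y t t', SV ℓ Q W b y → SV ℓ Q (W ⊔ orb (Com B) y) b t → t ∉ W ⊔ orb (Com B) y →
      SV ℓ Q (W ⊔ orb (Com B) y ⊔ orb (Com B) t) b t' → t' ∉ W ⊔ orb (Com B) y ⊔ orb (Com B) t →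
      f t + f (y - t) = f t' + f (y - t') := fun y t t' hy ht nt ht' nt' => by
    have s1 := hW.1.sup (stab_orb y)
    obtain ⟨a1, a2⟩ := mem_perp_sup.1 ht.prp
    obtain ⟨a3, a4⟩ := mem_perp_sup.1 ht'.prp
    obtain ⟨a5, a6⟩ := mem_perp_sup.1 a3
    have T := ((ts_one G hW.1 hy).add G hW.1 ht.sing a1 a2).add G hW.1 ht'.sing a5
      (mem_perp_sup.2 ⟨a6, a4⟩)
    have my := mem_l (W' := orb (Com B) t') (mem_l (W' := orb (Com B) t) (self_mem_orb (B := B) y))
    have mt := mem_l (W' := orb (Com B) t') (mem_o (B := B) (W := orb (Com B) y) t)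
    have mt' := mem_o (B := B) (W := orb (Com B) y ⊔ orb (Com B) t) t'
    have bu := sub_mem ht'.mem ht.mem
    have n1 : t ∉ W ⊔ orb (Com B) y ⊔ orb (Com B) (t' - t) := fun e =>
      nt' (by simpa using add_mem (exchange S s1 bu e nt) (mem_o t))
    have n2 : t' - t ∉ W := fun e => nt' (by simpa using add_mem (mem_l (mem_l e)) (mem_o t))
    have e1 := hf' _ (t' - t) t T (sub_mem mt' mt) mt bu ht.mem n2
      fun e => n1 (mem_m le_sup_left e)
    have e2 := hf' _ (t' - t) (y - t') T (sub_mem mt' mt) (sub_mem my mt') bu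
      (sub_mem hy.mem ht'.mem) n2 fun e => n1 (by
        have := sub_mem (sub_mem (mem_l (mem_o y)) (mem_m le_sup_left e))
          (mem_o (W := W ⊔ orb (Com B) y) (t' - t))
        rwa [show y - (y - t') - (t' - t) = t by abel] at this)
    rw [sub_add_cancel] at e1
    rw [show t' - t + (y - t') = y - t by abel] at e2
    rw [e1, e2]; ring
  have ind : ∀ y t t', SV ℓ Q W b y → SV ℓ Q (W ⊔ orb (Com B) y) b t → t ∉ W ⊔ orb (Com B) y →
      SV ℓ Q (W ⊔ orb (Com B) y) b t' → t' ∉ W ⊔ orb (Com B) y →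
      f t + f (y - t) = f t' + f (y - t') := fun y t t' hy ht nt1 ht' nt' => by
    obtain ⟨u, hu, nu⟩ := gen hC G
      (small_add S (small_add S (small_add S hW hy.mem) ht.mem) ht'.mem) nt (by omega)
    have l2 : W ⊔ orb (Com B) y ⊔ orb (Com B) t' ≤ _ ⊔ orb (Com B) t ⊔ orb (Com B) t' :=
      sup_le_sup_right le_sup_left _
    rw [step y t u hy ht nt1 (hu.anti le_sup_left) fun e => nu (mem_l e),
      step y t' u hy ht' nt' (hu.anti l2) fun e => nu (l2 e)]
  have ex : ∀ y, ∃ c, SV ℓ Q W b y → ∀ t, SV ℓ Q (W ⊔ orb (Com B) y) b t →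
      t ∉ W ⊔ orb (Com B) y → c = f t + f (y - t) := fun y => by
    by_cases hy : SV ℓ Q W b y
    · obtain ⟨u, hu, nu⟩ := gen hC G (small_add S hW hy.mem) nt (by omega)
      exact ⟨_, fun _ t ht nt1 => ind y u t hy hu nu ht nt1⟩
    · exact ⟨0, fun h => (hy h).elim⟩
  choose f' hf0 using ex
  refine ⟨f', fun y hy ny => ?_, fun y y' hy hy' ho => ?_⟩
  · obtain ⟨u, hu, nu⟩ := gen hC G (small_add S hW hy.mem) nt (by omega)
    obtain ⟨a1, a2⟩ := mem_perp_sup.1 hu.prp
    have T := (ts_one G hW.1 hy).add G hW.1 hu.sing a1 a2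
    rw [hf0 y hy u hu nu, ← hf' _ u (y - u) T (mem_o u)
      (sub_mem (mem_l (self_mem_orb y)) (mem_o u)) hu.mem (sub_mem hy.mem hu.mem)
      (fun e => nu (mem_l e)) fun e => nu (exchange S hW.1 hu.mem
        (by simpa using add_mem e (mem_o u)) ny), add_sub_cancel]
  · have s2 := small_add S (small_add S hW hy.mem) hy'.mem
    obtain ⟨t, ht, nt1⟩ := gen hC G s2 nt (by omega)
    obtain ⟨t', ht', nt'⟩ := gen hC G (small_add S s2 ht.mem) nt (by omega)
    have l1 : W ⊔ orb (Com B) y' ≤ W ⊔ orb (Com B) y ⊔ orb (Com B) y' :=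
      sup_le_sup_right le_sup_left _
    have l2 : W ⊔ orb (Com B) (y + y') ≤ W ⊔ orb (Com B) y ⊔ orb (Com B) y' :=
      sup_orb_le s2.1 (le_sup_left.trans le_sup_left) (add_mem (mem_l (mem_o y)) (mem_o y'))
    have l3 : orb (Com B) y ⊔ orb (Com B) y' ≤ W ⊔ orb (Com B) y ⊔ orb (Com B) y' :=
      sup_le_sup_right le_sup_right _
    have l4 : W ≤ W ⊔ orb (Com B) y ⊔ orb (Com B) y' := le_sup_left.trans le_sup_left
    have T := (((ts_one G hW.1 hy).add G hW.1 hy'.sing hy'.prp ho).add G hW.1 ht.sing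
      (perp_anti l4 ht.prp) (perp_anti l3 ht.prp)).add G hW.1 ht'.sing
      (perp_anti (l4.trans le_sup_left) ht'.prp) (perp_anti (sup_le_sup_right l3 _) ht'.prp)
    have my := mem_l (W' := orb (Com B) t') (mem_l (W' := orb (Com B) t)
      (mem_l (W' := orb (Com B) y') (self_mem_orb (B := B) y)))
    have my' := mem_l (W' := orb (Com B) t') (mem_l (W' := orb (Com B) t)
      (mem_o (B := B) (W := orb (Com B) y) y'))
    have mt := mem_l (W' := orb (Com B) t') (mem_o (B := B) (W := orb (Com B) y ⊔ orb (Com B) y') t)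
    have mt' := mem_o (B := B) (W := orb (Com B) y ⊔ orb (Com B) y' ⊔ orb (Com B) t) t'
    have bt := add_mem ht.mem ht'.mem
    have e1 := hf' _ t t' T mt mt' ht.mem ht'.mem (fun e => nt1 (l4 e))
      fun e => nt' (mem_m l4 e)
    have e2 := hf' _ (y - t) (y' - t') T (sub_mem my mt) (sub_mem my' mt') (sub_mem hy.mem ht.mem)
      (sub_mem hy'.mem ht'.mem)
      (fun e => nt1 (by simpa using sub_mem (mem_l (W' := orb (Com B) y') (mem_o y)) (l4 e)))
      fun e => nt' (by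
        simpa using sub_mem (mem_l (mem_o y')) (sup_orb_le (s2.1.sup (stab_orb t))
          (l4.trans le_sup_left) (sub_mem (mem_l (mem_l (mem_o y))) (mem_o t)) e))
    rw [hf0 y hy t (ht.anti le_sup_left) fun e => nt1 (mem_l e),
      hf0 y' hy' t' (ht'.anti (l1.trans le_sup_left)) fun e => nt' (mem_l (l1 e)),
      hf0 (y + y') ⟨add_mem hy.mem hy'.mem, hy.sing.add G.adm hy'.sing ho, add_mem hy.prp hy'.prp⟩
        (t + t') ⟨bt, T.sing _ (add_mem mt mt'), add_mem (perp_anti l2 ht.prp)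
          (perp_anti (l2.trans le_sup_left) ht'.prp)⟩
        fun e => nt' (by simpa using sub_mem (mem_l (l2 e)) (mem_o t)),
      show y + y' - (t + t') = y - t + (y' - t') by abel, e1, e2]
    ring

end Pool.Agent.P.MP_f1a348_lc.CE
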