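import Pool.Agent.P.MP_f1a348_lc.UP.Defs
import Pool.Agent.P.MP_f1a348_lc.RN.KDefs

/-!
Project CE: the engine in every characteristic.  Definitions.
-/

namespace Pool.Agent.P.MP_f1a348_lc.CE

open Matrix Module Pool.Agent.P.MP_f1a348_lc.PG Pool.Agent.P.MP_f1a348_lc.UP

abbrev Fn (p n : ℕ) : Type := Vec p n → ZMod p
abbrev QS (p n : ℕ) : Type := Submodule (ZMod p) (Fn p n)

noncomputable section
variable {p n : ℕ}

/-! ### quadratic functions -/

/-- `C` is the polar form of `θ` -/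
def Pol (θ : Fn p n) (C : Mat p n) : Prop := ∀ x y, θ (x + y) = θ x + θ y + ip (C *ᵥ x) y

/-- admissible spaces of quadratic functions -/
structure Adm (ℓ : Ix n → ℕ) (B : Sub p n) (Q : QS p n) : Prop where
  pol : ∀ θ ∈ Q, ∃ C ∈ Com B, Pol θ C
  com : ∀ C ∈ Com B, (fun x => ip (C *ᵥ x) x) ∈ Q
  comp : ∀ θ ∈ Q, ∀ C ∈ Com B, (fun x => θ (C *ᵥ x)) ∈ Q
  inj : ∀ θ ∈ Q, ∀ b, ¬ Triv ℓ B b →
    (∀ x ∈ Vb ℓ b, ∀ y ∈ Vb ℓ b, θ (x + y) = θ x + θ y) → ∀ x ∈ Vb ℓ b, θ x = 0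

/-- the standing assumptions -/
structure Geo (ℓ : Ix n → ℕ) (B : Sub p n) (Q : QS p n) : Prop where
  str : Str ℓ B
  adm : Adm ℓ B Q

/-- the quadratic functions that are invariant under `Y` -/
def QY (B : Sub p n) (Y : Set (Mat p n)) : QS p n where
  carrier := {θ | (∃ C ∈ Com B, Pol θ C) ∧ ∀ y ∈ Y, ∀ x, θ (y *ᵥ x) = θ x}
  add_mem' := by
    rintro θ η ⟨⟨C, hC, a⟩, a'⟩ ⟨⟨D, hD, b⟩, b'⟩
    refine ⟨⟨C + D, add_mem hC hD, fun x y => ?_⟩, fun y hy x => ?_⟩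
    · simp only [Pi.add_apply, a x y, b x y, Matrix.add_mulVec, ip_add_left]; ring
    · simp only [Pi.add_apply, a' y hy x, b' y hy x]
  zero_mem' := ⟨⟨0, zero_mem _, fun x y => by simp⟩, fun _ _ _ => rfl⟩
  smul_mem' := by
    rintro c θ ⟨⟨C, hC, a⟩, a'⟩
    refine ⟨⟨c • C, Submodule.smul_mem _ c hC, fun x y => ?_⟩, fun y hy x => ?_⟩
    · simp only [Pi.smul_apply, smul_eq_mul, a x y, Matrix.smul_mulVec, ip_smul_left]; ring
    · simp only [Pi.smul_apply, a' y hy x]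

/-- singular vectors -/
def Sing (Q : QS p n) (x : Vec p n) : Prop := ∀ θ ∈ Q, θ x = 0

/-- the unitary elements that fix `Q` -/
def UQ (B : Sub p n) (Q : QS p n) (z : Mat p n) : Prop :=
  U1 B z ∧ ∀ θ ∈ Q, ∀ x, θ (z *ᵥ x) = θ x

/-- `g` fixes `W` pointwise -/
def Fx (W : VS p n) (g : Mat p n) : Prop := ∀ w ∈ W, g *ᵥ w = w

/-! ### elementary elements -/

def sgl (N : Mat p n) : Mat p n := 1 + N - st N

structure Sieg (B : Sub p n) (Q : QS p n) (N : Mat p n) : Prop where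
  mem : N ∈ B
  nn : N * N = 0
  sn : st N * N = 0
  ns : N * st N = 0
  im : ∀ x, Sing Q (N *ᵥ x)
  ims : ∀ x, Sing Q (st N *ᵥ x)

/-- the elementary group -/
def EU (B : Sub p n) (Q : QS p n) : Submonoid (Mat p n) :=
  Submonoid.closure {z | ∃ N, Sieg B Q N ∧ z = sgl N}

/-- operators of rank one with singular orthogonal ends -/
structure R1 (ℓ : Ix n → ℕ) (B : Sub p n) (Q : QS p n) (N : Mat p n) (x y : Vec p n) : Prop where
  mem : N ∈ B
  bx : ∃ a, x ∈ Vb ℓ a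
  by' : ∃ b, y ∈ Vb ℓ b
  sx : Sing Q x
  sy : Sing Q y
  orth : y ∈ perp (orb (Com B) x)
  im : ∀ v, N *ᵥ v ∈ orb (Com B) y
  ims : ∀ v, st N *ᵥ v ∈ orb (Com B) x

/-- the elementary group of the complement of `W` -/
def EW (ℓ : Ix n → ℕ) (B : Sub p n) (Q : QS p n) (W : VS p n) : Submonoid (Mat p n) :=
  Submonoid.closure {z | ∃ N x y, R1 ℓ B Q N x y ∧ x ∈ perp W ∧ y ∈ perp W ∧ z = sgl N}

/-- groups between the elementary group and the unitary group -/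
structure Btw (B : Sub p n) (Q : QS p n) (L : Set (Mat p n)) : Prop where
  grp : Grp L
  uq : ∀ z ∈ L, UQ B Q z
  eu : ∀ z ∈ EU B Q, z ∈ L

/-- there is room for `k` lines in the block of `b` -/
def Rm (ℓ : Ix n → ℕ) (B : Sub p n) (W : VS p n) (b : Ix n) (k : ℕ) : Prop :=
  finrank (ZMod p) (perp W ⊓ W ⊓ Vb ℓ b : VS p n) + k * eb ℓ B b ≤
    finrank (ZMod p) (perp W ⊓ Vb ℓ b : VS p n)

/-- a move from `u` to `u'` -/
structure Mv (ℓ : Ix n → ℕ) (B : Sub p n) (Q : QS p n) (W : VS p n) (b : Ix n) (u u' : Vec p n) :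
    Prop where
  mem : u' - u ∈ Vb ℓ b
  sing : Sing Q (u' - u)
  orth : u' - u ∈ perp (W ⊔ orb (Com B) u)
  ind : u' - u ∉ W ⊔ orb (Com B) u

/-! ### tuples -/

/-- the span of the first `k` vectors over the commutant -/
def spn (B : Sub p n) (k : ℕ) (x : Tup p n) : VS p n := ⨆ i < k, orb (Com B) (x i)

/-- the first `k` vectors lie in the blocks `a` and are independent modulo `W` -/
structure Ind (ℓ : Ix n → ℕ) (B : Sub p n) (W : VS p n) (k : ℕ) (a : ℕ → Ix n) (x : Tup p n) :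
    Prop where
  mem : ∀ i < k, x i ∈ Vb ℓ (a i)
  ind : ∀ C : ℕ → Mat p n, (∀ i, C i ∈ Com B) → ∑ i ∈ Finset.range k, C i *ᵥ x i ∈ W →
    ∀ i < k, C i * pr ℓ (a i) = 0

/-- generic tuples relative to `W` -/
structure GenW (ℓ : Ix n → ℕ) (B : Sub p n) (Q : QS p n) (W : VS p n) (k : ℕ) (a : ℕ → Ix n)
    (x : Tup p n) : Prop extends Ind ℓ B W k a x where
  sing : ∀ i < k, Sing Q (x i)
  prp : ∀ i < k, x i ∈ perp W
  orth : ∀ i < k, ∀ j < k, x j ∈ perp (orb (Com B) (x i))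

/-- `F` depends on the first `k` vectors and is additive in each place on generic tuples -/
structure MA (ℓ : Ix n → ℕ) (B : Sub p n) (Q : QS p n) (W : VS p n) (k : ℕ) (a : ℕ → Ix n)
    {M : Type} [AddCommGroup M] (F : Tup p n → M) : Prop where
  loc : ∀ x y, (∀ i < k, x i = y i) → F x = F y
  add : ∀ i < k, ∀ x, GenW ℓ B Q W (k + 1) (Function.update a k (a i)) x →
    F (Function.update x i (x i + x k)) = F x + F (Function.update x i (x k))

/-- the defect of additivity in place `i` -/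
def dfc {M : Type} [AddCommGroup M] (F : Tup p n → M) (k i : ℕ) (x : Tup p n) : M :=
  F (Function.update x i (x i + x k)) - F x - F (Function.update x i (x k))

/-- generic tuples with an extra vector that need not be orthogonal to the vector in place `i` -/
structure Zc (ℓ : Ix n → ℕ) (B : Sub p n) (Q : QS p n) (k : ℕ) (a : ℕ → Ix n) (i : ℕ)
    (x : Tup p n) : Prop where
  gen : GenW ℓ B Q ⊥ k a x
  gen' : GenW ℓ B Q ⊥ k a (Function.update x i (x k))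
  ind : Ind ℓ B ⊥ (k + 1) (Function.update a k (a i)) x
  sing : Sing Q (x i + x k)

/-- additivity also holds for pairs that are not orthogonal -/
def MZ (ℓ : Ix n → ℕ) (B : Sub p n) (Q : QS p n) (k : ℕ) (a : ℕ → Ix n)
    {M : Type} [AddCommGroup M] (F : Tup p n → M) : Prop :=
  ∀ i < k, ∀ x, Zc ℓ B Q k a i x → dfc F k i x = 0

/-- singular vectors in the block of `b` that are orthogonal to `W` -/
structure SV (ℓ : Ix n → ℕ) (Q : QS p n) (W : VS p n) (b : Ix n) (y : Vec p n) : Prop where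
  mem : y ∈ Vb ℓ b
  sing : Sing Q y
  prp : y ∈ perp W

/-- the vectors that look like `u` from `W` -/
structure Orb (ℓ : Ix n → ℕ) (Q : QS p n) (W : VS p n) (b : Ix n) (u v : Vec p n) : Prop where
  mem : v ∈ Vb ℓ b
  prp : v - u ∈ perp W
  val : ∀ θ ∈ Q, θ v = θ u
  out : v ∉ W

/-- iterated differences in the directions `y k, y (k + 1), ..` -/
def Dd {M : Type} [AddCommGroup M] (Φ : Vec p n → Tup p n → M) (k : ℕ) :
    ℕ → Vec p n → Tup p n → M
  | 0, u, y => Φ u y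
  | j + 1, u, y => Dd Φ k j (u + y (k + j)) y - Dd Φ k j u y

/-- the blocks `a`, continued by `b` -/
def ext (k : ℕ) (a : ℕ → Ix n) (b : Ix n) : ℕ → Ix n := fun i => if i < k then a i else b

/-- triples with the orthogonality conditions in `f` -/
structure OD (ℓ : Ix n → ℕ) (B : Sub p n) (a : Fin 3 → Ix n) (f : Fin 3 → Prop)
    (x : Fin 3 → Vec p n) : Prop where
  mem : ∀ j, x j ∈ Vb ℓ (a j)
  orth : ∀ k, f k → x (k + 2) ∈ perp (orb (Co ℓ B) (x (k + 1)))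

def AddOn (ℓ : Ix n → ℕ) (B : Sub p n) (a : Fin 3 → Ix n) (f : Fin 3 → Prop)
    (G : (Fin 3 → Vec p n) → ZMod p) : Prop :=
  ∀ j x v, OD ℓ B a f x → OD ℓ B a f (Function.update x j v) →
    G (Function.update x j (x j + v)) = G x + G (Function.update x j v)

/-- the blocks of a tuple as a box -/
def bx (k : ℕ) (a : ℕ → Ix n) : Fin 3 → Ix n := fun j => if j.val < k then a j.val else c0 n

/-- a tuple as a triple -/
def tx (k : ℕ) (x : Tup p n) : Fin 3 → Vec p n := fun j => if j.val < k then x j.val else e0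

/-! ### modules of bounded degree -/

/-- orthogonal supports -/
def Os (y z : Mat p n) : Prop := (y - 1) * (z - 1) = 0 ∧ (z - 1) * (y - 1) = 0

section
variable {M : Type} [AddCommGroup M] [Module (ZMod p) M]

/-- the product of the differences -/
def dif (ρ : Mat p n → Module.End (ZMod p) M) (l : List (Mat p n)) : Module.End (ZMod p) M :=
  (l.map fun y => ρ y - 1).prod

/-- left modules of degree at most `d` -/
structure LM (L : Set (Mat p n)) (d : ℕ) (ρ : Mat p n → Module.End (ZMod p) M) : Prop where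
  one : ρ 1 = 1
  mul : ∀ y ∈ L, ∀ z ∈ L, ρ (y * z) = ρ y * ρ z
  deg : ∀ l : List (Mat p n), l.length = d + 1 → (∀ y ∈ l, y ∈ L) → l.Pairwise Os → dif ρ l = 0

/-- non-zero equivariant additive functions on generic tuples -/
structure EA (ℓ : Ix n → ℕ) (B : Sub p n) (Q : QS p n) (L : Set (Mat p n))
    (ρ : Mat p n → Module.End (ZMod p) M) (W : VS p n) (k : ℕ) (a : ℕ → Ix n) (F : Tup p n → M) :
    Prop extends MA ℓ B Q W k a F where
  nt : ∀ i < k, ¬ Triv ℓ B (a i)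
  eqv : ∀ g ∈ L, Fx W g → ∀ x, GenW ℓ B Q W k a x → F (act g x) = ρ g (F x)
  ne : ∃ x, GenW ℓ B Q W k a x ∧ F x ≠ 0

/-- a function on the orbit of `u` -/
structure PH (ℓ : Ix n → ℕ) (B : Sub p n) (Q : QS p n) (L : Set (Mat p n))
    (ρ : Mat p n → Module.End (ZMod p) M) (W : VS p n) (b : Ix n) (u : Vec p n) (k : ℕ)
    (a : ℕ → Ix n) (Φ : Vec p n → Tup p n → M) : Prop where
  loc : ∀ v x y, (∀ i < k, x i = y i) → Φ v x = Φ v y
  ma : ∀ v, Orb ℓ Q W b u v → MA ℓ B Q (W ⊔ orb (Com B) v) k a (Φ v)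
  eqv : ∀ g ∈ L, Fx W g → ∀ v, Orb ℓ Q W b u v → ∀ x, GenW ℓ B Q (W ⊔ orb (Com B) v) k a x →
    Φ (g *ᵥ v) (act g x) = ρ g (Φ v x)
  ne : ∃ x, GenW ℓ B Q (W ⊔ orb (Com B) u) k a x ∧ Φ u x ≠ 0

/-- subgroups of an affine group; the values have degree at most `d` -/
structure KX (B : Sub p n) (d : ℕ) (σ : Mat p n → Module.End (ZMod p) M)
    (K : Mat p n → M → Prop) : Prop where
  act1 : σ 1 = 1
  act : ∀ y z, U1 B y → U1 B z → σ (y * z) = σ z * σ y
  mem : ∀ z w, K z w → U1 B z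
  one : K 1 0
  mul : ∀ z w y v, K z w → K y v → K (z * y) (σ y w + v)
  deg : ∀ l : List (Mat p n), l.length = d + 1 → (∀ y ∈ l, ∃ v, K y v) → l.Pairwise Os →
    ∀ z w, K z w → K 1 (dif σ l w)

/-- a non-zero equivariant map to a box modulo traces -/
structure EG0 (ℓ : Ix n → ℕ) (B : Sub p n) (σ : Mat p n → Module.End (ZMod p) M)
    (K : Mat p n → M → Prop) (k : ℕ) (a : ℕ → Ix n) (ψ : M →ₗ[ZMod p] Frm p n) : Prop where
  le : k ≤ 3
  nt : ∀ i < k, ¬ Triv ℓ B (a i)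
  mem : ∀ w, ψ w ∈ Wt ℓ (key ℓ (bx k a))
  ker : ∀ w, K 1 w → ψ w ∈ Tr ℓ B
  eqv : ∀ y v z w, K y v → K z w → ψ (σ z v) - pull1 z (ψ v) ∈ Tr ℓ B
  ne : ∃ z w, K z w ∧ ψ w ∉ Tr ℓ B

/-- the answer of the engine -/
structure EG (ℓ : Ix n → ℕ) (B : Sub p n) (σ : Mat p n → Module.End (ZMod p) M)
    (K : Mat p n → M → Prop) (k : ℕ) (a : ℕ → Ix n) (ψ : M →ₗ[ZMod p] Frm p n) : Prop
    extends EG0 ℓ B σ K k a ψ where
  one : k = 1 → ∃ θ : Fn p n, (∃ C ∈ Com B, Pol θ C) ∧ (∀ x, θ (pr ℓ (a 0) *ᵥ x) = θ x) ∧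
    ∀ z w, K z w → ∀ x ∈ Vb ℓ (a 0), ev (ψ w) ![x, e0, e0] = θ (z *ᵥ x) - θ x
  two : 2 ≤ k → ∃ θ ∈ Wt ℓ (key ℓ (bx k a)), ∀ z w, K z w → pull1 z θ - θ - ψ w ∈ Tr ℓ B

/-- a subgroup of an affine group over the parabolic group with Levi part in `B` -/
structure KP (ℓ : Ix n → ℕ) (B : Sub p n) (d : ℕ) (σ : Mat p n → Module.End (ZMod p) M)
    (K : Mat p n → M → Prop) : Prop where
  act1 : σ 1 = 1
  act : ∀ y z, Par ℓ y → gr ℓ y ∈ B → Par ℓ z → gr ℓ z ∈ B → σ (y * z) = σ z * σ y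
  deg : ∀ l : List (Mat p n), l.length = d + 1 → (∀ y ∈ l, U1 B y) → l.Pairwise Os → dif σ l = 0
  mem : ∀ z w, K z w → Par ℓ z ∧ gr ℓ z ∈ B
  one : K 1 0
  mul : ∀ z w y v, K z w → K y v → K (z * y) (σ y w + v)

end

/-- the action on matrices -/
def cjr (z : Mat p n) : Module.End (ZMod p) (Mat p n) := lr (st z) z

/-- the action on functions -/
def cmpf (z : Mat p n) : Module.End (ZMod p) (Fn p n) := LinearMap.funLeft _ _ fun x => z *ᵥ x

/-- forms that are invariant modulo traces are traces -/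
def LTY (ℓ : Ix n → ℕ) (B : Sub p n) (Y : Set (Mat p n)) : Prop :=
  ∀ a : Fin 3 → Ix n, (∀ j, ¬ Triv ℓ B (a j)) → ∀ θ ∈ Wt ℓ (key ℓ a),
    (∀ y ∈ Y, pull1 y θ - θ ∈ Tr ℓ B) → θ ∈ Tr ℓ B

/-- `Y` is a `p`-perfect group that spans `B` -/
structure Spans (B : Sub p n) (Y : Set (Mat p n)) : Prop where
  grp : Grp Y
  pp : PPs Y
  mem : ∀ y ∈ Y, U1 B y
  span : Submodule.span (ZMod p) Y = B

/-- triangular matrices whose entries are at distance at least `t` from the diagonal -/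
def Tf (ℓ : Ix n → ℕ) (t : ℕ) : Sub p n where
  carrier := {g | Tri ℓ g ∧ ∀ α β, g α β ≠ 0 → ℓ α + t ≤ ℓ β}
  add_mem' {a b} ha hb := ⟨ha.1.add hb.1, fun α β e => by
    by_cases h : a α β = 0
    · exact hb.2 α β fun h' => e (by rw [Matrix.add_apply, h, h', add_zero])
    · exact ha.2 α β h⟩
  zero_mem' := ⟨fun _ _ e => (e rfl).elim, fun _ _ e => (e rfl).elim⟩
  smul_mem' c a ha := ⟨ha.1.smul c, fun α β e => ha.2 α β fun h' => e (by
    rw [Matrix.smul_apply, h', smul_zero])⟩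

end

end Pool.Agent.P.MP_f1a348_lc.CE
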