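import Pool.Agent.P.MP_f1a348_lc.CE.Defs

/-!
Project CE: the statements of the tasks.
-/

namespace Pool.Agent.P.MP_f1a348_lc.CE

open Matrix Module Pool.Agent.P.MP_f1a348_lc.PG Pool.Agent.P.MP_f1a348_lc.UP

section
variable (p n : ℕ) [Fact p.Prime]

/-! ### geometry -/

def C_QP : Prop := ∀ (θ : Fn p n) (C : Mat p n), Pol θ C →
  ∃ (M : Mat p n) (v : Vec p n), ∀ x, θ x = ip (M *ᵥ x) x + ip v x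

def C_CW : Prop := ∀ ℓ (B : Sub p n) Q (W R : VS p n) r b, Geo ℓ B Q → Stab B W → Small ℓ B r R →
  ¬ Triv ℓ B b → Rm ℓ B W b (r + 3) → ∃ v, SV ℓ Q W b v ∧ v ∉ W ⊔ R

def C_HYP : Prop := ∀ ℓ (B : Sub p n) Q, Geo ℓ B Q →
  (∀ θ ∈ Q, ∀ P b, Pol θ P → ¬ Triv ℓ B b → pr ℓ b.rev * P * pr ℓ b = 0 → ∀ z ∈ Vb ℓ b, θ z = 0) ∧
  (∀ b, ¬ Triv ℓ B b → ∀ z ∈ Vb ℓ b, ∃ μ : Mat p n →ₗ[ZMod p] ZMod p,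
    ∀ θ ∈ Q, ∀ P, Pol θ P → μ (pr ℓ b.rev * P * pr ℓ b) = θ z) ∧
  (∀ b c, ∀ z ∈ Vb ℓ b, ∀ w ∈ Vb ℓ c, w ∉ perp (orb (Com B) z) → ∀ a,
    ∀ μ : Mat p n →ₗ[ZMod p] ZMod p, ∃ C ∈ Cb ℓ B a c,
      ∀ P ∈ Cb ℓ B a.rev b, ip (P *ᵥ z) (C *ᵥ w) = μ P) ∧
  ∀ b c, ¬ Triv ℓ B b → ∀ z ∈ Vb ℓ b, ∀ w ∈ Vb ℓ c, Sing Q w → w ∉ perp (orb (Com B) z) →
    ∃ C ∈ Cb ℓ B b c, Sing Q (z - C *ᵥ w)

def C_SOLV : Prop := ∀ ℓ (B : Sub p n) Q (W R : VS p n) r a b v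
  (μ : Mat p n →ₗ[ZMod p] ZMod p), Geo ℓ B Q → Stab B W → Small ℓ B r R → ¬ Triv ℓ B b →
  Rm ℓ B W b (r + 7) → v ∈ Vb ℓ a → v ∉ W →
  ∃ s, SV ℓ Q W b s ∧ s ∉ W ⊔ orb (Com B) v ⊔ R ∧ ∀ C ∈ Cb ℓ B b.rev a, ip (C *ᵥ v) s = μ C

def C_SP : Prop := ∀ ℓ (B : Sub p n) Q (W R : VS p n) r b y, Geo ℓ B Q → Stab B W →
  Small ℓ B r R → ¬ Triv ℓ B b → Rm ℓ B W b (r + 7) → y ∈ Vb ℓ b → y ∈ perp W →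
  (y ∉ W → ∃ s, SV ℓ Q W b s ∧ SV ℓ Q W b (y - s) ∧ s ∉ W ⊔ R ∧ y - s ∉ W ⊔ R) ∧
  (∃ s t u, y = s + t + u ∧ ∀ v ∈ [s, t, u], SV ℓ Q W b v ∧ v ∉ W ⊔ R) ∧
  ∀ (X : Type) [AddCommGroup X] (f : Vec p n → X),
    (∀ x ∈ Vb ℓ b, x ∈ perp W → ∀ z ∈ Vb ℓ b, z ∈ perp W → f (x + z) = f x + f z) →
    (∀ v, SV ℓ Q W b v → v ∉ W ⊔ R → f v = 0) → f y = 0

/-- hyperbolic pairs -/
def C_HP : Prop := ∀ ℓ (B : Sub p n) Q (W : VS p n) b y, Geo ℓ B Q → Stab B W → SV ℓ Q W b y →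
  y ∉ W → ∃ x π, SV ℓ Q W b.rev x ∧ x ∉ perp (orb (Com B) y) ∧ π ∈ B ∧ Iso π ∧ π *ᵥ y = y ∧
    st π *ᵥ x = x ∧ (∀ v, π *ᵥ v ∈ orb (Com B) y ∧ st π *ᵥ v ∈ orb (Com B) x) ∧
    (∀ v ∈ perp (orb (Com B) x), π *ᵥ v = 0) ∧ (∀ v ∈ perp (orb (Com B) y), st π *ᵥ v = 0) ∧
    ∀ w ∈ W, π *ᵥ w = 0 ∧ st π *ᵥ w = 0

def C_MV : Prop := ∀ ℓ (B : Sub p n) Q (W : VS p n) b u u', Geo ℓ B Q → Stab B W →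
  Rm ℓ B W b 9 → u ∈ Vb ℓ b → u ∉ W → Mv ℓ B Q W b u u' →
  u' ∉ W ∧ (∀ θ ∈ Q, θ u' = θ u) ∧
  ∃ N x, R1 ℓ B Q N x (u' - u) ∧ x ∈ perp W ∧ sgl N *ᵥ u = u'

def C_MV2 : Prop := ∀ ℓ (B : Sub p n) Q (W : VS p n) b u u', Geo ℓ B Q → Stab B W →
  ¬ Triv ℓ B b → Rm ℓ B W b 9 → u ∈ Vb ℓ b → u ∉ W → Orb ℓ Q W b u u' →
  Relation.ReflTransGen (fun x y => Orb ℓ Q W b u x ∧ Mv ℓ B Q W b x y) u u' ∧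
  ∃ e ∈ EW ℓ B Q W, e *ᵥ u = u'

def C_TRANS : Prop := ∀ ℓ (B : Sub p n) Q (W : VS p n) k a, Geo ℓ B Q → Stab B W →
  (∀ i < k, ¬ Triv ℓ B (a i) ∧ Rm ℓ B W (a i) (2 * k + 9)) → ∀ x y,
  (Ind ℓ B W k a x → Ind ℓ B W k a y → (∀ i < k, y i - x i ∈ perp W) →
    (∀ i < k, ∀ θ ∈ Q, θ (y i) = θ (x i)) →
    (∀ i < k, ∀ j < i, ∀ C ∈ Com B, ip (C *ᵥ y j) (y i) = ip (C *ᵥ x j) (x i)) →
    ∃ e ∈ EW ℓ B Q W, ∀ i < k, e *ᵥ x i = y i) ∧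
  (GenW ℓ B Q W k a x → GenW ℓ B Q W k a y → ∃ e ∈ EW ℓ B Q W, ∀ i < k, e *ᵥ x i = y i)

/-- generic tuples can be extended -/
def C_GEX : Prop := ∀ ℓ (B : Sub p n) Q (W R : VS p n) r s k, Geo ℓ B Q → Small ℓ B r W →
  Small ℓ B s R →
  (∀ a x b, GenW ℓ B Q W k a x → ¬ Triv ℓ B b → 2 * (r + s + k) + 3 ≤ db ℓ B b →
    ∃ v, GenW ℓ B Q W (k + 1) (Function.update a k b) (Function.update x k v) ∧ v ∈ perp R ∧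
      v ∉ W ⊔ spn B k x ⊔ R) ∧
  (∀ a, (∀ i < k, ¬ Triv ℓ B (a i) ∧ 2 * (r + k) + 3 ≤ db ℓ B (a i)) → ∃ x, GenW ℓ B Q W k a x) ∧
  ∀ a x j, j ≤ k → GenW ℓ B Q W j a x →
    (∀ i < k, ¬ Triv ℓ B (a i) ∧ 2 * (r + k) + 3 ≤ db ℓ B (a i)) →
    ∃ y, GenW ℓ B Q W k a y ∧ ∀ i < j, y i = x i

def C_TRU : Prop := ∀ ℓ (B : Sub p n) Q (W U : VS p n) s g, Geo ℓ B Q → Stab B W →
  Small ℓ B s U → (∀ b, ¬ Triv ℓ B b → Rm ℓ B W b (2 * s + 9)) → UQ B Q g → Fx W g →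
  ∃ e ∈ EW ℓ B Q W, Fx (W ⊔ U) (e * g)

def C_RK1 : Prop := ∀ ℓ (B : Sub p n) Q, Geo ℓ B Q → EU B Q ≤ EW ℓ B Q ⊥

def C_PERF : Prop := ∀ ℓ (B : Sub p n) Q, Geo ℓ B Q → Big ℓ B 20 →
  (∀ N x y, R1 ℓ B Q N x y → ∃ a ∈ EU B Q, ∃ b ∈ EU B Q,
    sgl N = a * b * st a * st b ∧ N = (a - 1) * (b - 1)) ∧
  EU B Q ≤ Submonoid.closure {z | ∃ a ∈ EU B Q, ∃ b ∈ EU B Q, z = a * b * st a * st b} ∧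
  PPs (EU B Q : Set (Mat p n))

def C_SPAN : Prop := ∀ ℓ (B : Sub p n) Q, Geo ℓ B Q → Big ℓ B 20 →
  B ≤ Submodule.span (ZMod p) (EU B Q : Set (Mat p n))

def C_GENR : Prop := ∀ ℓ (B : Sub p n) Q (U : VS p n) r, Geo ℓ B Q → Small ℓ B r U →
  Big ℓ B (2 * r + 9) → ∃ W, Stab B W ∧ U ≤ W ∧ Small ℓ B 10 (perp W) ∧
    ∀ y, UQ B Q y → Fx U y → ∃ e ∈ EW ℓ B Q U, Fx W (e * y) ∧ Small ℓ B 10 (im (e * y - 1))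

def C_ABEL : Prop := ∀ ℓ (B : Sub p n) Q, Geo ℓ B Q → Big ℓ B 40 →
  ∀ a b, UQ B Q a → UQ B Q b → a * b * st a * st b ∈ EU B Q

def C_HD : Prop := ∀ ℓ (B T : Sub p n) (W : VS p n) s, Str ℓ B → Small ℓ B s W → T ≤ B →
  (∀ b ∈ T, ∀ v, b *ᵥ v ∈ W) → finrank (ZMod p) T ≤ s * (2 * n + 1)

def C_IDX1 : Prop := ∀ ℓ (B : Sub p n) Q, Geo ℓ B Q → ∃ f : Mat p n → Vec p n,
  ∀ z z', U1 B z → U1 B z' → f z = f z' → UQ B Q (st z' * z)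

def C_IDX : Prop := ∀ ℓ (B : Sub p n) Q, Geo ℓ B Q → Big ℓ B 40 → ∃ R : Finset (Mat p n),
  R.card ≤ p ^ (11 * (2 * n + 1)) ∧ (∀ t ∈ R, U1 B t) ∧
  ∀ z, U1 B z → ∃ t ∈ R, st t * z ∈ EU B Q

def C_ADM : Prop := ∀ ℓ (B : Sub p n) (Y : Set (Mat p n)), Str ℓ B → (∀ y ∈ Y, U1 B y) →
  Submodule.span (ZMod p) Y = B → Geo ℓ B (QY B Y) ∧ (∀ y ∈ Y, UQ B (QY B Y) y) ∧
  (∀ z, U1 B z → (∀ y ∈ Y, z * y * st z ∈ Y) → UQ B (QY B Y) z) ∧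
  ∀ Q, Adm ℓ B Q → (∀ y ∈ Y, UQ B Q y) → Q ≤ QY B Y

def C_TR : Prop := ∀ ℓ (B : Sub p n) Q k a (w : Frm p n), Geo ℓ B Q → k ≤ 3 →
  (∀ i < k, ¬ Triv ℓ B (a i)) →
  (w ∈ Tr ℓ B → ∀ x, GenW ℓ B Q ⊥ k a x → ev w (tx k x) = 0) ∧
  (Big ℓ B 30 → w ∈ Wt ℓ (key ℓ (bx k a)) → (∀ x, GenW ℓ B Q ⊥ k a x → ev w (tx k x) = 0) →
    w ∈ Tr ℓ B) ∧
  (k ≤ 1 → w ∈ Wt ℓ (key ℓ (bx k a)) → w ∈ Tr ℓ B → w = 0) ∧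
  MA ℓ B Q ⊥ k a (fun x => ev w (tx k x)) ∧ (∀ i < k, ∀ x, dfc (fun x => ev w (tx k x)) k i x = 0) ∧
  ∀ z, U1 B z → ∀ x, ev (pull1 z w) (tx k x) = ev w (tx k (act z x))

/-! ### modules of bounded degree -/

def C_MOVE1 : Prop := ∀ ℓ (B : Sub p n) Q L d (M : Type) [AddCommGroup M] [Module (ZMod p) M]
  (ρ : Mat p n → Module.End (ZMod p) M) (W : VS p n) b u k a (F : Tup p n → M), Geo ℓ B Q →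
  Btw B Q L → LM L d ρ → Stab B W → ¬ Triv ℓ B b → Rm ℓ B W b 9 → u ∈ Vb ℓ b → u ∉ W →
  EA ℓ B Q L ρ (W ⊔ orb (Com B) u) k a F → ∃ Φ, PH ℓ B Q L ρ W b u k a Φ

def C_MOVE2 : Prop := ∀ ℓ (B : Sub p n) Q L d (M : Type) [AddCommGroup M] [Module (ZMod p) M]
  (ρ : Mat p n → Module.End (ZMod p) M) (W : VS p n) b u k a (Φ : Vec p n → Tup p n → M),
  Geo ℓ B Q → Btw B Q L → LM L d ρ → Stab B W → PH ℓ B Q L ρ W b u k a Φ →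
  (∀ j v x y, (∀ i < k + j, x i = y i) → Dd Φ k j v x = Dd Φ k j v y) ∧
  (∀ j v y t i, k ≤ i → i < k + j → Dd Φ k j v (Function.update y i (y i + t)) =
    Dd Φ k j (v + t) y + Dd Φ k j v (Function.update y i t)) ∧
  (∀ j v y, Orb ℓ Q W b u v → GenW ℓ B Q (W ⊔ orb (Com B) v) (k + j + 1) (ext k a b) y →
    Orb ℓ Q W b u (v + y (k + j)) ∧
    GenW ℓ B Q (W ⊔ orb (Com B) (v + y (k + j))) (k + j) (ext k a b) y) ∧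
  (∀ j, ∀ g ∈ L, Fx W g → ∀ v y, Orb ℓ Q W b u v →
    GenW ℓ B Q (W ⊔ orb (Com B) v) (k + j) (ext k a b) y →
    Dd Φ k j (g *ᵥ v) (act g y) = ρ g (Dd Φ k j v y)) ∧
  ∀ j v y, Orb ℓ Q W b u v → ∀ i < k, GenW ℓ B Q (W ⊔ orb (Com B) v) (k + j + 1)
      (Function.update (ext k a b) (k + j) (a i)) y →
    Dd Φ k j v (Function.update y i (y i + y (k + j))) =
      Dd Φ k j v y + Dd Φ k j v (Function.update y i (y (k + j)))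

def C_MOVE3 : Prop := ∀ ℓ (B : Sub p n) Q L d (M : Type) [AddCommGroup M] [Module (ZMod p) M]
  (ρ : Mat p n → Module.End (ZMod p) M) (W : VS p n) b u k a (Φ : Vec p n → Tup p n → M),
  Geo ℓ B Q → Big ℓ B 200 → Btw B Q L → LM L d ρ → d ≤ 3 → k ≤ 3 → Small ℓ B 30 W →
  ¬ Triv ℓ B b → PH ℓ B Q L ρ W b u k a Φ → ∀ v y, Orb ℓ Q W b u v →
  GenW ℓ B Q (W ⊔ orb (Com B) v) (k + (d + 1)) (ext k a b) y → Dd Φ k (d + 1) v y = 0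

def C_MOVE : Prop := ∀ ℓ (B : Sub p n) Q L d (M : Type) [AddCommGroup M] [Module (ZMod p) M]
  (ρ : Mat p n → Module.End (ZMod p) M) (W : VS p n) b u k a (F : Tup p n → M), Geo ℓ B Q →
  Big ℓ B 200 → Btw B Q L → LM L d ρ → d ≤ 3 → k ≤ 3 → Small ℓ B 30 W → ¬ Triv ℓ B b →
  u ∈ Vb ℓ b → u ∉ W → EA ℓ B Q L ρ (W ⊔ orb (Com B) u) k a F →
  ∃ j ≤ d, ∃ F', EA ℓ B Q L ρ W (k + j) (ext k a b) F'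

def C_BND : Prop := ∀ ℓ (B : Sub p n) Q L d (M : Type) [AddCommGroup M] [Module (ZMod p) M]
  (ρ : Mat p n → Module.End (ZMod p) M) (W : VS p n) k a (F : Tup p n → M), Geo ℓ B Q →
  Big ℓ B 200 → Btw B Q L → LM L d ρ → k ≤ 6 → Small ℓ B 30 W → EA ℓ B Q L ρ W k a F → k ≤ d

def C_EMB : Prop := ∀ ℓ (B : Sub p n) Q L d (M : Type) [AddCommGroup M] [Module (ZMod p) M]
  (ρ : Mat p n → Module.End (ZMod p) M), Geo ℓ B Q → Big ℓ B 200 → Btw B Q L → LM L d ρ → d ≤ 3 →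
  (∃ t : M, t ≠ 0) → ∃ k ≤ d, ∃ a F, EA ℓ B Q L ρ ⊥ k a F

def C_SHA0 : Prop := ∀ ℓ (B : Sub p n) Q (U : VS p n) k a (f : Tup p n → ZMod p), Geo ℓ B Q →
  Big ℓ B 200 → Small ℓ B 10 U → 1 ≤ k → k ≤ 3 → (∀ i < k, ¬ Triv ℓ B (a i)) →
  MA ℓ B Q ⊥ k a f → (∀ x y, GenW ℓ B Q U k a x → GenW ℓ B Q U k a y → f x = f y) →
  ∀ x, GenW ℓ B Q ⊥ k a x → (∀ i < k, x i ∈ perp U) → f x = 0

def C_SHAP : Prop := ∀ ℓ (B : Sub p n) Q L k a (c : Mat p n → Tup p n → ZMod p), Geo ℓ B Q →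
  Big ℓ B 200 → Btw B Q L → 1 ≤ k → k ≤ 3 → (∀ i < k, ¬ Triv ℓ B (a i)) →
  (∀ g ∈ L, MA ℓ B Q ⊥ k a (c g)) →
  (∀ g ∈ L, ∀ h ∈ L, ∀ x, GenW ℓ B Q ⊥ k a x → c (g * h) x = c g (act h x) + c h x) →
  ∃ θ : Tup p n → ZMod p, MA ℓ B Q ⊥ k a θ ∧
    ∀ g ∈ L, ∀ x, GenW ℓ B Q ⊥ k a x → c g x = θ (act g x) - θ x

/-! ### gluing -/

def C_GL0 : Prop := ∀ ℓ (B : Sub p n) Q (W : VS p n) r b (f : Fn p n), Geo ℓ B Q →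
  Small ℓ B r W → ¬ Triv ℓ B b → 2 * r + 30 ≤ db ℓ B b →
  (∀ y y', SV ℓ Q W b y → SV ℓ Q W b y' → y' ∈ perp (orb (Com B) y) → y ∉ W →
    y' ∉ W ⊔ orb (Com B) y → f (y + y') = f y + f y') →
  ∃ f' : Fn p n, (∀ y, SV ℓ Q W b y → y ∉ W → f' y = f y) ∧
    ∀ y y', SV ℓ Q W b y → SV ℓ Q W b y' → y' ∈ perp (orb (Com B) y) → f' (y + y') = f' y + f' y'

def C_GLH : Prop := ∀ ℓ (B : Sub p n) Q (W : VS p n) r b (f : Fn p n) u u', Geo ℓ B Q →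
  Small ℓ B r W → ¬ Triv ℓ B b → 2 * r + 30 ≤ db ℓ B b →
  (∀ y y', SV ℓ Q W b y → SV ℓ Q W b y' → y' ∈ perp (orb (Com B) y) → f (y + y') = f y + f y') →
  SV ℓ Q W b u → SV ℓ Q W b.rev u' → u' ∉ perp (orb (Com B) u) →
  ∃ (F : Fn p n), ∃ C ∈ Cb ℓ B b.rev b,
    (∀ v ∈ Vb ℓ b, v ∈ perp (W ⊔ orb (Com B) u ⊔ orb (Com B) u') →
      ∀ v' ∈ Vb ℓ b, v' ∈ perp (W ⊔ orb (Com B) u ⊔ orb (Com B) u') →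
        F (v + v') = F v + F v' + ip (C *ᵥ v) v') ∧
    ∀ v, SV ℓ Q (W ⊔ orb (Com B) u ⊔ orb (Com B) u') b v → F v = f v

def C_GL1 : Prop := ∀ ℓ (B : Sub p n) Q (W : VS p n) r b (f : Fn p n), Geo ℓ B Q →
  Small ℓ B r W → ¬ Triv ℓ B b → 2 * r + 30 ≤ db ℓ B b →
  (∀ y y', SV ℓ Q W b y → SV ℓ Q W b y' → y' ∈ perp (orb (Com B) y) → y ∉ W →
    y' ∉ W ⊔ orb (Com B) y → f (y + y') = f y + f y') →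
  ∃ (θ : Fn p n), ∃ C ∈ Cb ℓ B b.rev b,
    (∀ x ∈ Vb ℓ b, x ∈ perp W → ∀ y ∈ Vb ℓ b, y ∈ perp W →
      θ (x + y) = θ x + θ y + ip (C *ᵥ x) y) ∧
    ∀ y, SV ℓ Q W b y → y ∉ W → θ y = f y

def C_GLZ : Prop := ∀ ℓ (B : Sub p n) Q (W : VS p n) r b (f : Fn p n), Geo ℓ B Q →
  Small ℓ B r W → ¬ Triv ℓ B b → 2 * r + 30 ≤ db ℓ B b →
  (∀ y y', SV ℓ Q W b y → SV ℓ Q W b y' → Sing Q (y + y') → y ∉ W →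
    y' ∉ W ⊔ orb (Com B) y → f (y + y') = f y + f y') →
  ∃ v, ∀ y, SV ℓ Q W b y → y ∉ W → f y = ip v y

def C_PLR : Prop := ∀ ℓ (B : Sub p n) (W W' : VS p n) r s a c (t : Vec p n → Vec p n), Str ℓ B →
  Small ℓ B r W → Small ℓ B s W' → r + s + 4 < db ℓ B a → (∀ x, t x ∈ Vb ℓ c) →
  (∀ x ∈ Vb ℓ a, x ∈ perp W → x ∉ W' → ∀ x' ∈ Vb ℓ a, x' ∈ perp W → x' ∉ W' ⊔ orb (Com B) x →
    t (x + x') - t x - t x' ∈ W' ⊔ orb (Com B) x ⊔ orb (Com B) x') →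
  ∃ θ : Vec p n →ₗ[ZMod p] Vec p n,
    ∀ x ∈ Vb ℓ a, x ∈ perp W → x ∉ W' → θ x - t x ∈ W' ⊔ orb (Com B) x

def C_GL2 : Prop := ∀ ℓ (B : Sub p n) (W W' : VS p n) a c (G : Vec p n → Vec p n → ZMod p),
  Str ℓ B → Small ℓ B 1 W → Small ℓ B 1 W' → 10 ≤ db ℓ B a →
  (∀ y ∈ Vb ℓ a, y ∈ perp W → ∀ z ∈ Vb ℓ c, z ∈ perp W' → z ∈ perp (orb (Com B) y) →
    (∀ y' ∈ Vb ℓ a, y' ∈ perp W → z ∈ perp (orb (Com B) y') → G (y + y') z = G y z + G y' z) ∧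
    ∀ z' ∈ Vb ℓ c, z' ∈ perp W' → z' ∈ perp (orb (Com B) y) → G y (z + z') = G y z + G y z') →
  ∃ β : Vec p n →ₗ[ZMod p] Vec p n →ₗ[ZMod p] ZMod p,
    ∀ y ∈ Vb ℓ a, y ∈ perp W → ∀ z ∈ Vb ℓ c, z ∈ perp W' → z ∈ perp (orb (Com B) y) →
      G y z = β y z

def C_SPL : Prop := ∀ (V E : Type) [AddCommGroup V] [Module (ZMod p) V] [AddCommGroup E]
  [Module (ZMod p) E] (C : V → V → E), (∀ u v, C u v = C v u) →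
  (∀ u v w, C u v + C (u + v) w = C v w + C u (v + w)) →
  (∀ u, ∑ i ∈ Finset.range p, C u (i • u) = 0) →
  ∃ γ : V → E, ∀ u v, γ (u + v) = γ u + γ v + C u v

def C_DROP : Prop := ∀ ℓ (B : Sub p n) a (f : Fin 3 → Prop) m (G : (Fin 3 → Vec p n) → ZMod p),
  Str ℓ B → Big ℓ B 30 → AddOn ℓ B a f G →
  ∃ G', AddOn ℓ B a (fun k => f k ∧ k ≠ m) G' ∧ ∀ x, OD ℓ B a f x → G' x = G x

def C_GLA : Prop := ∀ ℓ (B : Sub p n) Q k a (f : Tup p n → ZMod p), Geo ℓ B Q → Big ℓ B 200 →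
  k ≤ 3 → (∀ i < k, ¬ Triv ℓ B (a i)) → MA ℓ B Q ⊥ k a f → MZ ℓ B Q k a f →
  ∃ G, AddOn ℓ B (bx k a) (fun _ => True) G ∧ ∀ x, GenW ℓ B Q ⊥ k a x → G (tx k x) = f x

def C_GL3 : Prop := ∀ ℓ (B : Sub p n) Q k a (f : Tup p n → ZMod p), Geo ℓ B Q → Big ℓ B 200 →
  k ≤ 3 → (∀ i < k, ¬ Triv ℓ B (a i)) → MA ℓ B Q ⊥ k a f → MZ ℓ B Q k a f →
  ∃ w ∈ Wt ℓ (key ℓ (bx k a)), ∀ x, GenW ℓ B Q ⊥ k a x → ev w (tx k x) = f x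

def C_DEF : Prop := ∀ ℓ (B : Sub p n) Q L (M : Type) [AddCommGroup M] [Module (ZMod p) M]
  (ρ : Mat p n → Module.End (ZMod p) M) k a (F : Tup p n → M), Geo ℓ B Q → Big ℓ B 200 →
  Btw B Q L → k ≤ 2 → (∀ i < k + 1, ¬ Triv ℓ B (a i)) → MA ℓ B Q ⊥ (k + 1) a F →
  (∀ g ∈ L, ∀ i < k + 1, ∀ x, Zc ℓ B Q (k + 1) a i x →
    dfc F (k + 1) i (act g x) = ρ g (dfc F (k + 1) i x)) →
  MZ ℓ B Q (k + 1) a F ∨ ∃ a' F', EA ℓ B Q L ρ ⊥ k a' F'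

/-! ### the engine -/

def C_KX : Prop := ∀ ℓ (B : Sub p n) d (M : Type) [AddCommGroup M] [Module (ZMod p) M]
  (σ : Mat p n → Module.End (ZMod p) M) (K : Mat p n → M → Prop), Str ℓ B → KX B d σ K →
  Grp {z | ∃ w, K z w} ∧ (∃ S : Submodule (ZMod p) M, ∀ w, w ∈ S ↔ K 1 w) ∧
  (∀ z w v, K z w → (K z v ↔ K 1 (v - w))) ∧ ∀ z w v, K z w → K 1 v → K 1 (σ z v)

def C_ENG1 : Prop := ∀ ℓ (B : Sub p n) Q d (M : Type) [AddCommGroup M] [Module (ZMod p) M]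
  [Finite M] (σ : Mat p n → Module.End (ZMod p) M) (K : Mat p n → M → Prop), Geo ℓ B Q →
  Big ℓ B 200 → d ≤ 3 → KX B d σ K → (∀ z w, K z w → UQ B Q z) → (∀ z ∈ EU B Q, ∃ w, K z w) →
  ¬ (∀ z w, K z w → K 1 w) → ∃ k ≤ d, ∃ a ψ, EG0 ℓ B σ K k a ψ

def C_ENG : Prop := ∀ ℓ (B : Sub p n) Q d (M : Type) [AddCommGroup M] [Module (ZMod p) M]
  (σ : Mat p n → Module.End (ZMod p) M) (K : Mat p n → M → Prop) k a ψ, Geo ℓ B Q →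
  Big ℓ B 200 → KX B d σ K → (∀ z w, K z w → UQ B Q z) → (∀ z ∈ EU B Q, ∃ w, K z w) →
  EG0 ℓ B σ K k a ψ → EG ℓ B σ K k a ψ

def C_DEG : Prop := ∀ l : List (Mat p n), l.Pairwise Os →
  (l.length = 4 → dif (fun z => (pull1 z : Module.End (ZMod p) (Frm p n))) l = 0) ∧
  (l.length = 3 → (∀ ℓ (B : Sub p n) (a : Fin 3 → Ix n), Str ℓ B → (∃ j, Triv ℓ B (a j)) →
      (∀ y ∈ l, U1 B y) → ∀ w ∈ Wt ℓ (key ℓ a),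
        dif (fun z => (pull1 z : Module.End (ZMod p) (Frm p n))) l w = 0) ∧
    dif cjr l = 0 ∧ ∀ (θ : Fn p n) C, Pol θ C → dif cmpf l θ = 0)

def C_LIF : Prop := ∀ ℓ (B : Sub p n) d (M : Type) [AddCommGroup M] [Module (ZMod p) M]
  [Finite M] (σ : Mat p n → Module.End (ZMod p) M) (K : Mat p n → M → Prop) Y, Str ℓ B →
  Big ℓ B 200 → d ≤ 3 → KX B d σ K → Spans B Y → (∀ y ∈ Y, K y 0) →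
  (∀ z ∈ EU B (QY B Y), ∃ w, K z w) → (d = 3 → LTY ℓ B Y) → ∀ z ∈ EU B (QY B Y), K z 0

def C_NIL : Prop := ∀ ℓ (M : Type) [AddCommGroup M] [Module (ZMod p) M] [Finite M]
  (σ : Mat p n → Module.End (ZMod p) M) (Z : Submodule (ZMod p) M), Lab ℓ → σ 1 = 1 →
  (∀ y z, Par ℓ y → gr ℓ y = 1 → Par ℓ z → gr ℓ z = 1 → σ (y * z) = σ z * σ y) →
  (∀ y, Par ℓ y → gr ℓ y = 1 → ∀ w ∈ Z, σ y w ∈ Z) → Z ≠ ⊤ →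
  ∃ w, w ∉ Z ∧ ∀ y, Par ℓ y → gr ℓ y = 1 → σ y w - w ∈ Z

def C_LIFT : Prop := ∀ ℓ (B : Sub p n) d (M : Type) [AddCommGroup M] [Module (ZMod p) M]
  [Finite M] (σ : Mat p n → Module.End (ZMod p) M) (K : Mat p n → M → Prop) (Y : Set (Mat p n)),
  Str ℓ B → Big ℓ B 200 → d ≤ 3 → KP ℓ B d σ K → Spans B (gr ℓ '' Y) → (∀ y ∈ Y, K y 0) →
  (∀ z ∈ EU B (QY B (gr ℓ '' Y)), ∃ y w, K y w ∧ gr ℓ y = z) → (d = 3 → LTY ℓ B (gr ℓ '' Y)) →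
  ∀ z ∈ EU B (QY B (gr ℓ '' Y)), ∃ y, K y 0 ∧ gr ℓ y = z

def C_TA : Prop := ∀ ℓ (B A : Sub p n) (Y : Set (Mat p n)), Str ℓ B → Big ℓ B 200 →
  (1 : Mat p n) ∈ A → (∀ x ∈ A, ∀ y ∈ A, x * y ∈ A) → (∀ x ∈ A, Tri ℓ x) →
  (∀ y ∈ Y, y ∈ A ∧ Par ℓ y) → Spans B (gr ℓ '' Y) →
  ∀ z ∈ EU B (QY B (gr ℓ '' Y)), ∃ y ∈ A, Par ℓ y ∧ gr ℓ y = z

def C_TFT : Prop := ∀ ℓ (B : Sub p n) (Y : Set (Mat p n)), Str ℓ B → Big ℓ B 200 → Grp Y → PPs Y →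
  (∀ y ∈ Y, Par ℓ y) → Submodule.span (ZMod p) (gr ℓ '' Y) = B →
  ∀ z ∈ EU B (QY B (gr ℓ '' Y)),
    ∃ u, UQ (Submodule.span (ZMod p) Y) (QY (Submodule.span (ZMod p) Y) Y) u ∧ gr ℓ u = z

def C_TF3 : Prop := ∀ ℓ (f : GG p n) (Y : Set (Mat p n)), Grp Y → PPs Y →
  (∀ y ∈ Y, Par (l0 n) y) → TriR (Submodule.span (ZMod p) Y) f ℓ →
  Str ℓ (gB (Submodule.span (ZMod p) Y) f ℓ) → Big ℓ (gB (Submodule.span (ZMod p) Y) f ℓ) 200 →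
  ∀ z ∈ EU (gB (Submodule.span (ZMod p) Y) f ℓ)
      (QY (gB (Submodule.span (ZMod p) Y) f ℓ) ((fun y => gr ℓ (fr f y)) '' Y)),
    ∃ u, UQ (Submodule.span (ZMod p) Y) (QY (Submodule.span (ZMod p) Y) Y) u ∧ gr ℓ (fr f u) = z

def C_TFULL : Prop := ∀ ℓ ℓ' (B Bt B' : Sub p n) Q (Y : Set (Mat p n)), Set0 ℓ B Bt ℓ' B' →
  Big ℓ B 200 → Big ℓ' B' 200 → Adm ℓ B Q → Grp Y → PPs Y → (∀ y ∈ Y, UQ B Q y ∧ y ∈ Bt) →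
  Submodule.span (ZMod p) (gr ℓ' '' Y) = B' →
  ∀ z ∈ EU B' (QY B' (gr ℓ' '' Y)), ∃ y ∈ EU B Q, y ∈ Bt ∧ gr ℓ' y = z

def C_ENGA : Prop := ∀ ℓ (B : Sub p n) Q L, Geo ℓ B Q → Big ℓ B 200 → Btw B Q L →
  CU.RN.Eng ℓ B L

def C_LIFK : Prop := ∀ ℓ (B : Sub p n) L (a : Fin 3 → Ix n) (K : Rel p n) Y, Str ℓ B →
  Big ℓ B 200 → (∀ z ∈ L, U1 B z) → CU.RN.KL ℓ L (key ℓ a) K → Spans B Y → (∀ y ∈ Y, K y 0) →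
  (∀ z ∈ EU B (QY B Y), z ∈ L) → ((∀ j, ¬ Triv ℓ B (a j)) → LTY ℓ B Y) →
  ∀ z ∈ EU B (QY B Y), K z 0

end

end Pool.Agent.P.MP_f1a348_lc.CE
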