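import Pool.Agent.P.MP_f1a348_lc.CE.Base2

/-! The degree bounds the number of differences and the number of places. -/

namespace Pool.Agent.P.MP_f1a348_lc.CE

open Matrix Module Pool.Agent.P.MP_f1a348_lc.PG Pool.Agent.P.MP_f1a348_lc.UP Function

namespace TBND

set_option linter.unusedSectionVars false

variable {p n : ℕ} [Fact p.Prime] {ℓ : Ix n → ℕ} {B : Sub p n} {Q : QS p n} {L : Set (Mat p n)}
  {d k : ℕ} {M : Type} [AddCommGroup M] [Module (ZMod p) M] {ρ : Mat p n → Module.End (ZMod p) M}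
  {W : VS p n} {a : ℕ → Ix n} {u : Vec p n} {z : Tup p n}

theorem dif_cons (y : Mat p n) (l : List (Mat p n)) : dif ρ (y :: l) = (ρ y - 1) * dif ρ l := by
  simp [dif]

theorem dif_long (m : LM L d ρ) {l : List (Mat p n)} (h1 : d + 1 ≤ l.length) (h2 : ∀ y ∈ l, y ∈ L)
    (h3 : l.Pairwise Os) : dif ρ l = 0 := by
  have e : dif ρ l = dif ρ (l.take (d + 1)) * dif ρ (l.drop (d + 1)) := by
    rw [dif, dif, dif, ← List.prod_append, ← List.map_append, List.take_append_drop]
  rw [e, m.deg _ (List.length_take_of_le h1) (fun y hy => h2 y (List.mem_of_mem_take hy))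
    (h3.sublist (List.take_sublist _ _)), zero_mul]

/-- a new first vector -/
def cns (u : Vec p n) (z : Tup p n) : Tup p n := fun i => Nat.casesOn i u z

theorem gen_cns (G : Geo ℓ B Q) (hW : Stab B W) (hu : SV ℓ Q W (a 0) u) (hn : u ∉ W)
    (H : GenW ℓ B Q (W ⊔ orb (Com B) u) k (fun i => a (i + 1)) z) :
    GenW ℓ B Q W (k + 1) a (cns u z) := by
  have hp : ∀ i < k, z i ∈ perp (orb (Com B) u) := fun i hi => (mem_perp_sup.1 (H.prp i hi)).2
  refine ⟨ind_of_lt G.str hW fun i hi => ?_, fun i hi => ?_, fun i hi => ?_, fun i hi j hj => ?_⟩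
  · cases i with
    | zero => exact ⟨hu.mem, by rwa [spn_zero, sup_bot_eq]⟩
    | succ i =>
      refine ⟨H.mem i (by omega), fun e => H.toInd.not_mem_lt (i := i) (by omega)
        ((sup_le (le_sup_left.trans le_sup_left)
          (spn_le ((hW.sup (stab_orb u)).sup stab_spn) fun j hj => ?_)) e)⟩
      cases j with
      | zero => exact Submodule.mem_sup_left (Submodule.mem_sup_right (self_mem_orb u))
      | succ j => exact Submodule.mem_sup_right (mem_spn (by omega))
  · cases i with
    | zero => exact hu.sing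
    | succ i => exact H.sing i (by omega)
  · cases i with
    | zero => exact hu.prp
    | succ i => exact (mem_perp_sup.1 (H.prp i (by omega))).1
  · cases i with
    | zero =>
      cases j with
      | zero => exact hu.sing.isot G.adm
      | succ j => exact hp j (by omega)
    | succ i =>
      cases j with
      | zero => exact perp_orb_symm G.str.alg (hp i (by omega))
      | succ j => exact H.orth i (by omega) j (by omega)

theorem chain (hMV : C_MV p n) (hGEX : C_GEX p n) (G : Geo ℓ B Q) (hb : Big ℓ B 200)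
    (hL : Btw B Q L) (j : ℕ) : ∀ (r : ℕ) (W : VS p n) (a : ℕ → Ix n) (F : Tup p n → M),
    Small ℓ B r W → r + 3 * j ≤ 48 → (∀ i < j, ¬ Triv ℓ B (a i)) → MA ℓ B Q W j a F →
    (∀ g ∈ L, Fx W g → ∀ x, GenW ℓ B Q W j a x → F (act g x) = ρ g (F x)) →
    ∃ l : List (Mat p n), l.length = j ∧ (∀ g ∈ l, g ∈ L ∧ Fx W g) ∧ l.Pairwise Os ∧
      ∃ y y2, GenW ℓ B Q W j a y2 ∧ dif ρ l (F y) = F y2 := by
  have h := G.str
  induction j with
  | zero =>
    intro r W a F _ _ _ _ _
    exact ⟨[], rfl, fun _ e => (by cases e), List.Pairwise.nil, 0, 0, genW_zero, rfl⟩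
  | succ j ih =>
    intro r W a F sW hr nt ma eqv
    have t := nt 0 j.succ_pos
    have d0 := hb _ t
    obtain ⟨x, hx⟩ := (hGEX ℓ B Q W ⊥ r 0 2 G sW small_bot).2.1 (fun _ => a 0)
      fun _ _ => ⟨t, by omega⟩
    have su : SV ℓ Q W (a 0) (x 0) := hx.sv (i := 0) (by omega)
    have nu : x 0 ∉ W := hx.toInd.out (i := 0) (by omega)
    obtain ⟨ss, ns⟩ := hx.last
    rw [spn_succ, spn_zero, bot_sup_eq] at ss ns
    generalize x 0 = u at su nu ss ns
    generalize x 1 = s at ss ns
    have e0 : u + s - u = s := add_sub_cancel_left u s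
    obtain ⟨_, _, N, w, hN, pw, eg⟩ := hMV ℓ B Q W (a 0) u (u + s) G sW.1
      (rm_of_small h sW (by omega)) su.mem nu
      ⟨e0.symm ▸ ss.mem, e0.symm ▸ ss.sing, e0.symm ▸ ss.prp, e0.symm ▸ ns⟩
    rw [e0] at hN
    obtain ⟨c, hc⟩ := hN.bx
    have s1 := sW.sup h.alg (small_orb h su.mem)
    have s2 := s1.sup h.alg (small_orb h ss.mem)
    have s3 := s2.sup h.alg (small_orb h hc)
    have l1 : W ⊔ orb (Com B) u ≤ W ⊔ orb (Com B) u ⊔ orb (Com B) s ⊔ orb (Com B) w :=
      le_sup_left.trans le_sup_left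
    have l2 : orb (Com B) w ⊔ orb (Com B) s ≤ W ⊔ orb (Com B) u ⊔ orb (Com B) s ⊔ orb (Com B) w :=
      sup_le le_sup_right (le_sup_right.trans le_sup_left)
    obtain ⟨l, a1, a2, a3, y, y2, a4, a5⟩ := ih _ _ (fun i => a (i + 1)) (fun z => F (cns u z)) s3
      (by omega) (fun i hi => nt (i + 1) (by omega))
      ⟨fun x y e => ma.loc _ _ fun i hi => by
          cases i with
          | zero => rfl
          | succ i => exact e i (by omega),
        fun i hi z hz => by
          have e : ∀ v, cns u (update z i v) = update (cns u z) (i + 1) v := fun v => by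
            funext t
            cases t with
            | zero => rfl
            | succ t => simp only [cns, update_apply, Nat.add_right_cancel_iff]
          simp only [e]
          exact ma.add (i + 1) (by omega) (cns u z)
            (gen_cns (a := update a (j + 1) (a (i + 1))) G sW.1 su nu ((hz.anti l1).congr
              (fun t _ => by simp only [update_apply, Nat.add_right_cancel_iff]) fun _ _ => rfl))⟩
      (fun g hg f z hz => by
        rw [← eqv g hg (f.anti (le_sup_left.trans l1)) _ (gen_cns G sW.1 su nu (hz.anti l1))]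
        refine ma.loc _ _ fun i _ => ?_
        cases i with
        | zero => exact (f u (l1 (Submodule.mem_sup_right (self_mem_orb u)))).symm
        | succ i => rfl)
    have gL := hL.eu _ (hN.sieg G).eu
    have fg := hN.fx h.alg sW.1 pw (mem_perp_sup.1 ss.prp).1
    have py : ∀ i < j, y2 i ∈ perp (orb (Com B) w ⊔ orb (Com B) s) := fun i hi =>
      perp_anti l2 (a4.prp i hi)
    have gX : GenW ℓ B Q W (j + 1 + 1) (update a (j + 1) (a 0)) (cns u (update y2 j s)) :=
      gen_cns (a := update a (j + 1) (a 0)) G sW.1 su nu (((a4.anti l1).snoc G s1.1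
        ⟨ss.mem, ss.sing, mem_perp_sup.2 ⟨ss.prp, mem_perp_spn.2 fun i hi =>
          perp_orb_symm h.alg (mem_perp_sup.1 (py i hi)).2⟩⟩
        ((a4.toInd.anti le_sup_left).rel h s1.1 ns)).congr
        (fun t _ => by simp only [update_apply, Nat.add_right_cancel_iff]) fun _ _ => rfl)
    have ad := ma.add 0 j.succ_pos _ gX
    refine ⟨sgl N :: l, by rw [List.length_cons, a1], fun g hg => ?_,
      List.pairwise_cons.2 ⟨fun g hg => (os_of_fx' (hL.grp.un g (a2 g hg).1) (hL.grp.un _ gL)
        ((a2 g hg).2.anti (hN.im_le.trans l2))).symm, a3⟩, cns u y, _,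
      (gX.three G sW.1 j.succ_pos).2.1, ?_⟩
    · rcases List.mem_cons.1 hg with rfl | hg
      exacts [⟨gL, fg⟩, ⟨(a2 g hg).1, (a2 g hg).2.anti (le_sup_left.trans l1)⟩]
    · rw [dif_cons, Module.End.mul_apply, a5, LinearMap.sub_apply, Module.End.one_apply,
        ← eqv _ gL fg _ (gen_cns G sW.1 su nu (a4.anti l1)), sub_eq_iff_eq_add',
        ma.loc (cns u y2) (cns u (update y2 j s)) fun i hi => by
          cases i with
          | zero => rfl
          | succ i => exact (update_of_ne (show i ≠ j by omega) s y2).symm, ← ad]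
      refine ma.loc _ _ fun i hi => ?_
      cases i with
      | zero => exact eg.trans (by simp [cns])
      | succ i =>
        rw [update_of_ne (by omega)]
        change sgl N *ᵥ y2 i = update y2 j s i
        rw [update_of_ne (by omega)]
        exact hN.fx' _ (py i (by omega))

end TBND

open TBND

theorem c_MOVE3 (p n : ℕ) [Fact p.Prime] (hMOVE2 : C_MOVE2 p n) (hSOLV : C_SOLV p n) :
    C_MOVE3 p n := by
  intro ℓ B Q L d M _ _ ρ W b u k a Φ G hb hL m hd hk sW t ph v y o g
  have h := G.str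
  obtain ⟨m1, _, _, m4, _⟩ := hMOVE2 ℓ B Q L d M ρ W b u k a Φ G hL m sW.1 ph
  have s2 := sW.sup h.alg (g.toInd.small h)
  have t' : ¬ Triv ℓ B b.rev := fun c => t ((triv_rev h).1 c)
  have d0 := hb _ t'
  obtain ⟨x, sx, _, ex⟩ := hSOLV ℓ B Q _ ⊥ 0 b b.rev v (Matrix.entryLinearMap _ _ b b) G s2.1
    small_bot t' (rm_of_small h s2 (by omega)) o.mem (g.toInd.rel h sW.1 o.out)
  have nv : v ∉ perp (orb (Com B) x) := fun c => by
    have e := ex (pr ℓ b) (by rw [Fin.rev_rev]; exact cb_pr h.alg b)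
    rw [mem_Vb_iff.1 o.mem, ip_comm, c x (self_mem_orb x)] at e
    simp [pr] at e
  have s3 := s2.1.sup (stab_orb (B := B) x)
  have key : ∀ j ≤ d + 1, ∃ l : List (Mat p n), l.length = j ∧
      (∀ e ∈ l, e ∈ L ∧ Fx (W ⊔ spn B (k + (d + 1)) y ⊔ orb (Com B) x) e ∧
        im (e - 1) ≤ W ⊔ spn B (k + (d + 1)) y ⊔ orb (Com B) x) ∧
      Dd Φ k j v y = dif ρ l (Φ v y) := fun j => by
    induction j with
    | zero => exact fun _ => ⟨[], rfl, fun _ e => (by cases e), rfl⟩
    | succ j ih =>
      intro hj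
      obtain ⟨l, a1, a2, a3⟩ := ih (by omega)
      have hi : k + j < k + (d + 1) := by omega
      have hs : y (k + j) ∈ Vb ℓ b := by
        have := g.mem _ hi
        rwa [ext_ge (by omega)] at this
      have ms : y (k + j) ∈ W ⊔ spn B (k + (d + 1)) y := Submodule.mem_sup_right (mem_spn hi)
      obtain ⟨N, n1, n2, n3, n4, _⟩ := r1x h sx.mem o.mem nv hs
      have hN : R1 ℓ B Q N x (y (k + j)) := ⟨n1, ⟨_, sx.mem⟩, ⟨_, hs⟩, sx.sing, g.sing _ hi,
        perp_of_perp h.alg s2.1 sx.prp ms, n3, n4⟩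
      have gL := hL.eu _ (hN.sieg G).eu
      have fg := hN.fx h.alg s3 (mem_perp_sup.2 ⟨sx.prp, sx.sing.isot G.adm⟩)
        (mem_perp_sup.2 ⟨perp_anti (sup_le_sup_right le_sup_left _) (g.perp_spn hi), hN.orth⟩)
      refine ⟨sgl N :: l, by rw [List.length_cons, a1], fun e he => ?_, ?_⟩
      · rcases List.mem_cons.1 he with rfl | he
        exacts [⟨gL, fg, hN.im_le.trans (sup_le le_sup_right
          ((s2.1.orb_le ms).trans le_sup_left))⟩, a2 e he]
      · have e1 : sgl N *ᵥ v = v + y (k + j) := by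
          rw [sgl_mulVec, n2, hN.kills (perp_orb_symm h.alg (mem_perp_sup.1 (g.prp _ hi)).2),
            sub_zero]
        have e2 := m4 j _ gL (fg.anti (le_sup_left.trans le_sup_left)) v y o
          (g.lt h (sW.1.sup (stab_orb v)) hi.le)
        rw [e1, m1 j _ (act (sgl N) y) y fun i hi' => fg _ (Submodule.mem_sup_left (Submodule.mem_sup_right
          (mem_spn (hi'.trans hi))))] at e2
        rw [dif_cons, Module.End.mul_apply, ← a3, Dd, e2]
        rfl
  obtain ⟨l, a1, a2, a3⟩ := key (d + 1) le_rfl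
  rw [a3, m.deg l a1 (fun e he => (a2 e he).1) (List.pairwise_of_forall_mem_list fun e he f hf =>
    os_of_fx' (hL.grp.un e (a2 e he).1) (hL.grp.un f (a2 f hf).1)
      ((a2 e he).2.1.anti (a2 f hf).2.2))]
  rfl

theorem c_BND (p n : ℕ) [Fact p.Prime] (hMV : C_MV p n) (hTRANS : C_TRANS p n)
    (hGEX : C_GEX p n) : C_BND p n := by
  intro ℓ B Q L d M _ _ ρ W k a F G hb hL m hk sW H
  by_contra c
  obtain ⟨l, a1, a2, a3, y, y2, a4, a5⟩ := chain hMV hGEX G hb hL k 30 W a F sW (by omega) H.nt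
    H.toMA H.eqv
  rw [dif_long m (by omega) (fun g hg => (a2 g hg).1) a3] at a5
  obtain ⟨x, hx, h0⟩ := H.ne
  obtain ⟨e, he, ex⟩ := (hTRANS ℓ B Q W k a G sW.1 (fun i hi => ⟨H.nt i hi, rm_of_small G.str sW
    (le_trans (by omega) (hb _ (H.nt i hi)))⟩) y2 x).2 a4 hx
  refine h0 ?_
  rw [← H.loc (act e y2) x ex, H.eqv e (hL.eu _ (ew_le_eu G he)) (ew_fx G.str.alg sW.1 he) y2 a4,
    ← a5, LinearMap.zero_apply, map_zero]

end Pool.Agent.P.MP_f1a348_lc.CE
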