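import Pool.Agent.P.MP_f1a348_lc.CE.Base2

/-! Project CE: singular vectors by the theorem of Chevalley and Warning. -/

namespace Pool.Agent.P.MP_f1a348_lc.CE

open Matrix Module Pool.Agent.P.MP_f1a348_lc.PG Pool.Agent.P.MP_f1a348_lc.UP

namespace TCW

open MvPolynomial in
theorem cw {p : ℕ} [Fact p.Prime] {V : Type} [AddCommGroup V] [Module (ZMod p) V] {m k : ℕ}
    (y : Fin m → V) (q : Fin k → V →ₗ[ZMod p] V →ₗ[ZMod p] ZMod p)
    (t : Fin k → V →ₗ[ZMod p] ZMod p) (h : 2 * k < m) :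
    ∃ c : Fin m → ZMod p, c ≠ 0 ∧
      ∀ i, q i (∑ j, c j • y j) (∑ j, c j • y j) + t i (∑ j, c j • y j) = 0 := by
  classical
  let f : Fin k → MvPolynomial (Fin m) (ZMod p) := fun i =>
    (∑ j, ∑ l, C (q i (y j) (y l)) * (X j * X l)) + ∑ j, C (t i (y j)) * X j
  have hdeg : ∀ i, (f i).totalDegree ≤ 2 := by
    intro i
    refine (totalDegree_add _ _).trans (max_le ?_ ?_)
    · refine totalDegree_finsetSum_le fun j _ => totalDegree_finsetSum_le fun l _ => ?_
      refine (totalDegree_mul _ _).trans ?_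
      rw [totalDegree_C, zero_add]
      refine (totalDegree_mul _ _).trans ?_
      rw [totalDegree_X, totalDegree_X]
    · refine totalDegree_finsetSum_le fun j _ => ?_
      refine (totalDegree_mul _ _).trans ?_
      rw [totalDegree_C, totalDegree_X]
      omega
  have hev : ∀ (c : Fin m → ZMod p) i, eval c (f i) =
      q i (∑ j, c j • y j) (∑ j, c j • y j) + t i (∑ j, c j • y j) := by
    intro c i
    simp only [f, map_add, map_sum, map_mul, eval_C, eval_X, map_smul, LinearMap.sum_apply,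
      LinearMap.smul_apply, smul_eq_mul, Finset.mul_sum]
    rw [Finset.sum_comm]
    congr 1
    · exact Finset.sum_congr rfl fun j _ => Finset.sum_congr rfl fun l _ => by ring
    · exact Finset.sum_congr rfl fun j _ => by ring
  have hs : (∑ i, (f i).totalDegree) < Fintype.card (Fin m) := by
    have := Finset.sum_le_card_nsmul Finset.univ (fun i => (f i).totalDegree) 2 fun i _ => hdeg i
    simp only [Finset.card_univ, Fintype.card_fin, smul_eq_mul] at this ⊢
    omega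
  have hd := char_dvd_card_solutions_of_fintype_sum_lt p hs
  by_contra hne
  rw [Fintype.card_eq_nat_card] at hd
  have h1 : Nat.card { x : Fin m → ZMod p // ∀ i, eval x (f i) = 0 } = 1 := by
    rw [Nat.card_eq_one_iff_exists]
    refine ⟨⟨0, fun i => by rw [hev]; simp⟩, fun x => Subtype.ext ?_⟩
    by_contra hx
    exact hne ⟨x.1, hx, fun i => (hev x.1 i).symm.trans (x.2 i)⟩
  rw [h1] at hd
  exact (Fact.out : p.Prime).one_lt.ne' (Nat.dvd_one.1 hd)

variable {p n : ℕ} [Fact p.Prime] {ℓ : Ix n → ℕ} {B : Sub p n} {Q : QS p n}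

/-- few members of `Q` cut out the singular vectors of a block -/
theorem few (G : Geo ℓ B Q) {b : Ix n} (hb : ¬ Triv ℓ B b) :
    ∃ (k : ℕ) (θ : Fin k → Fn p n), k ≤ eb ℓ B b ∧ (∀ i, θ i ∈ Q) ∧
      ∀ v ∈ Vb ℓ b, (∀ i, θ i v = 0) → Sing Q v := by
  have h := G.str
  choose P hP hP' using fun θ : Q => G.adm.pol θ.1 θ.2
  let Φ : Q →ₗ[ZMod p] Cb ℓ B b.rev b :=
    { toFun := fun θ => ⟨pr ℓ b.rev * P θ * pr ℓ b, cb_of_com h.alg (hP θ) _ _⟩
      map_add' := fun θ η => Subtype.ext (by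
        have : P (θ + η) = P θ + P η := (hP' _).uniq fun x y => by
          simp only [Submodule.coe_add, Pi.add_apply, hP' θ x y, hP' η x y, Matrix.add_mulVec,
            ip_add_left]
          ring
        simp only [this, mul_add, add_mul, Submodule.coe_add])
      map_smul' := fun c θ => Subtype.ext (by
        have : P (c • θ) = c • P θ := (hP' _).uniq fun x y => by
          simp only [Submodule.coe_smul, Pi.smul_apply, smul_eq_mul, hP' θ x y,
            Matrix.smul_mulVec, ip_smul_left]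
          ring
        simp only [this, Matrix.mul_smul, Matrix.smul_mul, RingHom.id_apply, Submodule.coe_smul]) }
  have hk : ∀ θ : Q, Φ θ = 0 → ∀ v ∈ Vb ℓ b, θ.1 v = 0 := fun θ e =>
    G.adm.inj θ.1 θ.2 b hb fun x hx y hy => by
      have e' : pr ℓ b.rev * P θ * pr ℓ b = 0 := congrArg Subtype.val e
      rw [hP' θ x y, ← ip_pr h.lab hy, ← cb_comp b.rev hx, e', Matrix.zero_mulVec, ip_zero_left,
        add_zero]
  let c := finBasis (ZMod p) (LinearMap.range Φ)
  choose θ hθ using fun i => (c i).2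
  refine ⟨_, fun i => (θ i).1, (Submodule.finrank_le _).trans (finrank_cb_le h _ _),
    fun i => (θ i).2, fun v hv H η hη => ?_⟩
  let z : LinearMap.range Φ := ⟨Φ ⟨η, hη⟩, LinearMap.mem_range_self _ _⟩
  have e := congrArg Subtype.val (c.sum_repr z)
  simp only [AddSubmonoidClass.coe_finsetSum, SetLike.val_smul, ← hθ] at e
  have := hk (⟨η, hη⟩ - ∑ i, c.repr z i • θ i) (by
    rw [map_sub, map_sum]
    simp only [map_smul]
    rw [e, sub_self]) v hv
  simpa [H] using this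

end TCW

theorem c_CW (p n : Nat) [Fact p.Prime] (hQP : C_QP p n) : C_CW p n := by
  intro ℓ B Q W R r b G hW hR hb H
  have h := G.str
  obtain ⟨k, θ, hk, hθ, hs⟩ := TCW.few G hb
  choose P _ hP using fun i => G.adm.pol _ (hθ i)
  choose M t hM using fun i => hQP _ _ (hP i)
  set X : VS p n := perp W ⊓ Vb ℓ b with hX
  obtain ⟨Z, hZ⟩ := ((W ⊔ R) ⊓ X).exists_isCompl
  have h1 : (W ⊔ R) ⊓ X ⊔ Z ⊓ X = X := by
    rw [← sup_inf_assoc_of_le Z inf_le_right, hZ.sup_eq_top, top_inf_eq]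
  have h2 := Submodule.finrank_add_le_finrank_add_finrank ((W ⊔ R) ⊓ X) (Z ⊓ X)
  rw [h1] at h2
  have h3 := finrank_perp_sup_inf h.alg hW hR (perp W) b
  rw [inf_comm (perp W) (W ⊔ R), inf_assoc (W ⊔ R), ← hX] at h3
  have h6 := eb_pos h.alg b
  have h8 : 2 * k < finrank (ZMod p) (Z ⊓ X : VS p n) := by
    unfold Rm at H
    rw [← hX, add_mul] at H
    omega
  let y := finBasis (ZMod p) (Z ⊓ X : VS p n)
  obtain ⟨a, ha0, ha⟩ := TCW.cw (fun j => (y j : Vec p n))
    (fun i => ipL ∘ₗ (M i).mulVecLin) (fun i => ipL (t i)) h8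
  set u : (Z ⊓ X : VS p n) := ∑ j, a j • y j with hu
  have hv : ∑ j, a j • (y j : Vec p n) = (u : Vec p n) := by simp [hu]
  rw [hv] at ha
  have hu0 : u ≠ 0 := fun e =>
    ha0 (funext fun j => Fintype.linearIndependent_iff.1 y.linearIndependent a e j)
  refine ⟨u, ⟨u.2.2.2, hs _ u.2.2.2 fun i => ?_, u.2.2.1⟩, fun hw => hu0 (Subtype.ext ?_)⟩
  · rw [hM]
    exact ha i
  · exact (Submodule.disjoint_def.1 hZ.disjoint) _ ⟨hw, u.2.2⟩ u.2.1

namespace TCW

variable {p n : ℕ} [Fact p.Prime] {ℓ : Ix n → ℕ} {B : Sub p n} {Q : QS p n}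

theorem one (hCW : C_CW p n) {W R : VS p n} {r s k : ℕ} (G : Geo ℓ B Q) (hW : Small ℓ B r W)
    (hR : Small ℓ B s R) {a : ℕ → Ix n} {x : Tup p n} {b : Ix n} (H : GenW ℓ B Q W k a x)
    (hb : ¬ Triv ℓ B b) (hd : 2 * (r + s + k) + 3 ≤ db ℓ B b) :
    ∃ v, GenW ℓ B Q W (k + 1) (Function.update a k b) (Function.update x k v) ∧ v ∈ perp R ∧
      v ∉ W ⊔ spn B k x ⊔ R := by
  have h := G.str
  have h1 := (hW.sup h.alg (H.toInd.small h)).sup h.alg hR
  obtain ⟨v, hv, hn⟩ := hCW ℓ B Q _ ⊥ 0 b G h1.1 small_bot hb (rm_of_small h h1 (by omega))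
  rw [sup_bot_eq] at hn
  obtain ⟨h2, h3⟩ := mem_perp_sup.1 hv.prp
  exact ⟨v, H.snoc G hW.1 ⟨hv.mem, hv.sing, h2⟩ fun e => hn (Submodule.mem_sup_left e), h3, hn⟩

theorem three (hCW : C_CW p n) {W : VS p n} {r k : ℕ} (G : Geo ℓ B Q) (hW : Small ℓ B r W)
    {a : ℕ → Ix n} {x : Tup p n} {j : ℕ} (hj : j ≤ k) (H : GenW ℓ B Q W j a x)
    (ha : ∀ i < k, ¬ Triv ℓ B (a i) ∧ 2 * (r + k) + 3 ≤ db ℓ B (a i)) :
    ∃ y, GenW ℓ B Q W k a y ∧ ∀ i < j, y i = x i := by
  suffices ∀ m, j ≤ m → m ≤ k → ∃ y, GenW ℓ B Q W m a y ∧ ∀ i < j, y i = x i from this k hj le_rfl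
  intro m hm
  induction m, hm using Nat.le_induction with
  | base => exact fun _ => ⟨x, H, fun _ _ => rfl⟩
  | succ m hm ih =>
    intro hk
    obtain ⟨y, hy, e⟩ := ih (by omega)
    obtain ⟨h1, h2⟩ := ha m hk
    obtain ⟨v, hv, -⟩ := one hCW G hW small_bot hy h1 (by omega)
    rw [Function.update_eq_self] at hv
    exact ⟨_, hv, fun i hi => by rw [Function.update_of_ne (by omega), e i hi]⟩

end TCW

theorem c_GEX (p n : Nat) [Fact p.Prime] (hCW : C_CW p n) : C_GEX p n := by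
  intro ℓ B Q W R r s k G hW hR
  refine ⟨fun a x b H hb hd => TCW.one hCW G hW hR H hb hd, fun a ha => ?_,
    fun a x j hj H ha => TCW.three hCW G hW hj H ha⟩
  obtain ⟨y, hy, -⟩ := TCW.three hCW G hW (x := fun _ => 0) k.zero_le genW_zero ha
  exact ⟨y, hy⟩

end Pool.Agent.P.MP_f1a348_lc.CE
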