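import Pool.Agent.P.MP_f1a348_lc.CE.Base

/-!
Project CE: room, spans of tuples, independent and generic tuples.
-/

namespace Pool.Agent.P.MP_f1a348_lc.CE

open Matrix Module Pool.Agent.P.MP_f1a348_lc.PG Pool.Agent.P.MP_f1a348_lc.UP Function

set_option linter.unusedSectionVars false

variable {p n : ℕ} [Fact p.Prime] {ℓ : Ix n → ℕ} {B : Sub p n} {Q : QS p n} {g : Mat p n}
  {u v : Vec p n} {x y : Tup p n} {U W W' R : VS p n} {b c : Ix n} {a a' : ℕ → Ix n}
  {i j k r s : ℕ}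

/-! ### room -/

theorem finrank_inf_le (X : VS p n) {A A' : VS p n} (e : A ≤ A') :
    finrank (ZMod p) (X ⊓ A' : VS p n) + finrank (ZMod p) A ≤
      finrank (ZMod p) (X ⊓ A : VS p n) + finrank (ZMod p) A' := by
  have h1 := Submodule.finrank_sup_add_finrank_inf_eq (X ⊓ A') A
  rw [inf_assoc, inf_eq_right.2 e] at h1
  have h2 := Submodule.finrank_mono (sup_le inf_le_right e : X ⊓ A' ⊔ A ≤ A')
  omega

theorem finrank_perp_Vb (h : Str ℓ B) (hW : Stab B W) (b : Ix n) :
    finrank (ZMod p) (perp W ⊓ Vb ℓ b : VS p n) + finrank (ZMod p) (W ⊓ Vb ℓ b.rev : VS p n) =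
      nb ℓ b := by
  have h1 : perp (W ⊓ Vb ℓ b.rev) ⊓ Vb ℓ b = perp W ⊓ Vb ℓ b := le_antisymm (fun y hy =>
    ⟨fun w hw => by
      rw [← ip_pr h.lab hy.2]
      exact hy.1 _ ⟨hW _ (com_pr h.alg _) w hw, pr_mulVec_mem _ _⟩, hy.2⟩)
    (inf_le_inf_right _ (perp_anti inf_le_left))
  have h2 : perp (W ⊓ Vb ℓ b.rev) ⊔ Vb ℓ b = ⊤ := by
    refine eq_top_iff.2 fun v _ => ?_
    rw [← sub_add_cancel v (pr ℓ b *ᵥ v)]
    refine Submodule.add_mem_sup (fun w hw => ?_) (pr_mulVec_mem _ _)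
    have := ip_pr h.lab hw.2 v
    rw [Fin.rev_rev] at this
    rw [ip_comm, ip_sub_left, this, sub_self]
  have h3 := Submodule.finrank_sup_add_finrank_inf_eq (perp (W ⊓ Vb ℓ b.rev)) (Vb ℓ b)
  have h4 := finrank_perp (W ⊓ Vb ℓ b.rev)
  rw [h1, h2, finrank_Vb, finrank_top, Module.finrank_fintype_fun_eq_card, Fintype.card_fin] at h3
  omega

theorem perp_sup (W W' : VS p n) : perp (W ⊔ W') = perp W ⊓ perp W' :=
  Submodule.ext fun _ => mem_perp_sup

theorem perp_inf (W W' : VS p n) : perp (W ⊓ W') = perp W ⊔ perp W' := by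
  rw [← perp_perp (perp W ⊔ perp W'), perp_sup, perp_perp, perp_perp]

theorem finrank_sup_small (hB : Alg ℓ B) (hW : Stab B W) (hU : Small ℓ B s U) (b : Ix n) :
    finrank (ZMod p) ((W ⊔ U) ⊓ Vb ℓ b : VS p n) ≤
      finrank (ZMod p) (W ⊓ Vb ℓ b : VS p n) + s * eb ℓ B b := by
  rw [sup_inf_Vb hB hW hU.1]
  exact (Submodule.finrank_add_le_finrank_add_finrank _ _).trans (Nat.add_le_add_left (hU.2 b) _)

theorem Rm.mono (H : Rm ℓ B W b k) (e : j ≤ k) : Rm ℓ B W b j :=
  le_trans (Nat.add_le_add_left (Nat.mul_le_mul_right _ e) _) H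

theorem rm_of_small (h : Str ℓ B) (hW : Small ℓ B r W) (hd : 2 * r + k ≤ db ℓ B b) :
    Rm ℓ B W b k := by
  have h1 := finrank_perp_inf h hW b
  have h2 := (Submodule.finrank_mono (inf_le_inf_right (Vb ℓ b) inf_le_right :
    perp W ⊓ W ⊓ Vb ℓ b ≤ W ⊓ Vb ℓ b)).trans (hW.2 b)
  have h3 := db_mul_eb h b
  have h4 := Nat.mul_le_mul_right (eb ℓ B b) hd
  unfold Rm
  nlinarith

theorem Rm.rev (h : Str ℓ B) (hW : Stab B W) (H : Rm ℓ B W b k) : Rm ℓ B W b.rev k := by
  have hP := hW.perp h.alg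
  have h1 := finrank_perp_Vb h (hP.inf hW) b
  have h2 := finrank_perp_Vb h hW b.rev
  have h3 := Submodule.finrank_sup_add_finrank_inf_eq (W ⊓ Vb ℓ b) (perp W ⊓ Vb ℓ b)
  rw [perp_inf, perp_perp, sup_inf_Vb h.alg hW hP] at h1
  rw [Fin.rev_rev, h.lab.nb_rev] at h2
  rw [← inf_inf_distrib_right, inf_comm W (perp W)] at h3
  unfold Rm at H ⊢
  rw [eb_rev h]
  omega

theorem Rm.cls (h : Str ℓ B) (hW : Stab B W) (e : Cb ℓ B c b ≠ ⊥) (H : Rm ℓ B W b k) :
    Rm ℓ B W c k := by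
  unfold Rm at H ⊢
  rwa [finrank_im_inf h ((hW.perp h.alg).inf hW) e, finrank_im_inf h (hW.perp h.alg) e, eb_eq h e]

theorem finrank_perp_sup_inf (hB : Alg ℓ B) (hW : Stab B W) (hU : Small ℓ B s U) (X : VS p n)
    (b : Ix n) : finrank (ZMod p) (X ⊓ (W ⊔ U) ⊓ Vb ℓ b : VS p n) ≤
      finrank (ZMod p) (X ⊓ W ⊓ Vb ℓ b : VS p n) + s * eb ℓ B b := by
  have h1 := finrank_inf_le X (inf_le_inf_right (Vb ℓ b) le_sup_left :
    W ⊓ Vb ℓ b ≤ (W ⊔ U) ⊓ Vb ℓ b)
  have h2 := finrank_sup_small hB hW hU b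
  rw [inf_assoc, inf_assoc]
  omega

theorem Rm.sup_small (h : Str ℓ B) (hW : Stab B W) (hU : Small ℓ B s U)
    (H : Rm ℓ B W b (k + 2 * s)) : Rm ℓ B (W ⊔ U) b k := by
  have h1 := finrank_perp_Vb h hW b
  have h2 := finrank_perp_Vb h (hW.sup hU.1) b
  have h3 := finrank_sup_small h.alg hW hU b.rev
  have h4 := finrank_perp_sup_inf h.alg hW hU (perp W) b
  have h5 := Submodule.finrank_mono (inf_le_inf_right (Vb ℓ b) (inf_le_inf_right (W ⊔ U)
    (perp_anti le_sup_left)) : perp (W ⊔ U) ⊓ (W ⊔ U) ⊓ Vb ℓ b ≤ perp W ⊓ (W ⊔ U) ⊓ Vb ℓ b)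
  rw [eb_rev h] at h3
  unfold Rm at H ⊢
  rw [add_mul, mul_assoc] at H
  omega

theorem Rm.sup_orb (h : Str ℓ B) (hW : Stab B W) (hu : u ∈ Vb ℓ c) (H : Rm ℓ B W b (k + 2)) :
    Rm ℓ B (W ⊔ orb (Com B) u) b k := Rm.sup_small h hW (small_orb h hu) H

/-- room gives vectors outside small subspaces -/
theorem Rm.out (h : Str ℓ B) (hW : Stab B W) (hR : Small ℓ B r R) (H : Rm ℓ B W b (r + 1)) :
    ∃ v ∈ Vb ℓ b, v ∈ perp W ∧ v ∉ W ⊔ R := by
  by_contra! hc
  have h1 := Submodule.finrank_mono (show perp W ⊓ Vb ℓ b ≤ perp W ⊓ (W ⊔ R) ⊓ Vb ℓ b from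
    fun v hv => ⟨⟨hv.1, hc v hv.2 hv.1⟩, hv.2⟩)
  have h2 := finrank_perp_sup_inf h.alg hW hR (perp W) b
  have h3 := eb_pos h.alg b
  unfold Rm at H
  rw [add_mul] at H
  omega

/-! ### spans -/

theorem spn_zero : spn B 0 x = ⊥ := by simp [spn]

theorem orb_le_spn (hi : i < k) : orb (Com B) (x i) ≤ spn B k x :=
  le_iSup₂_of_le (f := fun i (_ : i < k) => orb (Com B) (x i)) i hi le_rfl

theorem mem_spn (hi : i < k) : x i ∈ spn B k x := orb_le_spn hi (self_mem_orb _)

theorem spn_le (hU : Stab B U) (H : ∀ i < k, x i ∈ U) : spn B k x ≤ U :=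
  iSup₂_le fun i hi => hU.orb_le (H i hi)

theorem spn_succ : spn B (k + 1) x = spn B k x ⊔ orb (Com B) (x k) :=
  le_antisymm (iSup₂_le fun i hi => by
    rcases Nat.lt_succ_iff_lt_or_eq.1 hi with h | rfl
    exacts [le_sup_of_le_left (orb_le_spn h), le_sup_right])
    (sup_le (iSup₂_le fun i hi => orb_le_spn (Nat.lt_succ_of_lt hi)) (orb_le_spn k.lt_succ_self))

theorem stab_spn : Stab B (spn B k x) := by
  induction k with
  | zero => rw [spn_zero]; exact stab_bot
  | succ k ih => rw [spn_succ]; exact ih.sup (stab_orb _)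

theorem spn_mono (e : j ≤ k) : spn B j x ≤ spn B k x :=
  spn_le stab_spn fun _ hi => mem_spn (hi.trans_le e)

theorem spn_congr (e : ∀ i < k, x i = y i) : spn B k x = spn B k y :=
  le_antisymm (spn_le stab_spn fun i hi => e i hi ▸ mem_spn hi)
    (spn_le stab_spn fun i hi => e i hi ▸ mem_spn hi)

theorem spn_update_ge (e : k ≤ j) : spn B k (update x j v) = spn B k x :=
  spn_congr fun i hi => update_of_ne (by omega) _ _

theorem small_spn (h : Str ℓ B) (H : ∀ i < k, ∃ b, x i ∈ Vb ℓ b) : Small ℓ B k (spn B k x) := by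
  induction k with
  | zero => rw [spn_zero]; exact small_bot
  | succ k ih =>
    obtain ⟨b, hb⟩ := H k k.lt_succ_self
    rw [spn_succ]
    exact (ih fun i hi => H i (Nat.lt_succ_of_lt hi)).sup h.alg (small_orb h hb)

theorem mem_spn_iff : v ∈ spn B k x ↔
    ∃ C : ℕ → Mat p n, (∀ i, C i ∈ Com B) ∧ ∑ i ∈ Finset.range k, C i *ᵥ x i = v := by
  refine ⟨fun hv => ?_, ?_⟩
  · induction k generalizing v with
    | zero =>
      rw [spn_zero, Submodule.mem_bot] at hv
      exact ⟨fun _ => 0, fun _ => zero_mem _, by simp [hv]⟩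
    | succ k ih =>
      rw [spn_succ] at hv
      obtain ⟨w, hw, _, ⟨D, hD, rfl⟩, rfl⟩ := Submodule.mem_sup.1 hv
      obtain ⟨C, hC, rfl⟩ := ih hw
      refine ⟨update C k D, fun i => ?_, ?_⟩
      · by_cases e : i = k
        · rw [e, update_self]; exact hD
        · rw [update_of_ne e]; exact hC i
      · rw [Finset.sum_range_succ, update_self, evx_apply]
        exact congrArg (· + _) (Finset.sum_congr rfl fun i hi => by
          rw [update_of_ne (Finset.mem_range.1 hi).ne])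
  · rintro ⟨C, hC, rfl⟩
    exact Submodule.sum_mem _ fun i hi =>
      orb_le_spn (Finset.mem_range.1 hi) (mem_orb_com (hC i) _)

theorem mem_perp_spn : v ∈ perp (spn B k x) ↔ ∀ i < k, v ∈ perp (orb (Com B) (x i)) :=
  ⟨fun h _ hi => perp_anti (orb_le_spn hi) h, fun h w hw => by
    obtain ⟨C, hC, rfl⟩ := mem_spn_iff.1 hw
    rw [ip_sum_left]
    exact Finset.sum_eq_zero fun i hi => mem_perp_orb.1 (h i (Finset.mem_range.1 hi)) _ (hC i)⟩

theorem fx_spn (hg : g ∈ B) (e : ∀ i < k, g *ᵥ x i = x i) : Fx (spn B k x) g := by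
  induction k with
  | zero => rw [spn_zero]; exact fx_bot
  | succ k ih =>
    rw [spn_succ]
    exact (ih fun i hi => e i (Nat.lt_succ_of_lt hi)).sup (fx_orb hg (e k k.lt_succ_self))

theorem spn_map (hg : g ∈ B) (hv : v ∈ spn B k x) : g *ᵥ v ∈ spn B k (act g x) := by
  obtain ⟨C, hC, rfl⟩ := mem_spn_iff.1 hv
  refine mem_spn_iff.2 ⟨C, hC, ?_⟩
  rw [Matrix.mulVec_sum]
  exact Finset.sum_congr rfl fun i _ => com_mulVec (hC i) hg _

/-- the span of the vectors in the places other than `i` -/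
theorem mem_oth (hj : j < k) (e : j ≠ i) : x j ∈ spn B k (update x i 0) := by
  have := mem_spn (B := B) (x := update x i 0) hj
  rwa [update_of_ne e] at this

theorem oth_le (hU : Stab B U) (H : ∀ j < k, j ≠ i → x j ∈ U) : spn B k (update x i 0) ≤ U :=
  spn_le hU fun j hj => by
    by_cases e : j = i
    · rw [e, update_self]; exact zero_mem _
    · rw [update_of_ne e]; exact H j hj e

theorem oth_le_spn : spn B k (update x i 0) ≤ spn B k x := oth_le stab_spn fun _ hj _ => mem_spn hj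

theorem spn_update_le : spn B k (update x i v) ≤ spn B k (update x i 0) ⊔ orb (Com B) v :=
  spn_le (stab_spn.sup (stab_orb v)) fun j hj => by
    by_cases e : j = i
    · rw [e, update_self]; exact Submodule.mem_sup_right (self_mem_orb v)
    · rw [update_of_ne e]; exact Submodule.mem_sup_left (mem_oth hj e)

theorem spn_le_oth : spn B k x ≤ spn B k (update x i 0) ⊔ orb (Com B) (x i) := by
  simpa using spn_update_le (B := B) (k := k) (x := x) (i := i) (v := x i)

theorem small_oth (h : Str ℓ B) (hi : i < k + 1) (H : ∀ i < k + 1, ∃ b, x i ∈ Vb ℓ b) :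
    Small ℓ B k (spn B (k + 1) (update x i 0)) := by
  refine (small_spn h (k := k) (x := fun j => if j < i then x j else x (j + 1)) fun j hj => ?_).of_le
    stab_spn (oth_le stab_spn fun j hj e => ?_)
  · by_cases e : j < i
    · simpa [e] using H j (by omega)
    · simpa [e] using H (j + 1) (by omega)
  · by_cases e' : j < i
    · simpa [e'] using mem_spn (B := B) (x := fun j => if j < i then x j else x (j + 1)) (i := j)
        (k := k) (by omega)
    · have := mem_spn (B := B) (x := fun j => if j < i then x j else x (j + 1)) (i := j - 1)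
        (k := k) (by omega)
      simpa [show ¬ j - 1 < i by omega, show j - 1 + 1 = j by omega] using this

/-! ### independent tuples -/

/-- a vector of an independent tuple is not in the span of the others -/
theorem Ind.not_mem (H : Ind ℓ B W k a x) (hi : i < k) : x i ∉ W ⊔ spn B k (update x i 0) :=
  fun e => by
  obtain ⟨w, hw, _, hv, e⟩ := Submodule.mem_sup.1 e
  obtain ⟨C, hC, rfl⟩ := mem_spn_iff.1 hv
  have := H.ind (update (fun j => -C j) i 1) (fun j => by
    by_cases e : j = i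
    · rw [e, update_self]; exact com_one
    · rw [update_of_ne e]; exact neg_mem (hC j)) (by
    convert hw using 1
    rw [eq_sub_of_add_eq e, ← Finset.add_sum_erase _ _ (Finset.mem_range.2 hi),
      ← Finset.add_sum_erase _ _ (Finset.mem_range.2 hi), update_self, update_self,
      Matrix.one_mulVec, Matrix.mulVec_zero, zero_add, sub_eq_add_neg, ← Finset.sum_neg_distrib]
    exact congrArg (_ + ·) (Finset.sum_congr rfl fun j hj => by
      rw [update_of_ne (Finset.ne_of_mem_erase hj), update_of_ne (Finset.ne_of_mem_erase hj),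
        Matrix.neg_mulVec])) i hi
  rw [update_self, one_mul] at this
  exact pr_ne_zero _ this

theorem Ind.not_mem_lt (H : Ind ℓ B W k a x) (hi : i < k) : x i ∉ W ⊔ spn B i x := fun e =>
  H.not_mem hi ((sup_le_sup_left (spn_le stab_spn fun _ hj => mem_oth (hj.trans hi) hj.ne) W) e)

theorem Ind.out (H : Ind ℓ B W k a x) (hi : i < k) : x i ∉ W := fun e =>
  H.not_mem hi (Submodule.mem_sup_left e)

theorem Ind.ne (H : Ind ℓ B W k a x) (hi : i < k) : x i ≠ 0 := fun e =>
  H.out hi (e ▸ zero_mem _)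

theorem ind_of_lt (h : Str ℓ B) (hW : Stab B W)
    (H : ∀ i < k, x i ∈ Vb ℓ (a i) ∧ x i ∉ W ⊔ spn B i x) : Ind ℓ B W k a x := by
  refine ⟨fun i hi => (H i hi).1, fun C hC => ?_⟩
  induction k with
  | zero => exact fun _ i hi => absurd hi i.not_lt_zero
  | succ k ih =>
    intro e i hi
    rw [Finset.sum_range_succ] at e
    have hk := H k k.lt_succ_self
    have h0 : C k *ᵥ x k = 0 := by
      by_contra h0
      refine hk.2 (mem_of_mulVec_mem h (hW.sup stab_spn) hk.1 (hC k) h0 ?_)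
      have := Submodule.sub_mem _ (Submodule.mem_sup_left (T := spn B k x) e)
        (Submodule.mem_sup_right (mem_spn_iff.2 ⟨C, hC, rfl⟩))
      rwa [add_sub_cancel_left] at this
    rcases Nat.lt_succ_iff_lt_or_eq.1 hi with h1 | rfl
    · rw [h0, add_zero] at e
      exact ih (fun i hi => H i (Nat.lt_succ_of_lt hi)) e i h1
    · rw [← one_mul (C i * _), ← sum_pr h.lab, Finset.sum_mul]
      refine Finset.sum_eq_zero fun c _ => ?_
      rw [← mul_assoc]
      refine cb_inj h (cb_of_com h.alg (hC i) c (a i)) hk.1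
        (fun e' => hk.2 (e' ▸ zero_mem _)) ?_
      rw [cb_comp c hk.1, h0, Matrix.mulVec_zero]

theorem ind_of_oth (h : Str ℓ B) (hW : Stab B W)
    (H : ∀ i < k, x i ∈ Vb ℓ (a i) ∧ x i ∉ W ⊔ spn B k (update x i 0)) : Ind ℓ B W k a x :=
  ind_of_lt h hW fun i hi => ⟨(H i hi).1, fun e => (H i hi).2
    ((sup_le_sup_left (spn_le stab_spn fun _ hj => mem_oth (hj.trans hi) hj.ne) W) e)⟩

theorem ind_zero : Ind ℓ B W 0 a x :=
  ⟨fun i hi => absurd hi i.not_lt_zero, fun _ _ _ i hi => absurd hi i.not_lt_zero⟩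

theorem Ind.small (h : Str ℓ B) (H : Ind ℓ B W k a x) : Small ℓ B k (spn B k x) :=
  small_spn h fun i hi => ⟨_, H.mem i hi⟩

theorem Ind.congr (H : Ind ℓ B W k a x) (ea : ∀ i < k, a i = a' i) (e : ∀ i < k, x i = y i) :
    Ind ℓ B W k a' y :=
  ⟨fun i hi => by rw [← ea i hi, ← e i hi]; exact H.mem i hi, fun C hC hs i hi => by
    rw [← ea i hi]
    refine H.ind C hC ?_ i hi
    rwa [Finset.sum_congr rfl fun j hj => by rw [e j (Finset.mem_range.1 hj)]]⟩

theorem Ind.anti (H : Ind ℓ B W k a x) (e : W' ≤ W) : Ind ℓ B W' k a x :=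
  ⟨H.mem, fun C hC hs => H.ind C hC (e hs)⟩

/-- sub-tuples in any order -/
theorem Ind.comp (h : Str ℓ B) (hW : Stab B W) (H : Ind ℓ B W k a x) (σ : ℕ → ℕ)
    (h1 : ∀ i < j, σ i < k) (h2 : ∀ i < j, ∀ l < i, σ l ≠ σ i) :
    Ind ℓ B W j (fun i => a (σ i)) fun i => x (σ i) :=
  ind_of_lt h hW fun i hi => ⟨H.mem _ (h1 i hi), fun e => H.not_mem (h1 i hi)
    ((sup_le_sup_left (spn_le stab_spn fun l hl =>
      mem_oth (h1 l (hl.trans hi)) (h2 i hi l hl)) W) e)⟩

theorem Ind.lt (h : Str ℓ B) (hW : Stab B W) (H : Ind ℓ B W k a x) (e : j ≤ k) :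
    Ind ℓ B W j a x := H.comp h hW id (fun _ hi => hi.trans_le e) fun _ _ _ hl => hl.ne

theorem Ind.snoc (h : Str ℓ B) (hW : Stab B W) (H : Ind ℓ B W k a x) (hv : v ∈ Vb ℓ b)
    (hn : v ∉ W ⊔ spn B k x) : Ind ℓ B W (k + 1) (update a k b) (update x k v) :=
  ind_of_lt h hW fun i hi => by
    rw [spn_update_ge (Nat.lt_succ_iff.1 hi)]
    rcases Nat.lt_succ_iff_lt_or_eq.1 hi with h1 | rfl
    · rw [update_of_ne h1.ne, update_of_ne h1.ne]; exact ⟨H.mem i h1, H.not_mem_lt h1⟩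
    · rw [update_self, update_self]; exact ⟨hv, hn⟩

theorem Ind.update (h : Str ℓ B) (hW : Stab B W) (H : Ind ℓ B W k a x) (hv : v ∈ Vb ℓ (a i))
    (hn : v ∉ W ⊔ spn B k (update x i 0)) : Ind ℓ B W k a (update x i v) :=
  ind_of_oth h hW fun j hj => by
    by_cases e : j = i
    · rw [e, update_self, update_idem]; exact ⟨hv, hn⟩
    · rw [update_of_ne e]
      refine ⟨H.mem j hj, fun e1 => hn ?_⟩
      rw [update_comm (Ne.symm e)] at e1
      have h2 : x j ∉ W ⊔ spn B k (Function.update (Function.update x j 0) i 0) := fun e2 =>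
        H.not_mem hj (sup_le_sup_left oth_le_spn W e2)
      have h3 := exchange h (hW.sup stab_spn) hv
        (by rw [sup_assoc]; exact sup_le_sup_left spn_update_le W e1) h2
      rw [sup_assoc] at h3
      refine sup_le_sup_left (sup_le ?_ (stab_spn.orb_le (mem_oth hj e))) W h3
      rw [update_comm e]; exact oth_le_spn

theorem Ind.map (h : Str ℓ B) (H : Ind ℓ B W k a x) (hg : g ∈ B) (hu : Un g) (e : Fx W g) :
    Ind ℓ B W k a (act g x) :=
  ⟨fun i hi => (h.alg.dg g hg).mulVec_mem (H.mem i hi), fun C hC hs => H.ind C hC (by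
    by_contra h0
    refine e.not_mem hu h0 ?_
    rw [Matrix.mulVec_sum]
    rwa [Finset.sum_congr rfl fun i _ => (com_mulVec (hC i) hg (x i)).symm])⟩

/-- a line of the support stays independent -/
theorem Ind.rel (h : Str ℓ B) (hW : Stab B W) (H : Ind ℓ B (W ⊔ orb (Com B) u) k a x)
    (hn : u ∉ W) : u ∉ W ⊔ spn B k x := by
  induction k with
  | zero => rwa [spn_zero, sup_bot_eq]
  | succ k ih =>
    rw [spn_succ, ← sup_assoc]
    refine fun e => H.not_mem_lt k.lt_succ_self ?_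
    rw [sup_right_comm]
    exact exchange h (hW.sup stab_spn) (H.mem k k.lt_succ_self) e
      (ih (H.lt h (hW.sup (stab_orb u)) k.le_succ))

/-! ### generic tuples -/

theorem genW_zero : GenW ℓ B Q W 0 a x :=
  ⟨ind_zero, fun i hi => absurd hi i.not_lt_zero, fun i hi => absurd hi i.not_lt_zero,
    fun i hi => absurd hi i.not_lt_zero⟩

theorem GenW.sv (H : GenW ℓ B Q W k a x) (hi : i < k) : SV ℓ Q W (a i) (x i) :=
  ⟨H.mem i hi, H.sing i hi, H.prp i hi⟩

theorem GenW.ntriv (G : Geo ℓ B Q) (H : GenW ℓ B Q W k a x) (hi : i < k) : ¬ Triv ℓ B (a i) :=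
  (H.sing i hi).ntriv G (H.mem i hi) (H.toInd.ne hi)

theorem GenW.perp_spn (H : GenW ℓ B Q W k a x) (hi : i < k) : x i ∈ perp (W ⊔ spn B k x) :=
  mem_perp_sup.2 ⟨H.prp i hi, mem_perp_spn.2 fun j hj => H.orth j hj i hi⟩

theorem GenW.spn_le_perp (hB : Alg ℓ B) (hW : Stab B W) (H : GenW ℓ B Q W k a x) :
    spn B k x ≤ perp (W ⊔ spn B k x) :=
  spn_le ((hW.sup stab_spn).perp hB) fun _ hi => H.perp_spn hi

theorem GenW.sing_spn (G : Geo ℓ B Q) (H : GenW ℓ B Q W k a x) (hv : v ∈ spn B k x) :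
    Sing Q v := by
  have key : ∀ j ≤ k, ∀ v ∈ spn B j x, Sing Q v := fun j hj => by
    induction j with
    | zero => intro v hv; rw [spn_zero, Submodule.mem_bot] at hv; rw [hv]; exact Sing.zero G.adm
    | succ j ih =>
      intro v hv
      rw [spn_succ] at hv
      obtain ⟨w, hw, t, ht, rfl⟩ := Submodule.mem_sup.1 hv
      refine (ih (by omega) w hw).add G.adm ((H.sing j hj).of_orb G.adm ht) ?_
      refine perp_of_perp G.str.alg (stab_orb (x j)) ?_ ht
      exact spn_le ((stab_orb _).perp G.str.alg) (fun l hl => H.orth j hj l (by omega)) hw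
  exact key k le_rfl v hv

theorem GenW.congr (H : GenW ℓ B Q W k a x) (ea : ∀ i < k, a i = a' i) (e : ∀ i < k, x i = y i) :
    GenW ℓ B Q W k a' y :=
  ⟨H.toInd.congr ea e, fun i hi => e i hi ▸ H.sing i hi, fun i hi => e i hi ▸ H.prp i hi,
    fun i hi j hj => e i hi ▸ e j hj ▸ H.orth i hi j hj⟩

theorem GenW.anti (H : GenW ℓ B Q W k a x) (e : W' ≤ W) : GenW ℓ B Q W' k a x :=
  ⟨H.toInd.anti e, H.sing, fun i hi => perp_anti e (H.prp i hi), H.orth⟩

theorem GenW.comp (h : Str ℓ B) (hW : Stab B W) (H : GenW ℓ B Q W k a x) (σ : ℕ → ℕ)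
    (h1 : ∀ i < j, σ i < k) (h2 : ∀ i < j, ∀ l < i, σ l ≠ σ i) :
    GenW ℓ B Q W j (fun i => a (σ i)) fun i => x (σ i) :=
  ⟨H.toInd.comp h hW σ h1 h2, fun i hi => H.sing _ (h1 i hi), fun i hi => H.prp _ (h1 i hi),
    fun i hi l hl => H.orth _ (h1 i hi) _ (h1 l hl)⟩

theorem GenW.lt (h : Str ℓ B) (hW : Stab B W) (H : GenW ℓ B Q W k a x) (e : j ≤ k) :
    GenW ℓ B Q W j a x := H.comp h hW id (fun _ hi => hi.trans_le e) fun _ _ _ hl => hl.ne

theorem GenW.map (h : Str ℓ B) (H : GenW ℓ B Q W k a x) (hg : UQ B Q g) (e : Fx W g) :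
    GenW ℓ B Q W k a (act g x) :=
  ⟨H.toInd.map h hg.mem hg.un e, fun i hi => hg.sing (H.sing i hi),
    fun i hi => e.perp hg.un (H.prp i hi),
    fun i hi j hj => perp_orb_map hg.mem hg.un (H.orth i hi j hj)⟩

theorem GenW.update (G : Geo ℓ B Q) (hW : Stab B W) (H : GenW ℓ B Q W k a x)
    (hv : SV ℓ Q (W ⊔ spn B k (update x i 0)) (a i) v) (hn : v ∉ W ⊔ spn B k (update x i 0)) :
    GenW ℓ B Q W k a (update x i v) := by
  have h1 : ∀ j < k, j ≠ i → v ∈ perp (orb (Com B) (x j)) := fun j hj e =>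
    perp_anti (stab_spn.orb_le (mem_oth hj e)) (mem_perp_sup.1 hv.prp).2
  refine ⟨H.toInd.update G.str hW hv.mem hn, fun j hj => ?_, fun j hj => ?_, fun j hj l hl => ?_⟩
  · by_cases e : j = i
    · rw [e, update_self]; exact hv.sing
    · rw [update_of_ne e]; exact H.sing j hj
  · by_cases e : j = i
    · rw [e, update_self]; exact (mem_perp_sup.1 hv.prp).1
    · rw [update_of_ne e]; exact H.prp j hj
  · by_cases e : j = i <;> by_cases e' : l = i
    · rw [e, e', update_self]; exact hv.sing.isot G.adm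
    · rw [e, update_self, update_of_ne e']; exact perp_orb_symm G.str.alg (h1 l hl e')
    · rw [e', update_self, update_of_ne e]; exact h1 j hj e
    · rw [update_of_ne e, update_of_ne e']; exact H.orth j hj l hl

theorem GenW.snoc (G : Geo ℓ B Q) (hW : Stab B W) (H : GenW ℓ B Q W k a x)
    (hv : SV ℓ Q (W ⊔ spn B k x) b v) (hn : v ∉ W ⊔ spn B k x) :
    GenW ℓ B Q W (k + 1) (Function.update a k b) (Function.update x k v) := by
  have h1 := mem_perp_spn.1 (mem_perp_sup.1 hv.prp).2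
  refine ⟨H.toInd.snoc G.str hW hv.mem hn, fun j hj => ?_, fun j hj => ?_, fun j hj l hl => ?_⟩
  · by_cases e : j = k
    · rw [e, update_self]; exact hv.sing
    · rw [update_of_ne e]; exact H.sing j (by omega)
  · by_cases e : j = k
    · rw [e, update_self]; exact (mem_perp_sup.1 hv.prp).1
    · rw [update_of_ne e]; exact H.prp j (by omega)
  · by_cases e : j = k <;> by_cases e' : l = k
    · rw [e, e', update_self]; exact hv.sing.isot G.adm
    · rw [e, update_self, update_of_ne e']; exact perp_orb_symm G.str.alg (h1 l (by omega))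
    · rw [e', update_self, update_of_ne e]; exact h1 j (by omega)
    · rw [update_of_ne e, update_of_ne e']; exact H.orth j (by omega) l (by omega)

/-- the last vector of a generic tuple -/
theorem GenW.last (H : GenW ℓ B Q W (k + 1) a x) :
    SV ℓ Q (W ⊔ spn B k x) (a k) (x k) ∧ x k ∉ W ⊔ spn B k x :=
  ⟨⟨H.mem k k.lt_succ_self, H.sing k k.lt_succ_self,
    perp_anti (sup_le_sup_left (spn_mono k.le_succ) W) (H.perp_spn k.lt_succ_self)⟩,
    H.toInd.not_mem_lt k.lt_succ_self⟩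

/-- the three tuples in the law of additivity are generic -/
theorem GenW.three (G : Geo ℓ B Q) (hW : Stab B W) (hi : i < k)
    (H : GenW ℓ B Q W (k + 1) (Function.update a k (a i)) x) :
    GenW ℓ B Q W k a x ∧ GenW ℓ B Q W k a (Function.update x i (x k)) ∧
      GenW ℓ B Q W k a (Function.update x i (x i + x k)) := by
  have h0 : GenW ℓ B Q W k a x :=
    (H.lt G.str hW k.le_succ).congr (fun j hj => update_of_ne hj.ne _ _) fun _ _ => rfl
  obtain ⟨h1, h2⟩ := H.last
  rw [update_self] at h1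
  have h3 : W ⊔ spn B k (Function.update x i 0) ≤ W ⊔ spn B k x := sup_le_sup_left oth_le_spn W
  refine ⟨h0, h0.update G hW ⟨h1.mem, h1.sing, perp_anti h3 h1.prp⟩ fun e => h2 (h3 e),
    h0.update G hW ⟨add_mem (h0.mem i hi) h1.mem, (h0.sing i hi).add G.adm h1.sing
      (mem_perp_spn.1 (mem_perp_sup.1 h1.prp).2 i hi),
      perp_anti h3 (add_mem (h0.perp_spn hi) h1.prp)⟩ fun e => h2 ?_⟩
  simpa using Submodule.sub_mem _ (h3 e) (Submodule.mem_sup_right (mem_spn hi))

theorem GenW.zc (G : Geo ℓ B Q) (hi : i < k)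
    (H : GenW ℓ B Q ⊥ (k + 1) (Function.update a k (a i)) x) : Zc ℓ B Q k a i x :=
  have h := H.three G stab_bot hi
  ⟨h.1, h.2.1, H.toInd, by simpa using h.2.2.sing i hi⟩

/-- tuples that are generic relative to a larger support -/
theorem GenW.rel (H : GenW ℓ B Q W k a x) (h1 : ∀ i < k, x i ∈ perp U)
    (h2 : Ind ℓ B (W ⊔ U) k a x) : GenW ℓ B Q (W ⊔ U) k a x :=
  ⟨h2, H.sing, fun i hi => mem_perp_sup.2 ⟨H.prp i hi, h1 i hi⟩, H.orth⟩

theorem SV.anti (H : SV ℓ Q W b v) (e : W' ≤ W) : SV ℓ Q W' b v :=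
  ⟨H.mem, H.sing, perp_anti e H.prp⟩

theorem SV.add (A : Adm ℓ B Q) (H : SV ℓ Q W b u) (H' : SV ℓ Q W b v)
    (e : v ∈ perp (orb (Com B) u)) : SV ℓ Q W b (u + v) :=
  ⟨add_mem H.mem H'.mem, H.sing.add A H'.sing e, add_mem H.prp H'.prp⟩

theorem act_update (g : Mat p n) (x : Tup p n) (i : ℕ) (v : Vec p n) :
    act g (Function.update x i v) = Function.update (act g x) i (g *ᵥ v) := by
  funext j
  by_cases e : j = i
  · rw [e, act_apply, update_self, update_self]
  · rw [act_apply, update_of_ne e, update_of_ne e, act_apply]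

theorem Zc.map (h : Str ℓ B) (H : Zc ℓ B Q k a i x) (hg : UQ B Q g) : Zc ℓ B Q k a i (act g x) :=
  ⟨H.gen.map h hg fx_bot, by
    have := H.gen'.map h hg fx_bot
    rwa [act_update] at this, H.ind.map h hg.mem hg.un fx_bot, by
    rw [act_apply, act_apply, ← Matrix.mulVec_add]; exact hg.sing H.sing⟩

theorem Zc.sum (G : Geo ℓ B Q) (hi : i < k) (H : Zc ℓ B Q k a i x) :
    GenW ℓ B Q ⊥ k a (Function.update x i (x i + x k)) := by
  have h1 : x k ∈ Vb ℓ (a i) := by simpa using H.ind.mem k k.lt_succ_self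
  have h2 := H.ind.not_mem_lt k.lt_succ_self
  have h3 := H.gen'.perp_spn hi
  rw [update_self] at h3
  refine H.gen.update G stab_bot ⟨add_mem (H.gen.mem i hi) h1, H.sing, add_mem
    (perp_anti (sup_le_sup_left oth_le_spn ⊥) (H.gen.perp_spn hi))
    (perp_anti (sup_le_sup_left ?_ ⊥) h3)⟩ fun e => h2 ?_
  · have := oth_le_spn (B := B) (k := k) (x := Function.update x i (x k)) (i := i)
    rwa [update_idem] at this
  · have h4 : ⊥ ⊔ spn B k (Function.update x i 0) ≤ ⊥ ⊔ spn B k x := sup_le_sup_left oth_le_spn ⊥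
    have h5 : x i ∈ ⊥ ⊔ spn B k x := Submodule.mem_sup_right (mem_spn hi)
    have := Submodule.sub_mem _ (h4 e) h5
    rwa [add_sub_cancel_left] at this

theorem ext_lt (hi : i < k) : ext k a b i = a i := if_pos hi

theorem ext_ge (hi : k ≤ i) : ext k a b i = b := if_neg (Nat.not_lt.2 hi)

end Pool.Agent.P.MP_f1a348_lc.CE
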