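import Pool.Agent.P.MP_f1a348_lc.CE.Tu
import Pool.Agent.P.MP_f1a348_lc.CE.Base2

/-!
Project CE: the defect of additivity.
-/

namespace Pool.Agent.P.MP_f1a348_lc.CE

open Matrix Module Pool.Agent.P.MP_f1a348_lc.PG Pool.Agent.P.MP_f1a348_lc.UP Function

set_option linter.unusedSectionVars false

namespace TDEF

variable {p n : ℕ} [Fact p.Prime] {ℓ : Ix n → ℕ} {B : Sub p n} {Q : QS p n} {W W' : VS p n}
  {k i j : ℕ} {a : ℕ → Ix n} {b : Ix n} {x y : Tup p n} {s s' v : Vec p n} {g : Mat p n}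
  {μ : Mat p n →ₗ[ZMod p] ZMod p} {M : Type} [AddCommGroup M] {F : Tup p n → M}

theorem upd_swap {X : Type} (hi : i < k) (hj : j < k) (f : ℕ → X) (c : X) :
    update f k c ∘ Equiv.swap i j = update (f ∘ Equiv.swap i j) k c := by
  rw [update_comp_equiv, Equiv.symm_swap, Equiv.swap_apply_of_ne_of_ne hi.ne' hj.ne']

theorem sw1 (hi : i < k) (hj : j < k) (m : ℕ) : Equiv.swap i j m < k + 1 ↔ m < k + 1 :=
  Tu.swap_lt (by omega) (by omega) m

theorem fix (hi : i < k) (hj : j < k) : Equiv.swap i j k = k :=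
  Equiv.swap_apply_of_ne_of_ne hi.ne' hj.ne'

theorem zc_swap (hi : i < k) (hj : j < k) {m : ℕ} (h : Zc ℓ B Q k a m x) :
    Zc ℓ B Q k (a ∘ Equiv.swap i j) (Equiv.swap i j m) (x ∘ Equiv.swap i j) := by
  refine ⟨Tu.gen_perm (Tu.swap_lt hi hj) h.gen, ?_, ?_, ?_⟩
  · have := Tu.gen_perm (Tu.swap_lt hi hj) h.gen'
    rw [update_comp_equiv, Equiv.symm_swap] at this
    rwa [comp_apply (f := x), fix hi hj]
  · have := Tu.ind_perm (sw1 hi hj) h.ind
    rw [upd_swap hi hj] at this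
    simpa using this
  · simpa [fix hi hj] using h.sing

theorem dfc_swap (hi : i < k) (hj : j < k) (m : ℕ) (x : Tup p n) :
    dfc (fun x => F (x ∘ Equiv.swap i j)) k m x =
      dfc F k (Equiv.swap i j m) (x ∘ Equiv.swap i j) := by
  simp [dfc, update_comp_equiv, fix hi hj]

theorem ma_swap (hi : i < k) (hj : j < k) (h : MA ℓ B Q W k a F) :
    MA ℓ B Q W k (a ∘ Equiv.swap i j) fun x => F (x ∘ Equiv.swap i j) :=
  ⟨fun _ _ e => h.loc _ _ fun m hm => e _ ((Tu.swap_lt hi hj m).2 hm), fun m hm x hx => by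
    have h1 := Tu.gen_perm (sw1 hi hj) hx
    rw [upd_swap hi hj, comp_assoc, ← Equiv.Perm.coe_mul, Equiv.swap_mul_self,
      Equiv.Perm.coe_one, comp_id] at h1
    simpa [update_comp_equiv, fix hi hj] using h.add _ ((Tu.swap_lt hi hj m).2 hm) _ h1⟩

/-- pairs with given pairing -/
structure Gd (ℓ : Ix n → ℕ) (B : Sub p n) (Q : QS p n) (b : Ix n)
    (μ : Mat p n →ₗ[ZMod p] ZMod p) (W : VS p n) (s s' : Vec p n) : Prop where
  s1 : SV ℓ Q W b s
  s2 : SV ℓ Q W b s'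
  s3 : Sing Q (s + s')
  n1 : s ∉ W
  n2 : s' ∉ W ⊔ orb (Com B) s
  val : ∀ C ∈ Cb ℓ B b.rev b, ip (C *ᵥ s) s' = μ C

theorem Gd.s4 (h : Gd ℓ B Q b μ W s s') : SV ℓ Q W b (s + s') :=
  ⟨add_mem h.s1.mem h.s2.mem, h.s3, add_mem h.s1.prp h.s2.prp⟩

theorem Gd.n3 (h : Gd ℓ B Q b μ W s s') : s' ∉ W := fun e => h.n2 (Submodule.mem_sup_left e)

theorem Gd.n4 (h : Gd ℓ B Q b μ W s s') : s + s' ∉ W := fun e => h.n2 (by
  simpa using sub_mem (Submodule.mem_sup_left (T := orb (Com B) s) e)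
    (Submodule.mem_sup_right (self_mem_orb s)))

theorem Gd.anti (h : Gd ℓ B Q b μ W s s') (e : W' ≤ W) : Gd ℓ B Q b μ W' s s' :=
  ⟨⟨h.s1.mem, h.s1.sing, perp_anti e h.s1.prp⟩, ⟨h.s2.mem, h.s2.sing, perp_anti e h.s2.prp⟩, h.s3,
    fun f => h.n1 (e f), fun f => h.n2 (sup_le_sup_right e _ f), h.val⟩

theorem snoc (G : Geo ℓ B Q) (h : GenW ℓ B Q ⊥ k a y) (h1 : SV ℓ Q (spn B k y) b v)
    (h2 : v ∉ spn B k y) : GenW ℓ B Q ⊥ (k + 1) (update a k b) (update y k v) :=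
  Tu.gen_snoc G stab_bot h (by rwa [bot_sup_eq]) (by rwa [bot_sup_eq])

theorem snoc' (G : Geo ℓ B Q) (h : GenW ℓ B Q ⊥ k a y) (h1 : SV ℓ Q (spn B k y) (a k) v)
    (h2 : v ∉ spn B k y) : GenW ℓ B Q ⊥ (k + 1) a (update y k v) := by
  simpa using snoc G h h1 h2

/-- the defect as a function of the pair -/
def DD (F : Tup p n → M) (k : ℕ) (y : Tup p n) (s s' : Vec p n) : M :=
  F (update y k (s + s')) - F (update y k s) - F (update y k s')

theorem dfc_eq (h : MA ℓ B Q W (k + 1) a F) (y : Tup p n) (s s' : Vec p n) :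
    dfc F (k + 1) k (update (update y k s) (k + 1) s') = DD F k y s s' := by
  have e : ∀ v, F (update (update (update y k s) (k + 1) s') k v) = F (update y k v) := fun v =>
    h.loc _ _ fun i hi => by
      rcases eq_or_ne i k with rfl | e
      · simp
      · simp [e, hi.ne]
  have e' := e s
  rw [update_comm (by omega), update_idem] at e'
  rw [dfc, e, e, e', update_self, update_of_ne (by omega), update_self, DD]

theorem Gd.zc (G : Geo ℓ B Q) (hy : GenW ℓ B Q ⊥ k a y) (h : Gd ℓ B Q (a k) μ (spn B k y) s s') :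
    Zc ℓ B Q (k + 1) a k (update (update y k s) (k + 1) s') := by
  refine ⟨Tu.gen_congr (snoc' G hy h.s1 h.n1) (fun _ _ => rfl) fun i hi => update_of_ne hi.ne _ _,
    Tu.gen_congr (snoc' G hy h.s2 h.n3) (fun _ _ => rfl) fun i hi => ?_,
    Tu.ind_snoc G.str stab_bot (snoc' G hy h.s1 h.n1).toInd h.s2.mem
      (by rw [bot_sup_eq, Tu.spn_snoc]; exact h.n2), ?_⟩
  · rcases eq_or_ne i k with rfl | e
    · simp
    · simp [e, hi.ne]
  · rw [update_self, update_of_ne (by omega), update_self]; exact h.s3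

theorem indep [Module (ZMod p) M] (hGL1 : C_GL1 p n) (G : Geo ℓ B Q) (hB : Big ℓ B 200)
    (hk : k ≤ 2) (ht : ¬ Triv ℓ B (a k)) (h : MA ℓ B Q ⊥ (k + 1) a F) (hy : GenW ℓ B Q ⊥ k a y)
    {t t' : Vec p n} (h1 : Gd ℓ B Q (a k) μ (spn B k y) s s')
    (h2 : Gd ℓ B Q (a k) μ (spn B k y) t t') : DD F k y s s' = DD F k y t t' := by
  refine sub_eq_zero.1 ((forall_dual_apply_eq_zero_iff (ZMod p) _).1 fun φ => ?_)
  have := hB _ ht
  obtain ⟨θ, C, hC, e1, e2⟩ := hGL1 ℓ B Q _ k (a k) (fun v => φ (F (update y k v))) G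
    (Tu.small G.str hy.mem) ht (by omega) fun u u' hu hu' o n1 n2 => by
      have z := snoc G (snoc' G hy hu n1) (b := a k) (v := u') ⟨hu'.mem, hu'.sing, by
        rw [Tu.spn_snoc]; exact mem_perp_sup.2 ⟨hu'.prp, o⟩⟩ (by rwa [Tu.spn_snoc])
      have e : DD F k y u u' = 0 := by
        rw [← dfc_eq h, dfc, h.add k (by omega) _ z]; abel
      rw [← map_add, ← sub_eq_zero, ← map_sub, ← sub_sub]
      exact (congrArg φ e).trans (map_zero φ)
  have key : ∀ s s', Gd ℓ B Q (a k) μ (spn B k y) s s' → φ (DD F k y s s') = μ C :=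
    fun s s' h => by
      rw [DD, map_sub, map_sub, ← h.val C hC]
      linear_combination e1 s h.s1.mem h.s1.prp s' h.s2.mem h.s2.prp - e2 _ h.s4 h.n4 +
        e2 _ h.s1 h.n1 + e2 _ h.s2 h.n3
  rw [map_sub, key _ _ h1, key _ _ h2, sub_self]

theorem core [Module (ZMod p) M] (hGL1 : C_GL1 p n) (hCW : C_CW p n) (hSOLV : C_SOLV p n)
    (G : Geo ℓ B Q) (hB : Big ℓ B 200) {L : Set (Mat p n)} (hL : Btw B Q L) (hk : k ≤ 2)
    {ρ : Mat p n → Module.End (ZMod p) M} (ht : ∀ i < k + 1, ¬ Triv ℓ B (a i))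
    (h : MA ℓ B Q ⊥ (k + 1) a F) (hE : ∀ g ∈ L, ∀ x, Zc ℓ B Q (k + 1) a k x →
      dfc F (k + 1) k (act g x) = ρ g (dfc F (k + 1) k x))
    (hx : Zc ℓ B Q (k + 1) a k x) (h0 : dfc F (k + 1) k x ≠ 0) :
    ∃ F', EA ℓ B Q L ρ ⊥ k a F' := by
  have tk := ht k (by omega)
  have hd := hB _ tk
  obtain ⟨x1, x2, x3⟩ := (Tu.gen_succ G stab_bot).1 hx.gen
  obtain ⟨-, x4, -⟩ := (Tu.gen_succ G stab_bot).1 hx.gen'
  have x5 := ((Tu.ind_succ G.str stab_bot).1 hx.ind).2.2
  rw [bot_sup_eq] at x2 x3 x4 x5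
  rw [Tu.spn_upd le_rfl, update_self] at x4
  rw [Tu.spn_succ] at x5
  let μ : Mat p n →ₗ[ZMod p] ZMod p := ipL.flip (x (k + 1)) ∘ₗ evx (x k)
  have gx : Gd ℓ B Q (a k) μ (spn B k x) (x k) (x (k + 1)) :=
    ⟨x2, x4, hx.sing, x3, x5, fun _ _ => rfl⟩
  have ex : ∀ W, Small ℓ B 3 W → ∃ s s', Gd ℓ B Q (a k) μ W s s' := fun W hW => by
    obtain ⟨s, hs, n1⟩ := hCW ℓ B Q W ⊥ 0 _ G hW.1 small_bot tk (rm_of_small G.str hW (by omega))
    rw [sup_bot_eq] at n1
    obtain ⟨s', hs', n2, e⟩ := hSOLV ℓ B Q W ⊥ 0 _ _ s μ G hW.1 small_bot tk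
      (rm_of_small G.str hW (by omega)) hs.mem n1
    rw [sup_bot_eq] at n2
    refine ⟨s, s', hs, hs', fun θ hθ => ?_, n1, n2, e⟩
    obtain ⟨P, hP, hp⟩ := G.adm.pol θ hθ
    have e1 := e _ (cb_of_com G.str.alg hP _ _)
    have e2 := gx.val _ (cb_of_com G.str.alg hP _ _)
    rw [cb_comp _ hs.mem, ip_pr G.str.lab hs'.mem] at e1
    rw [cb_comp _ x2.mem, ip_pr G.str.lab x4.mem] at e2
    have e3 := hx.sing θ hθ
    rw [hp, x2.sing θ hθ, x4.sing θ hθ, e2] at e3
    rw [hp, hs.sing θ hθ, hs'.sing θ hθ, e1, e3]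
  let F' : Tup p n → M := fun y =>
    Classical.epsilon fun m => ∀ s s', Gd ℓ B Q (a k) μ (spn B k y) s s' → DD F k y s s' = m
  have sp : ∀ y s s', GenW ℓ B Q ⊥ k a y → Gd ℓ B Q (a k) μ (spn B k y) s s' →
      F' y = DD F k y s s' := fun y s s' hy hs =>
    (Classical.epsilon_spec (p := fun m => ∀ s s', Gd ℓ B Q (a k) μ (spn B k y) s s' →
      DD F k y s s' = m) ⟨_, fun _ _ ht => indep hGL1 G hB hk tk h hy ht hs⟩ s s' hs).symm
  refine ⟨F', ⟨fun y z e => ?_, fun j hj y hy => ?_⟩, fun i hi => ht i (by omega),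
    fun g hg _ y hy => ?_, x, x1, ?_⟩
  · have e1 : ∀ v, F (update y k v) = F (update z k v) := fun v => h.loc _ _ fun i hi => by
      rcases eq_or_ne i k with rfl | e'
      · simp
      · simp [e', e i (by omega)]
    simp only [F', DD, e1, Tu.spn_congr e]
  · obtain ⟨s, s', hs⟩ := ex _ ((Tu.small G.str hy.mem).mono (by omega))
    obtain ⟨y0, y1, y2⟩ := Tu.gen_rep G stab_bot hj hy
    have le : ∀ v ∈ spn B (k + 1) y, spn B k (update y j v) ≤ spn B (k + 1) y := fun v hv =>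
      Tu.spn_le Tu.stab fun i hi => by
        rcases eq_or_ne i j with rfl | e
        · rwa [update_self]
        · rw [update_of_ne e]; exact Tu.mem (by omega)
    have ad : ∀ v, SV ℓ Q (spn B (k + 1) y) (a k) v → v ∉ spn B (k + 1) y →
        F (update (update y j (y j + y k)) k v) =
          F (update y k v) + F (update (update y j (y k)) k v) := fun v hv hn => by
      have z := Tu.gen_congr (Tu.gen_perm (Tu.swap_lt (k := k + 2) (i := k) (j := k + 1)
        (by omega) (by omega)) (snoc G hy hv hn)) (a' := update a (k + 1) (a j))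
        (y := update (update y k v) (k + 1) (y k)) (fun i hi => ?_) fun i hi => ?_
      · have e := h.add j (by omega) _ z
        rw [update_self, update_of_ne (by omega), update_of_ne hj.ne] at e
        have e1 : ∀ u, F (update (update (update y k v) (k + 1) (y k)) j u) =
            F (update (update y j u) k v) := fun u => h.loc _ _ fun i hi => by
          rw [update_comm (by omega), update_of_ne hi.ne, update_comm hj.ne]
        rwa [e1, e1, h.loc (update (update y k v) (k + 1) (y k)) (update y k v)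
          fun i hi => update_of_ne hi.ne _ _] at e
      all_goals
        rcases eq_or_ne i k with rfl | e
        · simp
        · rcases eq_or_ne i (k + 1) with rfl | e'
          · simp
          · simp [Equiv.swap_apply_of_ne_of_ne e e', e, e']
    rw [sp _ s s' y2 (hs.anti (le _ (add_mem (Tu.mem (by omega)) (Tu.mem (by omega))))),
      sp _ s s' y1 (hs.anti (le _ (Tu.mem (by omega)))),
      sp _ s s' y0 (hs.anti (Tu.spn_mono (by omega))), DD, DD, DD, ad _ hs.s4 hs.n4,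
      ad _ hs.s1 hs.n1, ad _ hs.s2 hs.n3]
    abel
  · obtain ⟨s, s', hs⟩ := ex _ ((Tu.small G.str hy.mem).mono (by omega))
    have hu := hL.uq g hg
    have z := hs.zc G hy
    have gy := Tu.gen_act G.str hu fx_bot hy
    have i1 := Tu.ind_act G.str hu.mem hu.un fx_bot z.ind
    have g1 := ((Tu.gen_succ G stab_bot).1 (Tu.gen_act G.str hu fx_bot z.gen)).2
    have g2 := ((Tu.gen_succ G stab_bot).1 (Tu.gen_act G.str hu fx_bot z.gen')).2.1
    have g3 := ((Tu.ind_succ G.str stab_bot).1 i1).2.2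
    simp only [Tu.act_upd, bot_sup_eq, update_self, Tu.spn_upd le_rfl, Tu.spn_upd k.le_succ,
      update_of_ne k.lt_succ_self.ne, Tu.spn_snoc] at g1 g2 g3
    rw [sp _ (g *ᵥ s) (g *ᵥ s') gy ⟨g1.1, g2, by rw [← Matrix.mulVec_add]; exact hu.sing hs.s3, g1.2,
      g3, fun C hC => by rw [com_mulVec hC.1 hu.mem, hu.un.ip, hs.val C hC]⟩, sp _ s s' hy hs,
      ← dfc_eq h, ← dfc_eq h, ← hE g hg _ z, Tu.act_upd, Tu.act_upd]
  · rwa [sp _ _ _ x1 gx, ← dfc_eq h, update_eq_self, update_eq_self]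

end TDEF

open TDEF in
theorem c_DEF (p n : ℕ) [Fact p.Prime] (hGL1 : C_GL1 p n) (hCW : C_CW p n) (hSOLV : C_SOLV p n) :
    C_DEF p n := by
  intro ℓ B Q L M _ _ ρ k a F G hB hL hk ht h hE
  by_cases hz : MZ ℓ B Q (k + 1) a F
  · exact Or.inl hz
  simp only [MZ, not_forall] at hz
  obtain ⟨i, hi, x, hx, h0⟩ := hz
  have hk' := k.lt_succ_self
  have ss : ∀ {X : Type} (f : ℕ → X), (f ∘ Equiv.swap i k) ∘ Equiv.swap i k = f := fun f => by
    funext m; simp
  refine Or.inr ⟨_, core (a := a ∘ Equiv.swap i k) hGL1 hCW hSOLV G hB hL hk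
    (fun m hm => ht _ ((Tu.swap_lt hi hk' m).2 hm)) (ma_swap hi hk' h) (fun g hg y hy => ?_)
    (x := x ∘ Equiv.swap i k) (by simpa using zc_swap hi hk' hx) ?_⟩
  · have := zc_swap hi hk' hy
    rw [ss, Equiv.swap_apply_right] at this
    rw [dfc_swap hi hk', dfc_swap hi hk', Equiv.swap_apply_right]
    exact hE g hg i hi _ this
  · rwa [dfc_swap hi hk', ss, Equiv.swap_apply_right]

end Pool.Agent.P.MP_f1a348_lc.CE
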