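import Pool.Agent.P.MP_f1a348_lc.CE.Iface
import Pool.Agent.P.MP_f1a348_lc.PG.Forms
import Pool.Agent.P.MP_f1a348_lc.UP.EBase

/-!
Project CE: the degrees of the natural modules.
-/

namespace Pool.Agent.P.MP_f1a348_lc.CE

open Matrix Module Pool.Agent.P.MP_f1a348_lc.PG Pool.Agent.P.MP_f1a348_lc.UP

namespace TDEG
variable {p n : ℕ} [Fact p.Prime]

/-- the form as a function of three vectors -/
noncomputable def T (w : Frm p n) (x y z : Vec p n) : ZMod p := ev w ![x, y, z]

theorem ev_eq (w : Frm p n) (x : Fin 3 → Vec p n) : ev w x = T w (x 0) (x 1) (x 2) := by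
  unfold T
  congr 1
  funext j
  fin_cases j <;> rfl

theorem T_pull (g : Mat p n) (w : Frm p n) (x y z : Vec p n) :
    T (pull1 g w) x y z = T w (g *ᵥ x) (g *ᵥ y) (g *ᵥ z) := by
  rw [T, ev_pull1, ev_eq]
  rfl

theorem T_sub (v w : Frm p n) (x y z : Vec p n) : T (v - w) x y z = T v x y z - T w x y z :=
  ev_sub _ _ _

theorem T_add1 (w : Frm p n) (x x' y z : Vec p n) :
    T w (x + x') y z = T w x y z + T w x' y z := by
  have := ev_update_add w ![x, y, z] 0 x x'
  simp only [ev_eq] at this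
  exact this

theorem T_add2 (w : Frm p n) (x y y' z : Vec p n) :
    T w x (y + y') z = T w x y z + T w x y' z := by
  have := ev_update_add w ![x, y, z] 1 y y'
  simp only [ev_eq] at this
  exact this

theorem T_add3 (w : Frm p n) (x y z z' : Vec p n) :
    T w x y (z + z') = T w x y z + T w x y z' := by
  have := ev_update_add w ![x, y, z] 2 z z'
  simp only [ev_eq] at this
  exact this

theorem letter (a : Mat p n) : ∃ A, a = 1 + A := ⟨a - 1, by abel⟩

theorem os_mul {A B : Mat p n} (h : Os (1 + A) (1 + B)) : A * B = 0 ∧ B * A = 0 := by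
  simpa only [Os, add_sub_cancel_left] using h

theorem os_vec {A B : Mat p n} (h : Os (1 + A) (1 + B)) (v : Vec p n) : B *ᵥ (A *ᵥ v) = 0 := by
  rw [Matrix.mulVec_mulVec, (os_mul h).2, Matrix.zero_mulVec]

theorem one_add_vec (A : Mat p n) (v : Vec p n) : (1 + A) *ᵥ v = v + A *ᵥ v := by
  rw [Matrix.add_mulVec, Matrix.one_mulVec]

theorem four {a b c d : Mat p n} (h : [a, b, c, d].Pairwise Os) :
    dif (fun z => (pull1 z : Module.End (ZMod p) (Frm p n))) [a, b, c, d] = 0 := by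
  obtain ⟨A, rfl⟩ := letter a
  obtain ⟨B, rfl⟩ := letter b
  obtain ⟨C, rfl⟩ := letter c
  obtain ⟨D, rfl⟩ := letter d
  simp only [List.pairwise_cons, List.forall_mem_cons] at h
  obtain ⟨⟨h1, h2, h3, -⟩, ⟨h4, h5, -⟩, ⟨h6, -⟩, -⟩ := h
  refine LinearMap.ext fun w => frm_ext fun x => ?_
  simp only [LinearMap.zero_apply, ev_zero]
  simp only [ev_eq, dif, List.map_cons, List.map_nil, List.prod_cons, List.prod_nil, mul_one,
    Module.End.mul_apply, LinearMap.sub_apply, Module.End.one_apply, T_sub, T_pull, one_add_vec,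
    Matrix.mulVec_add, os_vec h1, os_vec h2, os_vec h3, os_vec h4, os_vec h5, os_vec h6, add_zero,
    T_add1, T_add2, T_add3]
  ring

theorem three {a b c : Mat p n} (h : [a, b, c].Pairwise Os) (w : Frm p n) (x : Fin 3 → Vec p n)
    (j : Fin 3) (hx : ∀ y ∈ [a, b, c], y *ᵥ x j = x j) :
    ev (dif (fun z => (pull1 z : Module.End (ZMod p) (Frm p n))) [a, b, c] w) x = 0 := by
  obtain ⟨A, rfl⟩ := letter a
  obtain ⟨B, rfl⟩ := letter b
  obtain ⟨C, rfl⟩ := letter c
  simp only [List.pairwise_cons, List.forall_mem_cons] at h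
  obtain ⟨⟨h1, h2, -⟩, ⟨h4, -⟩, -⟩ := h
  simp only [List.forall_mem_cons, one_add_vec, add_eq_left] at hx
  obtain ⟨k1, k2, k3, -⟩ := hx
  fin_cases j <;> simp only [Fin.zero_eta, Fin.mk_one, Fin.reduceFinMk] at k1 k2 k3 <;>
    simp only [ev_eq, dif, List.map_cons, List.map_nil, List.prod_cons, List.prod_nil, mul_one,
      Module.End.mul_apply, LinearMap.sub_apply, Module.End.one_apply, T_sub, T_pull, one_add_vec,
      Matrix.mulVec_add, os_vec h1, os_vec h2, os_vec h4, k1, k2, k3, add_zero,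
      T_add1, T_add2, T_add3] <;> ring

theorem dif_mem {ℓ : Ix n → ℕ} (h : Lab ℓ) {t : ℕ} (l : List (Mat p n)) (hl : ∀ y ∈ l, Dg ℓ y)
    {w : Frm p n} (hw : w ∈ Wt ℓ t) :
    dif (fun z => (pull1 z : Module.End (ZMod p) (Frm p n))) l w ∈ Wt ℓ t := by
  induction l with
  | nil => exact hw
  | cons a l ih =>
    have := ih fun y hy => hl y (List.mem_cons_of_mem _ hy)
    exact sub_mem (pull1_mem_Wt h (hl a List.mem_cons_self) this) this

theorem cj3 {a b c : Mat p n} (h : [a, b, c].Pairwise Os) : dif cjr [a, b, c] = 0 := by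
  obtain ⟨A, rfl⟩ := letter a
  obtain ⟨B, rfl⟩ := letter b
  obtain ⟨C, rfl⟩ := letter c
  simp only [List.pairwise_cons, List.forall_mem_cons] at h
  obtain ⟨⟨h1, h2, -⟩, ⟨h4, -⟩, -⟩ := h
  have r : ∀ {A B : Mat p n}, Os (1 + A) (1 + B) → ∀ X, B * (A * X) = 0 := fun h X => by
    rw [← mul_assoc, (os_mul h).2, zero_mul]
  have s : ∀ {A B : Mat p n}, Os (1 + A) (1 + B) → ∀ X, st A * (st B * X) = 0 := fun h X => by
    rw [← mul_assoc, ← st_mul, (os_mul h).2, st_zero, zero_mul]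
  refine LinearMap.ext fun M => ?_
  simp only [dif, cjr, List.map_cons, List.map_nil, List.prod_cons, List.prod_nil, mul_one,
    Module.End.mul_apply, LinearMap.sub_apply, Module.End.one_apply, lr_apply, st_add, st_one,
    LinearMap.zero_apply, mul_add, add_mul, mul_sub, sub_mul, one_mul, mul_assoc, r h1, r h2, r h4,
    s h1, s h2, s h4, (os_mul h1).2, (os_mul h2).2, (os_mul h4).2, mul_zero, add_zero]
  abel

theorem fn3 {a b c : Mat p n} (h : [a, b, c].Pairwise Os) {θ : Fn p n} {P : Mat p n}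
    (hθ : Pol θ P) : dif cmpf [a, b, c] θ = 0 := by
  obtain ⟨A, rfl⟩ := letter a
  obtain ⟨B, rfl⟩ := letter b
  obtain ⟨C, rfl⟩ := letter c
  simp only [List.pairwise_cons, List.forall_mem_cons] at h
  obtain ⟨⟨h1, h2, -⟩, ⟨h4, -⟩, -⟩ := h
  funext x
  have e : ∀ x y, θ (x + y) = θ x + θ y + ip (P *ᵥ x) y := hθ
  simp only [dif, cmpf, List.map_cons, List.map_nil, List.prod_cons, List.prod_nil, mul_one,
    Module.End.mul_apply, LinearMap.sub_apply, Module.End.one_apply, Pi.sub_apply,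
    LinearMap.funLeft_apply, Pi.zero_apply, one_add_vec, Matrix.mulVec_add, os_vec h1, os_vec h2,
    os_vec h4, add_zero, e, ip_add_left, ip_add_right]
  ring

end TDEG

open TDEG in
theorem c_DEG (p n : ℕ) [Fact p.Prime] : C_DEG p n := by
  intro l hl
  refine ⟨fun e => ?_, fun e => ?_⟩
  · obtain ⟨a, b, c, d, rfl⟩ := List.length_eq_four.1 e
    exact four hl
  · obtain ⟨a, b, c, rfl⟩ := List.length_eq_three.1 e
    refine ⟨fun ℓ B i h ⟨j, t⟩ hu w hw => ?_, cj3 hl, fun θ C hθ => fn3 hl hθ⟩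
    refine Wt_ext h.lab (dif_mem h.lab _ (fun y hy => h.alg.dg y (hu y hy).1) hw) (zero_mem _)
      fun x hx => ?_
    rw [ev_zero]
    exact three hl w x j fun y hy => U1.triv h (hu y hy) t (hx j)

end Pool.Agent.P.MP_f1a348_lc.CE
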