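import Pool.Agent.P.MP_f1a348_lc.CE.Iface
import Pool.Agent.P.MP_f1a348_lc.CF.TREL
import Pool.Agent.P.MP_f1a348_lc.CF.TPEEL

/-!
Project CE: dropping the orthogonality conditions; gluing of trilinear forms.
-/

namespace Pool.Agent.P.MP_f1a348_lc.CE

open Matrix Module Pool.Agent.P.MP_f1a348_lc.PG Pool.Agent.P.MP_f1a348_lc.UP

namespace TDROP

open Pool.Agent.P.MP_f1a348_lc.CF.PEELx

variable {p n : ℕ} {ℓ : Ix n → ℕ} {B : Sub p n}

/-- the triple with `u` in place `m` -/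
def T {X : Type} (m : Fin 3) (u y z : X) : Fin 3 → X := (tri3 m).symm (u, y, z)

theorem T0 {X : Type} (m : Fin 3) (u y z : X) : T m u y z m = u := t0 m _
theorem T1 {X : Type} (m : Fin 3) (u y z : X) : T m u y z (m + 1) = y := CF.PEELx.t1 m _
theorem T2 {X : Type} (m : Fin 3) (u y z : X) : T m u y z (m + 2) = z := CF.PEELx.t2 m _

theorem T_self {X : Type} (m : Fin 3) (x : Fin 3 → X) : T m (x m) (x (m + 1)) (x (m + 2)) = x :=
  (tri3 m).symm_apply_apply x

theorem n12 (m : Fin 3) : m + 1 ≠ m + 2 := by revert m; decide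

theorem up0 {X : Type} (m : Fin 3) (u y z v : X) :
    Function.update (T m u y z) m v = T m v y z := by
  funext j
  rcases three m j with rfl | rfl | rfl
  · rw [Function.update_self, T0]
  · rw [Function.update_of_ne (n1 m), T1, T1]
  · rw [Function.update_of_ne (n2 m), T2, T2]

theorem up1 {X : Type} (m : Fin 3) (u y z v : X) :
    Function.update (T m u y z) (m + 1) v = T m u v z := by
  funext j
  rcases three m j with rfl | rfl | rfl
  · rw [Function.update_of_ne (n1 j).symm, T0, T0]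
  · rw [Function.update_self, T1]
  · rw [Function.update_of_ne (n12 m).symm, T2, T2]

theorem up2 {X : Type} (m : Fin 3) (u y z v : X) :
    Function.update (T m u y z) (m + 2) v = T m u y v := by
  funext j
  rcases three m j with rfl | rfl | rfl
  · rw [Function.update_of_ne (n2 j).symm, T0, T0]
  · rw [Function.update_of_ne (n12 m), T1, T1]
  · rw [Function.update_self, T2]

/-- the conditions read from the place `m` on -/
structure D (ℓ : Ix n → ℕ) (B : Sub p n) (a : Fin 3 → Ix n) (f : Fin 3 → Prop) (m : Fin 3)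
    (u y z : Vec p n) : Prop where
  mu : u ∈ Vb ℓ (a m)
  my : y ∈ Vb ℓ (a (m + 1))
  mz : z ∈ Vb ℓ (a (m + 2))
  c0 : f m → z ∈ perp (orb (Co ℓ B) y)
  c1 : z ∈ perp (Wo ℓ B (f (m + 1)) u)
  c2 : y ∈ perp (Wo ℓ B (f (m + 2)) u)

variable [Fact p.Prime] {a : Fin 3 → Ix n} {f : Fin 3 → Prop}

theorem od_iff (hS : Str ℓ B) (m : Fin 3) (u y z : Vec p n) :
    OD ℓ B a f (T m u y z) ↔ D ℓ B a f m u y z := by
  constructor
  · intro h
    refine ⟨?_, ?_, ?_, fun e => ?_, mem_perp_Wo.2 fun e => ?_, mem_perp_Wo.2 fun e => ?_⟩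
    · simpa only [T0] using h.mem m
    · simpa only [T1] using h.mem (m + 1)
    · simpa only [T2] using h.mem (m + 2)
    · simpa only [T1, T2] using h.orth m e
    · have := h.orth (m + 1) e
      rw [a12, a11, T0, T2] at this
      exact perp_orb_co_symm hS this
    · have := h.orth (m + 2) e
      rwa [a22, a21, T0, T1] at this
  · intro h
    refine ⟨fun j => ?_, fun k e => ?_⟩
    · rcases three m j with rfl | rfl | rfl
      · rw [T0]; exact h.mu
      · rw [T1]; exact h.my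
      · rw [T2]; exact h.mz
    · rcases three m k with rfl | rfl | rfl
      · rw [T1, T2]; exact h.c0 e
      · rw [a12, a11, T0, T2]
        exact perp_orb_co_symm hS (mem_perp_Wo.1 h.c1 e)
      · rw [a22, a21, T0, T1]
        exact mem_perp_Wo.1 h.c2 e

theorem addOn_iff (hS : Str ℓ B) (m : Fin 3) (G : (Fin 3 → Vec p n) → ZMod p) :
    AddOn ℓ B a f G ↔
      (∀ u v y z, D ℓ B a f m u y z → D ℓ B a f m v y z →
        G (T m (u + v) y z) = G (T m u y z) + G (T m v y z)) ∧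
      (∀ u y v z, D ℓ B a f m u y z → D ℓ B a f m u v z →
        G (T m u (y + v) z) = G (T m u y z) + G (T m u v z)) ∧
      ∀ u y z v, D ℓ B a f m u y z → D ℓ B a f m u y v →
        G (T m u y (z + v)) = G (T m u y z) + G (T m u y v) := by
  constructor
  · intro h
    refine ⟨fun u v y z h1 h2 => ?_, fun u y v z h1 h2 => ?_, fun u y z v h1 h2 => ?_⟩
    · have := h m (T m u y z) v ((od_iff hS m _ _ _).2 h1)
        (by rw [up0]; exact (od_iff hS m _ _ _).2 h2)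
      rwa [up0, up0, T0] at this
    · have := h (m + 1) (T m u y z) v ((od_iff hS m _ _ _).2 h1)
        (by rw [up1]; exact (od_iff hS m _ _ _).2 h2)
      rwa [up1, up1, T1] at this
    · have := h (m + 2) (T m u y z) v ((od_iff hS m _ _ _).2 h1)
        (by rw [up2]; exact (od_iff hS m _ _ _).2 h2)
      rwa [up2, up2, T2] at this
  · rintro ⟨h0, h1, h2⟩ j x v hx hv
    obtain ⟨u, y, z, rfl⟩ : ∃ u y z, x = T m u y z := ⟨_, _, _, (T_self m x).symm⟩
    rcases three m j with rfl | rfl | rfl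
    · rw [up0] at hv
      rw [up0, up0, T0]
      exact h0 _ _ _ _ ((od_iff hS _ _ _ _).1 hx) ((od_iff hS _ _ _ _).1 hv)
    · rw [up1] at hv
      rw [up1, up1, T1]
      exact h1 _ _ _ _ ((od_iff hS _ _ _ _).1 hx) ((od_iff hS _ _ _ _).1 hv)
    · rw [up2] at hv
      rw [up2, up2, T2]
      exact h2 _ _ _ _ ((od_iff hS _ _ _ _).1 hx) ((od_iff hS _ _ _ _).1 hv)

omit [Fact p.Prime] in
theorem od_mono {g : Fin 3 → Prop} (e : ∀ k, g k → f k) {x : Fin 3 → Vec p n}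
    (h : OD ℓ B a f x) : OD ℓ B a g x := ⟨h.mem, fun k hk => h.orth k (e k hk)⟩

theorem perp_Wo_nsmul {q : Prop} {v y : Vec p n} (i : ℕ) (h : y ∈ perp (Wo ℓ B q v)) :
    y ∈ perp (Wo ℓ B q (i • v)) := by
  rw [← Nat.cast_smul_eq_nsmul (ZMod p)]
  exact perp_Wo_smul _ h

theorem core (hGL2 : C_GL2 p n) (hSPL : C_SPL p) (hS : Str ℓ B) (hB : Big ℓ B 30) {m : Fin 3}
    (ht : ¬ Triv ℓ B (a (m + 1))) (hm : f m) {G : (Fin 3 → Vec p n) → ZMod p}
    (hG : AddOn ℓ B a f G) :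
    ∃ G', AddOn ℓ B a (fun k => f k ∧ k ≠ m) G' ∧ ∀ x, OD ℓ B a f x → G' x = G x := by
  have hREL := CF.s_REL p n
  have hd := hB _ ht
  obtain ⟨h0, h1, h2⟩ := (addOn_iff hS m G).1 hG
  have k1 : ∀ u : Vb (p := p) ℓ (a m), ∃ β : Vec p n →ₗ[ZMod p] Vec p n →ₗ[ZMod p] ZMod p,
      ∀ y z, D ℓ B a f m u.1 y z → G (T m u.1 y z) = β y z := by
    intro u
    obtain ⟨β, hβ⟩ := hGL2 ℓ B (Wo ℓ B (f (m + 2)) u.1) (Wo ℓ B (f (m + 1)) u.1) (a (m + 1))
      (a (m + 2)) (fun y z => G (T m u.1 y z)) hS (small_Wo hS _ u.2) (small_Wo hS _ u.2)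
      (by omega) fun y hy hy' z hz hz' hyz =>
        ⟨fun y' a1 a2 a3 => h1 _ _ _ _
            ⟨u.2, hy, hz, fun _ => by rwa [orb_co_ntriv hS.alg hy ht], hz', hy'⟩
            ⟨u.2, a1, hz, fun _ => by rwa [orb_co_ntriv hS.alg a1 ht], hz', a2⟩,
          fun z' a1 a2 a3 => h2 _ _ _ _
            ⟨u.2, hy, hz, fun _ => by rwa [orb_co_ntriv hS.alg hy ht], hz', hy'⟩
            ⟨u.2, hy, a1, fun _ => by rwa [orb_co_ntriv hS.alg hy ht], a2, hy'⟩⟩
    refine ⟨β, fun y z h => hβ y h.my h.c2 z h.mz h.c1 ?_⟩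
    rw [← orb_co_ntriv hS.alg h.my ht]
    exact h.c0 hm
  choose β hβ using k1
  have k2 : ∀ u v : Vb (p := p) ℓ (a m), ∃ C : Cb ℓ B (a (m + 2)).rev (a (m + 1)),
      ∀ y ∈ Vb ℓ (a (m + 1)), y ∈ perp (Wo ℓ B (f (m + 2)) u.1) →
        y ∈ perp (Wo ℓ B (f (m + 2)) v.1) → ∀ z ∈ Vb ℓ (a (m + 2)),
        z ∈ perp (Wo ℓ B (f (m + 1)) u.1) → z ∈ perp (Wo ℓ B (f (m + 1)) v.1) →
          ip (C.1 *ᵥ y) z = β (u + v) y z - β u y z - β v y z := by
    intro u v
    obtain ⟨C, hC, hE⟩ := (hREL ℓ B (1 + 1) (1 + 1) _ _ (a (m + 1)) (a (m + 2)) hS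
      ((small_Wo hS (f (m + 2)) u.2).sup hS.alg (small_Wo hS (f (m + 2)) v.2))
      ((small_Wo hS (f (m + 1)) u.2).sup hS.alg (small_Wo hS (f (m + 1)) v.2))
      ht (by omega)).1 (β (u + v) - β u - β v) fun y hy hy' z hz hz' hyz => by
        rw [mem_perp_sup] at hy' hz'
        have d1 : D ℓ B a f m u.1 y z := ⟨u.2, hy, hz, fun _ => hyz, hz'.1, hy'.1⟩
        have d2 : D ℓ B a f m v.1 y z := ⟨v.2, hy, hz, fun _ => hyz, hz'.2, hy'.2⟩
        have d3 : D ℓ B a f m (u + v).1 y z := ⟨(u + v).2, hy, hz, fun _ => hyz,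
          perp_Wo_add hz'.1 hz'.2, perp_Wo_add hy'.1 hy'.2⟩
        simp only [LinearMap.sub_apply]
        rw [← hβ _ _ _ d1, ← hβ _ _ _ d2, ← hβ _ _ _ d3, Submodule.coe_add, h0 _ _ _ _ d1 d2]
        ring
    refine ⟨⟨C, hC⟩, fun y hy a1 a2 z hz a3 a4 => ?_⟩
    rw [← hE y hy (mem_perp_sup.2 ⟨a1, a2⟩) z hz (mem_perp_sup.2 ⟨a3, a4⟩)]
    simp only [LinearMap.sub_apply]
  choose C hC using k2
  have uq : ∀ (u v w : Vb (p := p) ℓ (a m)) (E : Cb ℓ B (a (m + 2)).rev (a (m + 1))),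
      (∀ y ∈ Vb ℓ (a (m + 1)), y ∈ perp (Wo ℓ B (f (m + 2)) u.1) →
        y ∈ perp (Wo ℓ B (f (m + 2)) v.1) → y ∈ perp (Wo ℓ B (f (m + 2)) w.1) →
        ∀ z ∈ Vb ℓ (a (m + 2)), z ∈ perp (Wo ℓ B (f (m + 1)) u.1) →
        z ∈ perp (Wo ℓ B (f (m + 1)) v.1) → z ∈ perp (Wo ℓ B (f (m + 1)) w.1) →
          ip (E.1 *ᵥ y) z = 0) → E = 0 := by
    intro u v w E hE
    refine Subtype.ext ((hREL ℓ B (1 + 1 + 1) (1 + 1 + 1) _ _ (a (m + 1)) (a (m + 2)) hS
      (((small_Wo hS (f (m + 2)) u.2).sup hS.alg (small_Wo hS (f (m + 2)) v.2)).sup hS.alg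
        (small_Wo hS (f (m + 2)) w.2))
      (((small_Wo hS (f (m + 1)) u.2).sup hS.alg (small_Wo hS (f (m + 1)) v.2)).sup hS.alg
        (small_Wo hS (f (m + 1)) w.2))
      ht (by omega)).2 E.1 E.2 fun y hy hy' z hz hz' => ?_)
    rw [mem_perp_sup, mem_perp_sup] at hy' hz'
    exact hE y hy hy'.1.1 hy'.1.2 hy'.2 z hz hz'.1.1 hz'.1.2 hz'.2
  obtain ⟨γ, hγ⟩ := hSPL _ _ C
    (fun u v => by
      rw [← sub_eq_zero]
      refine uq u v u _ fun y hy a1 a2 _ z hz b1 b2 _ => ?_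
      rw [Submodule.coe_sub, Matrix.sub_mulVec, ip_sub_left, hC u v y hy a1 a2 z hz b1 b2,
        hC v u y hy a2 a1 z hz b2 b1, add_comm v u]
      ring)
    (fun u v w => by
      rw [← sub_eq_zero]
      refine uq u v w _ fun y hy a1 a2 a3 z hz b1 b2 b3 => ?_
      rw [Submodule.coe_sub, Submodule.coe_add, Submodule.coe_add, Matrix.sub_mulVec,
        Matrix.add_mulVec, Matrix.add_mulVec, ip_sub_left, ip_add_left, ip_add_left,
        hC u v y hy a1 a2 z hz b1 b2, hC v w y hy a2 a3 z hz b2 b3,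
        hC (u + v) w y hy (perp_Wo_add a1 a2) a3 z hz (perp_Wo_add b1 b2) b3,
        hC u (v + w) y hy a1 (perp_Wo_add a2 a3) z hz b1 (perp_Wo_add b2 b3), add_assoc u v w]
      ring)
    (fun u => by
      refine uq u u u _ fun y hy a1 _ _ z hz b1 _ _ => ?_
      have e : ∀ i : ℕ, ip ((C u (i • u)).1 *ᵥ y) z =
          (β ((i + 1) • u) y z - β (i • u) y z) - β u y z := fun i => by
        rw [hC u (i • u) y hy a1 (perp_Wo_nsmul i a1) z hz b1 (perp_Wo_nsmul i b1), succ_nsmul']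
        ring
      have e0 : p • u = 0 • u := by
        rw [← Nat.cast_smul_eq_nsmul (ZMod p), ZMod.natCast_self, zero_smul, zero_smul]
      rw [Submodule.coe_sum, Matrix.sum_mulVec, ip_sum_left]
      simp only [e]
      rw [Finset.sum_sub_distrib, Finset.sum_range_sub (fun i => β (i • u) y z), e0]
      simp)
  let π : Vec p n → Vb (p := p) ℓ (a m) := fun u => ⟨pr ℓ (a m) *ᵥ u, pr_mulVec_mem _ _⟩
  have hπ : ∀ u (h : u ∈ Vb ℓ (a m)), π u = ⟨u, h⟩ := fun u h => Subtype.ext (mem_Vb_iff.1 h)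
  refine ⟨fun x => β (π (x m)) (x (m + 1)) (x (m + 2)) -
    ip ((γ (π (x m))).1 *ᵥ x (m + 1)) (x (m + 2)), (addOn_iff hS m _).2 ⟨?_, ?_, ?_⟩, ?_⟩
  · intro u v y z d1 d2
    have w1 : ∀ {k : Fin 3} {u y : Vec p n}, k ≠ m → y ∈ perp (Wo ℓ B (f k ∧ k ≠ m) u) →
        y ∈ perp (Wo ℓ B (f k) u) := fun hk h =>
      mem_perp_Wo.2 fun e => mem_perp_Wo.1 h ⟨e, hk⟩
    simp only [T0, T1, T2]
    have e : π (u + v) = ⟨u, d1.mu⟩ + ⟨v, d2.mu⟩ := hπ _ (add_mem d1.mu d2.mu)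
    rw [e, hπ u d1.mu, hπ v d2.mu, hγ, Submodule.coe_add, Submodule.coe_add, Matrix.add_mulVec,
      Matrix.add_mulVec, ip_add_left, ip_add_left,
      hC ⟨u, d1.mu⟩ ⟨v, d2.mu⟩ y d1.my (w1 (n2 m) d1.c2) (w1 (n2 m) d2.c2) z d1.mz
        (w1 (n1 m) d1.c1) (w1 (n1 m) d2.c1)]
    ring
  · intro u y v z _ _
    simp only [T0, T1, T2, map_add, LinearMap.add_apply, Matrix.mulVec_add, ip_add_left]
    ring
  · intro u y z v _ _
    simp only [T0, T1, T2, map_add, ip_add_right]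
    ring
  · intro x hx
    obtain ⟨u, y, z, rfl⟩ : ∃ u y z, x = T m u y z := ⟨_, _, _, (T_self m x).symm⟩
    have d := (od_iff hS m u y z).1 hx
    simp only [T0, T1, T2]
    rw [hπ u d.mu, ← hβ ⟨u, d.mu⟩ y z d,
      mem_perp_orb.1 (d.c0 hm) _ (co_of_cb (γ ⟨u, d.mu⟩).2 ht), sub_zero]

/-- a function that is additive in every place on a box is a form -/
theorem form (hl : Lab ℓ) {G : (Fin 3 → Vec p n) → ZMod p} (hf : ∀ k, ¬ f k)
    (hG : AddOn ℓ B a f G) :
    ∃ w ∈ Wt ℓ (key ℓ a), ∀ x, (∀ j, x j ∈ Vb ℓ (a j)) → ev w x = G x := by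
  have up : ∀ (x : Fin 3 → Vec p n) (j : Fin 3) (v : Vec p n),
      (fun i => pr ℓ (a i) *ᵥ Function.update x j v i) =
        Function.update (fun i => pr ℓ (a i) *ᵥ x i) j (pr ℓ (a j) *ᵥ v) := fun x j v => by
    funext i
    by_cases e : i = j
    · subst e; simp
    · simp [Function.update_of_ne e]
  have hadd : ∀ (x : Fin 3 → Vec p n) (j : Fin 3) (u v : Vec p n),
      G (fun i => pr ℓ (a i) *ᵥ Function.update x j (u + v) i) =
        G (fun i => pr ℓ (a i) *ᵥ Function.update x j u i) +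
          G (fun i => pr ℓ (a i) *ᵥ Function.update x j v i) := fun x j u v => by
    have := hG j (fun i => pr ℓ (a i) *ᵥ Function.update x j u i) (pr ℓ (a j) *ᵥ v)
      ⟨fun i => pr_mulVec_mem _ _, fun k hk => (hf k hk).elim⟩
      ⟨fun i => by
        rw [up, Function.update_idem, ← up]
        exact pr_mulVec_mem _ _, fun k hk => (hf k hk).elim⟩
    rw [up, Function.update_idem, Function.update_idem, Function.update_self,
      ← Matrix.mulVec_add, ← up, ← up, ← up] at this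
    exact this
  let M : MultilinearMap (ZMod p) (fun _ : Fin 3 => Vec p n) (ZMod p) :=
    MultilinearMap.mk' (fun x => G fun i => pr ℓ (a i) *ᵥ x i) hadd fun x j c v => by
      let L : Vec p n →+ ZMod p := AddMonoidHom.mk'
        (fun v => G fun i => pr ℓ (a i) *ᵥ Function.update x j v i) (hadd x j)
      exact (L.toZModLinearMap p).map_smul c v
  have hM : ∀ x, M x = G fun i => pr ℓ (a i) *ᵥ x i := fun _ => rfl
  refine ⟨fun i => M fun j => Pi.single (i j) 1, fun i hi => ?_, fun x hx => ?_⟩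
  · obtain ⟨j, hj⟩ : ∃ j, ℓ (i j) ≠ ℓ (a j) := by
      by_contra e
      push Not at e
      exact hi ((key_eq_iff hl).2 e)
    have e : (M fun j => Pi.single (i j) 1) = M fun j => pr ℓ (a j) *ᵥ Pi.single (i j) 1 := by
      rw [hM, hM]
      congr 1
      funext j
      exact (mem_Vb_iff.1 (pr_mulVec_mem _ _)).symm
    show (M fun j => Pi.single (i j) 1) = 0
    rw [e]
    exact M.map_coord_zero j (pr_mulVec_of_ne (single_mem_Vb rfl 1) hj.symm)
  · have e1 : G x = M x := by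
      rw [hM]
      congr 1
      funext j
      exact (mem_Vb_iff.1 (hx j)).symm
    have e2 : x = fun j => ∑ α, x j α • (Pi.single α 1 : Vec p n) := by
      funext j
      exact pi_eq_sum_univ' (x j)
    rw [e1]
    conv_rhs => rw [e2]
    rw [M.map_sum]
    unfold ev
    refine Finset.sum_congr rfl fun i _ => ?_
    rw [M.map_smul_univ, smul_eq_mul, mul_comm]

end TDROP

open TDROP in
theorem c_DROP (p n : Nat) [Fact p.Prime] (hGL2 : C_GL2 p n) (hSPL : C_SPL p) : C_DROP p n := by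
  intro ℓ B a f m G hS hB hG
  by_cases h : f m ∧ ¬ Triv ℓ B (a (m + 1))
  · exact core hGL2 hSPL hS hB h.2 h.1 hG
  have key : ∀ x, OD ℓ B a (fun k => f k ∧ k ≠ m) x → OD ℓ B a f x := fun x hx =>
    ⟨hx.mem, fun k hk => by
      by_cases e : k = m
      · subst e
        have t : Triv ℓ B (a (k + 1)) := by
          by_contra t
          exact h ⟨hk, t⟩
        rw [orb_co_triv (hx.mem _) t, perp_bot]; trivial
      · exact hx.orth k ⟨hk, e⟩⟩
  exact ⟨G, fun j x v h1 h2 => hG j x v (key _ h1) (key _ h2), fun _ _ => rfl⟩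

open TDROP in
theorem c_GL3 (p n : Nat) [Fact p.Prime] (hGLA : C_GLA p n) (hDROP : C_DROP p n) : C_GL3 p n := by
  intro ℓ B Q k a f hG hB hk ht hA hZ
  have hS := hG.str
  have hB' : Big ℓ B 30 := fun b t => le_trans (by omega) (hB b t)
  obtain ⟨G0, a0, e0'⟩ := hGLA ℓ B Q k a f hG hB hk ht hA hZ
  obtain ⟨G1, a1, e1⟩ := hDROP ℓ B _ _ 0 G0 hS hB' a0
  obtain ⟨G2, a2, e2⟩ := hDROP ℓ B _ _ 1 G1 hS hB' a1
  obtain ⟨G3, a3, e3⟩ := hDROP ℓ B _ _ 2 G2 hS hB' a2
  obtain ⟨w, hw, e4⟩ := form hS.lab (fun k => by revert k; decide) a3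
  refine ⟨w, hw, fun x hx => ?_⟩
  have hm : ∀ j, tx k x j ∈ Vb ℓ (bx k a j) := fun j => by
    unfold tx bx
    split_ifs with e
    · exact hx.mem _ e
    · exact single_mem_Vb rfl 1
  have tr : ∀ j : Fin 3, ¬ j.val < k → Triv ℓ B (bx k a j) := fun j e => by
    unfold bx
    rw [if_neg e]
    exact triv_c0 hS.alg
  have od : OD ℓ B (bx k a) (fun _ => True) (tx k x) := ⟨hm, fun j _ => by
    by_cases c1 : (j + 1).val < k
    · by_cases c2 : (j + 2).val < k
      · refine perp_anti (Submodule.map_mono co_le_com) ?_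
        unfold tx
        rw [if_pos c1, if_pos c2]
        exact hx.orth _ c1 _ c2
      · exact triv_mem_perp hS (hm _) (tr _ c2) _
    · rw [orb_co_triv (hm _) (tr _ c1), perp_bot]; trivial⟩
  rw [e4 _ hm, e3 _ (od_mono (fun _ _ => trivial) od), e2 _ (od_mono (fun _ _ => trivial) od),
    e1 _ od, e0' x hx]

end Pool.Agent.P.MP_f1a348_lc.CE
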