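import Pool.Agent.P.MP_f1a348_lc.CE.Base2

/-! Every module of bounded degree receives an equivariant function on generic tuples. -/

namespace Pool.Agent.P.MP_f1a348_lc.CE

open Matrix Module Pool.Agent.P.MP_f1a348_lc.PG Pool.Agent.P.MP_f1a348_lc.UP

namespace TEMB

set_option linter.unusedSectionVars false

variable {p n : ℕ} [Fact p.Prime] {ℓ : Ix n → ℕ} {B : Sub p n} {Q : QS p n} {L : Set (Mat p n)}
  {d : ℕ} {M : Type} [AddCommGroup M] [Module (ZMod p) M] {ρ : Mat p n → Module.End (ZMod p) M}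

theorem dif_cons (y : Mat p n) (l : List (Mat p n)) : dif ρ (y :: l) = (ρ y - 1) * dif ρ l := by
  simp [dif]

/-- the sum of the supports -/
def sup : List (Mat p n) → VS p n
  | [] => ⊥
  | y :: l => im (y - 1) ⊔ sup l

theorem le_sup {l : List (Mat p n)} {y : Mat p n} (hy : y ∈ l) : im (y - 1) ≤ sup l := by
  induction l with
  | nil => cases hy
  | cons z l ih =>
    rcases List.mem_cons.1 hy with rfl | hy
    · exact le_sup_left
    · exact (ih hy).trans le_sup_right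

theorem small_sup (h : Alg ℓ B) {l : List (Mat p n)} (H : ∀ y ∈ l, Small ℓ B 10 (im (y - 1))) :
    Small ℓ B (10 * l.length) (sup l) := by
  induction l with
  | nil => exact small_bot
  | cons z l ih =>
    rw [List.length_cons, mul_add, add_comm]
    exact (H z List.mem_cons_self).sup h (ih fun y hy => H y (List.mem_cons_of_mem _ hy))

theorem eo_im (h : Str ℓ B) {y : Mat p n} (hy : U1 B y) {w : Vec p n} (hw : w ∈ im (y - 1)) :
    eo ℓ B *ᵥ w = w := by
  obtain ⟨v, rfl⟩ := mem_im.1 hw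
  have hd := h.alg.dg _ (sub_mem hy.1 h.alg.one)
  rw [Matrix.mulVec_mulVec, hd.comm_eo, ← Matrix.mulVec_mulVec, eq_sum_pr h.lab v,
    Matrix.mulVec_sum, Matrix.mulVec_sum, Matrix.mulVec_sum]
  refine Finset.sum_congr rfl fun a _ => ?_
  have hx := pr_mulVec_mem (ℓ := ℓ) a v
  by_cases t : Triv ℓ B a
  · rw [eo_mulVec_triv hx t, Matrix.mulVec_zero, Matrix.sub_mulVec, hy.triv h t hx,
      Matrix.one_mulVec, sub_self]
  · rw [eo_mulVec_ntriv hx t]

theorem eo_sup (h : Str ℓ B) {l : List (Mat p n)} (H : ∀ y ∈ l, U1 B y) :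
    ∀ w ∈ sup l, eo ℓ B *ᵥ w = w := by
  induction l with
  | nil => intro w hw; rw [(Submodule.mem_bot _).1 hw, Matrix.mulVec_zero]
  | cons z l ih =>
    intro w hw
    obtain ⟨a, ha, b, hb, rfl⟩ := Submodule.mem_sup.1 hw
    rw [Matrix.mulVec_add, eo_im h (H z List.mem_cons_self) ha,
      ih (fun y hy => H y (List.mem_cons_of_mem _ hy)) b hb]

/-- a vector with small support -/
theorem supp (hGENR : C_GENR p n) (G : Geo ℓ B Q) (hb : Big ℓ B 200) (hL : Btw B Q L)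
    (m : LM L d ρ) (hd : d ≤ 3) {t : M} (ht : t ≠ 0) : ∃ U z, Small ℓ B 30 U ∧
      (∀ w ∈ U, eo ℓ B *ᵥ w = w) ∧ z ≠ 0 ∧ ∀ g ∈ L, Fx U g → ρ g z = z := by
  let P : ℕ → Prop := fun j => ∃ l : List (Mat p n), l.length = j ∧
    (∀ y ∈ l, y ∈ L ∧ Small ℓ B 10 (im (y - 1))) ∧ l.Pairwise Os ∧ dif ρ l t ≠ 0
  have h0 : P 0 := ⟨[], rfl, fun _ e => (by cases e), List.Pairwise.nil, ht⟩
  have h1 : ¬ P (d + 1) := fun ⟨l, a, b, c, e⟩ =>
    e (by rw [m.deg l a (fun y hy => (b y hy).1) c]; rfl)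
  obtain ⟨j, hj, ⟨l, rfl, b, c, e⟩, hn⟩ : ∃ j ≤ d, P j ∧ ¬ P (j + 1) := by
    by_contra k
    push Not at k
    have : ∀ j ≤ d + 1, P j := fun j => by
      induction j with
      | zero => exact fun _ => h0
      | succ j ih => exact fun e => k j (by omega) (ih (by omega))
    exact h1 (this _ le_rfl)
  have sU : Small ℓ B 30 (sup l) := (small_sup G.str.alg fun y hy => (b y hy).2).mono (by omega)
  have fix : ∀ y ∈ L, Small ℓ B 10 (im (y - 1)) → Fx (sup l) y → ρ y (dif ρ l t) = dif ρ l t :=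
    fun y hy s f => by
    by_contra k
    refine hn ⟨y :: l, rfl, fun x hx => ?_, List.pairwise_cons.2 ⟨fun x hx =>
      os_of_fx' (hL.grp.un y hy) (hL.grp.un x (b x hx).1) (f.anti (le_sup hx)), c⟩, ?_⟩
    · rcases List.mem_cons.1 hx with rfl | hx
      exacts [⟨hy, s⟩, b x hx]
    · rw [dif_cons]
      exact sub_ne_zero.2 k
  have fe : ∀ e ∈ EW ℓ B Q (sup l), ρ e (dif ρ l t) = dif ρ l t := fun e he =>
    ew_ind (P := fun e => ρ e (dif ρ l t) = dif ρ l t) (by rw [m.one]; rfl)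
      (fun N x y z hN a1 a2 hz ih => by
        have e1 := hL.eu _ (hN.sieg G).eu
        rw [m.mul _ e1 _ (hL.eu _ (ew_le_eu G hz)), Module.End.mul_apply, ih]
        exact fix _ e1 ((hN.small G).mono (by omega)) (hN.fx G.str.alg sU.1 a1 a2)) he
  refine ⟨sup l, _, sU, eo_sup G.str fun y hy => (hL.uq y (b y hy).1).1, e, fun g hg f => ?_⟩
  obtain ⟨W, _, _, _, k⟩ := hGENR ℓ B Q _ 30 G sU fun a t => le_trans (by omega) (hb a t)
  obtain ⟨e, he, _, s⟩ := k g (hL.uq g hg) f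
  have eL := hL.eu _ (ew_le_eu G he)
  have m1 := hL.grp.mul e eL g hg
  have e2 := m.mul _ (hL.grp.star e eL) _ m1
  rw [← mul_assoc, (hL.grp.un e eL).st_mul, one_mul] at e2
  rw [e2, Module.End.mul_apply, fix _ m1 s ((ew_fx G.str.alg sU.1 he).mul f), fe _ (ew_star he)]

end TEMB

open TEMB

theorem c_EMB (p n : ℕ) [Fact p.Prime] (hGENR : C_GENR p n) (hMOVE : C_MOVE p n)
    (hBND : C_BND p n) : C_EMB p n := by
  rintro ℓ B Q L d M _ _ ρ G hb hL m hd ⟨t, ht⟩
  obtain ⟨U, z, sU, hU, hz, fix⟩ := supp hGENR G hb hL m hd ht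
  have key : ∀ W : VS p n, Stab B W → W ≤ U → ∃ k ≤ d, ∃ a F, EA ℓ B Q L ρ W k a F := fun W => by
    induction W using IsNoetherian.induction with
    | hgt W ih =>
    intro hW le
    by_cases e : U ≤ W
    · exact ⟨0, d.zero_le, fun _ => c0 n, fun _ => z,
        ⟨fun _ _ _ => rfl, fun i hi => absurd hi i.not_lt_zero⟩,
        fun i hi => absurd hi i.not_lt_zero, fun g hg f _ _ => (fix g hg (f.anti e)).symm,
        0, genW_zero, hz⟩
    obtain ⟨b, v, hv, hn⟩ : ∃ b, ∃ v ∈ U, pr ℓ b *ᵥ v ∉ W := by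
      by_contra c
      push Not at c
      exact e fun v hv => mem_of_blocks G.str.lab fun b => c b v hv
    have hu := pr_mulVec_mem (ℓ := ℓ) b v
    have hm := sU.1 _ (com_pr G.str.alg b) v hv
    generalize pr ℓ b *ᵥ v = u at hn hu hm
    have t : ¬ Triv ℓ B b := fun t => hn (by
      rw [← hU u hm, eo_mulVec_triv hu t]; exact zero_mem W)
    obtain ⟨k, hk, a, F, H⟩ := ih (W ⊔ orb (Com B) u)
      (lt_of_le_of_ne le_sup_left fun c => hn (c ▸ Submodule.mem_sup_right (self_mem_orb u)))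
      (hW.sup (stab_orb u)) (sup_le le (sU.1.orb_le hm))
    have sW := sU.of_le hW le
    obtain ⟨j, hj, F', H'⟩ := hMOVE ℓ B Q L d M ρ W b u k a F G hb hL m hd (by omega) sW t hu hn H
    exact ⟨k + j, hBND ℓ B Q L d M ρ W _ _ F' G hb hL m (by omega) sW H', _, F', H'⟩
  exact key ⊥ stab_bot bot_le

end Pool.Agent.P.MP_f1a348_lc.CE
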