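import Pool.Agent.P.MP_f1a348_lc.CE.EB
import Pool.Agent.P.MP_f1a348_lc.CE.TGL0

/-!
Project CE: the image of the relation under an equivariant map is a coboundary.
-/

namespace Pool.Agent.P.MP_f1a348_lc.CE

open Matrix Module Pool.Agent.P.MP_f1a348_lc.PG Pool.Agent.P.MP_f1a348_lc.UP EB

namespace TENG
variable {p n : ℕ} [Fact p.Prime] {ℓ : Ix n → ℕ} {B : Sub p n} {Q : QS p n} {d k : ℕ}
  {M : Type} [AddCommGroup M] [Module (ZMod p) M] {σ : Mat p n → Module.End (ZMod p) M}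
  {K : Mat p n → M → Prop} {a : ℕ → Ix n} {ψ : M →ₗ[ZMod p] Frm p n}

/-- the cocycle is a coboundary on generic tuples -/
theorem cob (hKX : C_KX p n) (hTR : C_TR p n) (hSHAP : C_SHAP p n) (G : Geo ℓ B Q)
    (hb : Big ℓ B 200) (hK : KX B d σ K) (hL : Btw B Q {z | ∃ w, K z w})
    (E : EG0 ℓ B σ K k a ψ) (hk : 1 ≤ k) : ∃ θ : Tup p n → ZMod p, MA ℓ B Q ⊥ k a θ ∧
      ∀ z w, K z w → ∀ x, GenW ℓ B Q ⊥ k a x → ev (ψ w) (tx k x) = θ (act z x) - θ x := by
  have T := fun w => hTR ℓ B Q k a w G E.le E.nt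
  have : ∀ z, ∃ w, (∃ w, K z w) → K z w := fun z => by
    by_cases h : ∃ w, K z w
    · exact ⟨h.choose, fun _ => h.choose_spec⟩
    · exact ⟨0, fun e => (h e).elim⟩
  choose κ hκ using this
  have e1 : ∀ z w, K z w → ∀ x, GenW ℓ B Q ⊥ k a x →
      ev (ψ w) (tx k x) = ev (ψ (κ z)) (tx k x) := fun z w h x hx => by
    have := (T _).1 (E.ker _ (((hKX ℓ B d M σ K G.str hK).2.2.1 z _ w (hκ z ⟨w, h⟩)).1 h)) x hx
    rwa [map_sub, ev_sub, sub_eq_zero] at this
  obtain ⟨θ, h1, h2⟩ := hSHAP ℓ B Q _ k a (fun g x => ev (ψ (κ g)) (tx k x)) G hb hL hk E.le E.nt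
    (fun g _ => (T _).2.2.2.1) fun g hg h hh x hx => by
      have h3 := (T _).1 (E.eqv _ _ _ _ (hκ g hg) (hκ h hh)) x hx
      rw [ev_sub, sub_eq_zero, (T _).2.2.2.2.2 h (hL.uq h hh).1] at h3
      rw [← e1 _ _ (hK.mul _ _ _ _ (hκ g hg) (hκ h hh)) x hx, map_add, ev_add, h3]
  exact ⟨θ, h1, fun z w h x hx => by rw [e1 z w h x hx, h2 z ⟨w, h⟩ x hx]⟩

theorem lm0 (L : Set (Mat p n)) : LM L 0 (fun _ => (1 : Module.End (ZMod p) (ZMod p))) where
  one := rfl
  mul _ _ _ _ := (mul_one _).symm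
  deg l h _ _ := by
    obtain ⟨y, rfl⟩ := List.length_eq_one_iff.1 h
    simp [dif]

end TENG

open TENG

theorem c_ENG (p n : ℕ) [Fact p.Prime] (hKX : C_KX p n) (hTR : C_TR p n) (hSP : C_SP p n)
    (hSHAP : C_SHAP p n) (hGL1 : C_GL1 p n) (hGL3 : C_GL3 p n) (hDEF : C_DEF p n)
    (hBND : C_BND p n) : C_ENG p n := by
  intro ℓ B Q d M _ _ σ K k a ψ G hb hK hU hE E
  have hL : Btw B Q {z | ∃ w, K z w} :=
    ⟨(hKX ℓ B d M σ K G.str hK).1, fun z ⟨w, h⟩ => hU z w h, hE⟩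
  have T := fun w => hTR ℓ B Q k a w G E.le E.nt
  refine ⟨E, fun hk => ?_, fun hk => ?_⟩
  · subst hk
    obtain ⟨θ, h1, h2⟩ := cob hKX hTR hSHAP G hb hK hL E le_rfl
    have t := E.nt 0 one_pos
    have hd := hb _ t
    obtain ⟨η, C, hC, e1, e2⟩ := hGL1 ℓ B Q ⊥ 0 (a 0) (fun y => θ fun _ => y) G small_bot t
      (by omega) fun y y' s s' o h0 h0' => by
        have := h1.add 0 one_pos (Function.update (fun _ => y') 0 y)
          (gen_two G s.mem s.sing h0 s'.mem s'.sing (fun e => h0' (Submodule.mem_sup_right e)) o)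
        have c : ∀ x, θ x = θ fun _ => x 0 := fun x => h1.loc _ _ fun i hi => by
          rw [Nat.lt_one_iff.1 hi]
        rw [c, c (Function.update _ _ y), c (Function.update _ _ _)] at this
        simpa using this
    have top : ∀ x : Vec p n, x ∈ perp ⊥ := fun x => by rw [perp_bot]; trivial
    refine ⟨fun x => η (pr ℓ (a 0) *ᵥ x), ⟨C, hC.1, fun x y => ?_⟩, fun x => ?_,
      fun z w h x hx => ?_⟩
    · simp only [Matrix.mulVec_add]
      rw [e1 _ (pr_mulVec_mem _ _) (top _) _ (pr_mulVec_mem _ _) (top _), ip_mulVec_right,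
        st_pr G.str.lab, Matrix.mulVec_mulVec, Matrix.mulVec_mulVec, hC.2]
    · simp only [Matrix.mulVec_mulVec, pr_mul_pr]
    have hz := hU z w h
    have := (hSP ℓ B Q ⊥ ⊥ 0 (a 0) x G stab_bot small_bot t
      (TGL0.rm_small G.str small_bot (by omega)) hx (top _)).2.2 (ZMod p)
      (fun v => ev (ψ w) ![v, e0, e0] - (η (z *ᵥ v) - η v)) (fun u hu _ v hv _ => ?_)
      fun v s h0 => ?_
    · simp only [mem_Vb_iff.1 hx, mem_Vb_iff.1 (hz.vb G.str hx)]
      exact sub_eq_zero.1 this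
    · have h3 := ev_update_add (ψ w) ![u, e0, e0] 0 u v
      have h4 : ∀ s : Vec p n, Function.update ![u, e0, e0] 0 s = ![s, e0, e0] := fun s => by
        funext j; fin_cases j <;> rfl
      simp only [h4] at h3
      simp only [h3, Matrix.mulVec_add]
      rw [e1 _ (hz.vb G.str hu) (top _) _ (hz.vb G.str hv) (top _), e1 _ hu (top _) _ hv (top _),
        com_mulVec hC.1 hz.mem, hz.un.ip]
      ring
    · have h0' : v ≠ 0 := fun e => h0 (e ▸ zero_mem _)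
      have h3 := h2 z w h (fun _ => v) (gen_one G s.mem s.sing h0')
      rw [tx_one] at h3
      simp only [h3]
      rw [e2 v s h0', e2 (z *ᵥ v) ⟨hz.vb G.str s.mem, hz.sing s.sing, top _⟩
        (fx_bot.not_mem hz.un h0')]
      exact sub_self _
  obtain ⟨θ, h1, h2⟩ := cob hKX hTR hSHAP G hb hK hL E (by omega)
  obtain ⟨j, rfl⟩ : ∃ j, k = j + 1 := ⟨k - 1, by omega⟩
  have h3 := E.le
  obtain hz | ⟨a', F, hF⟩ := hDEF ℓ B Q _ (ZMod p) (fun _ => 1) j a θ G hb hL (by omega) E.nt h1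
    fun g ⟨w, hw⟩ i hi x hx => by
      rw [dfc_act, dfc_congr (F' := fun y => ev (ψ w) (tx (j + 1) y) + θ y) G hi hx fun y hy => by
        rw [h2 g w hw y hy, sub_add_cancel]]
      have := (T (ψ w)).2.2.2.2.1 i hi x
      simp only [dfc, Module.End.one_apply] at this ⊢
      linear_combination this
  · obtain ⟨u, hu, e⟩ := hGL3 ℓ B Q _ a θ G hb E.le E.nt h1 hz
    refine ⟨u, hu, fun z w h => (T _).2.1 (big30 hb) ?_ fun x hx => ?_⟩
    · exact sub_mem (sub_mem (pull1_mem_Wt G.str.lab (G.str.alg.dg z (hU z w h).mem) hu) hu)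
        (E.mem w)
    · rw [ev_sub, ev_sub, (T _).2.2.2.2.2 z (hU z w h).1, e _ (gen_act G.str (hU z w h) fx_bot hx),
        e x hx, h2 z w h x hx, sub_self]
  · have := hBND ℓ B Q _ 0 (ZMod p) _ ⊥ j a' F G hb hL (lm0 _) (by omega)
      (small_bot.mono (by omega)) hF
    omega

end Pool.Agent.P.MP_f1a348_lc.CE
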