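import Pool.Agent.P.MP_f1a348_lc.CE.EB

/-!
Project CE: a non-zero equivariant map to a box modulo traces.
-/

namespace Pool.Agent.P.MP_f1a348_lc.CE

open Matrix Module Pool.Agent.P.MP_f1a348_lc.PG Pool.Agent.P.MP_f1a348_lc.UP EB

namespace TENG1
variable {p n : ℕ} [Fact p.Prime] {ℓ : Ix n → ℕ} {B : Sub p n} {Q : QS p n} {d k : ℕ}
  {M : Type} [AddCommGroup M] [Module (ZMod p) M] {σ : Mat p n → Module.End (ZMod p) M}
  {K : Mat p n → M → Prop} {a : ℕ → Ix n}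

/-- the functionals that factor through `e` and kill the kernel -/
def Ann (K : Mat p n → M → Prop) (e : M →ₗ[ZMod p] M) :
    Submodule (ZMod p) (M →ₗ[ZMod p] ZMod p) where
  carrier := {t | (∀ u, t (e u) = t u) ∧ ∀ s, K 1 s → t s = 0}
  add_mem' h h' := ⟨fun u => by simp [h.1 u, h'.1 u], fun s hs => by simp [h.2 s hs, h'.2 s hs]⟩
  zero_mem' := ⟨fun _ => rfl, fun _ _ => rfl⟩
  smul_mem' c t h := ⟨fun u => by simp [h.1 u], fun s hs => by simp [h.2 s hs]⟩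

theorem dif_cons {X : Type} [AddCommGroup X] [Module (ZMod p) X]
    (ρ : Mat p n → Module.End (ZMod p) X) (y : Mat p n) (l : List (Mat p n)) (t : X) :
    dif ρ (y :: l) t = ρ y (dif ρ l t) - dif ρ l t := by simp [dif]

theorem dif_concat (σ : Mat p n → Module.End (ZMod p) M) (y : Mat p n) (l : List (Mat p n))
    (v : M) : dif σ (l ++ [y]) v = dif σ l (σ y v - v) := by simp [dif]

/-- the dual of the module of values -/
theorem dual (hKX : C_KX p n) (S : Str ℓ B) (hK : KX B d σ K) (h0 : ¬ ∀ z w, K z w → K 1 w) :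
    ∃ (A : Submodule (ZMod p) (M →ₗ[ZMod p] ZMod p)) (ρ : Mat p n → Module.End (ZMod p) A),
      LM {z | ∃ w, K z w} d ρ ∧ (∃ t : A, t ≠ 0) ∧ (∀ t : A, ∀ s, K 1 s → t.1 s = 0) ∧
      (∀ t : A, (∀ z w, K z w → t.1 w = 0) → t = 0) ∧
      ∀ t : A, ∀ y v z w, K y v → K z w → (ρ z t).1 v = t.1 (σ z v) := by
  classical
  obtain ⟨hL, ⟨Z, hZ⟩, -, hσ⟩ := hKX ℓ B d M σ K S hK
  let P : Submodule (ZMod p) M := Submodule.span (ZMod p) {w | ∃ z, K z w}
  have hv : ∀ z w, K z w → w ∈ P := fun z w h => Submodule.subset_span ⟨z, h⟩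
  have hP : ∀ z, (∃ w, K z w) → ∀ v ∈ P, σ z v ∈ P := fun z ⟨w, h⟩ v hv' => by
    refine Submodule.span_le.2 (?_ : _ ⊆ (P.comap (σ z) : Set M)) hv'
    rintro u ⟨y, hy⟩
    simpa using sub_mem (hv _ _ (hK.mul _ _ _ _ hy h)) (hv _ _ h)
  obtain ⟨π, hπ⟩ := LinearMap.exists_extend (LinearMap.id : P →ₗ[ZMod p] P)
  let e : M →ₗ[ZMod p] M := P.subtype ∘ₗ π
  have e1 : ∀ v ∈ P, e v = v := fun v h => congrArg Subtype.val (LinearMap.congr_fun hπ ⟨v, h⟩)
  have e2 : ∀ v, e v ∈ P := fun v => (π v).2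
  let τ : Mat p n → Module.End (ZMod p) M := fun z => if ∃ w, K z w then σ z else 1
  have hτ : ∀ z, (∃ w, K z w) → τ z = σ z := fun z h => if_pos h
  have hτ' : ∀ z s, K 1 s → K 1 (τ z s) := fun z s h => by
    by_cases c : ∃ w, K z w
    · rw [hτ z c]; exact hσ z _ s c.choose_spec h
    · rwa [show τ z = 1 from if_neg c]
  let ρ : Mat p n → Module.End (ZMod p) (Ann K e) := fun z =>
    (LinearMap.lcomp (ZMod p) (ZMod p) (τ z ∘ₗ e)).restrict fun t ht =>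
      ⟨fun u => by simp [e1 _ (e2 u)], fun s hs => by
        simpa [e1 s (hv _ _ hs)] using ht.2 _ (hτ' z s hs)⟩
  have hρ : ∀ z, (∃ w, K z w) → ∀ (t : Ann K e), ∀ v ∈ P, (ρ z t).1 v = t.1 (σ z v) :=
    fun z h t v hv => by
      change t.1 (τ z (e v)) = _
      rw [e1 v hv, hτ z h]
  have ex : ∀ s t : Ann K e, (∀ v ∈ P, s.1 v = t.1 v) → s = t := fun s t h =>
    Subtype.ext (LinearMap.ext fun v => by rw [← s.2.1, ← t.2.1, h _ (e2 v)])
  have z0 : ∀ t : Ann K e, (∀ z w, K z w → t.1 w = 0) → t = 0 := fun t h => ex _ _ fun v hv =>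
    (show P ≤ LinearMap.ker t.1 from Submodule.span_le.2 fun u ⟨z, hz⟩ => h z u hz) hv
  refine ⟨Ann K e, ρ, ⟨LinearMap.ext fun t => ex _ _ fun v h => ?_,
    fun y hy z hz => LinearMap.ext fun t => ex _ _ fun v h => ?_,
    fun l h1 h2 h3 => LinearMap.ext fun t => z0 _ fun z w h => ?_⟩, ?_, fun t => t.2.2, z0,
    fun t y v z w h h' => hρ z ⟨w, h'⟩ t v (hv y v h)⟩
  · rw [hρ 1 hL.one t v h, hK.act1]; rfl
  · rw [hρ _ (hL.mul y hy z hz) t v h, Module.End.mul_apply, hρ y hy _ v h,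
      hρ z hz t _ (hP y hy v h), hK.act y z (hK.mem y _ hy.choose_spec) (hK.mem z _ hz.choose_spec),
      Module.End.mul_apply]
  · have key : ∀ l : List (Mat p n), (∀ y ∈ l, ∃ w, K y w) → ∀ v ∈ P,
        (dif ρ l t).1 v = t.1 (dif σ l.reverse v) := fun l => by
      induction l with
      | nil => intro _ v _; rfl
      | cons y l ih =>
        intro h v hv
        have hy := h y List.mem_cons_self
        have ih' := ih fun z hz => h z (List.mem_cons_of_mem _ hz)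
        rw [dif_cons, List.reverse_cons, dif_concat, map_sub, map_sub, ← ih' v hv,
          ← ih' _ (hP y hy v hv), ← hρ y hy _ v hv]
        rfl
    rw [key l h2 w (hv z w h)]
    exact t.2.2 _ (hK.deg _ (by simpa using h1) (fun y hy => h2 y (List.mem_reverse.1 hy))
      (List.pairwise_reverse.2 (h3.imp Os.symm)) z w h)
  · push Not at h0
    obtain ⟨z, w, h, hw⟩ := h0
    obtain ⟨φ, h1, h2⟩ := Z.exists_dual_map_eq_bot_of_notMem (fun c => hw ((hZ w).1 c))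
      inferInstance
    refine ⟨⟨φ ∘ₗ e, fun u => by simp [e1 _ (e2 u)], fun s hs => ?_⟩, fun c => h1 ?_⟩
    · have : φ s ∈ Z.map φ := ⟨s, (hZ s).2 hs, rfl⟩
      rw [h2, Submodule.mem_bot] at this
      rwa [LinearMap.comp_apply, e1 s (hv _ _ hs)]
    · simpa [e1 w (hv z w h)] using LinearMap.congr_fun (congrArg Subtype.val c) w

end TENG1

open TENG1

theorem c_ENG1 (p n : ℕ) [Fact p.Prime] (hKX : C_KX p n) (hTR : C_TR p n) (hEMB : C_EMB p n)
    (hDEF : C_DEF p n) (hGL3 : C_GL3 p n) : C_ENG1 p n := by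
  classical
  intro ℓ B Q d M _ _ _ σ K G hb hd hK hU hE h0
  have hL : Btw B Q {z | ∃ w, K z w} :=
    ⟨(hKX ℓ B d M σ K G.str hK).1, fun z ⟨w, h⟩ => hU z w h, hE⟩
  obtain ⟨A, ρ, hρ, hne, a1, a2, a3⟩ := dual hKX G.str hK h0
  obtain ⟨k', hk', h'⟩ := hEMB ℓ B Q _ d A ρ G hb hL hρ hd hne
  have hex : ∃ k, ∃ a F, EA ℓ B Q {z | ∃ w, K z w} ρ ⊥ k a F := ⟨k', h'⟩
  have hk : Nat.find hex ≤ d := (Nat.find_min' hex h').trans hk'
  obtain ⟨a, F, hF⟩ := Nat.find_spec hex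
  have hmin := fun m => Nat.find_min hex (m := m)
  generalize Nat.find hex = k at hk hF hmin
  have T := fun w => hTR ℓ B Q k a w G (by omega) hF.nt
  have hz : MZ ℓ B Q k a F := by
    obtain rfl | ⟨j, rfl⟩ : k = 0 ∨ ∃ j, k = j + 1 := by
      rcases k with _ | j
      exacts [Or.inl rfl, Or.inr ⟨j, rfl⟩]
    · exact fun i hi => absurd hi (Nat.not_lt_zero _)
    refine (hDEF ℓ B Q _ A ρ j a F G hb hL (by omega) hF.nt hF.toMA fun g hg i hi x hx => ?_).elim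
      id fun h => (hmin j (by omega) h).elim
    rw [dfc_act, dfc_congr (F' := fun y => ρ g (F y)) G hi hx fun y hy => hF.eqv g hg fx_bot y hy]
    simp only [dfc, map_sub]
  have h3 : ∀ w : M, ∃ u : Wt ℓ (key ℓ (bx k a)), ∀ x, GenW ℓ B Q ⊥ k a x →
      ev u.1 (tx k x) = (F x).1 w := fun w => by
    obtain ⟨u, hu, e⟩ := hGL3 ℓ B Q k a (fun x => (F x).1 w) G hb (by omega) hF.nt
      ⟨fun x y h => by rw [hF.loc x y h], fun i hi x hx => by rw [hF.add i hi x hx]; rfl⟩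
      fun i hi x hx => LinearMap.congr_fun (congrArg Subtype.val (hz i hi x hx)) w
    exact ⟨⟨u, hu⟩, e⟩
  choose ω hω using h3
  let β := Module.Basis.ofVectorSpace (ZMod p) M
  let ψ : M →ₗ[ZMod p] Frm p n := (Wt ℓ _).subtype ∘ₗ β.constr (ZMod p) fun i => ω (β i)
  have hm : ∀ w, ψ w ∈ Wt ℓ (key ℓ (bx k a)) := fun w => Subtype.property _
  have hψ : ∀ x, GenW ℓ B Q ⊥ k a x → ∀ w, ev (ψ w) (tx k x) = (F x).1 w := fun x hx w =>
    LinearMap.congr_fun (β.ext (f₁ := evL (tx k x) ∘ₗ ψ) fun i => by simp [ψ, hω _ x hx]) w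
  refine ⟨k, hk, a, ψ, by omega, hF.nt, hm, fun w hw => (T _).2.1 (big30 hb) (hm w) fun x hx => ?_,
    fun y v z w h h' => (T _).2.1 (big30 hb) ?_ fun x hx => ?_, ?_⟩
  · rw [hψ x hx, a1 _ w hw]
  · exact sub_mem (hm _) (pull1_mem_Wt G.str.lab (G.str.alg.dg z (hU z w h').mem) (hm v))
  · rw [ev_sub, (T _).2.2.2.2.2 z (hU z w h').1, hψ x hx,
      hψ _ (gen_act G.str (hU z w h') fx_bot hx), hF.eqv z ⟨w, h'⟩ fx_bot x hx, a3 _ y v z w h h',
      sub_self]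
  · obtain ⟨x, hx, h1⟩ := hF.ne
    by_contra! hc
    exact h1 (a2 _ fun z w h => by rw [← hψ x hx, (T _).1 (hc z w h) x hx])

end Pool.Agent.P.MP_f1a348_lc.CE
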