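import Pool.Agent.P.MP_f1a348_lc.CE.Iface

/-!
Project CE: the engine and the lifting theorem for relations with values in trilinear forms.
-/

namespace Pool.Agent.P.MP_f1a348_lc.CE

open Matrix Module Pool.Agent.P.MP_f1a348_lc.PG Pool.Agent.P.MP_f1a348_lc.UP

namespace TENGA
variable {p n : ℕ} [Fact p.Prime] {ℓ : Ix n → ℕ} {B : Sub p n} {L : Set (Mat p n)} {t d k : ℕ}
  {K : Rel p n} {a : ℕ → Ix n} {ψ : Frm p n →ₗ[ZMod p] Frm p n}

theorem kx (hL : ∀ z ∈ L, U1 B z) (hK : CU.RN.KL ℓ L t K)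
    (hd : ∀ l : List (Mat p n), l.length = d + 1 → (∀ y ∈ l, U1 B y) → l.Pairwise Os →
      ∀ w ∈ Wt ℓ t, dif (fun z => (pull1 z : Module.End (ZMod p) (Frm p n))) l w = 0) :
    KX B d (fun z => (pull1 z : Module.End (ZMod p) (Frm p n))) K where
  act1 := LinearMap.ext pull1_one
  act y z _ _ := LinearMap.ext (pull1_mul y z)
  mem z w h := hL z (hK.mem z w h).1
  one := hK.one
  mul := hK.mul
  deg l h1 h2 h3 z w h := by
    rw [hd l h1 (fun y hy => let ⟨v, hv⟩ := h2 y hy; hL y (hK.mem y v hv).1) h3 w (hK.mem z w h).2]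
    exact hK.one

theorem eqv (hK : CU.RN.KL ℓ L t K)
    (E : EG0 ℓ B (fun z => (pull1 z : Module.End (ZMod p) (Frm p n))) K k a ψ) :
    CU.RN.Eqv ℓ B L K (key ℓ (bx k a)) ψ where
  wt := E.mem
  sp w hw := E.ker w (hK.mem_sp.1 hw)
  eqv z hz w hw := by
    obtain ⟨u, hu⟩ := hK.onto z hz
    have : CU.RN.PK K ≤ (Tr ℓ B).comap (ψ ∘ₗ pull1 z - pull1 z ∘ₗ ψ) :=
      Submodule.span_le.2 fun v ⟨y, hy⟩ => E.eqv y v z u hy hu
    exact this hw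

theorem bx_le (hk : k ≤ 1) (a : ℕ → Ix n) : bx k a = CU.RN.bx (bx k a 0) := by
  funext j
  fin_cases j
  · rfl
  · exact if_neg (by simp; omega)
  · exact if_neg (by simp; omega)

omit [Fact p.Prime] in
theorem bx_nt (h : ∀ i < k, ¬ Triv ℓ B (a i)) (j : Fin 3) :
    bx k a j = c0 n ∨ ¬ Triv ℓ B (bx k a j) := by
  unfold bx
  split_ifs with e
  exacts [Or.inr (h _ e), Or.inl rfl]

end TENGA

open TENGA

theorem c_ENGA (p n : ℕ) [Fact p.Prime] (hDEG : C_DEG p n) (hENG1 : C_ENG1 p n)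
    (hENG : C_ENG p n) : C_ENGA p n := by
  intro ℓ B Q L G hb hL a K hK
  have hU : ∀ z ∈ L, U1 B z := fun z hz => (hL.uq z hz).1
  have hX := kx (d := 3) hU hK fun l h1 _ h3 w _ => by rw [(hDEG l h3).1 h1]; rfl
  have h1 : ∀ z w, K z w → UQ B Q z := fun z w h => hL.uq z (hK.mem z w h).1
  have h2 : ∀ z ∈ EU B Q, ∃ w, K z w := fun z hz => hK.onto z (hL.eu z hz)
  by_cases h0 : ∀ z w, K z w → K 1 w
  · exact Or.inl h0
  obtain ⟨k, -, a', ψ, E0⟩ := hENG1 ℓ B Q 3 _ _ K G hb le_rfl hX h1 h2 h0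
  have E := hENG ℓ B Q 3 _ _ K k a' ψ G hb hX h1 h2 E0
  have e := eqv hK E0
  obtain ⟨z, w, hz, hw⟩ := E0.ne
  refine Or.inr ?_
  by_cases hk : k ≤ 1
  · rw [bx_le hk] at e
    exact Or.inl ⟨_, ψ, e.fo G.str hU (bx_nt E0.nt 0)
      ⟨w, CU.RN.mem_PK hz, fun h => hw (h ▸ zero_mem _)⟩⟩
  obtain ⟨θ, hθ, hc⟩ := E.two (by omega)
  refine Or.inr ⟨bx k a', ψ, θ, bx_nt E0.nt, ⟨0, ?_⟩, ⟨e, hθ, hc⟩, fun ht => hw ?_⟩
  · rw [show bx k a' 0 = a' 0 from if_pos (by simp; omega)]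
    exact E0.nt 0 (by omega)
  · have hu := (h1 z w hz).1
    simpa using sub_mem (sub_mem (pull1_mem_Tr hu.1 hu.2.1 ht) ht) (hc z w hz)

theorem c_LIFK (p n : ℕ) [Fact p.Prime] (hDEG : C_DEG p n) (hLIF : C_LIF p n) : C_LIFK p n := by
  intro ℓ B L a K Y S hb hU hK hY h0 h1 h2
  have h3 : ∀ z ∈ EU B (QY B Y), ∃ w, K z w := fun z hz => hK.onto z (h1 z hz)
  by_cases ht : ∃ j, Triv ℓ B (a j)
  · exact hLIF ℓ B 2 _ _ K Y S hb (by omega)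
      (kx hU hK fun l e1 e2 e3 => ((hDEG l e3).2 e1).1 ℓ B a S ht e2) hY h0 h3 (by omega)
  · exact hLIF ℓ B 3 _ _ K Y S hb le_rfl
      (kx hU hK fun l e1 _ e3 w _ => by rw [(hDEG l e3).1 e1]; rfl) hY h0 h3
      fun _ => h2 fun j e => ht ⟨j, e⟩

end Pool.Agent.P.MP_f1a348_lc.CE
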