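import Pool.Agent.P.MP_f1a348_lc.CE.Base

/-!
Project CE: functions that are additive on generic pairs of singular vectors are quadratic.
-/

namespace Pool.Agent.P.MP_f1a348_lc.CE

open Matrix Module Pool.Agent.P.MP_f1a348_lc.PG Pool.Agent.P.MP_f1a348_lc.UP

namespace TGL1

variable {p n : ℕ} [Fact p.Prime] {ℓ : Ix n → ℕ} {B : Sub p n} {Q : QS p n} {W S : VS p n}
  {b : Ix n} {x y z : Vec p n} {C : Mat p n}

theorem rm_small (h : Str ℓ B) {r k : ℕ} (hW : Small ℓ B r W) (hd : 2 * r + k ≤ db ℓ B b) :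
    Rm ℓ B W b k := by
  have h1 := finrank_perp_inf h hW b
  have h2 : finrank (ZMod p) (perp W ⊓ W ⊓ Vb ℓ b : VS p n) ≤ r * eb ℓ B b :=
    (Submodule.finrank_mono (inf_le_inf_right _ inf_le_right)).trans (hW.2 b)
  have h3 := Nat.mul_le_mul_right (eb ℓ B b) hd
  rw [db_mul_eb h, add_mul, mul_assoc] at h3
  unfold Rm
  omega

theorem sv_add (G : Geo ℓ B Q) (hx : SV ℓ Q W b x) (hy : SV ℓ Q W b y)
    (e : y ∈ perp (orb (Com B) x)) : SV ℓ Q W b (x + y) :=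
  ⟨add_mem hx.mem hy.mem, hx.sing.add G.adm hy.sing e, add_mem hx.prp hy.prp⟩

theorem sv_sub (G : Geo ℓ B Q) (hx : SV ℓ Q W b x) (hy : SV ℓ Q W b y)
    (e : y ∈ perp (orb (Com B) x)) : SV ℓ Q W b (x - y) :=
  ⟨sub_mem hx.mem hy.mem, hx.sing.sub G.adm hy.sing e, sub_mem hx.prp hy.prp⟩

theorem orth (hS : Stab B S) (hx : x ∈ S) (hy : y ∈ perp S) : y ∈ perp (orb (Com B) x) :=
  perp_anti (hS.orb_le hx) hy

theorem ip0 (hS : Stab B S) (hC : C ∈ Com B) (hx : x ∈ S) (hy : y ∈ perp S) :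
    ip (C *ᵥ x) y = 0 := hy _ (hS C hC x hx)

theorem ip0' (hB : Alg ℓ B) (hS : Stab B S) (hC : C ∈ Com B) (hx : x ∈ S) (hy : y ∈ perp S) :
    ip (C *ᵥ y) x = 0 := by
  rw [ip_mulVec, ip_comm]
  exact ip0 hS (com_st hB hC) hx hy

theorem ip_cb (h : Lab ℓ) (hx : x ∈ Vb ℓ b) (hy : y ∈ Vb ℓ b) (P : Mat p n) :
    ip ((pr ℓ b.rev * P * pr ℓ b) *ᵥ x) y = ip (P *ᵥ x) y := by
  rw [cb_comp _ hx, ip_pr h hy]

theorem cb_zero (h : Str ℓ B) {r : ℕ} (hW : Small ℓ B r W) (hd : r + r < db ℓ B b)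
    (hC : C ∈ Cb ℓ B b.rev b)
    (H : ∀ x ∈ Vb ℓ b, x ∈ perp W → ∀ y ∈ Vb ℓ b, y ∈ perp W → ip (C *ᵥ x) y = 0) : C = 0 := by
  obtain ⟨x, hx, hp, hn⟩ := out h hW hW hd
  refine cb_inj h hC hx (fun e => hn (e ▸ zero_mem _)) (by_contra fun h0 => hn ?_)
  exact mem_of_mulVec_mem h hW.1 hx hC.1 h0
    (mem_of_ip h.lab h.alg hW.1 (cb_mulVec_mem hC x) (H x hx hp))

/-- additive functions on a subspace are given by vectors -/
theorem repr {f : Vec p n → ZMod p} (hf : ∀ x ∈ S, ∀ y ∈ S, f (x + y) = f x + f y) :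
    ∃ t, ∀ z ∈ S, f z = ip t z := by
  obtain ⟨g, hg⟩ := LinearMap.exists_extend (p := S)
    ((AddMonoidHom.mk' (fun z : S => f z) fun x y => hf x x.2 y y.2).toZModLinearMap p)
  refine ⟨fun α => g (Pi.single α.rev 1), fun z hz => ?_⟩
  have e0 : g z = f z := congrArg (fun φ => φ ⟨z, hz⟩) hg
  rw [ip, ← e0]
  have e : z = ∑ α : Ix n, z α.rev • (Pi.single α.rev 1 : Vec p n) := by
    rw [sum_rev (fun α => z α • (Pi.single α 1 : Vec p n))]
    funext γ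
    simp [Finset.sum_apply, Pi.single_apply]
  conv_lhs => rw [e, map_sum]
  exact Finset.sum_congr rfl fun α _ => by rw [map_smul, smul_eq_mul, mul_comm]

/-- the linear form `P ↦ - ip (P x) y` -/
def mu (x y : Vec p n) : Mat p n →ₗ[ZMod p] ZMod p where
  toFun P := -ip (P *ᵥ x) y
  map_add' P P' := by rw [Matrix.add_mulVec, ip_add_left, neg_add]
  map_smul' c P := by
    rw [Matrix.smul_mulVec, ip_smul_left, RingHom.id_apply, smul_eq_mul, mul_neg]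

/-- a function that is additive on orthogonal pairs and vanishes on two isotropic spaces and on
their complement vanishes -/
theorem vanish (hCW : C_CW p n) (hSOLV : C_SOLV p n) (G : Geo ℓ B Q) {U U' : VS p n} {r : ℕ}
    (hU : Stab B U) (hU' : Stab B U') (iU : U ≤ perp U) (iU' : U' ≤ perp U')
    (hS : Small ℓ B r (W ⊔ U ⊔ U')) (t : ¬ Triv ℓ B b) (hd : 2 * r + 7 ≤ db ℓ B b) {g : Fn p n}
    (hg : ∀ y y', SV ℓ Q W b y → SV ℓ Q W b y' → y' ∈ perp (orb (Com B) y) →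
      g (y + y') = g y + g y')
    (g1 : ∀ v, SV ℓ Q (W ⊔ U ⊔ U') b v → g v = 0) (g2 : ∀ v ∈ U, SV ℓ Q W b v → g v = 0)
    (g3 : ∀ v ∈ U', SV ℓ Q W b v → g v = 0)
    (dec : ∀ y, SV ℓ Q W b y → ∃ α ∈ U, ∃ β ∈ U', SV ℓ Q W b α ∧ SV ℓ Q W b β ∧
      y - α - β ∈ perp (W ⊔ U ⊔ U')) (hy : SV ℓ Q W b y) : g y = 0 := by
  have sy := fun x y => perp_orb_symm (x := x) (y := y) G.str.alg
  have wk : ∀ v, SV ℓ Q (W ⊔ U ⊔ U') b v → SV ℓ Q W b v := fun v hv =>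
    ⟨hv.mem, hv.sing, (mem_perp_sup.1 (mem_perp_sup.1 hv.prp).1).1⟩
  have key : ∀ y, SV ℓ Q W b y → y ∉ W ⊔ U ⊔ U' → g y = 0 := fun y hy hn => by
    obtain ⟨α, hα, β, hβ, sα, sβ, hv⟩ := dec y hy
    obtain ⟨v, rfl⟩ : ∃ v, y = v + α + β := ⟨y - α - β, by abel⟩
    rw [show v + α + β - α - β = v by abel] at hv
    have mv : v ∈ Vb ℓ b := by
      simpa using sub_mem (sub_mem hy.mem sβ.mem) sα.mem
    have nv : v ∉ W ⊔ U ⊔ U' := fun e => hn (add_mem (add_mem e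
      (Submodule.mem_sup_left (Submodule.mem_sup_right hα))) (Submodule.mem_sup_right hβ))
    obtain ⟨s, hs, -, es⟩ := hSOLV ℓ B Q _ ⊥ 0 b b v (mu β α) G hS.1 small_bot t
      (rm_small G.str hS hd) mv nv
    obtain ⟨v1, v3⟩ := mem_perp_sup.1 hv
    obtain ⟨s1, s3⟩ := mem_perp_sup.1 hs.prp
    have v2 := (mem_perp_sup.1 v1).2
    have s2 := (mem_perp_sup.1 s1).2
    have a1 := sv_add G sα (wk s hs) (orth hU hα s2)
    have a2 : α + s ∈ perp (orb (Com B) (v + α + β)) := mem_perp_orb.2 fun P hP => by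
      have hC := cb_of_com G.str.alg hP b.rev b
      have e := es _ hC
      rw [← ip_cb G.str.lab hy.mem a1.mem]
      simp only [Matrix.mulVec_add, ip_add_left, ip_add_right, e, mu, LinearMap.coe_mk,
        AddHom.coe_mk, ip0' G.str.alg hU hC.1 hα v2, ip0 hU hC.1 hα s2, ip0 hU hC.1 hα (iU hα),
        ip0 hU' hC.1 hβ s3]
      ring
    have a3 := sv_sub G hy a1 a2
    have a4 := hg _ _ a1 a3 (sub_mem (sy _ _ a2) (a1.sing.isot G.adm))
    have e : v + α + β - (α + s) = β + (v - s) := by abel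
    rw [add_sub_cancel, e] at a4
    rw [e] at a3
    have a5 : v - s ∈ perp (orb (Com B) β) := orth hU' hβ (sub_mem v3 s3)
    have a6 := sv_sub G a3 sβ (sy _ _ (add_mem (orth hU' hβ (iU' hβ)) a5))
    rw [add_sub_cancel_left] at a6
    rw [a4, hg _ _ sα (wk s hs) (orth hU hα s2), hg _ _ sβ a6 a5, g1 s hs, g2 α hα sα, g3 β hβ sβ,
      g1 _ ⟨a6.mem, a6.sing, sub_mem hv hs.prp⟩]
    ring
  by_cases hn : y ∈ W ⊔ U ⊔ U'
  · obtain ⟨s, hs, ns⟩ := hCW ℓ B Q _ ⊥ 0 b G hS.1 small_bot t (rm_small G.str hS (by omega))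
    have a1 := orth hS.1 hn hs.prp
    have a2 := sv_sub G hy (wk s hs) a1
    have a3 := hg _ _ (wk s hs) a2 (sub_mem (sy _ _ a1) (hs.sing.isot G.adm))
    rw [add_sub_cancel] at a3
    rw [a3, g1 s hs, zero_add]
    refine key _ a2 fun e => ns (Submodule.mem_sup_left ?_)
    simpa using sub_mem hn e
  · exact key y hy hn

end TGL1

open TGL1 in
theorem c_GL1 (p n : ℕ) [Fact p.Prime] (hGL0 : C_GL0 p n) (hGLH : C_GLH p n) (hCW : C_CW p n)
    (hHP : C_HP p n) (hSOLV : C_SOLV p n) : C_GL1 p n := by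
  intro ℓ B Q W r b f G hW t hd H
  have hB := G.str.alg
  obtain ⟨f', hf1, hf⟩ := hGL0 ℓ B Q W r b f G hW t hd H
  obtain ⟨u, hu, nu⟩ := hCW ℓ B Q W ⊥ 0 b G hW.1 small_bot t (rm_small G.str hW (by omega))
  obtain ⟨u', π, hu', nu', hπ, -, p1, p2, p3, p4, p5, -⟩ := hHP ℓ B Q W b u G hW.1 hu
    fun e => nu (Submodule.mem_sup_left e)
  obtain ⟨F, C, hC, hF, eF⟩ := hGLH ℓ B Q W r b f' u u' G hW t hd hf hu hu' nu'
  have hS := (hW.sup hB (small_orb G.str hu.mem)).sup hB (small_orb G.str hu'.mem)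
  have iU := hu.sing.orb_le G
  have iU' := hu'.sing.orb_le G
  have sU := stab_orb (B := B) u
  have sU' := stab_orb (B := B) u'
  have hst : st C = C := by
    have h1 : st C ∈ Cb ℓ B b.rev b := by simpa using cb_st G.str.lab hB hC
    refine sub_eq_zero.1 (cb_zero G.str hS (by omega) (sub_mem h1 hC) fun x hx px y hy py => ?_)
    have e1 := hF x hx px y hy py
    have e2 := hF y hy py x hx px
    rw [add_comm y x, e1, ip_comm (C *ᵥ y), ip_mulVec_right] at e2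
    rw [Matrix.sub_mulVec, ip_sub_left]
    linear_combination -e2
  have sym : ∀ x y, ip (C *ᵥ x) y = ip (C *ᵥ y) x := fun x y => by
    rw [ip_mulVec, hst, ip_comm]
  have fu := fx_orb hπ p1
  have fu' := fx_orb (hB.star π hπ) p2
  have sα : ∀ x ∈ Vb ℓ b, SV ℓ Q W b (π *ᵥ x) := fun x hx =>
    ⟨(hB.dg π hπ).mulVec_mem hx, hu.sing.of_orb G.adm (p3 x).1,
      orb_le_perp hB hW.1 hu.prp (p3 x).1⟩
  have sβ : ∀ x ∈ Vb ℓ b, SV ℓ Q W b (st π *ᵥ x) := fun x hx =>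
    ⟨(hB.dg _ (hB.star π hπ)).mulVec_mem hx, hu'.sing.of_orb G.adm (p3 x).2,
      orb_le_perp hB hW.1 hu'.prp (p3 x).2⟩
  have mv : ∀ x ∈ Vb ℓ b, x - π *ᵥ x - st π *ᵥ x ∈ Vb ℓ b := fun x hx =>
    sub_mem (sub_mem hx (sα x hx).mem) (sβ x hx).mem
  have pv : ∀ x ∈ Vb ℓ b, x ∈ perp W →
      x - π *ᵥ x - st π *ᵥ x ∈ perp (W ⊔ orb (Com B) u ⊔ orb (Com B) u') := fun x hx px =>
    mem_perp_sup.2 ⟨mem_perp_sup.2 ⟨sub_mem (sub_mem px (sα x hx).prp) (sβ x hx).prp,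
      fun w hw => by
        rw [ip_sub_right, ip_sub_right, ip_mulVec_right, ← ip_mulVec, p5 w (iU hw), fu w hw,
          ip_zero_left, sub_zero, sub_self]⟩,
      fun w hw => by
        rw [ip_sub_right, ip_sub_right, ip_mulVec_right, ← ip_mulVec, p4 w (iU' hw), fu' w hw,
          ip_zero_left, sub_zero, sub_self]⟩
  have z0 : ∀ W', SV ℓ Q W' b 0 := fun W' => ⟨zero_mem _, Sing.zero G.adm, zero_mem _⟩
  have f0 : f' 0 = 0 := by
    have := hf 0 0 (z0 W) (z0 W) (zero_mem _)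
    rw [add_zero] at this
    exact left_eq_add.1 this
  have F0 : F 0 = 0 := (eF 0 (z0 _)).trans f0
  let θ : Fn p n := fun x => F (x - π *ᵥ x - st π *ᵥ x) + f' (π *ᵥ x) + f' (st π *ᵥ x) +
    ip (C *ᵥ (π *ᵥ x)) (st π *ᵥ x)
  have hθ : ∀ x ∈ Vb ℓ b, x ∈ perp W → ∀ y ∈ Vb ℓ b, y ∈ perp W →
      θ (x + y) = θ x + θ y + ip (C *ᵥ x) y := fun x hx px y hy py => by
    obtain ⟨x1, x3⟩ := mem_perp_sup.1 (pv x hx px)
    obtain ⟨y1, y3⟩ := mem_perp_sup.1 (pv y hy py)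
    have x2 := (mem_perp_sup.1 x1).2
    have y2 := (mem_perp_sup.1 y1).2
    have e1 := hF _ (mv x hx) (pv x hx px) _ (mv y hy) (pv y hy py)
    have e2 := hf _ _ (sα x hx) (sα y hy) (orth sU (p3 x).1 (iU (p3 y).1))
    have e3 := hf _ _ (sβ x hx) (sβ y hy) (orth sU' (p3 x).2 (iU' (p3 y).2))
    have e4 : ip (C *ᵥ x) y = ip (C *ᵥ (x - π *ᵥ x - st π *ᵥ x + π *ᵥ x + st π *ᵥ x))
        (y - π *ᵥ y - st π *ᵥ y + π *ᵥ y + st π *ᵥ y) := by
      congr 1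
      · congr 1
        abel
      · abel
    have e5 : x + y - π *ᵥ (x + y) - st π *ᵥ (x + y) =
        x - π *ᵥ x - st π *ᵥ x + (y - π *ᵥ y - st π *ᵥ y) := by
      rw [Matrix.mulVec_add, Matrix.mulVec_add]
      abel
    have e6 := sym (st π *ᵥ x) (π *ᵥ y)
    simp only [θ]
    rw [e4, e5, e1]
    simp only [Matrix.mulVec_add, ip_add_left, ip_add_right, e2, e3, e6,
      ip0 sU hC.1 (p3 x).1 y2, ip0 sU' hC.1 (p3 x).2 y3, ip0' hB sU hC.1 (p3 y).1 x2,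
      ip0' hB sU' hC.1 (p3 y).2 x3, ip0 sU hC.1 (p3 x).1 (iU (p3 y).1),
      ip0 sU' hC.1 (p3 x).2 (iU' (p3 y).2)]
    ring
  refine ⟨θ, C, hC, hθ, fun y hy hn => ?_⟩
  rw [← hf1 y hy hn, eq_comm, ← sub_eq_zero]
  refine vanish (g := fun x => f' x - θ x) hCW hSOLV G sU sU' iU iU' hS t (by omega) ?_ ?_ ?_ ?_
    (fun y hy => ⟨_, (p3 y).1, _, (p3 y).2, sα y hy.mem, sβ y hy.mem, pv y hy.mem hy.prp⟩) hy
  · intro y y' hy hy' e
    rw [hf y y' hy hy' e, hθ y hy.mem hy.prp y' hy'.mem hy'.prp, mem_perp_orb.1 e C hC.1]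
    ring
  · intro v hv
    obtain ⟨v1, v3⟩ := mem_perp_sup.1 hv.prp
    simp only [θ, p4 v v3, p5 v (mem_perp_sup.1 v1).2, sub_zero, f0, eF v hv, ip_zero_right,
      add_zero, sub_self]
  · intro v hv _
    simp only [θ, fu v hv, p5 v (iU hv), sub_self, f0, F0, ip_zero_right, add_zero, zero_add]
  · intro v hv _
    simp only [θ, fu' v hv, p4 v (iU' hv), sub_self, sub_zero, f0, F0, Matrix.mulVec_zero,
      ip_zero_left, add_zero, zero_add]

open TGL1 in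
theorem c_GLZ (p n : ℕ) [Fact p.Prime] (hGL1 : C_GL1 p n) (hSOLV : C_SOLV p n) : C_GLZ p n := by
  intro ℓ B Q W r b f G hW t hd H
  obtain ⟨θ, C, hC, hθ, eθ⟩ := hGL1 ℓ B Q W r b f G hW t hd fun y y' hy hy' e =>
    H y y' hy hy' (hy.sing.add G.adm hy'.sing e)
  let S : Sub p n :=
    { carrier := {M | ∃ η ∈ Q, ∃ P, Pol η P ∧ M = pr ℓ b.rev * P * pr ℓ b}
      add_mem' := by
        rintro _ _ ⟨η, hη, P, hP, rfl⟩ ⟨η', hη', P', hP', rfl⟩
        refine ⟨η + η', add_mem hη hη', P + P', fun x y => ?_, by rw [mul_add, add_mul]⟩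
        simp only [Pi.add_apply, hP x y, hP' x y, Matrix.add_mulVec, ip_add_left]
        ring
      zero_mem' := ⟨0, zero_mem _, 0, fun x y => by simp, by simp⟩
      smul_mem' := by
        rintro c _ ⟨η, hη, P, hP, rfl⟩
        refine ⟨c • η, Submodule.smul_mem _ c hη, c • P, fun x y => ?_, by simp⟩
        simp only [Pi.smul_apply, smul_eq_mul, hP x y, Matrix.smul_mulVec, ip_smul_left]
        ring }
  have hR : Rm ℓ B W b (0 + 7) := rm_small G.str hW (by omega)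
  have hCS : C ∈ S := by
    by_contra hn
    obtain ⟨μ, m1, m2⟩ := Submodule.exists_dual_map_eq_bot_of_notMem hn inferInstance
    obtain ⟨v, hv, -, nv⟩ := out G.str small_bot hW (b := b) (by omega)
    obtain ⟨y, hy, ny, -⟩ := hSOLV ℓ B Q W ⊥ 0 b b v μ G hW.1 small_bot t hR hv nv
    have ny' : y ∉ W := fun e => ny (Submodule.mem_sup_left (Submodule.mem_sup_left e))
    obtain ⟨s, hs, ns, es⟩ := hSOLV ℓ B Q W ⊥ 0 b b y μ G hW.1 small_bot t hR hy.mem ny'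
    have ns' : s ∉ W ⊔ orb (Com B) y := fun e => ns (Submodule.mem_sup_left e)
    have sg : Sing Q (y + s) := fun η hη => by
      obtain ⟨P, hP, e⟩ := G.adm.pol η hη
      have h0 : μ (pr ℓ b.rev * P * pr ℓ b) = 0 := by
        rw [← Submodule.mem_bot (ZMod p), ← m2]
        exact Submodule.mem_map_of_mem ⟨η, hη, P, e, rfl⟩
      rw [e, hy.sing η hη, hs.sing η hη, ← ip_cb G.str.lab hy.mem hs.mem,
        es _ (cb_of_com G.str.alg hP _ _), h0, add_zero, add_zero]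
    have e1 := hθ y hy.mem hy.prp s hs.mem hs.prp
    rw [eθ y hy ny', eθ s hs fun e => ns' (Submodule.mem_sup_left e),
      eθ _ ⟨add_mem hy.mem hs.mem, sg, add_mem hy.prp hs.prp⟩ fun e => ns' (by
        simpa using sub_mem (Submodule.mem_sup_left (T := orb (Com B) y) e)
          (Submodule.mem_sup_right (self_mem_orb y))), H y s hy hs sg ny' ns', es C hC] at e1
    exact m1 (left_eq_add.1 e1)
  obtain ⟨η, hη, P, hP, rfl⟩ := hCS
  obtain ⟨v, hv⟩ := repr (S := Vb ℓ b ⊓ perp W) (f := fun x => θ x - η x) fun x hx y hy => by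
    rw [hθ x hx.1 hx.2 y hy.1 hy.2, hP x y, ip_cb G.str.lab hx.1 hy.1]
    ring
  refine ⟨v, fun y hy hn => ?_⟩
  rw [← hv y ⟨hy.mem, hy.prp⟩, hy.sing η hη, sub_zero, eθ y hy hn]

end Pool.Agent.P.MP_f1a348_lc.CE
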