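import Pool.Agent.P.MP_f1a348_lc.CE.Base2

/-!
Project CE: extension of additive functions from generic tuples to orthogonal triples.
-/

namespace Pool.Agent.P.MP_f1a348_lc.CE

open Matrix Module Pool.Agent.P.MP_f1a348_lc.PG Pool.Agent.P.MP_f1a348_lc.UP Function

namespace TGLA

set_option linter.unusedSectionVars false

variable {p n : ℕ} [Fact p.Prime] {ℓ : Ix n → ℕ} {B : Sub p n} {Q : QS p n}
  {v y : Vec p n} {x : Tup p n} {a : ℕ → Ix n} {i j k m : ℕ} {f g : Tup p n → ZMod p}

/-- orthogonal tuples that are generic from place `j` on -/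
structure DD (ℓ : Ix n → ℕ) (B : Sub p n) (Q : QS p n) (k : ℕ) (a : ℕ → Ix n) (j : ℕ)
    (x : Tup p n) : Prop where
  mem : ∀ i < k, x i ∈ Vb ℓ (a i)
  orth : ∀ i < k, ∀ l < k, i ≠ l → x l ∈ perp (orb (Com B) (x i))
  gen : ∀ i < k, j ≤ i → Sing Q (x i) ∧ x i ∉ spn B k (update x i 0)

theorem DD.mono (H : DD ℓ B Q k a j x) (e : j ≤ i) : DD ℓ B Q k a i x :=
  ⟨H.mem, H.orth, fun l hl h => H.gen l hl (e.trans h)⟩

theorem dd_of_gen (H : GenW ℓ B Q ⊥ k a x) : DD ℓ B Q k a 0 x :=
  ⟨H.mem, fun i hi l hl _ => H.orth i hi l hl, fun i hi _ =>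
    ⟨H.sing i hi, fun e => H.toInd.not_mem hi (Submodule.mem_sup_right e)⟩⟩

theorem DD.genW (G : Geo ℓ B Q) (H : DD ℓ B Q k a 0 x) : GenW ℓ B Q ⊥ k a x :=
  ⟨ind_of_oth G.str stab_bot fun i hi =>
      ⟨H.mem i hi, by rw [bot_sup_eq]; exact (H.gen i hi i.zero_le).2⟩,
    fun i hi => (H.gen i hi i.zero_le).1, fun i hi => by rw [perp_bot]; trivial,
    fun i hi l hl => by
      by_cases e : i = l
      · subst e; exact (H.gen i hi i.zero_le).1.isot G.adm
      · exact H.orth i hi l hl e⟩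

theorem DD.prp (H : DD ℓ B Q k a j x) (hi : i < k) : x i ∈ perp (spn B k (update x i 0)) :=
  mem_perp_spn.2 fun l hl => by
    by_cases e : l = i
    · rw [e, update_self, orb_zero, perp_bot]; trivial
    · rw [update_of_ne e]; exact H.orth l hl i hi e

theorem DD.small (h : Str ℓ B) (H : DD ℓ B Q k a j x) : Small ℓ B k (spn B k (update x i 0)) :=
  (small_spn h fun l hl => ⟨_, H.mem l hl⟩).of_le stab_spn oth_le_spn

theorem DD.upd (hB : Alg ℓ B) (H : DD ℓ B Q k a j x) (hv : v ∈ Vb ℓ (a i))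
    (hp : v ∈ perp (spn B k (update x i 0))) (hg : ∀ l < k, m ≤ l →
      Sing Q (update x i v l) ∧ update x i v l ∉ spn B k (update (update x i v) l 0)) :
    DD ℓ B Q k a m (update x i v) := by
  have h1 : ∀ l < k, l ≠ i → v ∈ perp (orb (Com B) (x l)) := fun l hl e =>
    perp_anti (stab_spn.orb_le (mem_oth hl e)) hp
  refine ⟨fun l hl => ?_, fun l hl r hr hne => ?_, hg⟩
  · by_cases e : l = i
    · rw [e, update_self]; exact hv
    · rw [update_of_ne e]; exact H.mem l hl
  · by_cases e : l = i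
    · have e' : r ≠ i := fun e' => hne (e.trans e'.symm)
      rw [e, update_self, update_of_ne e']; exact perp_orb_symm hB (h1 r hr e')
    · by_cases e' : r = i
      · rw [e', update_self, update_of_ne e]; exact h1 l hl e
      · rw [update_of_ne e, update_of_ne e']; exact H.orth l hl r hr hne

theorem DD.zero (hB : Alg ℓ B) (H : DD ℓ B Q k a (j + 1) x) :
    DD ℓ B Q k a (j + 1) (update x j 0) :=
  H.upd hB (zero_mem _) (zero_mem _) fun l hl h => by
    have e : l ≠ j := by omega
    rw [update_of_ne e, update_comm e.symm]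
    exact ⟨(H.gen l hl h).1, fun e1 => (H.gen l hl h).2 (oth_le_spn e1)⟩

theorem DD.put (h : Str ℓ B) (H : DD ℓ B Q k a (j + 1) x)
    (hy : SV ℓ Q (spn B k (update x j 0)) (a j) y) (hn : y ∉ spn B k (update x j 0)) :
    DD ℓ B Q k a j (update x j y) :=
  H.upd h.alg hy.mem hy.prp fun l hl hjl => by
    by_cases e : l = j
    · rw [e, update_self, update_idem]; exact ⟨hy.sing, hn⟩
    · have h0 := H.gen l hl (by omega)
      rw [update_of_ne e, update_comm (Ne.symm e)]
      refine ⟨h0.1, fun e1 => hn ?_⟩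
      have h3 := exchange h stab_spn hy.mem (spn_update_le e1) fun e2 => h0.2 (oth_le_spn e2)
      refine sup_le (α := VS p n) ?_ (stab_spn.orb_le (mem_oth hl e)) h3
      rw [update_comm e]; exact oth_le_spn

/-- additivity on the tuples of level `j` -/
def AD (ℓ : Ix n → ℕ) (B : Sub p n) (Q : QS p n) (k : ℕ) (a : ℕ → Ix n) (j : ℕ)
    (g : Tup p n → ZMod p) : Prop :=
  ∀ i < k, ∀ x v, DD ℓ B Q k a j x → DD ℓ B Q k a j (update x i v) →
    DD ℓ B Q k a j (update x i (x i + v)) → (j ≤ i → v ∉ spn B k x) →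
    g (update x i (x i + v)) = g x + g (update x i v)

theorem base (G : Geo ℓ B Q) (hA : MA ℓ B Q ⊥ k a f) (hZ : MZ ℓ B Q k a f) :
    AD ℓ B Q k a 0 f := by
  intro i hi x v h1 h2 h3 h4
  have hv : v ∈ Vb ℓ (a i) := by simpa using h2.mem i hi
  have e0 : ∀ l < k, x l = update x k v l := fun l hl => (update_of_ne hl.ne _ _).symm
  have e : ∀ w, ∀ l < k, update x i w l = update (update x k v) i w l := fun w l hl => by
    rw [update_comm hi.ne', update_of_ne hl.ne]
  have z := hZ i hi (update x k v) ⟨(h1.genW G).congr (fun _ _ => rfl) e0,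
    by rw [update_self]; exact (h2.genW G).congr (fun _ _ => rfl) (e v),
    (h1.genW G).toInd.snoc G.str stab_bot hv (by rw [bot_sup_eq]; exact h4 i.zero_le),
    by rw [update_self, update_of_ne hi.ne]; simpa using (h3.gen i hi i.zero_le).1⟩
  rw [dfc, update_self, update_of_ne hi.ne, ← hA.loc _ _ (e _), ← hA.loc _ _ (e _),
    ← hA.loc _ _ e0] at z
  linear_combination z

theorem lin (hGLZ : C_GLZ p n) (G : Geo ℓ B Q) (hd : 200 ≤ db ℓ B (a j)) (hk : k ≤ 3)
    (hj : j < k) (nt : ¬ Triv ℓ B (a j)) (H : AD ℓ B Q k a j g) :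
    ∃ ν : Tup p n → Vec p n, ∀ x, DD ℓ B Q k a (j + 1) x → ∀ y,
      SV ℓ Q (spn B k (update x j 0)) (a j) y → y ∉ spn B k (update x j 0) →
      g (update x j y) = ip (ν (update x j 0)) y := by
  have key : ∀ x, DD ℓ B Q k a (j + 1) x → ∃ ν : Vec p n, ∀ y,
      SV ℓ Q (spn B k (update x j 0)) (a j) y → y ∉ spn B k (update x j 0) →
      g (update x j y) = ip ν y := fun x hx =>
    hGLZ ℓ B Q _ k (a j) (fun y => g (update x j y)) G (hx.small G.str) nt (by omega)
      fun y y' h1 h2 h3 h4 h5 => by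
      have := H j hj (update x j y) y' (hx.put G.str h1 h4)
        (by rw [update_idem]; exact hx.put G.str h2 fun e => h5 (Submodule.mem_sup_left e))
        (by
          rw [update_idem, update_self]
          refine hx.put G.str ⟨add_mem h1.mem h2.mem, h3, add_mem h1.prp h2.prp⟩ fun e => h5 ?_
          simpa using Submodule.sub_mem _ (Submodule.mem_sup_left e)
            (Submodule.mem_sup_right (self_mem_orb (B := B) y)))
        fun _ e => h5 (spn_update_le e)
      rwa [update_idem, update_idem, update_self] at this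
  choose! ν hν using key
  refine ⟨ν, fun x hx y h1 h2 => ?_⟩
  have := hν _ (hx.zero G.str.alg) y (by rwa [update_idem]) (by rwa [update_idem])
  rwa [update_idem] at this

theorem step (hGLZ : C_GLZ p n) (hSP : C_SP p n) (G : Geo ℓ B Q) (hd : 200 ≤ db ℓ B (a j))
    (hk : k ≤ 3) (hj : j < k) (nt : ¬ Triv ℓ B (a j)) (H : AD ℓ B Q k a j g) :
    ∃ g' : Tup p n → ZMod p, (∀ x, DD ℓ B Q k a j x → g' x = g x) ∧ AD ℓ B Q k a (j + 1) g' := by
  obtain ⟨ν, hν⟩ := lin hGLZ G hd hk hj nt H
  refine ⟨fun x => ip (ν (update x j 0)) (x j), fun x hx => ?_, fun i hi x v h1 h2 h3 h4 => ?_⟩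
  · have := hν x (hx.mono j.le_succ) (x j) ⟨hx.mem j hj, (hx.gen j hj le_rfl).1, hx.prp hj⟩
      (hx.gen j hj le_rfl).2
    rw [update_eq_self] at this
    exact this.symm
  by_cases e : i = j
  · subst e
    simp only [update_idem, update_self, ip_add_right]
  have e' : j ≠ i := Ne.symm e
  have hv : v ∈ Vb ℓ (a i) := by simpa using h2.mem i hi
  have hS : Small ℓ B (k + 1) (spn B k (update x j 0) ⊔ orb (Com B) v) :=
    (h1.small G.str).sup G.str.alg (small_orb G.str hv)
  have le : ∀ w ∈ spn B k (update x j 0) ⊔ orb (Com B) v,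
      spn B k (update (update x i w) j 0) ≤ spn B k (update x j 0) ⊔ orb (Com B) v :=
    fun w hw => oth_le hS.1 fun l hl e1 => by
      by_cases e2 : l = i
      · rwa [e2, update_self]
      · rw [update_of_ne e2]; exact Submodule.mem_sup_left (mem_oth hl e1)
  have l1 := le v (Submodule.mem_sup_right (self_mem_orb v))
  have l2 := le (x i + v) (Submodule.add_mem_sup (mem_oth hi e) (self_mem_orb v))
  have hp : x j ∈ perp (orb (Com B) v) := by simpa [update_of_ne e'] using h2.orth i hi j hj e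
  have := (hSP ℓ B Q _ ⊥ 0 (a j) (x j) G hS.1 small_bot nt (rm_of_small G.str hS (by omega))
    (h1.mem j hj) (mem_perp_sup.2 ⟨h1.prp hj, hp⟩)).2.2 (ZMod p)
    (fun y => ip (ν (update (update x i (x i + v)) j 0)) y - ip (ν (update x j 0)) y -
      ip (ν (update (update x i v) j 0)) y)
    (fun s _ _ t _ _ => by simp only [ip_add_right]; ring) fun y hy hn => by
      rw [sup_bot_eq] at hn
      have s0 := hy.anti le_sup_left
      have n0 : y ∉ spn B k (update x j 0) := fun e1 => hn (Submodule.mem_sup_left e1)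
      have n1 : y ∉ spn B k (update (update x i v) j 0) := fun e1 => hn (l1 e1)
      have n2 : y ∉ spn B k (update (update x i (x i + v)) j 0) := fun e1 => hn (l2 e1)
      have ad := H i hi (update x j y) v (h1.put G.str s0 n0)
        (by rw [update_comm e']; exact h2.put G.str (hy.anti l1) n1)
        (by rw [update_of_ne e, update_comm e']; exact h3.put G.str (hy.anti l2) n2)
        fun hle e1 => hn (exchange G.str stab_spn hy.mem (spn_update_le e1)
          fun e2 => h4 (by omega) (oth_le_spn e2))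
      rw [update_of_ne e, update_comm e', update_comm e', hν x h1 y s0 n0,
        hν _ h2 y (hy.anti l1) n1, hν _ h3 y (hy.anti l2) n2] at ad
      linear_combination ad
  simp only [update_of_ne e']
  linear_combination this

theorem all (hGLZ : C_GLZ p n) (hSP : C_SP p n) (G : Geo ℓ B Q) (hb : Big ℓ B 200) (hk : k ≤ 3)
    (nt : ∀ i < k, ¬ Triv ℓ B (a i)) (H : AD ℓ B Q k a 0 f) : ∀ j ≤ k,
    ∃ g : Tup p n → ZMod p, (∀ x, DD ℓ B Q k a 0 x → g x = f x) ∧ AD ℓ B Q k a j g := by
  intro j hj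
  induction j with
  | zero => exact ⟨f, fun _ _ => rfl, H⟩
  | succ j ih =>
    obtain ⟨g, h1, h2⟩ := ih (by omega)
    obtain ⟨g', h3, h4⟩ := step hGLZ hSP G (hb _ (nt j hj)) hk hj (nt j hj) h2
    exact ⟨g', fun x hx => (h3 x (hx.mono j.zero_le)).trans (h1 x hx), h4⟩

/-- a triple as a tuple -/
def tu (k : ℕ) (hk : k ≤ 3) (x : Fin 3 → Vec p n) : Tup p n :=
  fun i => if h : i < k then x ⟨i, h.trans_le hk⟩ else 0

theorem tu_lt (hk : k ≤ 3) (x : Fin 3 → Vec p n) (h : i < k) :
    tu k hk x i = x ⟨i, h.trans_le hk⟩ := dif_pos h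

theorem tu_upd (hk : k ≤ 3) (x : Fin 3 → Vec p n) (j : Fin 3) (v : Vec p n) :
    tu k hk (update x j v) = if j.val < k then update (tu k hk x) j.val v else tu k hk x := by
  funext i
  by_cases h : i < k
  · by_cases e : i = j.val
    · subst e
      rw [if_pos h, tu_lt hk _ h, update_self, update_self]
    · rw [tu_lt hk _ h, update_of_ne fun e1 => e (congrArg Fin.val e1), ← tu_lt hk x h]
      split_ifs
      · rw [update_of_ne e]
      · rfl
  · split_ifs with h1
    · rw [update_of_ne fun e : i = j.val => h (e ▸ h1), tu, tu, dif_neg h, dif_neg h]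
    · rw [tu, tu, dif_neg h, dif_neg h]

theorem dd_of_od (h : Str ℓ B) (hk : k ≤ 3) (nt : ∀ i < k, ¬ Triv ℓ B (a i))
    {x : Fin 3 → Vec p n} (H : OD ℓ B (bx k a) (fun _ => True) x) : DD ℓ B Q k a k (tu k hk x) := by
  have h1 : ∀ i : Fin 3, i.val < k → x i ∈ Vb ℓ (a i) := fun i hi => by
    simpa [bx, hi] using H.mem i
  have h2 : ∀ i l : Fin 3, i ≠ l → ∃ m, (i = m + 1 ∧ l = m + 2) ∨ (l = m + 1 ∧ i = m + 2) := by
    decide
  have h3 : ∀ i l : Fin 3, i.val < k → l.val < k → i ≠ l → x l ∈ perp (orb (Com B) (x i)) :=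
    fun i l hi hl e => by
      obtain ⟨m, ⟨e1, e2⟩ | ⟨e1, e2⟩⟩ := h2 i l e
      · have := H.orth m trivial
        rwa [← e1, ← e2, orb_co_ntriv h.alg (h1 i hi) (nt i hi)] at this
      · have := H.orth m trivial
        rw [← e1, ← e2, orb_co_ntriv h.alg (h1 l hl) (nt l hl)] at this
        exact perp_orb_symm h.alg this
  refine ⟨fun i hi => ?_, fun i hi l hl e => ?_, fun i hi e => absurd hi (by omega)⟩
  · rw [tu_lt hk _ hi]; exact h1 ⟨i, hi.trans_le hk⟩ hi
  · rw [tu_lt hk _ hi, tu_lt hk _ hl]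
    exact h3 ⟨i, hi.trans_le hk⟩ ⟨l, hl.trans_le hk⟩ hi hl fun e1 => e (congrArg Fin.val e1)

end TGLA

open TGLA in
theorem c_GLA (p n : Nat) [Fact p.Prime] (hGLZ : C_GLZ p n) (hSP : C_SP p n) : C_GLA p n := by
  intro ℓ B Q k a f G hb hk nt hA hZ
  obtain ⟨g, h1, h2⟩ := all hGLZ hSP G hb hk nt (base G hA hZ) k le_rfl
  refine ⟨fun x => g (tu k hk x) * ∏ j : Fin 3, if j.val < k then 1 else x j (c0 n),
    fun j x v o1 o2 => ?_, fun x hx => ?_⟩
  · have e : ∀ w, (∏ i : Fin 3, if i.val < k then 1 else update x j w i (c0 n)) =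
        (if j.val < k then 1 else w (c0 n)) *
          ∏ i ∈ Finset.univ.erase j, if i.val < k then 1 else x i (c0 n) := fun w => by
      rw [← Finset.mul_prod_erase _ _ (Finset.mem_univ j), update_self]
      exact congrArg (_ * ·) (Finset.prod_congr rfl fun i hi => by
        rw [update_of_ne (Finset.ne_of_mem_erase hi)])
    have e0 := e (x j)
    rw [update_eq_self] at e0
    have d1 := dd_of_od (Q := Q) G.str hk nt o1
    have d2 := dd_of_od (Q := Q) G.str hk nt o2
    simp only [e, e0, tu_upd] at d2 ⊢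
    by_cases hj : j.val < k
    · simp only [if_pos hj] at d2 ⊢
      have p2 := d2.prp hj
      rw [update_self, update_idem] at p2
      have := h2 j hj _ v d1 d2 (d1.upd G.str.alg
        (add_mem (d1.mem _ hj) (by simpa using d2.mem _ hj)) (add_mem (d1.prp hj) p2)
        fun l hl e1 => absurd hl (by omega)) fun e1 => absurd hj (by omega)
      rw [tu_lt hk _ hj] at this
      rw [this]
      ring
    · simp only [if_neg hj, Pi.add_apply]
      ring
  · have e : ∀ i < k, x i = tu k hk (tx k x) i := fun i hi => by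
      rw [tu_lt hk _ hi, tx, if_pos hi]
    beta_reduce
    rw [h1 _ (dd_of_gen (hx.congr (fun _ _ => rfl) e)), ← hA.loc _ _ e, Finset.prod_eq_one, mul_one]
    intro j _
    split_ifs with hj
    · rfl
    · rw [tx, if_neg hj, e0, Pi.single_eq_same]

end Pool.Agent.P.MP_f1a348_lc.CE
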