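import Pool.Agent.P.MP_f1a348_lc.CE.TGL0

/-!
Project CE: gluing in the complement of a hyperbolic pair.
-/

namespace Pool.Agent.P.MP_f1a348_lc.CE

open Matrix Module Pool.Agent.P.MP_f1a348_lc.PG Pool.Agent.P.MP_f1a348_lc.UP

namespace TGLH

section
variable {p : ℕ} [Fact p.Prime] {V M : Type} [AddCommGroup V] [AddCommGroup M]
  {ω : V → V → M} {S : V → Prop} {f : V → ZMod p}

/-- words in the group of Heisenberg type -/
inductive Rc (ω : V → V → M) (S : V → Prop) (f : V → ZMod p) : V → M → ZMod p → Prop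
  | zero : Rc ω S f 0 0 0
  | step {v m c s} : Rc ω S f v m c → S s → Rc ω S f (v + s) (m + ω v s) (c + f s)

theorem Rc.cast {v v' : V} {m m' : M} {c c' : ZMod p} (h : Rc ω S f v m c) (e1 : v = v')
    (e2 : m = m') (e3 : c = c') : Rc ω S f v' m' c' := e1 ▸ e2 ▸ e3 ▸ h

theorem heis [Module (ZMod p) M] (l : ∀ x y z, ω (x + y) z = ω x z + ω y z)
    (r : ∀ x y z, ω x (y + z) = ω x y + ω x z) (hn : ∀ s, S s → S (-s) ∧ f (-s) = -f s ∧ ω s s = 0)
    (h3 : ∀ v, ∃ s t u, v = s + t + u ∧ S s ∧ S t ∧ S u) (h0 : ¬ Rc ω S f 0 0 1) :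
    ∃ (F : V → ZMod p) (δ : M →ₗ[ZMod p] ZMod p),
      (∀ v w, F (v + w) = F v + F w + δ (ω v w)) ∧ ∀ s, S s → F s = f s := by
  have r0 : ∀ x, ω x 0 = 0 := fun x => by simpa using r x 0 0
  have l0 : ∀ x, ω 0 x = 0 := fun x => by simpa using l 0 0 x
  have rn : ∀ x y, ω x (-y) = -ω x y := fun x y =>
    eq_neg_of_add_eq_zero_left (by rw [← r, neg_add_cancel, r0])
  have ln : ∀ x y, ω (-x) y = -ω x y := fun x y =>
    eq_neg_of_add_eq_zero_left (by rw [← l, neg_add_cancel, l0])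
  have one : ∀ s, S s → Rc ω S f s 0 (f s) := fun s hs =>
    (Rc.zero.step hs).cast (zero_add _) (by rw [l0, add_zero]) (zero_add _)
  have mul : ∀ v m c w m' c', Rc ω S f v m c → Rc ω S f w m' c' →
      Rc ω S f (v + w) (m + m' + ω v w) (c + c') := fun v m c w m' c' h h' => by
    induction h' with
    | zero => exact h.cast (add_zero _).symm (by rw [r0, add_zero, add_zero]) (add_zero _).symm
    | step _ hs ih => exact (ih.step hs).cast (add_assoc _ _ _) (by rw [l, r]; abel) (add_assoc _ _ _)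
  have inv : ∀ v m c, Rc ω S f v m c → Rc ω S f (-v) (-m + ω v v) (-c) := fun v m c h => by
    induction h with
    | zero => exact Rc.zero.cast neg_zero.symm (by rw [r0, neg_zero, add_zero]) neg_zero.symm
    | step _ hs ih =>
      refine (mul _ _ _ _ _ _ (one _ (hn _ hs).1) ih).cast (by abel) ?_ (by rw [(hn _ hs).2.1]; ring)
      rw [l, r, r, rn, ln, (hn _ hs).2.2]
      abel
  let Γ : AddSubgroup (M × ZMod p) :=
    { carrier := {x | Rc ω S f 0 x.1 x.2}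
      add_mem' := fun hx hy => (mul _ _ _ _ _ _ hx hy).cast (add_zero _) (by rw [r0, add_zero]; rfl) rfl
      zero_mem' := Rc.zero
      neg_mem' := fun hx => (inv _ _ _ hx).cast neg_zero (by rw [r0, add_zero]; rfl) rfl }
  obtain ⟨φ, h1, h2⟩ := Submodule.exists_le_ker_of_notMem
    (p := AddSubgroup.toZModSubmodule p Γ) (v := (0, 1)) h0
  have hδ : ∀ m c, Rc ω S f 0 m c → (φ (0, 1))⁻¹ * φ (m, 0) = -c := fun m c h => by
    have e : φ (m, c) = 0 := h2 (x := (m, c)) h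
    rw [show ((m, c) : M × ZMod p) = (m, 0) + c • (0, 1) by simp, map_add, map_smul, smul_eq_mul]
      at e
    rw [eq_neg_of_add_eq_zero_left e]
    field_simp
  have ex : ∀ v, ∃ x : M × ZMod p, Rc ω S f v x.1 x.2 := fun v => by
    obtain ⟨s, t, u, rfl, a, b, c⟩ := h3 v
    exact ⟨(_, _), ((one s a).step b).step c⟩
  choose x hx using ex
  have wd : ∀ v m c, Rc ω S f v m c → (x v).2 + (φ (0, 1))⁻¹ * φ ((x v).1, 0) =
      c + (φ (0, 1))⁻¹ * φ (m, 0) := fun v m c h => by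
    have e := hδ _ _ ((mul _ _ _ _ _ _ (hx v) (inv _ _ _ h)).cast (add_neg_cancel v)
      (m' := (x v).1 - m) (by rw [rn]; abel) rfl)
    rw [show (((x v).1 - m, 0) : M × ZMod p) = ((x v).1, 0) - (m, 0) by simp, map_sub] at e
    linear_combination e
  refine ⟨fun v => (x v).2 + (φ (0, 1))⁻¹ * φ ((x v).1, 0),
    (φ (0, 1))⁻¹ • φ ∘ₗ LinearMap.inl _ _ _, fun v w => ?_, fun s hs => ?_⟩
  · beta_reduce
    rw [wd _ _ _ (mul _ _ _ _ _ _ (hx v) (hx w)),
      show (((x v).1 + (x w).1 + ω v w, 0) : M × ZMod p) = ((x v).1, 0) + ((x w).1, 0) + (ω v w, 0)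
        by simp, map_add, map_add]
    simp only [LinearMap.smul_apply, LinearMap.comp_apply, LinearMap.inl_apply, smul_eq_mul]
    ring
  · beta_reduce
    rw [wd _ _ _ (one s hs), show ((0, 0) : M × ZMod p) = 0 from rfl, map_zero, mul_zero, add_zero]

end

variable {p n : ℕ} [Fact p.Prime] {ℓ : Ix n → ℕ} {B : Sub p n}

theorem comp_ip (h : Lab ℓ) {a b : Ix n} {x y : Vec p n} (hx : x ∈ Vb ℓ a) (hy : y ∈ Vb ℓ b)
    (P : Mat p n) : ip ((pr ℓ b.rev * P * pr ℓ a) *ᵥ x) y = ip (P *ᵥ x) y := by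
  rw [cb_comp _ hx, ip_pr h hy]

/-- the pairing of two vectors as a function of the module map -/
noncomputable def muP (x y : Vec p n) : Mat p n →ₗ[ZMod p] ZMod p := ipL.flip y ∘ₗ evx x

theorem muP_apply (x y : Vec p n) (P : Mat p n) : muP x y P = ip (P *ᵥ x) y := rfl

end TGLH

open TGLH TGL0 in
theorem c_GLH (p n : ℕ) [Fact p.Prime] (hHYP : C_HYP p n) (hSP : C_SP p n) : C_GLH p n := by
  intro ℓ B Q W r b f u u' G hW t hd H hu hu' hn
  have hS := (hW.sup G.str.alg (small_orb G.str hu.mem)).sup G.str.alg (small_orb G.str hu'.mem)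
  set W1 := W ⊔ orb (Com B) u ⊔ orb (Com B) u' with hW1
  have pp : ∀ v ∈ perp W1, v ∈ perp W ∧ v ∈ perp (orb (Com B) u) ∧ v ∈ perp (orb (Com B) u') :=
    fun v hv => ⟨(mem_perp_sup.1 (mem_perp_sup.1 hv).1).1, (mem_perp_sup.1 (mem_perp_sup.1 hv).1).2,
      (mem_perp_sup.1 hv).2⟩
  have h3 := (hHYP ℓ B Q G).2.2.1
  have ex : ∀ v w : (Vb ℓ b ⊓ perp W1 : VS p n), ∃ A ∈ Cb ℓ B b b.rev, ∀ P ∈ Com B,
      ip (P *ᵥ u) (A *ᵥ u') = ip (P *ᵥ v.1) w.1 := fun v w => by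
    obtain ⟨A, hA, e⟩ := h3 b b.rev u hu.mem u' hu'.mem hn b (muP v.1 w.1)
    refine ⟨A, hA, fun P hP => ?_⟩
    rw [← comp_ip G.str.lab hu.mem (cb_mulVec_mem hA u'), e _ (cb_of_com G.str.alg hP _ _),
      muP_apply, comp_ip G.str.lab v.2.1 w.2.1]
  choose A hA hω using ex
  have mo : ∀ v w, A v w *ᵥ u' ∈ orb (Com B) u' := fun v w => mem_orb_com (hA v w).1 u'
  have uq : ∀ m ∈ orb (Com B) u', (∀ P ∈ Com B, ip (P *ᵥ u) m = 0) → m = 0 := fun m hm e => by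
    by_contra h0
    exact hn (mem_of_orb G.str ((stab_orb u).perp G.str.alg) hu'.mem hm h0 (mem_perp_orb.2 e))
  have sv : ∀ m ∈ orb (Com B) u', m ∈ Vb ℓ b → SV ℓ Q W b m := fun m hm e =>
    ⟨e, hu'.sing.of_orb G.adm hm, orb_le_perp G.str.alg hW.1 hu'.prp hm⟩
  have s0 : SV ℓ Q W b 0 := ⟨zero_mem _, Sing.zero G.adm, zero_mem _⟩
  have f0 : f 0 = 0 := by simpa using H 0 0 s0 s0 (zero_mem _)
  have val : ∀ v m c, Rc (fun v w => A v w *ᵥ u') (fun v => Sing Q v.1) (fun v => f v.1) v m c →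
      m ∈ orb (Com B) u' ∧ m ∈ Vb ℓ b ∧ Sing Q (v.1 + u - m) ∧
        c = f (v.1 + u - m) + f m - f u := fun v m c h => by
    induction h with
    | zero => exact ⟨zero_mem _, zero_mem _, by simpa using hu.sing, by simp [f0]⟩
    | @step v m c s _ hs ih =>
      obtain ⟨m1, m2, m3, m4⟩ := ih
      obtain ⟨v1, v2, v3⟩ := pp _ v.2.2
      obtain ⟨s1, s2, s3⟩ := pp _ s.2.2
      have k1 := mo v s
      have k2 := cb_mulVec_mem (hA v s) u'
      have k3 := hω v s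
      generalize A v s *ᵥ u' = k at k1 k2 k3 ⊢
      have kk := hu'.sing.orb_le G k1
      have hx : SV ℓ Q W b (v.1 + u - m) :=
        ⟨sub_mem (add_mem v.2.1 hu.mem) m2, m3, sub_mem (add_mem v1 hu.prp) (sv m m1 m2).prp⟩
      have ht : SV ℓ Q W b (s.1 - k) := ⟨sub_mem s.2.1 k2,
        Sing.sub G.adm hs (sv k k1 k2).sing (perp_of_perp G.str.alg (stab_orb u') s3 k1),
        sub_mem s1 (sv k k1 k2).prp⟩
      have o : s.1 - k ∈ perp (orb (Com B) (v.1 + u - m)) := mem_perp_orb.2 fun P hP => by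
        rw [Matrix.mulVec_sub, Matrix.mulVec_add, ip_sub_left, ip_add_left, ip_sub_right,
          ip_sub_right, k3 P hP, mem_perp_orb.1 s2 P hP,
          mem_perp_orb.1 (perp_of_perp G.str.alg (stab_orb u') v3 k1) P hP,
          sub_mem s3 kk _ (stab_orb u' P hP m m1)]
        ring
      have e : (v + s).1 + u - (m + k) = v.1 + u - m + (s.1 - k) := by
        rw [Submodule.coe_add]; abel
      have e1 := H _ _ ht (sv k k1 k2) (perp_of_perp G.str.alg (stab_orb u') (sub_mem s3 kk) k1)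
      rw [sub_add_cancel] at e1
      refine ⟨add_mem m1 k1, add_mem m2 k2, e ▸ m3.add G.adm ht.sing o, ?_⟩
      rw [e, H _ _ hx ht o, H _ _ (sv m m1 m2) (sv k k1 k2)
        (perp_of_perp G.str.alg (stab_orb u') (hu'.sing.orb_le G m1) k1), m4, e1]
      ring
  obtain ⟨F, δ, hF, hf⟩ := heis (p := p) (ω := fun v w => A v w *ᵥ u') (S := fun v => Sing Q v.1)
    (f := fun v => f v.1)
    (fun x y z => sub_eq_zero.1 (uq _ (sub_mem (mo _ _) (add_mem (mo _ _) (mo _ _))) fun P hP => by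
      rw [ip_sub_right, ip_add_right, hω _ _ P hP, hω _ _ P hP, hω _ _ P hP, Submodule.coe_add,
        Matrix.mulVec_add, ip_add_left, sub_self]))
    (fun x y z => sub_eq_zero.1 (uq _ (sub_mem (mo _ _) (add_mem (mo _ _) (mo _ _))) fun P hP => by
      rw [ip_sub_right, ip_add_right, hω _ _ P hP, hω _ _ P hP, hω _ _ P hP, Submodule.coe_add,
        ip_add_right, sub_self]))
    (fun s hs => ⟨hs.neg G.adm, by
      have e := H s.1 (-s.1) ⟨s.2.1, hs, (pp _ s.2.2).1⟩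
        ⟨neg_mem s.2.1, hs.neg G.adm, neg_mem (pp _ s.2.2).1⟩ (neg_mem (hs.isot G.adm))
      rw [add_neg_cancel, f0] at e
      exact eq_neg_of_add_eq_zero_right e.symm, uq _ (mo _ _) fun P hP => by
        rw [hω _ _ P hP, mem_perp_orb.1 (hs.isot G.adm) P hP]⟩)
    (fun v => by
      obtain ⟨s, t', w, e, h⟩ := (hSP ℓ B Q W1 ⊥ 0 b v.1 G hS.1 small_bot t
        (rm_small G.str hS (by omega)) v.2.1 v.2.2).2.1
      have a1 := (h s (by simp)).1
      have a2 := (h t' (by simp)).1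
      have a3 := (h w (by simp)).1
      exact ⟨⟨s, a1.mem, a1.prp⟩, ⟨t', a2.mem, a2.prp⟩, ⟨w, a3.mem, a3.prp⟩, Subtype.ext e,
        a1.sing, a2.sing, a3.sing⟩)
    (fun h => by simpa [f0] using (val _ _ _ h).2.2.2)
  obtain ⟨C, hC, e⟩ := h3 b.rev b u' hu'.mem u hu.mem
    (fun e => hn (perp_orb_symm G.str.alg e)) b.rev (δ ∘ₗ evx u')
  rw [Fin.rev_rev] at e
  classical
  refine ⟨fun v => if h : v ∈ (Vb ℓ b ⊓ perp W1 : VS p n) then F ⟨v, h⟩ else 0, C, hC,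
    fun v h1 h2 w h3 h4 => ?_, fun v hv => ?_⟩
  · have a1 : v ∈ (Vb ℓ b ⊓ perp W1 : VS p n) := ⟨h1, h2⟩
    have a2 : w ∈ (Vb ℓ b ⊓ perp W1 : VS p n) := ⟨h3, h4⟩
    simp only [dif_pos a1, dif_pos a2, dif_pos (add_mem a1 a2)]
    rw [← hω ⟨v, a1⟩ ⟨w, a2⟩ C hC.1, ip_comm, e _ (hA _ _)]
    exact hF ⟨v, a1⟩ ⟨w, a2⟩
  · have a1 : v ∈ (Vb ℓ b ⊓ perp W1 : VS p n) := ⟨hv.mem, hv.prp⟩
    simp only [dif_pos a1]
    exact hf ⟨v, a1⟩ hv.sing

end Pool.Agent.P.MP_f1a348_lc.CE
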