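import Pool.Agent.P.MP_f1a348_lc.CE.Iface
import Pool.Agent.P.MP_f1a348_lc.UP.EBase
import Pool.Agent.P.MP_f1a348_lc.UP.TFLD

/-! Dimension of spaces of operators with small image; the index of the quadratic group. -/

namespace Pool.Agent.P.MP_f1a348_lc.CE

open Matrix Module Pool.Agent.P.MP_f1a348_lc.PG Pool.Agent.P.MP_f1a348_lc.UP

namespace THD

variable {p n : ℕ} [Fact p.Prime] {ℓ : Ix n → ℕ} {B : Sub p n}

theorem rank_split (T : Sub p n) (x : Vec p n) :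
    finrank (ZMod p) T = finrank (ZMod p) (orb T x) +
      finrank (ZMod p) (T ⊓ LinearMap.ker (evx x) : Sub p n) := by
  have h1 := ((evx x).domRestrict T).finrank_range_add_finrank_ker
  rw [LinearMap.range_domRestrict, LinearMap.ker_domRestrict] at h1
  rw [← h1, ← Submodule.finrank_map_subtype_eq T (Submodule.comap T.subtype _),
    Submodule.map_comap_subtype]
  rfl

theorem grow (h : Str ℓ B) {U : VS p n} (hU : Stab B U) {a : Ix n} {x : Vec p n}
    (hx : x ∈ Vb ℓ a) (hn : x ∉ U) :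
    finrank (ZMod p) U + eb ℓ B a ≤ finrank (ZMod p) (U ⊔ orb (Com B) x : VS p n) := by
  have h0 : x ≠ 0 := fun e => hn (e ▸ zero_mem U)
  have h1 : U ⊓ orb (Com B) x = ⊥ := by
    rw [eq_bot_iff]
    intro y hy
    by_contra e
    exact hn (mem_of_orb h hU hx hy.2 (fun c => e (c ▸ zero_mem _)) hy.1)
  have h2 := Submodule.finrank_sup_add_finrank_inf_eq U (orb (Com B) x)
  rw [h1, finrank_bot, add_zero] at h2
  have h3 : finrank (ZMod p) (orb (Com B) x ⊓ Vb ℓ a : VS p n) ≤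
      finrank (ZMod p) (orb (Com B) x) := Submodule.finrank_mono inf_le_left
  rw [orb_inf_Vb h.alg hx, finrank_orb_cb h hx h0] at h3
  rw [h2]
  exact Nat.add_le_add_left h3 _

theorem hd (h : Str ℓ B) {W : VS p n} {s : ℕ} (hW : Small ℓ B s W) : ∀ (k : ℕ) (U : VS p n)
    (T : Sub p n), Stab B U → 2 * n + 1 ≤ finrank (ZMod p) U + k → T ≤ B →
    (∀ b ∈ T, ∀ v, b *ᵥ v ∈ W) → (∀ b ∈ T, ∀ u ∈ U, b *ᵥ u = 0) →
    finrank (ZMod p) T + s * finrank (ZMod p) U ≤ s * (2 * n + 1) := by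
  have hV : finrank (ZMod p) (Vec p n) = 2 * n + 1 := by simp
  have top : ∀ T : Sub p n, (∀ b ∈ T, ∀ u ∈ (⊤ : VS p n), b *ᵥ u = 0) →
      finrank (ZMod p) T + s * finrank (ZMod p) (⊤ : VS p n) ≤ s * (2 * n + 1) := fun T e => by
    have : T = ⊥ := by
      rw [eq_bot_iff]
      exact fun b hb => mat_ext fun x => by rw [e b hb x trivial, Matrix.zero_mulVec]
    rw [this, finrank_bot, finrank_top, hV, zero_add]
  intro k
  induction k with
  | zero =>
    intro U T _ hk _ _ h3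
    have : U = ⊤ := Submodule.eq_top_of_finrank_eq
      (le_antisymm U.finrank_le (by rw [hV]; exact hk))
    subst this
    exact top T h3
  | succ k ih =>
    intro U T hU hk h1 h2 h3
    by_cases e : U = ⊤
    · subst e; exact top T h3
    obtain ⟨a, v, hn⟩ : ∃ a v, pr ℓ a *ᵥ v ∉ U := by
      by_contra c
      push Not at c
      exact e (eq_top_iff.2 fun v _ => mem_of_blocks h.lab fun a => c a v)
    have hx := pr_mulVec_mem (ℓ := ℓ) a v
    generalize pr ℓ a *ᵥ v = x at hn hx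
    have g := grow h hU hx hn
    have ep := eb_pos h.alg a
    have i := ih (U ⊔ orb (Com B) x) (T ⊓ LinearMap.ker (evx x)) (hU.sup (stab_orb x)) (by omega)
      (inf_le_left.trans h1) (fun b hb => h2 b hb.1) (fun b hb u hu => by
        obtain ⟨w, hw, _, ⟨C, hC, rfl⟩, rfl⟩ := Submodule.mem_sup.1 hu
        have e1 : b *ᵥ x = 0 := hb.2
        have e2 : evx x C = C *ᵥ x := rfl
        rw [Matrix.mulVec_add, h3 b hb.1 w hw, e2, ← com_mulVec hC (h1 hb.1), e1,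
          Matrix.mulVec_zero, add_zero])
    have o : finrank (ZMod p) (orb T x) ≤ s * eb ℓ B a := by
      refine (Submodule.finrank_mono (?_ : orb T x ≤ W ⊓ Vb ℓ a)).trans (hW.2 a)
      rintro _ ⟨b, hb, rfl⟩
      exact ⟨h2 b hb x, (h.alg.dg b (h1 hb)).mulVec_mem hx⟩
    have m := Nat.mul_le_mul_left s g
    rw [mul_add] at m
    rw [rank_split T x]
    omega

/-! ### forms on a block -/

theorem cb_comm (h : Str ℓ B) {a : Ix n} {x y : Mat p n} (hx : x ∈ Cb ℓ B a a)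
    (hy : y ∈ Cb ℓ B a a) : x * y = y * x :=
  (s_FLD p (Mat p n) (Cb ℓ B a a) (pr ℓ a) ⟨cb_pr h.alg a, fun _ => cb_left, fun _ => cb_right,
    fun _ u _ v => cb_mul u v, fun _ u v => (schur h u v).imp fun _ d => ⟨d.1, d.2.2⟩⟩).1 x hx y hy

theorem sq_onto (h : Str ℓ B) {a : Ix n} (h2 : ∀ y ∈ Cb ℓ B a a, y + y = 0) {u : Mat p n}
    (hu : u ∈ Cb ℓ B a a) : ∃ C ∈ Cb ℓ B a a, C * C = u := by
  let f : Cb ℓ B a a → Cb ℓ B a a := fun x => ⟨x.1 * x.1, cb_mul x.2 x.2⟩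
  have hf : Function.Injective f := fun x y e => by
    have e1 : x.1 * x.1 = y.1 * y.1 := congrArg Subtype.val e
    have hd : x.1 - y.1 ∈ Cb ℓ B a a := sub_mem x.2 y.2
    have e2 : (x.1 - y.1) * (x.1 - y.1) = 0 := by
      have e3 := h2 _ (cb_mul x.2 hd)
      rw [mul_sub] at e3
      rw [sub_mul, mul_sub, mul_sub, ← e1, ← cb_comm h x.2 y.2, ← e3]
      abel
    by_contra c
    obtain ⟨D, _, _, e4⟩ := schur h hd fun e5 => c (Subtype.ext (sub_eq_zero.1 e5))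
    have e6 := cb_left hd
    rw [← e4, mul_assoc, e2, mul_zero] at e6
    exact c (Subtype.ext (sub_eq_zero.1 e6.symm))
  obtain ⟨x, e⟩ := Finite.injective_iff_surjective.1 hf ⟨u, hu⟩
  exact ⟨x.1, x.2, congrArg Subtype.val e⟩

/-- a symmetric form that is not a trace generates all forms -/
theorem key (h : Str ℓ B) {a : Ix n} {P0 P : Mat p n} (h0 : P0 ∈ Cb ℓ B a.rev a)
    (hs : st P0 = P0) (hn : ¬ ∃ C ∈ Com B, P0 = C + st C) (hP : P ∈ Cb ℓ B a.rev a) :
    ∃ C ∈ Cb ℓ B a a, P = st C * P0 * C := by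
  obtain ⟨R, hR, r1, r2⟩ := schur h h0 fun e => hn ⟨0, zero_mem _, by rw [e]; simp⟩
  have back : ∀ M ∈ Cb ℓ B a.rev a, P0 * (R * M) = M := fun M hM => by
    rw [← mul_assoc, r1, cb_left hM]
  have z : ∀ s ∈ Cb ℓ B a a, P0 * s + st s * P0 = 0 := fun s hs' => by
    by_contra c
    have m1 := cb_mul h0 hs'
    have m2 := cb_mul (cb_st h.lab h.alg hs') h0
    have hT := add_mem m1 m2
    have sT : st (P0 * s + st s * P0) = P0 * s + st s * P0 := by
      rw [st_add, st_mul, st_mul, st_st, hs, add_comm]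
    have ht := cb_mul hR hT
    have bT := back _ hT
    generalize R * (P0 * s + st s * P0) = t at ht bT
    obtain ⟨t', ht', t1, t2⟩ := schur h ht fun e => c (by rw [← bT, e, mul_zero])
    have e1 : st t * P0 = P0 * t := by rw [← hs, ← st_mul, hs, bT, sT]
    have e2 : st t * (st s * P0) = st s * P0 * t := by
      have m3 := cb_mul hR m2
      rw [← back _ m2, ← mul_assoc, e1, mul_assoc, cb_comm h ht m3, ← mul_assoc]
    have e3 : st t' * (st s * P0) = st s * P0 * t' := by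
      calc st t' * (st s * P0) = st t' * (st s * P0 * t) * t' := by
            rw [mul_assoc, mul_assoc (st s * P0), t1, cb_right m2]
        _ = st s * P0 * t' := by
            rw [← e2, ← mul_assoc, ← st_mul, t1, st_pr h.lab, cb_left m2]
    refine hn ⟨P0 * s * t', (cb_mul m1 ht').1, ?_⟩
    rw [st_mul, st_mul, hs, e3, ← add_mul, ← bT, mul_assoc, t1, cb_right h0]
  have two : P0 + P0 = 0 := by
    have := z _ (cb_pr h.alg a)
    rwa [st_pr h.lab, cb_left h0, cb_right h0] at this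
  have h2 : ∀ y ∈ Cb ℓ B a a, y + y = 0 := fun y hy => by
    rw [← cb_left hy, ← r2, ← add_mul, ← mul_add, two, mul_zero, zero_mul]
  obtain ⟨C, hC, e⟩ := sq_onto h h2 (cb_mul hR hP)
  refine ⟨C, hC, ?_⟩
  have e1 : st C * P0 = P0 * C := by
    have e2 : P0 * C + P0 * C = 0 := by rw [← mul_add, h2 C hC, mul_zero]
    exact add_left_cancel ((z C hC).trans e2.symm)
  rw [e1, mul_assoc, e, back P hP]

theorem ip_blk (h : Str ℓ B) {a : Ix n} (P : Mat p n) {x y : Vec p n} (hx : x ∈ Vb ℓ a)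
    (hy : y ∈ Vb ℓ a) : ip ((pr ℓ a.rev * P * pr ℓ a) *ᵥ x) y = ip (P *ᵥ x) y := by
  rw [cb_comp _ hx, ip_pr h.lab hy]

theorem pol_symm {θ : Fn p n} {P : Mat p n} (h : Pol θ P) : st P = P :=
  mat_ext fun x => ip_ext fun y => by
    have e := h x y
    rw [add_comm x y, h y x, add_comm (θ y)] at e
    rw [← ip_mulVec_right, ip_comm, add_left_cancel e]

/-- one function controls a block -/
theorem one_fn {Q : QS p n} (g : Geo ℓ B Q) (a : Ix n) : ∃ θ0 ∈ Q, ∀ θ ∈ Q,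
    (∀ z, U1 B z → ∀ x ∈ Vb ℓ a, θ (z *ᵥ x) = θ x) ∨
    ∃ C ∈ Cb ℓ B a a, ∀ x ∈ Vb ℓ a, θ x = θ0 (C *ᵥ x) := by
  have h := g.str
  by_cases t : Triv ℓ B a
  · exact ⟨0, zero_mem _, fun θ _ => Or.inl fun z hz x hx => by rw [hz.triv h t hx]⟩
  by_cases c : ∃ θ0 ∈ Q, ∃ P ∈ Com B, Pol θ0 P ∧
      ¬ ∃ C ∈ Com B, pr ℓ a.rev * P * pr ℓ a = C + st C
  · obtain ⟨θ0, m0, P0, c0', p0, hn⟩ := c
    refine ⟨θ0, m0, fun θ m => Or.inr ?_⟩
    obtain ⟨P, c1, p1⟩ := g.adm.pol θ m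
    obtain ⟨C, hC, e⟩ := key h (cb_of_com h.alg c0' a.rev a) (by
      rw [st_mul, st_mul, st_pr h.lab, st_pr h.lab, Fin.rev_rev, pol_symm p0, mul_assoc]) hn
      (cb_of_com h.alg c1 a.rev a)
    refine ⟨C, hC, fun x hx => sub_eq_zero.1 (g.adm.inj _ (sub_mem m (g.adm.comp θ0 m0 C hC.1)) a t
      (fun x hx y hy => ?_) x hx)⟩
    simp only [Pi.sub_apply]
    rw [p1, Matrix.mulVec_add, p0, ← ip_blk h P hx hy, e,
      ← ip_blk h P0 (cb_mulVec_mem hC x) (cb_mulVec_mem hC y), ip_mulVec_right C,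
      Matrix.mulVec_mulVec, Matrix.mulVec_mulVec]
    ring
  · refine ⟨0, zero_mem _, fun θ m => Or.inl fun z hz x hx => ?_⟩
    obtain ⟨P, c1, p1⟩ := g.adm.pol θ m
    obtain ⟨C, hC, e⟩ : ∃ C ∈ Com B, pr ℓ a.rev * P * pr ℓ a = C + st C := by
      by_contra c'
      exact c ⟨θ, m, P, c1, p1, c'⟩
    have k : ∀ x ∈ Vb ℓ a, θ x = ip (C *ᵥ x) x := fun x hx =>
      sub_eq_zero.1 (g.adm.inj _ (sub_mem m (g.adm.com C hC)) a t (fun x hx y hy => by
        simp only [Pi.sub_apply]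
        rw [p1, ← ip_blk h P hx hy, e, Matrix.add_mulVec, Matrix.mulVec_add, ip_add_left,
          ip_add_left, ip_add_right, ip_add_right, ← ip_mulVec_right C, ip_comm x]
        ring) x hx)
    rw [k x hx, k _ ((h.alg.dg z hz.1).mulVec_mem hx), com_mulVec hC hz.1, hz.2.1.ip]

theorem lin_zero (f : Fn p n) (hf : ∀ x y, f (x + y) = f x + f y) (x : Vec p n)
    (H : ∀ β, x β ≠ 0 → f (Pi.single β 1) = 0) : f x = 0 := by
  let F : Vec p n →ₗ[ZMod p] ZMod p := (AddMonoidHom.mk' f hf).toZModLinearMap p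
  have e : ∀ y, F y = f y := fun _ => rfl
  rw [← e, pi_eq_sum_univ' x, map_sum]
  refine Finset.sum_eq_zero fun β _ => ?_
  rw [map_smul, e]
  by_cases c : x β = 0
  · rw [c, zero_smul]
  · rw [H β c, smul_zero]

theorem diff_add {θ : Fn p n} {P : Mat p n} (hP : P ∈ Com B) (p1 : Pol θ P) {z z' : Mat p n}
    (hz : U1 B z) (hz' : U1 B z') (x y : Vec p n) :
    θ (z *ᵥ (x + y)) - θ (z' *ᵥ (x + y)) =
      θ (z *ᵥ x) - θ (z' *ᵥ x) + (θ (z *ᵥ y) - θ (z' *ᵥ y)) := by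
  rw [Matrix.mulVec_add, Matrix.mulVec_add, p1, p1, com_mulVec hP hz.1, com_mulVec hP hz'.1,
    hz.2.1.ip, hz'.2.1.ip]
  ring

end THD

open THD

theorem c_HD (p n : ℕ) [Fact p.Prime] : C_HD p n := by
  intro ℓ B T W s h hW h1 h2
  have := hd h hW (2 * n + 1) ⊥ T stab_bot (by omega) h1 h2 fun b _ u hu => by
    rw [(Submodule.mem_bot _).1 hu, Matrix.mulVec_zero]
  omega

theorem c_IDX1 (p n : ℕ) [Fact p.Prime] : C_IDX1 p n := by
  intro ℓ B Q g
  have h := g.str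
  choose th m H using one_fn g
  have main : ∀ z z', U1 B z → U1 B z' →
      (∀ β, th (h.lab.fst β) (z *ᵥ Pi.single β 1) = th (h.lab.fst β) (z' *ᵥ Pi.single β 1)) →
      ∀ θ ∈ Q, ∀ x, θ (z *ᵥ x) = θ (z' *ᵥ x) := fun z z' hz hz' e θ mθ x => by
    obtain ⟨P, c1, p1⟩ := g.adm.pol θ mθ
    refine sub_eq_zero.1 (lin_zero (fun x => θ (z *ᵥ x) - θ (z' *ᵥ x)) (diff_add c1 p1 hz hz') x
      fun β _ => sub_eq_zero.2 ?_)
    have hx : (Pi.single β 1 : Vec p n) ∈ Vb ℓ (h.lab.fst β) :=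
      single_mem_Vb (h.lab.lab_fst β).symm 1
    rcases H (h.lab.fst β) θ mθ with k | ⟨C, hC, k⟩
    · rw [k z hz _ hx, k z' hz' _ hx]
    · obtain ⟨P0, c0', p0⟩ := g.adm.pol _ (m (h.lab.fst β))
      rw [k _ ((h.alg.dg z hz.1).mulVec_mem hx), k _ ((h.alg.dg z' hz'.1).mulVec_mem hx),
        com_mulVec hC.1 hz.1, com_mulVec hC.1 hz'.1]
      refine sub_eq_zero.1 (lin_zero (fun x => th _ (z *ᵥ x) - th _ (z' *ᵥ x))
        (diff_add c0' p0 hz hz') _ fun γ hγ => sub_eq_zero.2 ?_)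
      have e1 : h.lab.fst β = h.lab.fst γ := by
        refine Fin.ext ?_
        by_contra c
        exact hγ (cb_mulVec_mem hC _ γ fun c' => c ((h.lab.lab_fst β).symm.trans c'.symm))
      rw [e1]
      exact e γ
  refine ⟨fun z β => th (h.lab.fst β) (st z *ᵥ Pi.single β 1), fun z z' hz hz' e => ?_⟩
  have s := hz.star h.lab h.alg
  have s' := hz'.star h.lab h.alg
  refine ⟨s'.mul h.lab h.alg hz, fun θ mθ x => ?_⟩
  rw [← Matrix.mulVec_mulVec, ← main _ _ s s' (fun β => congrFun e β) θ mθ, hz.2.1.st_mulVec]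

end Pool.Agent.P.MP_f1a348_lc.CE
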