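import Pool.Agent.P.MP_f1a348_lc.CE.Base2

/-!
Project CE: singular partners and hyperbolic pairs.
-/

namespace Pool.Agent.P.MP_f1a348_lc.CE

open Matrix Module Pool.Agent.P.MP_f1a348_lc.PG Pool.Agent.P.MP_f1a348_lc.UP

namespace THYP

variable {p n : ℕ} [Fact p.Prime] {ℓ : Ix n → ℕ} {B : Sub p n} {Q : QS p n}

theorem ip_cut (h : Lab ℓ) (P : Mat p n) {a b : Ix n} {x y : Vec p n} (hx : x ∈ Vb ℓ b)
    (hy : y ∈ Vb ℓ a) : ip ((pr ℓ a.rev * P * pr ℓ b) *ᵥ x) y = ip (P *ᵥ x) y := by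
  rw [cb_comp _ hx, ip_pr h hy]

theorem h1 (G : Geo ℓ B Q) {θ : Fn p n} (hθ : θ ∈ Q) {P : Mat p n} {b : Ix n} (hP : Pol θ P)
    (t : ¬ Triv ℓ B b) (e : pr ℓ b.rev * P * pr ℓ b = 0) : ∀ z ∈ Vb ℓ b, θ z = 0 :=
  G.adm.inj θ hθ b t fun x hx y hy => by
    rw [hP, ← ip_cut G.str.lab P hx hy, e, Matrix.zero_mulVec, ip_zero_left, add_zero]

/-- the members of `Q` together with their polar forms -/
def pairs (Q : QS p n) : Submodule (ZMod p) (Fn p n × Mat p n) where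
  carrier := {x | x.1 ∈ Q ∧ Pol x.1 x.2}
  add_mem' {a b} ha hb := ⟨add_mem ha.1 hb.1, fun x y => by
    simp only [Prod.fst_add, Prod.snd_add, Pi.add_apply, ha.2 x y, hb.2 x y, Matrix.add_mulVec,
      ip_add_left]; ring⟩
  zero_mem' := ⟨zero_mem _, fun x y => by simp⟩
  smul_mem' c a ha := ⟨Submodule.smul_mem _ c ha.1, fun x y => by
    simp only [Prod.smul_fst, Prod.smul_snd, Pi.smul_apply, smul_eq_mul, ha.2 x y,
      Matrix.smul_mulVec, ip_smul_left]; ring⟩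

theorem h2 (G : Geo ℓ B Q) {b : Ix n} (t : ¬ Triv ℓ B b) {z : Vec p n} (hz : z ∈ Vb ℓ b) :
    ∃ μ : Mat p n →ₗ[ZMod p] ZMod p,
      ∀ θ ∈ Q, ∀ P, Pol θ P → μ (pr ℓ b.rev * P * pr ℓ b) = θ z := by
  let f : pairs Q →ₗ[ZMod p] Mat p n :=
    lr (pr ℓ b.rev) (pr ℓ b) ∘ₗ LinearMap.snd _ _ _ ∘ₗ (pairs Q).subtype
  let g : Module.Dual (ZMod p) (pairs Q) :=
    LinearMap.proj z ∘ₗ LinearMap.fst _ _ _ ∘ₗ (pairs Q).subtype
  have hg : g ∈ LinearMap.range f.dualMap := by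
    rw [LinearMap.range_dualMap_eq_dualAnnihilator_ker, Submodule.mem_dualAnnihilator]
    exact fun x hx => h1 G x.2.1 x.2.2 t hx z hz
  obtain ⟨μ, e⟩ := hg
  exact ⟨μ, fun θ hθ P hP => congrArg (fun φ => φ ⟨(θ, P), hθ, hP⟩) e⟩

theorem h3 (h : Str ℓ B) {b c : Ix n} {z w : Vec p n} (hz : z ∈ Vb ℓ b) (hw : w ∈ Vb ℓ c)
    (hn : w ∉ perp (orb (Com B) z)) (a : Ix n) (μ : Mat p n →ₗ[ZMod p] ZMod p) :
    ∃ C ∈ Cb ℓ B a c, ∀ P ∈ Cb ℓ B a.rev b, ip (P *ᵥ z) (C *ᵥ w) = μ P := by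
  let β : Cb ℓ B a.rev b →ₗ[ZMod p] Cb ℓ B a c →ₗ[ZMod p] ZMod p :=
    ipL.compl₁₂ (evx z ∘ₗ Submodule.subtype _) (evx w ∘ₗ Submodule.subtype _)
  have hi : Function.Injective β := by
    rw [injective_iff_map_eq_zero]
    intro P e
    have h0 : z ≠ 0 := fun e0 => hn (by rw [e0, orb_zero, perp_bot]; trivial)
    refine Subtype.ext (cb_inj h P.2 hz h0 ?_)
    by_contra h4
    refine hn (perp_orb_symm h.alg (mem_of_mulVec_mem h ((stab_orb w).perp h.alg) hz P.2.1 h4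
      (mem_perp_orb.2 fun D hD => ?_)))
    have h5 := ip_cut h.lab D hw (cb_mulVec_mem P.2 z)
    rw [Fin.rev_rev] at h5
    rw [← h5, ip_comm]
    exact congrArg (fun φ => φ ⟨_, cb_of_com h.alg hD a c⟩) e
  obtain ⟨C, e⟩ := LinearMap.flip_surjective_iff₁.2 hi (μ ∘ₗ Submodule.subtype _)
  exact ⟨C, C.2, fun P hP => congrArg (fun φ => φ ⟨P, hP⟩) e⟩

end THYP

open THYP

theorem c_HYP (p n : ℕ) [Fact p.Prime] : C_HYP p n := fun ℓ B Q G =>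
  ⟨fun θ hθ P b hP t e => h1 G hθ hP t e, fun b t z hz => h2 G t hz,
    fun b c z hz w hw hn a μ => h3 G.str hz hw hn a μ, fun b c t z hz w hw hs hn => by
    obtain ⟨μ, hμ⟩ := h2 G t hz
    obtain ⟨C, hC, e⟩ := h3 G.str hz hw hn b μ
    refine ⟨C, hC, fun θ hθ => ?_⟩
    obtain ⟨P, hP, hp⟩ := G.adm.pol θ hθ
    rw [sub_eq_add_neg, hp, ((hs.com G.adm hC.1).neg G.adm) θ hθ, ip_neg_right,
      ← ip_cut G.str.lab P hz (cb_mulVec_mem hC w), e _ (cb_of_com G.str.alg hP _ _),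
      hμ θ hθ P hp, add_zero, add_neg_cancel]⟩

theorem c_HP (p n : ℕ) [Fact p.Prime] (hHYP : C_HYP p n) (hCW : C_CW p n) : C_HP p n := by
  intro ℓ B Q W b y G hW hy hn
  have h := G.str
  have t : ¬ Triv ℓ B b.rev := fun t =>
    hy.sing.ntriv G hy.mem (fun e => hn (e ▸ zero_mem _)) ((triv_rev h).1 t)
  obtain ⟨z, hz, z1, z2⟩ : ∃ z ∈ Vb ℓ b.rev, z ∈ perp W ∧ ip y z ≠ 0 := by
    by_contra! hc
    exact hn (mem_of_ip h.lab h.alg hW (b := b.rev) (by rw [Fin.rev_rev]; exact hy.mem) hc)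
  have z3 : z ∉ perp (orb (Com B) y) := fun e => z2 (e y (self_mem_orb y))
  obtain ⟨C, hC, hs⟩ := (hHYP ℓ B Q G).2.2.2 b.rev b t z hz y hy.mem hy.sing
    fun e => z3 (perp_orb_symm h.alg e)
  have x1 : z - C *ᵥ y ∉ perp (orb (Com B) y) := fun e => z3 (by
    simpa using add_mem e (hy.sing.orb_le G (mem_orb_com hC.1 y)))
  have x2 : SV ℓ Q W b.rev (z - C *ᵥ y) :=
    ⟨sub_mem hz (cb_mulVec_mem hC y), hs, sub_mem z1 (hW.perp h.alg C hC.1 y hy.prp)⟩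
  generalize z - C *ᵥ y = x at x1 x2
  obtain ⟨π, hπ, e1, e2, e3, e4⟩ := r1x h x2.mem hy.mem (fun e => x1 (perp_orb_symm h.alg e)) hy.mem
  have e5 : ∀ v ∈ perp (orb (Com B) y), st π *ᵥ v = 0 := fun v hv => kill_of_im e2 hv
  have e6 := fx_orb hπ e1
  refine ⟨x, π, x2, x1, hπ, ⟨mat_ext fun v => ?_, mat_ext fun v => ?_, mat_ext fun v => ?_⟩, e1, ?_,
    fun v => ⟨e2 v, e3 v⟩, e4, e5, fun w hw => ⟨e4 w (perp_of_perp h.alg hW x2.prp hw),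
      e5 w (perp_of_perp h.alg hW hy.prp hw)⟩⟩
  · rw [← Matrix.mulVec_mulVec, e6 _ (e2 v)]
  · rw [← Matrix.mulVec_mulVec, e4 _ (x2.sing.orb_le G (e3 v)), Matrix.zero_mulVec]
  · rw [← Matrix.mulVec_mulVec, e5 _ (hy.sing.orb_le G (e2 v)), Matrix.zero_mulVec]
  · by_contra h0
    refine x1 (mem_of_orb h ((stab_orb y).perp h.alg) x2.mem (sub_mem (e3 x) (self_mem_orb x))
      (sub_ne_zero.2 h0) fun w hw => ?_)
    rw [ip_sub_right, ← ip_mulVec, e6 w hw, sub_self]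

end Pool.Agent.P.MP_f1a348_lc.CE
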