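import Pool.Agent.P.MP_f1a348_lc.CE.Iface

/-!
Project CE: groups of pairs, and fixed points of the unipotent radical.
-/

namespace Pool.Agent.P.MP_f1a348_lc.CE

open Matrix Module Pool.Agent.P.MP_f1a348_lc.PG Pool.Agent.P.MP_f1a348_lc.UP

namespace TKX

variable {p n : ℕ} [Fact p.Prime] {ℓ : Ix n → ℕ}

theorem st_pow {z : Mat p n} (h : Un z) : ∃ k, st z = z ^ k := by
  have hu : IsUnit z := ⟨⟨z, st z, h.mul_st, h.st_mul⟩, rfl⟩
  obtain ⟨m, hm, e⟩ := (isOfFinOrder_of_finite hu.unit).exists_pow_eq_one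
  have e' : z ^ m = 1 := by simpa using congrArg Units.val e
  obtain ⟨k, rfl⟩ : ∃ k, m = k + 1 := ⟨m - 1, by omega⟩
  exact ⟨k, by rw [← mul_one (st z), ← e', pow_succ', ← mul_assoc, h.st_mul, one_mul]⟩

theorem pow_ne {y : Mat p n} (hy : Tri ℓ y) (hg : gr ℓ y = 1) (k : ℕ) :
    ∀ α β, ((y - 1) ^ k) α β ≠ 0 → ℓ α + k ≤ ℓ β := by
  induction k with
  | zero => intro α β e; rw [pow_zero] at e; exact (Dg.one α β e).le
  | succ k ih =>
    intro α β e
    rw [pow_succ] at e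
    obtain ⟨γ, e1, e2⟩ := exists_of_mul_ne e
    have h1 := ih α γ e1
    have h2 : ℓ γ ≠ ℓ β := fun q => e2 (by
      have := congrFun (congrFun hg γ) β
      rw [gr_apply, if_pos q] at this
      rw [Matrix.sub_apply, this, sub_self])
    have h3 : γ ≠ β := fun q => h2 (q ▸ rfl)
    rw [Matrix.sub_apply, Matrix.one_apply_ne h3, sub_zero] at e2
    have := (hy γ β e2).1
    omega

theorem pow_one' (hl : Lab ℓ) {y : Mat p n} (hy : Tri ℓ y) (hg : gr ℓ y = 1) :
    y ^ p ^ (2 * n + 1) = 1 := by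
  have h0 : (y - 1) ^ p ^ (2 * n + 1) = 0 := by
    ext α β
    by_contra e
    have h1 := pow_ne hy hg _ α β e
    have h2 := hl.lt β
    have h3 := Nat.lt_pow_self (n := 2 * n + 1) (Fact.out : p.Prime).one_lt
    omega
  have := add_pow_char_pow_of_commute p (2 * n + 1) (Commute.one_right (y - 1))
  rwa [sub_add_cancel, h0, one_pow, zero_add] at this

theorem val_pow' (g : GG p n) (k : ℕ) : (g ^ k).1 = g.1 ^ k := by
  induction k with
  | zero => rfl
  | succ k ih => rw [pow_succ, pow_succ, val_mul, ih]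

end TKX

open TKX

theorem c_KX (p n : Nat) [Fact p.Prime] : C_KX p n := by
  intro ℓ B d M _ _ σ K _ h
  have pw : ∀ z w, K z w → ∀ k : ℕ, ∃ v, K (z ^ k) v := fun z w hz k => by
    induction k with
    | zero => exact ⟨0, by simpa using h.one⟩
    | succ k ih => obtain ⟨v, hv⟩ := ih; exact ⟨_, by rw [pow_succ]; exact h.mul _ _ _ _ hv hz⟩
  have sr : ∀ z w, K z w → ∃ v, K (st z) v := fun z w hz => by
    obtain ⟨k, e⟩ := st_pow (h.mem z w hz).2.1
    exact e ▸ pw z w hz k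
  have ha : ∀ u v, K 1 u → K 1 v → K 1 (u + v) := fun u v a b => by
    simpa [h.act1] using h.mul _ _ _ _ a b
  let S : Submodule (ZMod p) M :=
    { carrier := {w | K 1 w}
      add_mem' := ha _ _
      zero_mem' := h.one
      smul_mem' := fun c x a => by
        change K 1 (c • x)
        rw [← ZMod.natCast_zmod_val c, Nat.cast_smul_eq_nsmul]
        induction c.val with
        | zero => simpa using h.one
        | succ k ih => rw [succ_nsmul]; exact ha _ _ ih a }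
  have sub : ∀ z w v, K z w → (K z v ↔ K 1 (v - w)) := fun z w v hw => by
    refine ⟨fun hv => ?_, fun hv => by simpa [h.act1] using h.mul _ _ _ _ hw hv⟩
    obtain ⟨u, hu⟩ := sr z w hw
    have h1 := h.mul _ _ _ _ hu hw
    have h2 := h.mul _ _ _ _ hu hv
    rw [(h.mem z w hw).2.1.st_mul] at h1 h2
    have : _ ∈ S := S.sub_mem h2 h1
    rwa [add_sub_add_left_eq_sub] at this
  refine ⟨⟨⟨0, h.one⟩, ?_, fun a ⟨u, hu⟩ => (h.mem a u hu).2.1, ?_⟩, ⟨S, fun _ => Iff.rfl⟩, sub, fun z w v hw hv => ?_⟩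
  · rintro a ⟨u, hu⟩ b ⟨v, hv⟩
    exact ⟨_, h.mul _ _ _ _ hu hv⟩
  · rintro a ⟨u, hu⟩
    exact sr a u hu
  · have := h.mul _ _ _ _ hv hw
    rw [one_mul, sub z w _ hw] at this
    rwa [add_sub_cancel_right] at this

theorem c_NIL2 (p n : Nat) [Fact p.Prime] : C_NIL p n := by
  intro ℓ M _ _ _ σ Z hl h1 hm hZ ne
  let U : Subgroup (GG p n) :=
    { carrier := {y | Par ℓ y.1 ∧ gr ℓ y.1 = 1}
      one_mem' := ⟨Par.one, gr_one⟩
      mul_mem' := fun {a b} ha hb => ⟨ha.1.mul hb.1, by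
        rw [val_mul, gr_mul ha.1.1 hb.1.1, ha.2, hb.2, one_mul]⟩
      inv_mem' := fun {a} ha => ⟨ha.1.star hl, by rw [val_inv, gr_st hl, ha.2, st_one]⟩ }
  have hP : IsPGroup p U := fun y => ⟨2 * n + 1, Subtype.ext (Subtype.ext (by
    rw [Subgroup.coe_pow, val_pow']; exact pow_one' hl y.2.1.1 y.2.2))⟩
  let τ : U → (M ⧸ Z) →ₗ[ZMod p] M ⧸ Z := fun y =>
    Z.mapQ Z (σ (y⁻¹).1.1) fun w hw => hZ _ (y⁻¹).2.1 (y⁻¹).2.2 w hw
  have hτ : ∀ y m, τ y (Submodule.Quotient.mk m) = Submodule.Quotient.mk (σ (y⁻¹).1.1 m) :=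
    fun _ _ => rfl
  let _ : MulAction U (M ⧸ Z) :=
    { smul := fun y m => τ y m
      one_smul := fun m => by
        obtain ⟨m, rfl⟩ := Z.mkQ_surjective m
        change τ 1 (Submodule.Quotient.mk m) = Submodule.Quotient.mk m
        rw [hτ, inv_one]
        exact congrArg _ (by change σ 1 m = m; rw [h1]; rfl)
      mul_smul := fun a b m => by
        obtain ⟨m, rfl⟩ := Z.mkQ_surjective m
        change τ (a * b) (Submodule.Quotient.mk m) = τ a (τ b (Submodule.Quotient.mk m))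
        rw [hτ, hτ, hτ, _root_.mul_inv_rev]
        exact congrArg _ (by
          change σ ((b⁻¹).1.1 * (a⁻¹).1.1) m = _
          rw [hm _ _ (b⁻¹).2.1 (b⁻¹).2.2 (a⁻¹).2.1 (a⁻¹).2.2]; rfl) }
  have : Nontrivial (M ⧸ Z) := Submodule.Quotient.nontrivial_iff.2 ne
  have : Finite (M ⧸ Z) := Finite.of_surjective _ Z.mkQ_surjective
  have hd : p ∣ Nat.card (M ⧸ Z) := by
    rw [Module.natCard_eq_pow_finrank (K := ZMod p), Nat.card_zmod]
    exact dvd_pow_self p Module.finrank_pos.ne'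
  obtain ⟨b, hb, nb⟩ := hP.exists_fixed_point_of_prime_dvd_card_of_fixed_point (M ⧸ Z) hd
    (a := 0) fun y => map_zero (τ y)
  obtain ⟨w, rfl⟩ := Z.mkQ_surjective b
  refine ⟨w, fun q => nb ((Submodule.Quotient.mk_eq_zero Z).2 q).symm, fun y hy hg => ?_⟩
  have := hb (⟨⟨y, hy.l0⟩, hy, hg⟩ : U)⁻¹
  change τ _ (Submodule.Quotient.mk w) = Submodule.Quotient.mk w at this
  rw [hτ, inv_inv] at this
  exact (Submodule.Quotient.eq Z).1 this

end Pool.Agent.P.MP_f1a348_lc.CE
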