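import Pool.Agent.P.MP_f1a348_lc.CE.EB

/-!
Project CE: lifting through one module.
-/

namespace Pool.Agent.P.MP_f1a348_lc.CE

open Matrix Module Pool.Agent.P.MP_f1a348_lc.PG Pool.Agent.P.MP_f1a348_lc.UP EB

namespace TLIF
variable {p n : ℕ} [Fact p.Prime] {ℓ : Ix n → ℕ} {B : Sub p n} {Q : QS p n} {d k : ℕ}
  {M : Type} [AddCommGroup M] [Module (ZMod p) M] {σ : Mat p n → Module.End (ZMod p) M}
  {K : Mat p n → M → Prop} {Y : Set (Mat p n)}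

/-- the part of the relation over the product of the elementary group and `Y` -/
def KR (B : Sub p n) (Q : QS p n) (Y : Set (Mat p n)) (K : Mat p n → M → Prop) (z : Mat p n)
    (w : M) : Prop := K z w ∧ ∃ e ∈ EU B Q, ∃ y ∈ Y, z = e * y

omit [AddCommGroup M] [Module (ZMod p) M] in
theorem kr_eu (hY : Grp Y) {z : Mat p n} {w : M} (h : K z w) (hz : z ∈ EU B Q) :
    KR B Q Y K z w := ⟨h, z, hz, 1, hY.one, (mul_one z).symm⟩

theorem kx (S : Str ℓ B) (hK : KX B d σ K) (hY : Grp Y) (hQ : ∀ y ∈ Y, UQ B Q y) :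
    KX B d σ (KR B Q Y K) where
  act1 := hK.act1
  act := hK.act
  mem z w h := hK.mem z w h.1
  one := kr_eu hY hK.one (one_mem _)
  mul := by
    rintro _ w _ v ⟨h, e, he, y, hy, rfl⟩ ⟨h', e', he', y', hy', rfl⟩
    refine ⟨hK.mul _ _ _ _ h h', e * (y * e' * st y), mul_mem he (eu_conj S.alg (hQ y hy) he'),
      y * y', hY.mul _ hy _ hy', ?_⟩
    simp only [mul_assoc]
    rw [← mul_assoc (st y) y, (hY.un y hy).st_mul, one_mul]
  deg l h1 h2 h3 z w h :=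
    kr_eu hY (hK.deg l h1 (fun y hy => let ⟨v, hv⟩ := h2 y hy; ⟨v, hv.1⟩) h3 z w h.1) (one_mem _)

end TLIF

open TLIF

theorem c_LIF (p n : ℕ) [Fact p.Prime] (hKX : C_KX p n) (hADM : C_ADM p n) (hPERF : C_PERF p n)
    (hTR : C_TR p n) (hENG1 : C_ENG1 p n) (hENG : C_ENG p n) (hLT0 : S_LT0 p n) : C_LIF p n := by
  intro ℓ B d M _ _ _ σ K Y S hb hd hK hY h0 hE hLT z hz
  obtain ⟨G, hQ, -⟩ := hADM ℓ B Y S hY.mem hY.span
  have hX := kx (Q := QY B Y) S hK hY.grp hQ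
  obtain ⟨-, ⟨P, hP⟩, hsub, -⟩ := hKX ℓ B d M σ _ S hX
  have hU : ∀ z w, KR B (QY B Y) Y K z w → UQ B (QY B Y) z := by
    rintro _ w ⟨-, e, he, y, hy, rfl⟩
    exact (eu_uq G he).mul S (hQ y hy)
  have hE' : ∀ z ∈ EU B (QY B Y), ∃ w, KR B (QY B Y) Y K z w := fun z hz =>
    let ⟨w, hw⟩ := hE z hz; ⟨w, kr_eu hY.grp hw hz⟩
  have hy0 : ∀ y ∈ Y, KR B (QY B Y) Y K y 0 := fun y hy =>
    ⟨h0 y hy, 1, one_mem _, y, hy, (one_mul y).symm⟩
  by_cases hc : ∀ z w, KR B (QY B Y) Y K z w → KR B (QY B Y) Y K 1 w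
  · obtain ⟨w, hw⟩ := hE' z hz
    refine ((hsub z w 0 hw).2 ((hP _).1 ?_)).1
    rw [zero_sub]
    exact neg_mem ((hP w).2 (hc z w hw))
  obtain ⟨k, hk, a, ψ, E0⟩ := hENG1 ℓ B _ d M σ _ G hb hd hX hU hE' hc
  have E := hENG ℓ B _ d M σ _ k a ψ G hb hX hU hE' E0
  have T := fun w => hTR ℓ B _ k a w G E0.le E0.nt
  obtain ⟨u, w, hu, hw⟩ := E0.ne
  refine (hw ?_).elim
  have two : 2 ≤ k → (∀ θ ∈ Wt ℓ (key ℓ (bx k a)), (∀ y ∈ Y, pull1 y θ - θ ∈ Tr ℓ B) →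
      θ ∈ Tr ℓ B) → ψ w ∈ Tr ℓ B := fun h2 h3 => by
    obtain ⟨θ, hθ, e⟩ := E.two h2
    have ht := h3 θ hθ fun y hy => by simpa using e y 0 (hy0 y hy)
    simpa using sub_mem (sub_mem (pull1_mem_Tr (hU u w hu).mem (hU u w hu).un ht) ht) (e u w hu)
  obtain rfl | rfl | rfl | rfl : k = 0 ∨ k = 1 ∨ k = 2 ∨ k = 3 := by omega
  · choose! κ hκ using hE'
    have e1 : ∀ y v z w, KR B (QY B Y) Y K y v → KR B (QY B Y) Y K z w →
        ev (ψ (σ z v)) (fun _ => e0) = ev (ψ v) fun _ => e0 := fun y v z w h h' => by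
      have := (T _).1 (E0.eqv y v z w h h') 0 gen_zero
      rwa [ev_sub, (T _).2.2.2.2.2 z (hU z w h').1, tx_zero, tx_zero, sub_eq_zero] at this
    have e2 : ∀ z v w, KR B (QY B Y) Y K z v → KR B (QY B Y) Y K z w →
        ev (ψ w) (fun _ => e0) = ev (ψ v) fun _ => e0 := fun z v w h h' => by
      have := (T _).1 (E0.ker _ ((hsub z v w h).1 h')) 0 gen_zero
      rwa [map_sub, ev_sub, tx_zero, sub_eq_zero] at this
    have e3 := (hPERF ℓ B _ G fun a t => le_trans (by omega) (hb a t)).2.2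
      (fun z => ev (ψ (κ z)) fun _ => e0) fun y hy z hz => by
        rw [e2 _ _ _ (hX.mul _ _ _ _ (hκ y hy) (hκ z hz)) (hκ _ (mul_mem hy hz)), map_add, ev_add,
          e1 _ _ _ _ (hκ y hy) (hκ z hz)]
    refine (T _).2.1 (big30 hb) (E0.mem w) fun x _ => ?_
    obtain ⟨e, he, y, hy, rfl⟩ := hu.2
    rw [tx_zero, e2 _ _ _ (hX.mul _ _ _ _ (hκ e he) (hy0 y hy)) hu, add_zero,
      e1 _ _ _ _ (hκ e he) (hy0 y hy)]
    exact e3 e he
  · obtain ⟨θ, h1, h2, h3⟩ := E.one rfl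
    have hθ : θ ∈ QY B Y := ⟨h1, fun y hy x => by
      have := h3 y 0 (hy0 y hy) _ (pr_mulVec_mem (a 0) x)
      rw [map_zero, ev_zero, eq_comm, sub_eq_zero, h2, ← com_mulVec (com_pr S.alg _) (hQ y hy).mem,
        h2] at this
      exact this⟩
    refine (T _).2.1 (big30 hb) (E0.mem w) fun x hx => ?_
    rw [tx_one, h3 u w hu _ (hx.mem 0 one_pos), (hU u w hu).2 θ hθ, sub_self]
  · exact two le_rfl fun θ hθ h => hLT0 ℓ B _ θ Y S hθ ⟨2, triv_c0 S.alg⟩ ⟨0, E0.nt 0 two_pos⟩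
      hY.grp hY.pp hY.span fun y hy => ⟨hY.mem y hy, h y hy⟩
  · refine two (by omega) fun θ hθ h => hLT (by omega) _ (fun j => ?_) θ hθ h
    rw [show bx 3 a j = a j from if_pos j.2]
    exact E0.nt j j.2

end Pool.Agent.P.MP_f1a348_lc.CE
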