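import Pool.Agent.P.MP_f1a348_lc.CE.Base

/-! Lifting through a module of the parabolic group. -/

namespace Pool.Agent.P.MP_f1a348_lc.CE

open Matrix Module Pool.Agent.P.MP_f1a348_lc.PG Pool.Agent.P.MP_f1a348_lc.UP

namespace TLIFT

set_option linter.unusedSectionVars false

variable {p n : ℕ} [Fact p.Prime] {ℓ : Ix n → ℕ} {B : Sub p n} {d : ℕ}
  {M : Type} [AddCommGroup M] [Module (ZMod p) M] {σ : Mat p n → Module.End (ZMod p) M}
  {K : Mat p n → M → Prop} {y z g : Mat p n}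

theorem levi (h : Str ℓ B) (hz : U1 B z) : Par ℓ z ∧ gr ℓ z = z :=
  ⟨(hz.lev h.lab h.alg).par, (h.alg.dg z hz.1).gr_eq⟩

theorem levi' (h : Str ℓ B) (hz : U1 B z) : gr ℓ z ∈ B := by rw [(levi h hz).2]; exact hz.1

theorem u1_gr (h : Str ℓ B) (hy : Par ℓ y) (hB : gr ℓ y ∈ B) : U1 B (gr ℓ y) :=
  ⟨hB, (hy.gr h.lab).2⟩

/-- stable under the parabolic group -/
def Stb (ℓ : Ix n → ℕ) (B : Sub p n) (σ : Mat p n → Module.End (ZMod p) M)
    (Z : Submodule (ZMod p) M) : Prop := ∀ y, Par ℓ y → gr ℓ y ∈ B → ∀ w ∈ Z, σ y w ∈ Z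

/-- the next layer -/
def nxt (ℓ : Ix n → ℕ) (σ : Mat p n → Module.End (ZMod p) M) (Z : Submodule (ZMod p) M) :
    Submodule (ZMod p) M where
  carrier := {w | ∀ y, Par ℓ y → gr ℓ y = 1 → σ y w - w ∈ Z}
  add_mem' {a b} ha hb y h1 h2 := by
    rw [map_add, add_sub_add_comm]; exact add_mem (ha y h1 h2) (hb y h1 h2)
  zero_mem' y _ _ := by rw [map_zero, sub_zero]; exact zero_mem Z
  smul_mem' c a ha y h1 h2 := by
    rw [map_smul, ← smul_sub]; exact Z.smul_mem c (ha y h1 h2)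

theorem nxt_stb (h : Str ℓ B) (k : KP ℓ B d σ K) {Z : Submodule (ZMod p) M} (hZ : Stb ℓ B σ Z) :
    Stb ℓ B σ (nxt ℓ σ Z) := fun g h1 h2 w hw y h3 h4 => by
  have a1 : Par ℓ (g * y * st g) := (h1.mul h3).mul (h1.star h.lab)
  have a2 : gr ℓ (g * y * st g) = 1 := by
    rw [gr_mul (h1.mul h3).1 (h1.star h.lab).1, gr_mul h1.1 h3.1, h4, mul_one,
      ← gr_mul h1.1 (h1.star h.lab).1, h1.2.1.mul_st, gr_one]
  have e1 := k.act g y h1 h2 h3 (h4 ▸ h.alg.one)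
  have e2 := k.act _ g a1 (a2 ▸ h.alg.one) h1 h2
  rw [mul_assoc, h1.2.1.st_mul, mul_one, e1] at e2
  have e3 : σ y (σ g w) = σ g (σ (g * y * st g) w) := LinearMap.congr_fun e2 w
  rw [e3, ← map_sub]
  exact hZ g h1 h2 _ (hw _ a1 a2)

theorem nxt_gr (h : Str ℓ B) (k : KP ℓ B d σ K) {Z : Submodule (ZMod p) M} (hZ : Stb ℓ B σ Z)
    (h1 : Par ℓ y) (h2 : gr ℓ y ∈ B) {w : M} (hw : w ∈ nxt ℓ σ Z) :
    σ y w - σ (gr ℓ y) w ∈ Z := by
  have u := u1_gr h h1 h2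
  obtain ⟨b1, b2⟩ := levi h u
  have a1 : Par ℓ (y * st (gr ℓ y)) := h1.mul (b1.star h.lab)
  have a2 : gr ℓ (y * st (gr ℓ y)) = 1 := by
    rw [gr_mul h1.1 (b1.star h.lab).1, gr_st h.lab, b2, u.2.1.mul_st]
  have e2 := k.act _ _ a1 (a2 ▸ h.alg.one) b1 (levi' h u)
  rw [mul_assoc, u.2.1.st_mul, mul_one] at e2
  have e3 : σ y w = σ (gr ℓ y) (σ (y * st (gr ℓ y)) w) := LinearMap.congr_fun e2 w
  rw [e3, ← map_sub]
  exact hZ _ b1 (levi' h u) _ (hw _ a1 a2)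

open Classical in
/-- the action on the quotient -/
noncomputable def qa (σ : Mat p n → Module.End (ZMod p) M) (Z : Submodule (ZMod p) M)
    (z : Mat p n) : Module.End (ZMod p) (M ⧸ Z) :=
  if h : Z ≤ Z.comap (σ z) then Z.mapQ Z (σ z) h else 0

theorem qa_mk (h : Str ℓ B) {Z : Submodule (ZMod p) M} (hZ : Stb ℓ B σ Z) (hz : U1 B z) (w : M) :
    qa σ Z z (Z.mkQ w) = Z.mkQ (σ z w) := by
  have e : Z ≤ Z.comap (σ z) := fun w hw => hZ z (levi h hz).1 (levi' h hz) w hw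
  rw [qa, dif_pos e]; rfl

theorem dif_mk (h : Str ℓ B) {Z : Submodule (ZMod p) M} (hZ : Stb ℓ B σ Z) (l : List (Mat p n))
    (hl : ∀ y ∈ l, U1 B y) (w : M) : dif (qa σ Z) l (Z.mkQ w) = Z.mkQ (dif σ l w) := by
  induction l with
  | nil => rfl
  | cons y l ih =>
    have e1 : dif (qa σ Z) (y :: l) = (qa σ Z y - 1) * dif (qa σ Z) l := by simp [dif]
    have e2 : dif σ (y :: l) = (σ y - 1) * dif σ l := by simp [dif]
    rw [e1, e2, Module.End.mul_apply, Module.End.mul_apply,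
      ih fun z hz => hl z (List.mem_cons_of_mem _ hz), LinearMap.sub_apply, LinearMap.sub_apply,
      qa_mk h hZ (hl y List.mem_cons_self), map_sub]
    rfl

/-- the relation on one layer -/
def KQ (ℓ : Ix n → ℕ) (σ : Mat p n → Module.End (ZMod p) M) (K : Mat p n → M → Prop)
    (Z : Submodule (ZMod p) M) (z : Mat p n) (q : M ⧸ Z) : Prop :=
  ∃ y w, K y w ∧ w ∈ nxt ℓ σ Z ∧ gr ℓ y = z ∧ Z.mkQ w = q

theorem kq_kx (h : Str ℓ B) (k : KP ℓ B d σ K) {Z : Submodule (ZMod p) M} (hZ : Stb ℓ B σ Z) :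
    KX B d (qa σ Z) (KQ ℓ σ K Z) := by
  have hm : ∀ z q, KQ ℓ σ K Z z q → U1 B z := by
    rintro _ _ ⟨y, w, a, _, rfl, _⟩
    exact u1_gr h (k.mem y w a).1 (k.mem y w a).2
  have h1 : KQ ℓ σ K Z 1 0 := ⟨1, 0, k.one, zero_mem _, gr_one, map_zero _⟩
  refine ⟨LinearMap.ext fun q => ?_, fun y z hy hz => LinearMap.ext fun q => ?_, hm, h1, ?_,
    fun l e1 e2 e3 z q _ => ?_⟩
  · obtain ⟨w, rfl⟩ := Z.mkQ_surjective q
    rw [qa_mk h hZ (u1_one h.alg), k.act1]; rfl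
  · obtain ⟨w, rfl⟩ := Z.mkQ_surjective q
    rw [Module.End.mul_apply, qa_mk h hZ hy, qa_mk h hZ hz, qa_mk h hZ (hy.mul h.lab h.alg hz),
      k.act y z (levi h hy).1 (levi' h hy) (levi h hz).1 (levi' h hz)]
    rfl
  · rintro _ _ _ _ ⟨z, w, a1, a2, rfl, rfl⟩ ⟨y, v, b1, b2, rfl, rfl⟩
    obtain ⟨c1, c2⟩ := k.mem y v b1
    refine ⟨z * y, _, k.mul z w y v a1 b1, add_mem (nxt_stb h k hZ y c1 c2 w a2) b2,
      gr_mul (k.mem z w a1).1.1 c1.1, ?_⟩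
    rw [qa_mk h hZ (u1_gr h c1 c2), map_add]
    congr 1
    exact (Submodule.Quotient.eq Z).2 (nxt_gr h k hZ c1 c2 a2)
  · obtain ⟨w, rfl⟩ := Z.mkQ_surjective q
    have hl : ∀ y ∈ l, U1 B y := fun y hy => let ⟨v, c⟩ := e2 y hy; hm y v c
    rw [dif_mk h hZ l hl, k.deg l e1 hl e3, LinearMap.zero_apply, map_zero]
    exact h1

end TLIFT

open TLIFT

theorem c_LIFT (p n : ℕ) [Fact p.Prime] (hNIL : C_NIL p n) (hLIF : C_LIF p n) : C_LIFT p n := by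
  intro ℓ B d M _ _ _ σ K Y h hb hd k hs hY hE hL
  have key : ∀ Z : Submodule (ZMod p) M, Stb ℓ B σ Z →
      ∀ z ∈ EU B (QY B (gr ℓ '' Y)), ∃ y w, K y w ∧ w ∈ Z ∧ gr ℓ y = z := fun Z => by
    induction Z using IsNoetherian.induction with
    | hgt Z ih =>
    intro hZ
    by_cases e : Z = ⊤
    · intro z hz
      obtain ⟨y, w, a, b⟩ := hE z hz
      exact ⟨y, w, a, e ▸ Submodule.mem_top, b⟩
    have o := h.alg.one
    obtain ⟨w0, n0, m0⟩ := hNIL ℓ M σ Z h.lab k.act1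
      (fun y z a b c e => k.act y z a (b ▸ o) c (e ▸ o)) (fun y a b => hZ y a (b ▸ o)) e
    have lt : Z < nxt ℓ σ Z := lt_of_le_of_ne
      (fun w hw y a b => sub_mem (hZ y a (b ▸ o) w hw) hw) fun c => n0 (by rw [c]; exact m0)
    have i := ih _ lt (nxt_stb h k hZ)
    have : Finite (M ⧸ Z) := Finite.of_surjective _ Z.mkQ_surjective
    intro z hz
    obtain ⟨y, w, a, _, c, e⟩ := hLIF ℓ B d (M ⧸ Z) (qa σ Z) (KQ ℓ σ K Z) _ h hb hd (kq_kx h k hZ)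
      hs (by rintro _ ⟨y, hy, rfl⟩; exact ⟨y, 0, hY y hy, zero_mem _, rfl, map_zero _⟩)
      (fun z hz => let ⟨y, w, a, b, c⟩ := i z hz; ⟨_, y, w, a, b, c, rfl⟩) hL z hz
    exact ⟨y, w, a, (Submodule.Quotient.mk_eq_zero Z).1 e, c⟩
  intro z hz
  obtain ⟨y, w, a, b, c⟩ := key ⊥ (fun y _ _ w hw => by
    rw [(Submodule.mem_bot _).1 hw, map_zero]; exact zero_mem _) z hz
  rw [(Submodule.mem_bot _).1 b] at a
  exact ⟨y, a, c⟩

end Pool.Agent.P.MP_f1a348_lc.CE
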