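import Pool.Agent.P.MP_f1a348_lc.CE.Base2

/-!
Project CE, task MOVE: removing a line from the support.
-/

namespace Pool.Agent.P.MP_f1a348_lc.CE

open Matrix Module Pool.Agent.P.MP_f1a348_lc.PG Pool.Agent.P.MP_f1a348_lc.UP Function

namespace TMOVE

set_option linter.unusedSectionVars false

variable {p n : ℕ} [Fact p.Prime] {ℓ : Ix n → ℕ} {B : Sub p n} {Q : QS p n} {g : Mat p n}
  {u v : Vec p n} {x y : Tup p n} {W : VS p n} {b : Ix n} {a : ℕ → Ix n} {k m : ℕ}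

theorem mapS (h : Str ℓ B) (H : GenW ℓ B Q (W ⊔ orb (Com B) u) k a x) (hg : UQ B Q g)
    (e : Fx W g) : GenW ℓ B Q (W ⊔ orb (Com B) (g *ᵥ u)) k a (act g x) := by
  refine ⟨⟨fun i hi => hg.vb h (H.mem i hi), fun C hC hs => H.ind C hC ?_⟩,
    fun i hi => hg.sing (H.sing i hi), fun i hi => mem_perp_sup.2
      ⟨e.perp hg.un (mem_perp_sup.1 (H.prp i hi)).1,
        perp_orb_map hg.mem hg.un (mem_perp_sup.1 (H.prp i hi)).2⟩,
    fun i hi j hj => perp_orb_map hg.mem hg.un (H.orth i hi j hj)⟩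
  have := (e.star hg.un).map_sup (hg.star h).mem hs
  rw [hg.un.st_mulVec, Matrix.mulVec_sum] at this
  rwa [Finset.sum_congr rfl fun i _ => by
    rw [act_apply, ← com_mulVec (hC i) (hg.star h).mem, hg.un.st_mulVec]] at this

theorem orbS (h : Str ℓ B) (H : Orb ℓ Q W b u v) (hg : UQ B Q g) (e : Fx W g) :
    Orb ℓ Q W b u (g *ᵥ v) :=
  ⟨hg.vb h H.mem, by simpa using add_mem (e.sub_mem hg.un v) H.prp,
    fun θ hθ => (hg.2 θ hθ v).trans (H.val θ hθ), e.not_mem hg.un H.out⟩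

theorem relS (h : Str ℓ B) (hW : Stab B W) (H : GenW ℓ B Q W m a y) (hv : v ∈ Vb ℓ b)
    (h1 : v ∈ perp (spn B m y)) (h2 : v ∉ W ⊔ spn B m y) :
    GenW ℓ B Q (W ⊔ orb (Com B) v) m a y :=
  H.rel (fun i hi => perp_orb_symm h.alg (mem_perp_spn.1 h1 i hi))
    (ind_of_lt h (hW.sup (stab_orb v)) fun i hi => ⟨H.mem i hi, fun e => h2 (by
      rw [sup_right_comm] at e
      have := exchange h (hW.sup stab_spn) hv e (H.toInd.not_mem_lt hi)
      rw [sup_assoc, ← spn_succ] at this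
      exact (sup_le_sup_left (spn_mono hi) W : W ⊔ spn B (i + 1) y ≤ _) this)⟩)

theorem perpS (h : Str ℓ B) (H : GenW ℓ B Q (W ⊔ orb (Com B) v) m a y) : v ∈ perp (spn B m y) :=
  mem_perp_spn.2 fun i hi => perp_orb_symm h.alg (mem_perp_sup.1 (H.prp i hi)).2

end TMOVE

open TMOVE in
theorem c_MOVE (p n : Nat) [Fact p.Prime] (hMOVE1 : C_MOVE1 p n) (hMOVE2 : C_MOVE2 p n)
    (hMOVE3 : C_MOVE3 p n) (hMV2 : C_MV2 p n) (hTRANS : C_TRANS p n) (hGEX : C_GEX p n) :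
    C_MOVE p n := by
  intro ℓ B Q L d M _ _ ρ W b u k a F G hb hL hρ hd hk hW nb hu hn hF
  classical
  have S := G.str
  obtain ⟨Φ, hΦ⟩ := hMOVE1 ℓ B Q L d M ρ W b u k a F G hL hρ hW.1 nb
    (rm_of_small S hW (by have := hb b nb; omega)) hu hn hF
  obtain ⟨m1, m2, -, m4, m5⟩ := hMOVE2 ℓ B Q L d M ρ W b u k a Φ G hL hρ hW.1 hΦ
  have nt : ∀ i, ¬ Triv ℓ B (ext k a b i) := fun i => by
    by_cases e : i < k
    · rw [ext_lt e]; exact hF.nt i e
    · rw [ext_ge (Nat.not_lt.1 e)]; exact nb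
  have ou : Orb ℓ Q W b u u := ⟨hu, by simp, fun _ _ => rfl, hn⟩
  let A : ℕ → Vec p n → Tup p n → Prop := fun j v y =>
    Orb ℓ Q W b u v ∧ GenW ℓ B Q (W ⊔ orb (Com B) v) (k + j) (ext k a b) y
  let P : ℕ → Prop := fun j => ∃ v y, A j v y ∧ Dd Φ k j v y ≠ 0
  have P0 : P 0 := by
    obtain ⟨x, hx, e⟩ := hΦ.ne
    exact ⟨u, x, ⟨ou, hx.congr (fun i hi => (ext_lt hi).symm) fun _ _ => rfl⟩, e⟩
  obtain ⟨j, hj, Pj, hmax⟩ : ∃ j ≤ d, P j ∧ ∀ v y, A (j + 1) v y → Dd Φ k (j + 1) v y = 0 := by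
    refine ⟨Nat.findGreatest P d, Nat.findGreatest_le d, Nat.findGreatest_spec d.zero_le P0,
      fun v y hA => ?_⟩
    rcases (Nat.findGreatest_le (P := P) d).lt_or_eq with e | e
    · by_contra h0
      exact Nat.findGreatest_is_greatest (Nat.lt_succ_self _) e ⟨v, y, hA, h0⟩
    · rw [e] at hA ⊢
      exact hMOVE3 ℓ B Q L d M ρ W b u k a Φ G hb hL hρ hd hk hW nb hΦ v y hA.1 hA.2
  have star : ∀ v y, A (j + 1) v y → Dd Φ k j (v + y (k + j)) y = Dd Φ k j v y := fun v y hA =>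
    sub_eq_zero.1 (hmax v y hA)
  have ua : update (ext k a b) (k + j) b = ext k a b := by
    rw [update_eq_self_iff, ext_ge (Nat.le_add_right k j)]
  have indep : ∀ v v' y, A j v y → A j v' y → Dd Φ k j v' y = Dd Φ k j v y := fun v v' y h1 h2 => by
    have g0 : GenW ℓ B Q W (k + j) (ext k a b) y := h1.2.anti le_sup_left
    have s2 := hW.sup S.alg (g0.toInd.small S)
    have o2 : Orb ℓ Q (W ⊔ spn B (k + j) y) b v v' := ⟨h2.1.mem, mem_perp_sup.2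
      ⟨by simpa using sub_mem h2.1.prp h1.1.prp, sub_mem (perpS S h2.2) (perpS S h1.2)⟩,
      fun θ hθ => (h2.1.val θ hθ).trans (h1.1.val θ hθ).symm, h2.2.toInd.rel S hW.1 h2.1.out⟩
    have ch := (hMV2 ℓ B Q _ b v v' G s2.1 nb (rm_of_small S s2 (by have := hb b nb; omega))
      h1.1.mem (h1.2.toInd.rel S hW.1 h1.1.out) o2).1
    clear o2 h2
    induction ch with
    | refl => rfl
    | @tail v1 v2 _ hs ih =>
      obtain ⟨o, mv⟩ := hs
      have a1 : A j v1 y := ⟨⟨o.mem, by simpa using add_mem (mem_perp_sup.1 o.prp).1 h1.1.prp,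
        fun θ hθ => (o.val θ hθ).trans (h1.1.val θ hθ),
        fun e => o.out (Submodule.mem_sup_left e)⟩,
        relS S hW.1 g0 o.mem (by simpa using add_mem (mem_perp_sup.1 o.prp).2 (perpS S h1.2))
          o.out⟩
      have e1 : W ⊔ orb (Com B) v1 ⊔ spn B (k + j) y = W ⊔ spn B (k + j) y ⊔ orb (Com B) v1 :=
        sup_right_comm _ _ _
      have a2 := a1.2.snoc G (hW.1.sup (stab_orb v1)) (v := v2 - v1) (b := b)
        ⟨mv.mem, mv.sing, e1 ▸ mv.orth⟩ (e1 ▸ mv.ind)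
      rw [ua] at a2
      have := star v1 _ ⟨a1.1, a2⟩
      rw [update_self, add_sub_cancel, m1 j v2 _ y fun i hi => update_of_ne hi.ne _ _,
        m1 j v1 _ y fun i hi => update_of_ne hi.ne _ _] at this
      exact this.trans ih
  have ex : ∀ m ≤ 7, ∀ a2 y, GenW ℓ B Q W m a2 y →
      ∃ v, Orb ℓ Q W b u v ∧ GenW ℓ B Q (W ⊔ orb (Com B) v) m a2 y := fun m hm a2 y hy => by
    obtain ⟨y1, h1⟩ := (hGEX ℓ B Q _ ⊥ 31 0 m G (hW.sup S.alg (small_orb S hu)) small_bot).2.1 a2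
      fun i hi => ⟨hy.ntriv G hi, by have := hb _ (hy.ntriv G hi); omega⟩
    obtain ⟨e, he, h2⟩ := (hTRANS ℓ B Q W m a2 G hW.1 (fun i hi => ⟨hy.ntriv G hi,
      rm_of_small S hW (by have := hb _ (hy.ntriv G hi); omega)⟩) y1 y).2 (h1.anti le_sup_left) hy
    exact ⟨e *ᵥ u, orbS S ou (ew_uq G he) (ew_fx S.alg hW.1 he),
      (mapS S h1 (ew_uq G he) (ew_fx S.alg hW.1 he)).congr (fun _ _ => rfl) h2⟩
  let F' : Tup p n → M := fun y => Dd Φ k j (Classical.epsilon fun v => A j v y) y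
  have val : ∀ v y, A j v y → F' y = Dd Φ k j v y := fun v y hA =>
    indep v _ y hA (Classical.epsilon_spec (p := fun v => A j v y) ⟨v, hA⟩)
  refine ⟨j, hj, F', ⟨fun x y e => ?_, fun i hi x hx => ?_⟩, fun i _ => nt i,
    fun g hg hf x hx => ?_, ?_⟩
  · have : (fun v => A j v x) = fun v => A j v y := funext fun v => propext
      ⟨fun h => ⟨h.1, h.2.congr (fun _ _ => rfl) e⟩,
        fun h => ⟨h.1, h.2.congr (fun _ _ => rfl) fun i hi => (e i hi).symm⟩⟩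
    simp only [F', this]
    exact m1 j _ x y e
  · obtain ⟨v, o, hv⟩ := ex _ (by omega) _ x hx
    obtain ⟨t1, t2, t3⟩ := hv.three G (hW.1.sup (stab_orb v)) hi
    rw [val v _ ⟨o, t1⟩, val v _ ⟨o, t2⟩, val v _ ⟨o, t3⟩]
    by_cases e : i < k
    · rw [ext_lt e] at hv
      exact m5 j v x o i e hv
    · rw [ext_ge (Nat.not_lt.1 e), ua] at hv
      rw [m2 j v x _ i (Nat.not_lt.1 e) hi, star v x ⟨o, hv⟩]
  · obtain ⟨v, o, hv⟩ := ex _ (by omega) _ x hx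
    rw [val v x ⟨o, hv⟩, val _ _ ⟨orbS S o (hL.uq g hg) hf, mapS S hv (hL.uq g hg) hf⟩]
    exact m4 j g hg hf v x o hv
  · obtain ⟨v, y, hA, e⟩ := Pj
    exact ⟨y, hA.2.anti le_sup_left, by rwa [val v y hA]⟩

end Pool.Agent.P.MP_f1a348_lc.CE
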