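import Pool.Agent.P.MP_f1a348_lc.CE.Base2

/-!
Project CE, task MOVE2: iterated differences along the orbit of a vector.
-/

namespace Pool.Agent.P.MP_f1a348_lc.CE

open Matrix Module Pool.Agent.P.MP_f1a348_lc.PG Pool.Agent.P.MP_f1a348_lc.UP Function

namespace TMOVE2

variable {p n : ℕ} [Fact p.Prime] {ℓ : Ix n → ℕ} {B : Sub p n} {Q : QS p n} {u v : Vec p n}
  {x : Tup p n} {W : VS p n} {b : Ix n} {a : ℕ → Ix n} {m : ℕ}

/-- move by the last vector of a generic tuple -/
theorem mv (G : Geo ℓ B Q) (hW : Stab B W) (O : Orb ℓ Q W b u v)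
    (H : GenW ℓ B Q (W ⊔ orb (Com B) v) (m + 1) a x) (e : a m = b) :
    Orb ℓ Q W b u (v + x m) ∧ GenW ℓ B Q (W ⊔ orb (Com B) (v + x m)) m a x := by
  have hm := m.lt_succ_self
  have h1 := fun i hi => mem_perp_sup.1 (H.prp i hi)
  have H' := H.lt G.str (hW.sup (stab_orb v)) m.le_succ
  refine ⟨⟨add_mem O.mem (e ▸ H.mem m hm), ?_, fun θ hθ => ?_, fun h => H.toInd.out hm ?_⟩,
    (H'.anti le_sup_left).rel (fun i hi => perp_anti (orb_add_le _ _)
      (mem_perp_sup.2 ⟨(h1 i (hi.trans hm)).2, H.orth m hm i (hi.trans hm)⟩))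
      (ind_of_lt G.str (hW.sup (stab_orb _)) fun i hi => ⟨H'.mem i hi, fun h =>
        H.toInd.not_mem (hi.trans hm) (SetLike.le_def.1 (sup_le (sup_le ?_ ?_) ?_) h)⟩)⟩
  · rw [add_sub_right_comm]
    exact add_mem O.prp (h1 m hm).1
  · rw [G.adm.add_sing hθ (h1 m hm).2 (H.sing m hm), O.val θ hθ]
  · simpa using Submodule.sub_mem _ (Submodule.mem_sup_left (T := orb (Com B) v) h)
      (Submodule.mem_sup_right (self_mem_orb v))
  · exact le_sup_of_le_left le_sup_left
  · exact (orb_add_le _ _).trans (sup_le_sup le_sup_right (stab_spn.orb_le (mem_oth hm hi.ne')))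
  · exact le_sup_of_le_right
      (spn_le stab_spn fun l hl => mem_oth ((hl.trans hi).trans hm) hl.ne)

end TMOVE2

open TMOVE2

theorem c_MOVE2 (p n : ℕ) [Fact p.Prime] : C_MOVE2 p n := by
  intro ℓ B Q L d M _ _ ρ W b u k a Φ G _ _ hW H
  have h1 : ∀ j v x y, (∀ i < k + j, x i = y i) → Dd Φ k j v x = Dd Φ k j v y := fun j => by
    induction j with
    | zero => exact H.loc
    | succ j ih =>
      intro v x y e
      have e' := fun i (hi : i < k + j) => e i (Nat.lt_succ_of_lt hi)
      rw [Dd, Dd, e _ (k + j).lt_succ_self, ih _ x y e', ih _ x y e']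
  have h3 := fun j v y O (h : GenW ℓ B Q (W ⊔ orb (Com B) v) (k + j + 1) (ext k a b) y) =>
    mv (u := u) G hW O h (ext_ge (k.le_add_right j))
  refine ⟨h1, fun j => ?_, h3, fun j g hg f => ?_, fun j => ?_⟩
  · induction j with
    | zero => exact fun _ _ _ i h h' => absurd h' (Nat.not_lt.2 h)
    | succ j ih =>
      intro v y t i h h'
      rcases (show i < k + j ∨ i = k + j by omega) with h2 | rfl
      · simp only [Dd, update_of_ne h2.ne', ih _ y t i h h2, add_right_comm v t]
        abel
      · have e := fun v s => h1 j v (update y (k + j) s) y fun i hi => update_of_ne hi.ne _ _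
        simp only [Dd, update_self, e, add_right_comm v t, add_assoc v]
        abel
  · induction j with
    | zero => exact fun v y O h => H.eqv g hg f v O y (h.congr (fun _ => ext_lt) fun _ _ => rfl)
    | succ j ih =>
      intro v y O h
      obtain ⟨O', h'⟩ := h3 j v y O h
      rw [Dd, Dd, act_apply, ← Matrix.mulVec_add, ih _ y O' h',
        ih v y O (h.lt G.str (hW.sup (stab_orb v)) (k + j).le_succ), map_sub]
  · induction j with
    | zero =>
      refine fun v y O i hi h => (H.ma v O).add i hi y (h.congr (fun l hl => ?_) fun _ _ => rfl)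
      rcases Nat.lt_succ_iff_lt_or_eq.1 hl with h2 | rfl
      · exact (update_of_ne h2.ne _ _).trans ((ext_lt h2).trans (update_of_ne h2.ne _ _).symm)
      · simp
    | succ j ih =>
      intro v y O i hi h
      have hs := hW.sup (stab_orb (B := B) v)
      have h' := h.comp (j := k + j + 1 + 1) G.str hs (Equiv.swap (k + j) (k + j + 1))
        (fun l hl => by rw [Equiv.swap_apply_def]; split_ifs <;> omega)
        fun l _ l' hl' => (Equiv.swap _ _).injective.ne hl'.ne
      have sw : ∀ l < k + j, Equiv.swap (k + j) (k + j + 1) l = l := fun l hl =>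
        Equiv.swap_apply_of_ne_of_ne hl.ne (by omega)
      have ea : ∀ l < k + j + 1, update (ext k a b) (k + (j + 1)) (a i)
          (Equiv.swap (k + j) (k + j + 1) l) = update (ext k a b) (k + j) (a i) l := fun l hl => by
        rcases Nat.lt_succ_iff_lt_or_eq.1 hl with h2 | rfl
        · rw [sw l h2, update_of_ne (by omega), update_of_ne h2.ne]
        · rw [Equiv.swap_apply_left, update_self]
          exact update_self ..
      obtain ⟨O', h2⟩ := mv G hW O h' (by
        rw [Equiv.swap_apply_right, update_of_ne (by omega), ext_ge (k.le_add_right j)])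
      rw [Equiv.swap_apply_right] at O' h2
      have i1 := ih _ _ O' i hi (h2.congr ea fun _ _ => rfl)
      have i2 := ih _ _ O i hi ((h'.lt G.str hs (Nat.le_succ _)).congr ea fun _ _ => rfl)
      have e0 := fun w => h1 j w (fun l => y (Equiv.swap (k + j) (k + j + 1) l)) y
        fun l hl => congrArg y (sw l hl)
      have e1 := fun w s => h1 j w (update (fun l => y (Equiv.swap (k + j) (k + j + 1) l)) i s)
        (update y i s) fun l hl => by
          by_cases e : l = i
          · rw [e, update_self, update_self]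
          · rw [update_of_ne e, update_of_ne e, sw l hl]
      rw [e0, e1, e1, Equiv.swap_apply_left, sw i (by omega)] at i1 i2
      have e2 : k + j ≠ i := by omega
      simp only [Dd, update_of_ne e2, ← add_assoc k, i1, i2]
      abel

end Pool.Agent.P.MP_f1a348_lc.CE
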