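import Pool.Agent.P.MP_f1a348_lc.CE.Base2

/-!
Project CE: moves and the transitivity of the elementary group on an orbit.
-/

namespace Pool.Agent.P.MP_f1a348_lc.CE

open Matrix Module Pool.Agent.P.MP_f1a348_lc.PG Pool.Agent.P.MP_f1a348_lc.UP

namespace TMV

variable {p n : ℕ} [Fact p.Prime] {ℓ : Ix n → ℕ} {B : Sub p n} {Q : QS p n} {W : VS p n}
  {b : Ix n} {u u' v v' s : Vec p n}

/-- the functional `P ↦ - ip (P d) v` -/
noncomputable def mu (d v : Vec p n) : Mat p n →ₗ[ZMod p] ZMod p where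
  toFun P := -ip (P *ᵥ d) v
  map_add' P R := by rw [Matrix.add_mulVec, ip_add_left, neg_add]
  map_smul' c P := by
    rw [Matrix.smul_mulVec, ip_smul_left, RingHom.id_apply, smul_eq_mul, mul_neg]

theorem step (hMV : C_MV p n) (G : Geo ℓ B Q) (hW : Stab B W) (hR : Rm ℓ B W b 9)
    (hv : Orb ℓ Q W b u v) (hm : Mv ℓ B Q W b v v') : Orb ℓ Q W b u v' := by
  obtain ⟨h1, h2, -⟩ := hMV ℓ B Q W b v v' G hW hR hv.mem hv.out hm
  refine ⟨?_, ?_, fun θ hθ => (h2 θ hθ).trans (hv.val θ hθ), h1⟩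
  · simpa using add_mem hm.mem hv.mem
  · simpa using add_mem (mem_perp_sup.1 hm.orth).1 hv.prp

theorem mv_add (hs : SV ℓ Q (W ⊔ orb (Com B) v) b s) (hn : s ∉ W ⊔ orb (Com B) v) :
    Mv ℓ B Q W b v (v + s) := by
  refine ⟨?_, ?_, ?_, ?_⟩ <;> rw [add_sub_cancel_left]
  exacts [hs.mem, hs.sing, hs.prp, hn]

/-- if `u'` depends on `W` and `v`, then `v` depends on `W` and `u'` -/
theorem back (H : Str ℓ B) (hW : Stab B W) (hv : v ∈ Vb ℓ b) (hu : u' ∉ W)
    (e : u' - v ∈ W ⊔ orb (Com B) v) : v ∈ W ⊔ orb (Com B) u' :=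
  exchange H hW hv (by
    simpa using add_mem e (Submodule.mem_sup_right (self_mem_orb v))) hu

theorem caseA (hMV : C_MV p n) (hSOLV : C_SOLV p n) (G : Geo ℓ B Q) (hW : Stab B W)
    (ht : ¬ Triv ℓ B b) (hR : Rm ℓ B W b 9) (hu : Orb ℓ Q W b u u') (hv : Orb ℓ Q W b u v)
    (hd : u' - v ∉ W ⊔ orb (Com B) v) :
    Relation.ReflTransGen (fun x y => Orb ℓ Q W b u x ∧ Mv ℓ B Q W b x y) v u' := by
  have hB := G.str.alg
  have hdb : u' - v ∈ Vb ℓ b := sub_mem hu.mem hv.mem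
  have hdp : u' - v ∈ perp W := by simpa using sub_mem hu.prp hv.prp
  obtain ⟨s, hs, hn, hμ⟩ := hSOLV ℓ B Q (W ⊔ orb (Com B) v) ⊥ 0 b b (u' - v) (mu (u' - v) v) G
    (hW.sup (stab_orb v)) small_bot ht (Rm.sup_orb G.str hW hv.mem hR) hdb hd
  rw [sup_bot_eq] at hn
  have m1 : Mv ℓ B Q W b v (v + s) := mv_add hs fun e => hn (Submodule.mem_sup_left e)
  have o1 := step hMV G hW hR hv m1
  have e1 : u' - (v + s) = u' - v - s := by abel
  have hsv : v ∈ perp (orb (Com B) s) := perp_orb_symm hB (mem_perp_sup.1 hs.prp).2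
  have hor : u' - (v + s) ∈ perp (orb (Com B) (v + s)) := by
    refine perp_orb_symm hB (mem_perp_orb.2 fun P hP => ?_)
    have h1 := hμ _ (cb_of_com hB hP b.rev b)
    have h2 : ip (P *ᵥ (u' - v)) (v + s) = 0 := by
      rw [← ip_pr G.str.lab o1.mem, ← cb_comp b.rev hdb, ip_add_right, h1]
      exact add_neg_cancel _
    rw [e1, Matrix.mulVec_sub, ip_sub_left, h2, ip_add_right, mem_perp_orb.1 hsv P hP,
      mem_perp_orb.1 (hs.sing.isot G.adm) P hP, add_zero, sub_zero]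
  have m2 : Mv ℓ B Q W b (v + s) u' := by
    refine ⟨sub_mem hu.mem o1.mem, fun θ hθ => ?_, mem_perp_sup.2 ⟨?_, hor⟩, fun e => hn ?_⟩
    · have h1 := G.adm.add hθ hor
      rw [add_sub_cancel, hu.val θ hθ, o1.val θ hθ] at h1
      exact left_eq_add.1 h1
    · rw [e1]; exact sub_mem hdp (mem_perp_sup.1 hs.prp).1
    · have h1 := back G.str hW o1.mem hu.out e
      have h2 : v ∈ W ⊔ orb (Com B) v ⊔ orb (Com B) (u' - v) :=
        Submodule.mem_sup_left (Submodule.mem_sup_right (self_mem_orb v))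
      have h3 : W ⊔ orb (Com B) u' ≤ W ⊔ orb (Com B) v ⊔ orb (Com B) (u' - v) := by
        refine sup_le (le_sup_of_le_left le_sup_left)
          (((hW.sup (stab_orb v)).sup (stab_orb _)).orb_le ?_)
        simpa using add_mem h2 (Submodule.mem_sup_right (self_mem_orb (u' - v)))
      simpa using sub_mem (h3 h1) h2
  exact (Relation.ReflTransGen.single ⟨hv, m1⟩).tail ⟨o1, m2⟩

end TMV

open TMV

theorem c_MV (p n : Nat) [Fact p.Prime] (hSOLV : C_SOLV p n) (hHYP : C_HYP p n) : C_MV p n := by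
  intro ℓ B Q W b u u' G hW hR hu hn hm
  have hB := G.str.alg
  have h0 : u' - u ≠ 0 := fun e => hm.ind (e ▸ zero_mem _)
  have ht := hm.sing.ntriv G hm.mem h0
  have hsu := (mem_perp_sup.1 hm.orth).2
  have h1 : u ∉ W ⊔ orb (Com B) (u' - u) := fun e => hm.ind (exchange G.str hW hm.mem e hn)
  refine ⟨fun e => hm.ind (sub_mem (Submodule.mem_sup_left e)
    (Submodule.mem_sup_right (self_mem_orb u))), fun θ hθ => ?_, ?_⟩
  · simpa using G.adm.add_sing hθ hsu hm.sing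
  obtain ⟨x, hx, -, hμ⟩ := hSOLV ℓ B Q (W ⊔ orb (Com B) (u' - u)) ⊥ 0 b b.rev u
    (Matrix.entryLinearMap (ZMod p) (ZMod p) b b) G (hW.sup (stab_orb _)) small_bot
    (fun t => ht ((triv_rev G.str).1 t)) (Rm.sup_orb G.str hW hm.mem (hR.rev G.str hW)) hu h1
  have h2 : u ∉ perp (orb (Com B) x) := fun e => by
    have hC := cb_of_com hB com_one b.rev.rev b
    have h3 := hμ _ hC
    rw [mem_perp_orb.1 (perp_orb_symm hB e) _ hC.1, Fin.rev_rev, mul_one, pr_mul_pr] at h3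
    simp [pr] at h3
  obtain ⟨N, hN, e1, e2, e3, -⟩ := r1x G.str hx.mem hu h2 hm.mem
  have hr : R1 ℓ B Q N x (u' - u) := ⟨hN, ⟨_, hx.mem⟩, ⟨_, hm.mem⟩, hx.sing, hm.sing,
    perp_orb_symm hB (mem_perp_sup.1 hx.prp).2, e2, e3⟩
  refine ⟨N, x, hr, (mem_perp_sup.1 hx.prp).1, ?_⟩
  rw [sgl_mulVec, e1, hr.kills (perp_orb_symm hB hsu), sub_zero, add_sub_cancel]

theorem c_MV2 (p n : Nat) [Fact p.Prime] (hMV : C_MV p n) (hSOLV : C_SOLV p n) (hCW : C_CW p n) :
    C_MV2 p n := by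
  intro ℓ B Q W b u u' G hW ht hR hu hn ho
  have o0 : Orb ℓ Q W b u u := ⟨hu, by rw [sub_self]; exact zero_mem _, fun _ _ => rfl, hn⟩
  have key : Relation.ReflTransGen (fun x y => Orb ℓ Q W b u x ∧ Mv ℓ B Q W b x y) u u' := by
    by_cases hd : u' - u ∈ W ⊔ orb (Com B) u
    · obtain ⟨t, h1, h2⟩ := hCW ℓ B Q (W ⊔ orb (Com B) u) ⊥ 0 b G (hW.sup (stab_orb u)) small_bot
        ht (Rm.sup_orb G.str hW hu (hR.mono (by norm_num)))
      rw [sup_bot_eq] at h2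
      have m1 := mv_add h1 h2
      have o1 := step hMV G hW hR o0 m1
      refine Relation.ReflTransGen.head ⟨o0, m1⟩ (caseA hMV hSOLV G hW ht hR ho o1 fun e => h2 ?_)
      have h3 := back G.str hW o1.mem ho.out e
      have h4 : u ∈ W ⊔ orb (Com B) u := Submodule.mem_sup_right (self_mem_orb u)
      have h5 : W ⊔ orb (Com B) u' ≤ W ⊔ orb (Com B) u :=
        sup_le le_sup_left ((hW.sup (stab_orb u)).orb_le (by simpa using add_mem hd h4))
      simpa using sub_mem (h5 h3) h4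
    · exact caseA hMV hSOLV G hW ht hR ho o0 hd
  refine ⟨key, ?_⟩
  clear ho
  induction key with
  | refl => exact ⟨1, one_mem _, Matrix.one_mulVec u⟩
  | tail _ h ih =>
    obtain ⟨e, he, e1⟩ := ih
    obtain ⟨-, -, N, x, h1, h2, h3⟩ := hMV ℓ B Q W b _ _ G hW hR h.1.mem h.1.out h.2
    exact ⟨sgl N * e, mul_mem (h1.ew h2 (mem_perp_sup.1 h.2.orth).1) he, by
      rw [← Matrix.mulVec_mulVec, e1, h3]⟩

end Pool.Agent.P.MP_f1a348_lc.CE
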