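import Pool.Agent.P.MP_f1a348_lc.CE.Base

/-! The filtration of the triangular matrices; fixed vectors of the unipotent radical. -/

namespace Pool.Agent.P.MP_f1a348_lc.CE

open Matrix Module Pool.Agent.P.MP_f1a348_lc.PG Pool.Agent.P.MP_f1a348_lc.UP

namespace TNIL

set_option linter.unusedSectionVars false

variable {p n : ℕ} [Fact p.Prime] {ℓ : Ix n → ℕ} {g h : Mat p n} {s t : ℕ}

theorem tf_zero (hg : Tri ℓ g) : g ∈ Tf ℓ 0 := ⟨hg, fun α β e => (hg α β e).1⟩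

theorem tf_anti (e : s ≤ t) (hg : g ∈ Tf ℓ t) : g ∈ Tf ℓ s :=
  ⟨hg.1, fun α β c => (Nat.add_le_add_left e _).trans (hg.2 α β c)⟩

theorem tf_mul (hg : g ∈ Tf ℓ s) (hh : h ∈ Tf ℓ t) : g * h ∈ Tf ℓ (s + t) :=
  ⟨hg.1.mul hh.1, fun α β e => by
    obtain ⟨γ, h1, h2⟩ := exists_of_mul_ne e
    have := hg.2 _ _ h1
    have := hh.2 _ _ h2
    omega⟩

theorem tf_left (hg : Tri ℓ g) (hh : h ∈ Tf ℓ t) : g * h ∈ Tf ℓ t := by
  simpa using tf_mul (tf_zero hg) hh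

theorem tf_right (hg : g ∈ Tf ℓ t) (hh : Tri ℓ h) : g * h ∈ Tf ℓ t := tf_mul hg (tf_zero hh)

theorem tf_sub_gr (hl : Lab ℓ) (hg : Tri ℓ g) : g - gr ℓ g ∈ Tf ℓ 1 :=
  ⟨hg.sub ((dg_gr g).tri hl), fun α β e => by
    have h1 := ((hg.sub ((dg_gr g).tri hl)) α β e).1
    refine lt_of_le_of_ne h1 fun c => e ?_
    rw [Matrix.sub_apply, gr_apply, if_pos c, sub_self]⟩

theorem tf_top (hl : Lab ℓ) (e : 2 * n + 1 ≤ t) (hg : g ∈ Tf ℓ t) : g = 0 := by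
  ext α β
  by_contra c
  have := hg.2 α β c
  have := hl.lt β
  omega

theorem tf_pow (hg : g ∈ Tf ℓ 1) (k : ℕ) : g ^ k ∈ Tf ℓ k := by
  induction k with
  | zero => rw [pow_zero]; exact tf_zero Tri.one
  | succ k ih => rw [pow_succ]; exact tf_mul ih hg

theorem uni_pow (hl : Lab ℓ) (hg : Tri ℓ g) (e : gr ℓ g = 1) : g ^ p ^ (2 * n + 1) = 1 := by
  have h1 := tf_sub_gr hl hg
  rw [e] at h1
  have h2 : (g - 1) ^ p ^ (2 * n + 1) = 0 :=
    tf_top hl (Nat.lt_pow_self (Fact.out : p.Prime).one_lt).le (tf_pow h1 _)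
  have : Nonempty (Ix n) := ⟨c0 n⟩
  rw [sub_pow_char_pow_of_commute p _ (Commute.one_right g), one_pow] at h2
  exact sub_eq_zero.1 h2

/-- the unipotent radical -/
def NR (hl : Lab ℓ) : SG p n where
  carrier := {y | Par ℓ y.1 ∧ gr ℓ y.1 = 1}
  one_mem' := ⟨Par.one, gr_one⟩
  mul_mem' {a b} ha hb := ⟨ha.1.mul hb.1, by
    rw [val_mul, gr_mul ha.1.1 hb.1.1, ha.2, hb.2, one_mul]⟩
  inv_mem' {a} ha := ⟨ha.1.star hl, by rw [val_inv, gr_st hl, ha.2, st_one]⟩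

theorem val_pow (a : GG p n) (k : ℕ) : (a ^ k).1 = a.1 ^ k := by
  induction k with
  | zero => rfl
  | succ k ih => rw [pow_succ, pow_succ, val_mul, ih]

theorem nr_pgroup (hl : Lab ℓ) : IsPGroup p (NR (p := p) hl) := fun y =>
  ⟨2 * n + 1, Subtype.ext (Subtype.ext (by
    rw [Subgroup.coe_pow, val_pow]; exact uni_pow hl y.2.1.1 y.2.2))⟩

end TNIL

open TNIL

theorem c_NIL (p n : ℕ) [Fact p.Prime] : C_NIL p n := by
  intro ℓ M _ _ _ σ Z hl h1 hm hZ hne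
  let f : NR (p := p) hl → (M ⧸ Z) →ₗ[ZMod p] M ⧸ Z := fun y =>
    Z.mapQ Z (σ (y⁻¹).1.1) fun w hw => hZ _ (y⁻¹).2.1 (y⁻¹).2.2 w hw
  have hf : ∀ y w, f y (Z.mkQ w) = Z.mkQ (σ (y⁻¹).1.1 w) := fun _ _ => rfl
  let A : MulAction (NR (p := p) hl) (M ⧸ Z) :=
    { smul := fun y q => f y q
      one_smul := fun q => by
        obtain ⟨w, rfl⟩ := Z.mkQ_surjective q
        change f 1 _ = _
        rw [hf, inv_one]
        change Z.mkQ (σ 1 w) = _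
        rw [h1]; rfl
      mul_smul := fun y z q => by
        obtain ⟨w, rfl⟩ := Z.mkQ_surjective q
        change f (y * z) _ = f y (f z _)
        rw [hf, hf, hf, _root_.mul_inv_rev]
        change Z.mkQ (σ ((z⁻¹).1.1 * (y⁻¹).1.1) w) = _
        rw [hm _ _ (z⁻¹).2.1 (z⁻¹).2.2 (y⁻¹).2.1 (y⁻¹).2.2]; rfl }
  have : Finite (M ⧸ Z) := Finite.of_surjective _ Z.mkQ_surjective
  have : Nontrivial (M ⧸ Z) := Submodule.Quotient.nontrivial_iff.2 hne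
  have hd : p ∣ Nat.card (M ⧸ Z) := by
    have e := Module.natCard_eq_pow_finrank (K := ZMod p) (V := M ⧸ Z)
    rw [e, Nat.card_zmod]
    exact dvd_pow_self p Module.finrank_pos.ne'
  obtain ⟨q, hq, h0⟩ := (nr_pgroup (p := p) hl).exists_fixed_point_of_prime_dvd_card_of_fixed_point
    (M ⧸ Z) hd (a := 0) fun y => map_zero (f y)
  obtain ⟨w, rfl⟩ := Z.mkQ_surjective q
  refine ⟨w, fun c => h0 ((Submodule.Quotient.mk_eq_zero Z).2 c).symm, fun y a b => ?_⟩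
  have e : f (⟨⟨y, a.l0⟩, a, b⟩ : NR hl)⁻¹ (Z.mkQ w) = Z.mkQ w := hq _
  rw [hf, inv_inv] at e
  exact (Submodule.Quotient.eq Z).1 e

end Pool.Agent.P.MP_f1a348_lc.CE
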