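import Pool.Agent.P.MP_f1a348_lc.CE.Base2

/-!
Project CE: the elementary group is perfect and spans the algebra.
-/

namespace Pool.Agent.P.MP_f1a348_lc.CE

open Matrix Module Pool.Agent.P.MP_f1a348_lc.PG Pool.Agent.P.MP_f1a348_lc.UP

namespace TPERF

set_option linter.unusedSectionVars false

variable {p n : ℕ} [Fact p.Prime] {ℓ : Ix n → ℕ} {B : Sub p n} {Q : QS p n}
  {M N X Y : Mat p n} {x y : Vec p n} {a b : Ix n}

theorem mul_zero_of {W : VS p n} (h1 : ∀ v, Y *ᵥ v ∈ W) (h2 : ∀ v ∈ W, X *ᵥ v = 0) : X * Y = 0 :=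
  mat_ext fun v => by rw [← Matrix.mulVec_mulVec, Matrix.zero_mulVec]; exact h2 _ (h1 v)

theorem mul_eq_of_fix (hX : X ∈ B) (e : X *ᵥ y = y) (h : ∀ v, N *ᵥ v ∈ orb (Com B) y) :
    X * N = N :=
  mat_ext fun v => by rw [← Matrix.mulVec_mulVec]; exact fx_orb hX e _ (h v)

theorem eq_zero_of_im (h : ∀ v, N *ᵥ v ∈ orb (Com B) (0 : Vec p n)) : N = 0 :=
  mat_ext fun v => by
    have := h v
    rwa [orb_zero, Submodule.mem_bot, ← Matrix.zero_mulVec v] at this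

/-- an operator with singular ends factors through a hyperbolic pair -/
theorem fac (hCW : C_CW p n) (hHP : C_HP p n) (G : Geo ℓ B Q) (hb : Big ℓ B 20)
    (hx : x ∈ Vb ℓ a) (hy : y ∈ Vb ℓ b) (h0 : y ≠ 0) (sx : Sing Q x) (sy : Sing Q y) (hN : N ∈ B)
    (h1 : ∀ v, N *ᵥ v ∈ orb (Com B) y) (h2 : ∀ v, st N *ᵥ v ∈ orb (Com B) x) :
    ∃ w w' n1 n2, w ∈ perp (orb (Com B) y) ∧ w' ∈ perp (orb (Com B) x) ∧ R1 ℓ B Q n1 w' y ∧
      R1 ℓ B Q n2 x w ∧ n1 * n2 = N := by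
  have S := G.str
  have A := S.alg
  have hs := (small_orb S hx).sup A (small_orb S hy)
  have nt := sy.ntriv G hy h0
  obtain ⟨w, hw, hn⟩ := hCW ℓ B Q _ ⊥ 0 b G hs.1 small_bot nt
    (rm_of_small S hs (by have := hb b nt; omega))
  rw [sup_bot_eq] at hn
  obtain ⟨w', π, hw', -, hπ, -, e1, -, e2, -⟩ := hHP ℓ B Q _ b w G hs.1 hw hn
  obtain ⟨t, ht, e3⟩ := S.sim b y hy h0 w hw.mem
  obtain ⟨s, hs', e4⟩ := S.sim b w hw.mem (fun e => hn (e ▸ zero_mem _)) y hy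
  have k := mem_perp_sup.1 hw.prp
  have k' := mem_perp_sup.1 hw'.prp
  refine ⟨w, w', s * π, t * N, k.2, k'.1, ⟨A.mul _ hs' _ hπ, ⟨_, hw'.mem⟩, ⟨_, hy⟩, hw'.sing, sy,
    perp_orb_symm A k'.2, fun v => ?_, fun v => ?_⟩, ⟨A.mul _ ht _ hN, ⟨_, hx⟩, ⟨_, hw.mem⟩, sx,
    hw.sing, k.1, fun v => ?_, fun v => ?_⟩, ?_⟩
  · rw [← Matrix.mulVec_mulVec, ← e4]; exact orb_map hs' (e2 v).1
  · rw [st_mul, ← Matrix.mulVec_mulVec]; exact (e2 _).2
  · rw [← Matrix.mulVec_mulVec, ← e3]; exact orb_map ht (h1 v)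
  · rw [st_mul, ← Matrix.mulVec_mulVec]; exact h2 _
  · rw [← mul_assoc]
    refine mul_eq_of_fix (A.mul _ (A.mul _ hs' _ hπ) _ ht) ?_ h1
    rw [← Matrix.mulVec_mulVec, ← Matrix.mulVec_mulVec, e3, e1, e4]

theorem comm_id {R : Type} [Ring R] {u v : R} (h1 : u * u = 0) (h2 : v * v = 0)
    (h3 : u * v * u = 0) (h4 : v * (u * v) = 0) :
    (1 + u) * (1 + v) * (1 - u) * (1 - v) = 1 + u * v - v * u := by
  have e : (1 + u) * (1 + v) * (1 - u) * (1 - v) = 1 + u * v - v * u - u * u - v * v - u * v * u +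
      v * (u * v) + u * u * v - u * (v * v) + u * v * u * v := by noncomm_ring
  rw [e, h1, h2, h3, h4]
  simp

theorem sq_zero (H : Sieg B Q N) : (N - st N) * (N - st N) = 0 := by
  simp only [mul_sub, sub_mul, H.nn, H.sn, H.ns, H.ss, sub_self]

theorem perf1 (hCW : C_CW p n) (hHP : C_HP p n) (G : Geo ℓ B Q) (hb : Big ℓ B 20)
    (H : R1 ℓ B Q N x y) : ∃ a ∈ EU B Q, ∃ b ∈ EU B Q,
      sgl N = a * b * st a * st b ∧ N = (a - 1) * (b - 1) := by
  by_cases h0 : y = 0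
  · subst h0
    exact ⟨1, one_mem _, 1, one_mem _, by simp [eq_zero_of_im H.im, sgl_zero],
      by simp [eq_zero_of_im H.im]⟩
  have A := G.str.alg
  obtain ⟨a, hx⟩ := H.bx
  obtain ⟨b, hy⟩ := H.by'
  obtain ⟨w, w', n1, n2, k, k', H1, H2, e⟩ :=
    fac hCW hHP G hb hx hy h0 H.sx H.sy H.mem H.im H.ims
  have pp : ∀ {u v : Vec p n}, v ∈ perp (orb (Com B) u) →
      orb (Com B) v ≤ perp (orb (Com B) u) := fun e => orb_le_perp A (stab_orb _) e
  have z1 : n1 * st n2 = 0 := mul_zero_of H2.ims fun v hv => H1.kill (pp (perp_orb_symm A k') hv)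
  have z2 : st n1 * n2 = 0 := mul_zero_of H2.im fun v hv => H1.kills (pp k hv)
  have z3 : st n1 * st n2 = 0 :=
    mul_zero_of H2.ims fun v hv => H1.kills (pp (perp_orb_symm A H.orth) hv)
  have z4 : N * n1 = 0 := mul_zero_of H1.im fun v hv => H.kill (pp H.orth hv)
  have z5 : N * st n1 = 0 := mul_zero_of H1.ims fun v hv => H.kill (pp k' hv)
  have z6 : n2 * N = 0 := mul_zero_of H.im fun v hv => H2.kill (pp H.orth hv)
  have z7 : st n2 * N = 0 := mul_zero_of H.im fun v hv => H2.kills (pp (perp_orb_symm A k) hv)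
  have e1 : (n1 - st n1) * (n2 - st n2) = N := by
    simp only [mul_sub, sub_mul, e, z1, z2, z3, sub_zero]
  have e2 : (n2 - st n2) * (n1 - st n1) = st N := by
    rw [← e1, st_mul, st_sub, st_sub, st_st, st_st, ← neg_mul_neg, neg_sub, neg_sub]
  have s1 : ∀ m : Mat p n, sgl m = 1 + (m - st m) := fun m => add_sub_assoc _ _ _
  have s2 : ∀ m : Mat p n, st (sgl m) = 1 - (m - st m) := fun m => by
    rw [st_sgl, sgl, st_neg]; abel
  refine ⟨sgl n1, (H1.sieg G).eu, sgl n2, (H2.sieg G).eu, ?_, ?_⟩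
  · rw [s2, s2, s1 n1, s1 n2, comm_id (sq_zero (H1.sieg G)) (sq_zero (H2.sieg G))
      (by rw [e1, mul_sub, z4, z5, sub_zero]) (by rw [e1, sub_mul, z6, z7, sub_zero]), e1, e2, sgl]
  · rw [s1, s1, add_sub_cancel_left, add_sub_cancel_left, e1]

/-! ### the span -/

theorem span_mul {S : Submonoid (Mat p n)} (hX : X ∈ Submodule.span (ZMod p) (S : Set (Mat p n)))
    (hY : Y ∈ Submodule.span (ZMod p) (S : Set (Mat p n))) :
    X * Y ∈ Submodule.span (ZMod p) (S : Set (Mat p n)) := by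
  have := Submodule.mul_mem_mul hX hY
  rw [Submodule.span_mul_span] at this
  refine Submodule.span_mono ?_ this
  rintro _ ⟨u, hu, v, hv, rfl⟩
  exact S.mul_mem hu hv

theorem span_st (G : Geo ℓ B Q) (hX : X ∈ Submodule.span (ZMod p) (EU B Q : Set (Mat p n))) :
    st X ∈ Submodule.span (ZMod p) (EU B Q : Set (Mat p n)) :=
  Submodule.span_le.2 (show _ ⊆ ((Submodule.span (ZMod p) (EU B Q : Set (Mat p n))).comap stL :
    Set (Mat p n)) from fun _ hz => Submodule.subset_span (eu_star G.adm hz)) hX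

/-- the image is cut into three singular lines -/
theorem three (hSP : C_SP p n) (G : Geo ℓ B Q) (hb : Big ℓ B 20) {S : Sub p n} {W : VS p n}
    (hy : y ∈ Vb ℓ b) (nt : ¬ Triv ℓ B b)
    (H : ∀ s ∈ Vb ℓ b, Sing Q s → ∀ N ∈ B, (∀ v, N *ᵥ v ∈ orb (Com B) s) →
      (∀ v, st N *ᵥ v ∈ W) → N ∈ S)
    (hN : N ∈ B) (h1 : ∀ v, N *ᵥ v ∈ orb (Com B) y) (h2 : ∀ v, st N *ᵥ v ∈ W) : N ∈ S := by
  by_cases h0 : y = 0
  · subst h0; rw [eq_zero_of_im h1]; exact zero_mem _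
  have A := G.str.alg
  obtain ⟨s, t, u, e, k⟩ := (hSP ℓ B Q ⊥ ⊥ 0 b y G stab_bot small_bot nt
    (rm_of_small G.str small_bot (by have := hb b nt; omega)) hy (by simp)).2.1
  have key : ∀ v ∈ [s, t, u], ∃ c ∈ B, c *ᵥ y = v ∧ c * N ∈ S := fun v hv => by
    obtain ⟨c, hc, e⟩ := G.str.sim b y hy h0 v (k v hv).1.mem
    refine ⟨c, hc, e, H v (k v hv).1.mem (k v hv).1.sing _ (A.mul _ hc _ hN) (fun z => ?_)
      fun z => ?_⟩
    · rw [← Matrix.mulVec_mulVec, ← e]; exact orb_map hc (h1 z)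
    · rw [st_mul, ← Matrix.mulVec_mulVec]; exact h2 _
  obtain ⟨c1, a1, b1, d1⟩ := key s (by simp)
  obtain ⟨c2, a2, b2, d2⟩ := key t (by simp)
  obtain ⟨c3, a3, b3, d3⟩ := key u (by simp)
  rw [← mul_eq_of_fix (add_mem (add_mem a1 a2) a3)
    (by rw [Matrix.add_mulVec, Matrix.add_mulVec, b1, b2, b3, ← e]) h1, add_mul, add_mul]
  exact add_mem (add_mem d1 d2) d3

/-- a non-zero operator that kills the trivial blocks has a non-trivial line in its image -/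
theorem line (S : Str ℓ B) (hM : M ∈ B) (e : eo ℓ B * M = M) (h0 : M ≠ 0) :
    ∃ b v, v ∈ Vb ℓ b ∧ M *ᵥ v ∈ Vb ℓ b ∧ M *ᵥ v ≠ 0 ∧ ¬ Triv ℓ B b := by
  obtain ⟨x, hx⟩ : ∃ x, M *ᵥ x ≠ 0 := by
    by_contra! hc
    exact h0 (mat_ext fun x => by rw [hc, Matrix.zero_mulVec])
  obtain ⟨b, hb⟩ := exists_pr_ne ℓ hx
  rw [com_mulVec (com_pr S.alg b) hM] at hb
  have m := (S.alg.dg M hM).mulVec_mem (pr_mulVec_mem b x)
  exact ⟨b, _, pr_mulVec_mem b x, m, hb, fun t => hb (by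
    rw [← eo_mulVec_triv m t, Matrix.mulVec_mulVec _ _ M, e])⟩

/-- the adjoint of an operator of rank one has rank one -/
theorem rank_st (S : Str ℓ B) (hy : y ∈ Vb ℓ b) (nt : ¬ Triv ℓ B b) (hN : N ∈ B) (h0 : N ≠ 0)
    (h1 : ∀ v, N *ᵥ v ∈ orb (Com B) y) :
    ∃ a x, x ∈ Vb ℓ a ∧ ¬ Triv ℓ B a ∧ ∀ v, st N *ᵥ v ∈ orb (Com B) x := by
  have A := S.alg
  have e := mul_eq_of_fix (eo_mem S) (eo_mulVec_ntriv hy nt) h1
  obtain ⟨a, v, -, m, hv, t⟩ := line S (A.star N hN)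
    (by rw [← st_eo S, ← st_mul, ← com_eo A N hN, e]) fun e => h0 (st_eq_zero.1 e)
  refine ⟨a, _, m, t, ims_of_kill fun w hw => ?_⟩
  by_contra hc
  refine hv (kill_of_im h1 (perp_orb_symm A (mem_of_orb S ((stab_orb v).perp A) hy (h1 w) hc
    (mem_perp_orb.2 fun C hC => ?_))))
  rw [ip_mulVec_right, ← com_mulVec hC (A.star N hN)]
  exact mem_perp_orb.1 hw C hC

theorem peel (S : Str ℓ B) {T : Sub p n} (H : ∀ b, ¬ Triv ℓ B b → ∀ y ∈ Vb ℓ b, ∀ N ∈ B,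
    (∀ v, N *ᵥ v ∈ orb (Com B) y) → N ∈ T) (W : VS p n) :
    ∀ M ∈ B, eo ℓ B * M = M → im M = W → M ∈ T := by
  induction W using WellFoundedLT.induction with
  | ind W ih =>
    rintro M hM e rfl
    by_cases h0 : M = 0
    · rw [h0]; exact zero_mem _
    obtain ⟨b, v, -, m, hv, t⟩ := line S hM e h0
    obtain ⟨ρ, hρ, r1, r2, -, r3⟩ := proj S stab_bot m hv
    have hN := S.alg.mul _ hρ _ hM
    have k : ∀ z, ρ *ᵥ (M *ᵥ z) ∈ orb (Com B) (M *ᵥ v) := fun z => r3 (mem_im.2 ⟨_, rfl⟩)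
    have h1 := H b t _ m _ hN fun z => by rw [← Matrix.mulVec_mulVec]; exact k z
    have h2 := ih (im (M - ρ * M)) (lt_of_le_of_ne (fun z hz => ?_) fun e => hv ?_) _
      (sub_mem hM hN) (by rw [mul_sub, ← mul_assoc, com_eo S.alg ρ hρ, mul_assoc, e]) rfl
    · simpa using add_mem h2 h1
    · obtain ⟨u, rfl⟩ := mem_im.1 hz
      rw [Matrix.sub_mulVec, ← Matrix.mulVec_mulVec]
      exact sub_mem (mem_im.2 ⟨u, rfl⟩) ((stab_im hM).orb_le (mem_im.2 ⟨v, rfl⟩) (k u))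
    · obtain ⟨u, hu⟩ := mem_im.1 (e ▸ mem_im.2 ⟨v, rfl⟩ : M *ᵥ v ∈ im (M - ρ * M))
      rw [← r2, ← hu, Matrix.mulVec_mulVec, mul_sub, ← mul_assoc, r1, sub_self,
        Matrix.zero_mulVec]

theorem triv_part (S : Str ℓ B) (hM : M ∈ B) :
    M = eo ℓ B * M + M (c0 n) (c0 n) • (1 - eo ℓ B) := by
  ext α β
  have m : (Pi.single β 1 : Vec p n) ∈ Vb ℓ β := single_mem_Vb rfl 1
  have : M *ᵥ Pi.single β 1 =
      (eo ℓ B * M + M (c0 n) (c0 n) • (1 - eo ℓ B)) *ᵥ Pi.single β 1 := by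
    rw [Matrix.add_mulVec, Matrix.smul_mulVec, Matrix.sub_mulVec, Matrix.one_mulVec,
      com_eo S.alg M hM, ← Matrix.mulVec_mulVec]
    by_cases t : Triv ℓ B β
    · rw [eo_mulVec_triv m t, Matrix.mulVec_zero, zero_add, sub_zero, triv_act S t m hM]
    · rw [eo_mulVec_ntriv m t, sub_self, smul_zero, add_zero]
  simpa only [Matrix.mulVec_single_one, Matrix.col_apply] using congrFun this α

end TPERF

open TPERF

theorem c_PERF (p n : Nat) [Fact p.Prime] (hRK1 : C_RK1 p n) (hCW : C_CW p n) (hHP : C_HP p n) :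
    C_PERF p n := by
  intro ℓ B Q G hb
  have h2 : EU B Q ≤
      Submonoid.closure {z | ∃ a ∈ EU B Q, ∃ b ∈ EU B Q, z = a * b * st a * st b} := fun z hz =>
    ew_ind (one_mem _) (fun N x y z H _ _ _ ih => by
      obtain ⟨a, ha, b, hb, e, -⟩ := perf1 hCW hHP G hb H
      exact mul_mem (Submonoid.subset_closure ⟨a, ha, b, hb, e⟩) ih) (hRK1 ℓ B Q G hz)
  refine ⟨fun N x y H => perf1 hCW hHP G hb H, h2, fun f hf z hz => ?_⟩
  have f1 : f 1 = 0 := by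
    have := hf 1 (one_mem (EU B Q)) 1 (one_mem (EU B Q))
    rw [mul_one] at this
    exact left_eq_add.1 this
  have f2 : ∀ a ∈ EU B Q, f a + f (st a) = 0 := fun a ha => by
    rw [← hf a ha _ (eu_star G.adm ha), (eu_uq G ha).un.mul_st, f1]
  have key : ∀ z ∈ Submonoid.closure
      {z | ∃ a ∈ EU B Q, ∃ b ∈ EU B Q, z = a * b * st a * st b}, z ∈ EU B Q ∧ f z = 0 := by
    intro z hz
    induction hz using Submonoid.closure_induction with
    | mem z hz =>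
      obtain ⟨a, ha, b, hb, rfl⟩ := hz
      have ha' := eu_star G.adm ha
      have hb' := eu_star G.adm hb
      have m1 := mul_mem ha hb
      have m2 := mul_mem m1 ha'
      refine ⟨mul_mem m2 hb', ?_⟩
      rw [hf _ m2 _ hb', hf _ m1 _ ha', hf _ ha _ hb]
      linear_combination f2 a ha + f2 b hb
    | one => exact ⟨one_mem _, f1⟩
    | mul u v _ _ hu hv => exact ⟨mul_mem hu.1 hv.1, by rw [hf _ hu.1 _ hv.1, hu.2, hv.2, add_zero]⟩
  exact (key z (h2 hz)).2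

theorem c_SPAN (p n : Nat) [Fact p.Prime] (hPERF : C_PERF p n) (hSP : C_SP p n) (hCW : C_CW p n)
    (hHP : C_HP p n) : C_SPAN p n := by
  intro ℓ B Q G hb M hM
  have A := G.str.alg
  have one := Submodule.subset_span (R := ZMod p) (s := (EU B Q : Set (Mat p n))) (one_mem _)
  have h1 : ∀ N x y, R1 ℓ B Q N x y → N ∈ Submodule.span (ZMod p) (EU B Q : Set (Mat p n)) :=
    fun N x y H => by
      obtain ⟨a, ha, b, hb, -, e⟩ := (hPERF ℓ B Q G hb).1 N x y H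
      rw [e]
      exact span_mul (sub_mem (Submodule.subset_span ha) one)
        (sub_mem (Submodule.subset_span hb) one)
  have h2 := peel G.str (T := Submodule.span (ZMod p) (EU B Q : Set (Mat p n)))
    fun b t y hy N hN k => by
      by_cases h0 : N = 0
      · rw [h0]; exact zero_mem _
      obtain ⟨a, x, hx, t', k'⟩ := rank_st G.str hy t hN h0 k
      refine three hSP G hb hy t (fun s hs ss N hN k k' => ?_) hN k k'
      rw [← st_st N]
      refine span_st G (three (W := orb (Com B) s) hSP G hb hx t' (fun u hu su N hN k k' => ?_)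
        (A.star N hN) k' (by rwa [st_st]))
      by_cases h0 : u = 0
      · subst h0; rw [eq_zero_of_im k]; exact zero_mem _
      obtain ⟨w, w', n1, n2, -, -, H1, H2, rfl⟩ := fac hCW hHP G hb hs hu h0 ss su hN k k'
      exact span_mul (h1 _ _ _ H1) (h1 _ _ _ H2)
  rw [triv_part G.str hM]
  exact add_mem (h2 _ _ (A.mul _ (eo_mem G.str) _ hM) (by rw [← mul_assoc, eo_mul_eo]) rfl)
    (Submodule.smul_mem _ _ (sub_mem one (h2 _ _ (eo_mem G.str) eo_mul_eo rfl)))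

end Pool.Agent.P.MP_f1a348_lc.CE
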