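import Pool.Agent.P.MP_f1a348_lc.CF.TADD
import Pool.Agent.P.MP_f1a348_lc.CE.Iface

/-!
Projectively additive maps are linear modulo the endomorphism field: the relative version.
-/

namespace Pool.Agent.P.MP_f1a348_lc.CE

open Pool.Agent.P.MP_f1a348_lc.PG Matrix Module

set_option linter.unusedSectionVars false

variable {p n : ℕ} [Fact p.Prime] {ℓ : Ix n → ℕ} {B : Sub p n} {a c : Ix n} {X R : VS p n}
  {ρ : Vec p n →ₗ[ZMod p] Vec p n}

namespace PLx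

/-- independent pairs -/
def I2 (B : Sub p n) (X R : VS p n) (x y : Vec p n) : Prop :=
  x ∈ X ∧ y ∈ X ∧ x ∉ R ∧ y ∉ R ⊔ orb (Com B) x

/-- independent triples -/
def I3 (B : Sub p n) (X R : VS p n) (x y z : Vec p n) : Prop :=
  I2 B X R x y ∧ z ∈ X ∧ z ∉ R ⊔ orb (Com B) x ⊔ orb (Com B) y

/-- the defect of additivity -/
def Rel (ℓ : Ix n → ℕ) (B : Sub p n) (a c : Ix n) (ρ : Vec p n →ₗ[ZMod p] Vec p n)
    (t : Vec p n → Vec p n) (x y : Vec p n) (α β : Mat p n) : Prop :=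
  α ∈ Cb ℓ B c a ∧ β ∈ Cb ℓ B c a ∧ t (x + y) - t x - t y = ρ (α *ᵥ x) + ρ (β *ᵥ y)

/-- the setting -/
structure Se (ℓ : Ix n → ℕ) (B : Sub p n) (a : Ix n) (X R : VS p n)
    (ρ : Vec p n →ₗ[ZMod p] Vec p n) : Prop where
  str : Str ℓ B
  le : X ≤ Vb ℓ a
  stab : Stab B R
  ker : ∀ v, ρ v = 0 → v ∈ R
  out : ∀ x ∈ X, ∀ y ∈ X, ∀ z ∈ X, ∀ w ∈ X, ∃ v ∈ X,
    v ∉ R ⊔ orb (Com B) x ⊔ orb (Com B) y ⊔ orb (Com B) z ⊔ orb (Com B) w

theorem I2.symm (h : Se ℓ B a X R ρ) {x y : Vec p n} (H : I2 B X R x y) : I2 B X R y x :=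
  ⟨H.2.1, H.1, fun e => H.2.2.2 (Submodule.mem_sup_left e),
    fun e => H.2.2.2 (exchange h.str h.stab (h.le H.2.1) e H.2.2.1)⟩

theorem I3.s12 (h : Se ℓ B a X R ρ) {x y z : Vec p n} (H : I3 B X R x y z) : I3 B X R y x z :=
  ⟨H.1.symm h, H.2.1, by rw [sup_right_comm]; exact H.2.2⟩

theorem I3.s23 (h : Se ℓ B a X R ρ) {x y z : Vec p n} (H : I3 B X R x y z) : I3 B X R x z y :=
  ⟨⟨H.1.1, H.2.1, H.1.2.2.1, fun e => H.2.2 (Submodule.mem_sup_left e)⟩, H.1.2.1,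
    fun e => H.2.2 (exchange h.str (h.stab.sup (stab_orb x)) (h.le H.2.1) e H.1.2.2.2)⟩

theorem I2.add_ne {x y : Vec p n} (H : I2 B X R x y) : x + y ∉ R := fun e => H.2.2.2 (by
  simpa using sub_mem (Submodule.mem_sup_left (T := orb (Com B) x) e)
    (Submodule.mem_sup_right (self_mem_orb x)))

theorem I3.add (h : Se ℓ B a X R ρ) {x y z : Vec p n} (H : I3 B X R x y z) :
    I2 B X R (x + y) z :=
  ⟨add_mem H.1.1 H.1.2.1, H.2.1, H.1.add_ne, fun e => H.2.2 (sup_le (le_sup_left.trans le_sup_left)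
    (((h.stab.sup (stab_orb x)).sup (stab_orb y)).orb_le (Submodule.add_mem_sup
      (Submodule.mem_sup_right (self_mem_orb x)) (self_mem_orb y))) e)⟩

theorem U1 (h : Str ℓ B) {W : VS p n} (hW : Stab B W) {z : Vec p n} (hz : z ∈ Vb ℓ a)
    (hn : z ∉ W) {γ : Mat p n} (hγ : γ ∈ Cb ℓ B c a) (e : γ *ᵥ z ∈ W) : γ = 0 := by
  refine cb_inj h hγ hz (fun e' => hn (e' ▸ zero_mem _)) ?_
  by_contra h0
  exact hn (mem_of_mulVec_mem h hW hz hγ.1 h0 e)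

theorem U2 (h : Se ℓ B a X R ρ) {x y : Vec p n} (H : I2 B X R x y) {α β : Mat p n}
    (hα : α ∈ Cb ℓ B c a) (hβ : β ∈ Cb ℓ B c a) (e : ρ (α *ᵥ x) + ρ (β *ᵥ y) = 0) :
    α = 0 ∧ β = 0 := by
  have h0 := h.ker _ ((map_add ρ _ _).trans e)
  have h1 : β = 0 := U1 h.str (h.stab.sup (stab_orb x)) (h.le H.2.1) H.2.2.2 hβ (by
    simpa using sub_mem (Submodule.mem_sup_left (T := orb (Com B) x) h0)
      (Submodule.mem_sup_right (mem_orb.2 ⟨α, hα.1, rfl⟩)))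
  rw [h1, Matrix.zero_mulVec, add_zero] at h0
  exact ⟨U1 h.str h.stab (h.le H.1) H.2.2.1 hα h0, h1⟩

theorem U3 (h : Se ℓ B a X R ρ) {x y z : Vec p n} (H : I3 B X R x y z) {α β γ : Mat p n}
    (hα : α ∈ Cb ℓ B c a) (hβ : β ∈ Cb ℓ B c a) (hγ : γ ∈ Cb ℓ B c a)
    (e : ρ (α *ᵥ x) + ρ (β *ᵥ y) + ρ (γ *ᵥ z) = 0) : α = 0 ∧ β = 0 ∧ γ = 0 := by
  have h0 := h.ker (α *ᵥ x + β *ᵥ y + γ *ᵥ z) (by rw [map_add, map_add, e])
  have h1 : γ = 0 := U1 h.str ((h.stab.sup (stab_orb x)).sup (stab_orb y)) (h.le H.2.1) H.2.2 hγ (by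
    have := sub_mem (Submodule.mem_sup_left (T := orb (Com B) y)
      (Submodule.mem_sup_left (T := orb (Com B) x) h0)) (Submodule.add_mem_sup
        (Submodule.mem_sup_right (mem_orb.2 ⟨α, hα.1, rfl⟩)) (mem_orb.2 ⟨β, hβ.1, rfl⟩))
    rwa [add_sub_cancel_left] at this)
  rw [h1, Matrix.zero_mulVec, map_zero, add_zero] at e
  exact ⟨(U2 h H.1 hα hβ e).1, (U2 h H.1 hα hβ e).2, h1⟩

theorem Rel.symm {t : Vec p n → Vec p n} {x y : Vec p n} {α β : Mat p n}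
    (H : Rel ℓ B a c ρ t x y α β) : Rel ℓ B a c ρ t y x β α :=
  ⟨H.2.1, H.1, by rw [add_comm y, add_comm (ρ (β *ᵥ y)), ← H.2.2]; abel⟩

theorem Rel.uniq (h : Se ℓ B a X R ρ) {t : Vec p n → Vec p n} {x y : Vec p n}
    (I : I2 B X R x y) {α β α' β' : Mat p n} (H : Rel ℓ B a c ρ t x y α β)
    (H' : Rel ℓ B a c ρ t x y α' β') : α = α' ∧ β = β' := by
  have := U2 h I (sub_mem H.1 H'.1) (sub_mem H.2.1 H'.2.1) (by
    have e := H.2.2.symm.trans H'.2.2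
    rw [Matrix.sub_mulVec, Matrix.sub_mulVec, map_sub, map_sub]
    linear_combination (exp := 1) e)
  exact ⟨sub_eq_zero.1 this.1, sub_eq_zero.1 this.2⟩

/-- two ways of grouping a triple -/
theorem tri (h : Se ℓ B a X R ρ) {t : Vec p n → Vec p n} {x y z : Vec p n} (I : I3 B X R x y z)
    {α α' β β' δ δ' ε ε' : Mat p n} (h1 : Rel ℓ B a c ρ t x y α α')
    (h2 : Rel ℓ B a c ρ t x z β β') (h3 : Rel ℓ B a c ρ t (x + y) z δ δ')
    (h4 : Rel ℓ B a c ρ t (x + z) y ε ε') : α + δ = β + ε ∧ α' + δ = ε' ∧ δ' = β' + ε := by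
  have := U3 h I (sub_mem (add_mem h1.1 h3.1) (add_mem h2.1 h4.1))
    (sub_mem (add_mem h1.2.1 h3.1) h4.2.1) (sub_mem h3.2.1 (add_mem h2.2.1 h4.1)) (by
    have e1 := h1.2.2
    have e2 := h2.2.2
    have e3 := h3.2.2
    have e4 := h4.2.2
    rw [add_right_comm x z y] at e4
    simp only [Matrix.sub_mulVec, Matrix.add_mulVec, Matrix.mulVec_add, map_add, map_sub]
      at e3 e4 ⊢
    linear_combination (exp := 1) e2 + e4 - e1 - e3)
  exact ⟨sub_eq_zero.1 this.1, sub_eq_zero.1 this.2.1, sub_eq_zero.1 this.2.2⟩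

theorem coc (h : Se ℓ B a X R ρ) {t : Vec p n → Vec p n} {A A' : Vec p n → Vec p n → Mat p n}
    (H : ∀ x y, I2 B X R x y → Rel ℓ B a c ρ t x y (A x y) (A' x y)) {x y z : Vec p n}
    (I : I3 B X R x y z) :
    A x z - A' x z = (A x y - A' x y) + (A y z - A' y z) := by
  obtain ⟨e1, _, e3⟩ := tri h I (H _ _ I.1) (H _ _ (I.s23 h).1) (H _ _ (I.add h))
    (H _ _ ((I.s23 h).add h))
  have h3 := H _ _ (I.add h)
  rw [add_comm x y] at h3
  obtain ⟨f1, _, f3⟩ := tri h (I.s12 h) (H _ _ I.1).symm (H _ _ ((I.s12 h).s23 h).1) h3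
    (H _ _ (((I.s12 h).s23 h).add h))
  rw [add_comm y x] at f1 f3
  linear_combination (norm := abel) e3 - f3 + f1 - e1

theorem mono3 {U V W : VS p n} (e : U ≤ V) {v : Vec p n} (hv : v ∈ U ⊔ W) : v ∈ V ⊔ W :=
  (sup_le_sup_right e W : U ⊔ W ≤ V ⊔ W) hv

theorem lam_ex (h : Se ℓ B a X R ρ) {D : Vec p n → Vec p n → Mat p n}
    (hK : ∀ x y, I2 B X R x y → D x y ∈ Cb ℓ B c a)
    (hs : ∀ x y, I2 B X R x y → D y x = -D x y)
    (hc : ∀ x y z, I3 B X R x y z → D x z = D x y + D y z) :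
    ∃ lam : Vec p n → Mat p n, (∀ x ∈ X, x ∉ R → lam x ∈ Cb ℓ B c a) ∧
      ∀ x y, I2 B X R x y → lam x - lam y = D x y := by
  obtain ⟨x0, h0, h0'⟩ := h.out 0 X.zero_mem 0 X.zero_mem 0 X.zero_mem 0 X.zero_mem
  have h1 : x0 ∉ R := fun e => h0' (Submodule.mem_sup_left (Submodule.mem_sup_left
    (Submodule.mem_sup_left (Submodule.mem_sup_left e))))
  have m4 : ∀ S T U : VS p n, S ⊔ U ≤ S ⊔ T ⊔ U := fun S T U => sup_le_sup_right le_sup_left _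
  have key : ∀ x, ∃ l : Mat p n, x ∈ X → x ∉ R → l ∈ Cb ℓ B c a ∧ ∀ y ∈ X,
      y ∉ R ⊔ orb (Com B) x → y ∉ R ⊔ orb (Com B) x0 → D x y + D y x0 = l := fun x => by
    by_cases hx : x ∈ X
    swap
    · exact ⟨0, fun e => (hx e).elim⟩
    obtain ⟨y, hy, e⟩ := h.out x hx x0 h0 x0 h0 x0 h0
    have a1 : y ∉ R ⊔ orb (Com B) x := fun e' =>
      e (Submodule.mem_sup_left (Submodule.mem_sup_left (Submodule.mem_sup_left e')))
    have a2 : y ∉ R ⊔ orb (Com B) x0 := fun e' =>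
      e (Submodule.mem_sup_left (Submodule.mem_sup_left (m4 _ _ _ e')))
    refine ⟨D x y + D y x0, fun _ hx0 => ⟨add_mem (hK _ _ ⟨hx, hy, hx0, a1⟩)
      (hK _ _ (I2.symm h ⟨h0, hy, h1, a2⟩)), fun y' hy' b1 b2 => ?_⟩⟩
    obtain ⟨v, hv, e'⟩ := h.out x hx x0 h0 y hy y' hy'
    have main : ∀ u ∈ X, u ∉ R ⊔ orb (Com B) x → u ∉ R ⊔ orb (Com B) x0 →
        v ∉ R ⊔ orb (Com B) x ⊔ orb (Com B) x0 ⊔ orb (Com B) u →
        D x u + D u x0 = D x v + D v x0 := fun u hu c1 c2 c3 => by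
      have i1 : I3 B X R x u v := ⟨⟨hx, hu, hx0, c1⟩, hv, fun f => c3 (mono3 le_sup_left f)⟩
      have i2 : I3 B X R x0 u v := ⟨⟨h0, hu, h1, c2⟩, hv, fun f => c3 (mono3 (m4 _ _ _) f)⟩
      have i3 : I3 B X R v u x0 := ((i2.s12 h).s23 h).s12 h
      rw [hc _ _ _ i1, hc _ _ _ i3, hs _ _ ((i1.s12 h).s23 h).1]
      abel
    rw [main y hy a1 a2 fun f => e' (Submodule.mem_sup_left f), main y' hy' b1 b2 fun f =>
      e' (mono3 le_sup_left f)]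
  choose lam hlam using key
  refine ⟨lam, fun x hx hx0 => (hlam x hx hx0).1, fun x y I => ?_⟩
  obtain ⟨v, hv, e⟩ := h.out x I.1 y I.2.1 x0 h0 x0 h0
  have i1 : I3 B X R x y v :=
    ⟨I, hv, fun f => e (Submodule.mem_sup_left (Submodule.mem_sup_left f))⟩
  have a2 : v ∉ R ⊔ orb (Com B) x0 := fun e' =>
    e (Submodule.mem_sup_left (mono3 (le_sup_left.trans le_sup_left) e'))
  rw [← (hlam x I.1 I.2.2.1).2 v hv (i1.s23 h).1.2.2.2 a2,
    ← (hlam y I.2.1 (I.symm h).2.2.1).2 v hv ((i1.s12 h).s23 h).1.2.2.2 a2, hc _ _ _ i1]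
  abel

end PLx

open PLx in
theorem plr (h : Str ℓ B) {r s : ℕ} {W : VS p n} (hW : Small ℓ B r W) (hR : Small ℓ B s R)
    (hd : r + s + 4 < db ℓ B a) {t : Vec p n → Vec p n} (ht : ∀ x, t x ∈ Vb ℓ c)
    (H : ∀ x ∈ Vb ℓ a, x ∈ perp W → x ∉ R → ∀ y ∈ Vb ℓ a, y ∈ perp W → y ∉ R ⊔ orb (Com B) x →
      t (x + y) - t x - t y ∈ R ⊔ orb (Com B) x ⊔ orb (Com B) y) :
    ∃ L : Vec p n →ₗ[ZMod p] Vec p n, ∀ x ∈ Vb ℓ a, x ∈ perp W → x ∉ R →
      L x - t x ∈ R ⊔ orb (Com B) x := by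
  obtain ⟨R', hc⟩ := R.exists_isCompl
  obtain ⟨ρ, r1, r2⟩ : ∃ ρ : Vec p n →ₗ[ZMod p] Vec p n, (∀ v, ρ v - v ∈ R) ∧ ∀ v ∈ R, ρ v = 0 :=
    ⟨LinearMap.id - Submodule.projection R R' hc, fun v => by
      simpa using Submodule.projection_apply_mem hc v, fun v hv => by
      simpa [sub_eq_zero] using (Submodule.projection_apply_left hc ⟨v, hv⟩).symm⟩
  have S : Se ℓ B a (Vb ℓ a ⊓ perp W) R ρ := ⟨h, inf_le_left, hR.1,
    fun v e => by simpa [e] using r1 v, fun x hx y hy z hz w hw =>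
      (out h hW ((((hR.sup h.alg (small_orb h hx.1)).sup h.alg (small_orb h hy.1)).sup h.alg
        (small_orb h hz.1)).sup h.alg (small_orb h hw.1)) (b := a) (by omega)).imp
          fun v hv => ⟨⟨hv.1, hv.2.1⟩, hv.2.2⟩⟩
  have H1 : ∀ x y, ∃ α β : Mat p n, I2 B (Vb ℓ a ⊓ perp W) R x y →
      Rel ℓ B a c ρ (fun x => ρ (t x)) x y α β := fun x y => by
    by_cases I : I2 B (Vb ℓ a ⊓ perp W) R x y
    swap
    · exact ⟨0, 0, fun e => (I e).elim⟩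
    obtain ⟨u, hu, _, ⟨D, hD, rfl⟩, e⟩ :=
      Submodule.mem_sup.1 (H x I.1.1 I.1.2 I.2.2.1 y I.2.1.1 I.2.1.2 I.2.2.2)
    obtain ⟨w, hw, _, ⟨C, hC, rfl⟩, rfl⟩ := Submodule.mem_sup.1 hu
    refine ⟨_, _, fun _ => ⟨cb_of_com h.alg hC c a, cb_of_com h.alg hD c a, ?_⟩⟩
    simp only [evx_apply] at e
    rw [cb_comp c I.1.1, cb_comp c I.2.1.1, ← map_sub, ← map_sub,
      ← mem_Vb_iff.1 (sub_mem (sub_mem (ht (x + y)) (ht x)) (ht y)), ← e, Matrix.mulVec_add,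
      Matrix.mulVec_add, map_add, map_add, r2 _ (hR.1 _ (com_pr h.alg c) w hw), zero_add]
  choose A A' hA using H1
  obtain ⟨lam, hl, hl'⟩ := lam_ex (c := c) S (D := fun x y => A x y - A' x y)
    (fun x y I => sub_mem (hA x y I).1 (hA x y I).2.1)
    (fun x y I => by
      obtain ⟨e1, e2⟩ := Rel.uniq S I (hA x y I) (hA y x (I.symm S)).symm
      simp only [e1, e2, neg_sub])
    (fun x y z I => coc S hA I)
  have H2 : ∀ x y, I2 B (Vb ℓ a ⊓ perp W) R x y →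
      Rel ℓ B a c ρ (fun x => ρ (t x) + ρ (lam x *ᵥ x)) x y
      (A x y - lam x + lam (x + y)) (A x y - lam x + lam (x + y)) := fun x y I => by
    have m : A x y - lam x + lam (x + y) ∈ Cb ℓ B c a :=
      add_mem (sub_mem (hA x y I).1 (hl x I.1 I.2.2.1)) (hl _ (add_mem I.1 I.2.1) I.add_ne)
    refine ⟨m, m, ?_⟩
    have e1 := (hA x y I).2.2
    have e2 := congrArg (fun M => ρ (M *ᵥ y)) (hl' x y I)
    simp only [Matrix.sub_mulVec, Matrix.add_mulVec, Matrix.mulVec_add, map_add, map_sub] at e2 ⊢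
    linear_combination (exp := 1) e1 + e2
  obtain ⟨L, hL⟩ := CF.s_ADD p n ℓ B r s W R a (fun x => ρ (t x) + ρ (lam x *ᵥ x)) h hW hR
    (by omega) fun x hx hx' hx0 y hy hy' hxy => by
      have I : I2 B (Vb ℓ a ⊓ perp W) R x y := ⟨⟨hx, hx'⟩, ⟨hy, hy'⟩, hx0, hxy⟩
      obtain ⟨z, hz, e⟩ := S.out x I.1 y I.2.1 y I.2.1 y I.2.1
      have J : I3 B (Vb ℓ a ⊓ perp W) R x y z :=
        ⟨I, hz, fun f => e (Submodule.mem_sup_left (Submodule.mem_sup_left f))⟩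
      obtain ⟨e1, _, e3⟩ := tri S J (H2 _ _ I) (H2 _ _ (J.s23 S).1) (H2 _ _ (J.add S))
        (H2 _ _ ((J.s23 S).add S))
      have e4 : A x y - lam x + lam (x + y) = 0 := by
        linear_combination (norm := abel) e1 - e3
      have e5 := (H2 _ _ I).2.2
      rw [e4, Matrix.zero_mulVec, Matrix.zero_mulVec, map_zero, add_zero] at e5
      linear_combination (exp := 1) e5
  refine ⟨L, fun x hx hx' hx0 => ?_⟩
  have := add_mem (Submodule.mem_sup_left (add_mem (r1 (t x)) (r1 (lam x *ᵥ x))))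
    (Submodule.mem_sup_right (S := R) (mem_orb.2 ⟨_, (hl x ⟨hx, hx'⟩ hx0).1, rfl⟩ : lam x *ᵥ x ∈ orb (Com B) x))
  rw [hL x hx hx' hx0]
  convert this using 1
  abel

theorem c_PLR (p n : ℕ) [Fact p.Prime] : C_PLR p n :=
  fun _ _ _ _ _ _ _ _ _ h hW hR hd ht H => plr h hW hR hd ht H

namespace GL2x

/-- additive functions on a subspace of a block are given by vectors of the dual block -/
theorem repr (h : Lab ℓ) {c : Ix n} {S : VS p n} (hS : S ≤ Vb ℓ c) {f : Vec p n → ZMod p}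
    (hf : ∀ x ∈ S, ∀ y ∈ S, f (x + y) = f x + f y) :
    ∃ t ∈ Vb ℓ c.rev, ∀ z ∈ S, f z = ip t z := by
  obtain ⟨g, hg⟩ := LinearMap.exists_extend (p := S)
    ((AddMonoidHom.mk' (fun z : S => f z) fun x y => hf x x.2 y y.2).toZModLinearMap p)
  refine ⟨pr ℓ c.rev *ᵥ fun α => g (Pi.single α.rev 1), pr_mulVec_mem _ _, fun z hz => ?_⟩
  have e0 : g z = f z := congrArg (fun φ => φ ⟨z, hz⟩) hg
  rw [ip_pr h (hS hz), ip, ← e0]
  have e : z = ∑ α : Ix n, z α.rev • (Pi.single α.rev 1 : Vec p n) := by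
    rw [sum_rev (fun α => z α • (Pi.single α 1 : Vec p n))]
    funext γ
    simp [Finset.sum_apply, Pi.single_apply]
  conv_lhs => rw [e, map_sum]
  exact Finset.sum_congr rfl fun α _ => by rw [map_smul, smul_eq_mul, mul_comm]

theorem perp_add {S : Sub p n} {x y z : Vec p n} (h : z ∈ perp (orb S x))
    (h' : z ∈ perp (orb S y)) : z ∈ perp (orb S (x + y)) :=
  mem_perp_orb.2 fun C hC => by
    rw [Matrix.mulVec_add, ip_add_left, mem_perp_orb.1 h C hC, mem_perp_orb.1 h' C hC, add_zero]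

theorem perp_sub {S : Sub p n} {x y z : Vec p n} (h : z ∈ perp (orb S x))
    (h' : z ∈ perp (orb S y)) : z ∈ perp (orb S (x - y)) :=
  mem_perp_orb.2 fun C hC => by
    rw [Matrix.mulVec_sub, ip_sub_left, mem_perp_orb.1 h C hC, mem_perp_orb.1 h' C hC, sub_zero]

end GL2x

open GL2x in
theorem c_GL2 (p n : ℕ) [Fact p.Prime] (hPLR : C_PLR p n) : C_GL2 p n := by
  intro ℓ B W W' a c G h hW hW' hd H
  have key : ∀ y, ∃ t ∈ Vb ℓ c.rev, y ∈ Vb ℓ a → y ∈ perp W → ∀ z ∈ Vb ℓ c, z ∈ perp W' →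
      z ∈ perp (orb (Com B) y) → G y z = ip t z := fun y => by
    by_cases hy : y ∈ Vb ℓ a ∧ y ∈ perp W
    swap
    · exact ⟨0, zero_mem _, fun e e' => (hy ⟨e, e'⟩).elim⟩
    obtain ⟨t, ht, e⟩ := repr h.lab (S := Vb ℓ c ⊓ (perp W' ⊓ perp (orb (Com B) y))) inf_le_left
      (f := G y) fun z hz z' hz' => (H y hy.1 hy.2 z hz.1 hz.2.1 hz.2.2).2 z' hz'.1 hz'.2.1 hz'.2.2
    exact ⟨t, ht, fun _ _ z h1 h2 h3 => e z ⟨h1, h2, h3⟩⟩
  choose t ht hG using key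
  obtain ⟨θ, hθ⟩ := hPLR ℓ B W W' 1 1 a c.rev t h hW hW' (by omega) ht
    fun x hx hp _ y hy hq _ => mem_of_ip h.lab h.alg ((hW'.1.sup (stab_orb x)).sup (stab_orb y))
      (sub_mem (sub_mem (ht _) (ht _)) (ht _)) fun z hz hzp => by
        obtain ⟨h1, h3⟩ := mem_perp_sup.1 hzp
        obtain ⟨h1, h2⟩ := mem_perp_sup.1 h1
        rw [ip_sub_left, ip_sub_left, ← hG x hx hp z hz h1 h2, ← hG y hy hq z hz h1 h3,
          ← hG _ (add_mem hx hy) (add_mem hp hq) z hz h1 (perp_add h2 h3),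
          (H x hx hp z hz h1 h2).1 y hy hq h3]
        ring
  have main : ∀ y ∈ Vb ℓ a, y ∈ perp W → y ∉ W' → ∀ z ∈ Vb ℓ c, z ∈ perp W' →
      z ∈ perp (orb (Com B) y) → G y z = ip (θ y) z := fun y hy hp hn z hz h1 h2 => by
    have := mem_perp.1 (mem_perp_sup.2 ⟨h1, h2⟩) _ (hθ y hy hp hn)
    rw [ip_sub_left, sub_eq_zero] at this
    rw [this, hG y hy hp z hz h1 h2]
  refine ⟨LinearMap.mk₂ (ZMod p) (fun y z => ip (θ y) z)
    (fun y y' z => by rw [map_add, ip_add_left]) (fun r y z => by rw [map_smul, ip_smul_left]; rfl)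
    (fun y z z' => ip_add_right _ _ _) (fun r y z => ip_smul_right _ _ _),
    fun y hy hp z hz h1 h2 => ?_⟩
  obtain ⟨v, hv, hvp, hvn⟩ := out h (hW.sup h.alg (small_orb h hz))
    (hW'.sup h.alg (small_orb h hy)) (b := a) (by omega)
  obtain ⟨h3, h4⟩ := mem_perp_sup.1 hvp
  have h5 := perp_orb_symm h.alg h4
  have e := (H v hv h3 z hz h1 h5).1 (y - v) (sub_mem hy hv) (sub_mem hp h3) (perp_sub h2 h5)
  rw [add_sub_cancel] at e
  rw [e, main v hv h3 (fun f => hvn (Submodule.mem_sup_left f)) z hz h1 h5,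
    main (y - v) (sub_mem hy hv) (sub_mem hp h3) (fun f => hvn (by
      simpa using sub_mem (Submodule.mem_sup_right (S := W') (self_mem_orb (B := B) y))
        (Submodule.mem_sup_left f))) z hz h1 (perp_sub h2 h5), LinearMap.mk₂_apply,
    ← ip_add_left, ← map_add, add_sub_cancel]

end Pool.Agent.P.MP_f1a348_lc.CE
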