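import Pool.Agent.P.MP_f1a348_lc.CE.GLB

/-!
Project CE: functions with a bilinear polar form are polynomials of degree two.
-/

namespace Pool.Agent.P.MP_f1a348_lc.CE

open Matrix Module Pool.Agent.P.MP_f1a348_lc.PG Pool.Agent.P.MP_f1a348_lc.UP

theorem c_QP2 (p n : ℕ) [Fact p.Prime] : C_QP p n := by
  intro θ C H
  have h2 : ∃ M, M + st M = C := by
    by_cases h : (2 : ZMod p) = 0
    · have hd : ∀ α, C α α.rev = 0 := fun α => by
        have e := H (Pi.single α.rev 1) (Pi.single α.rev 1)
        rw [← two_smul (ZMod p), h, zero_smul, H.zero, ← two_mul, h, zero_mul, zero_add,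
          ip_single_right, Fin.rev_rev] at e
        simpa using e.symm
      refine ⟨Matrix.of fun α β => if α < β.rev then C α β else 0, ?_⟩
      ext α β
      have e : C β.rev α.rev = C α β := congrFun (congrFun H.st_eq α) β
      simp only [Matrix.add_apply, st_apply, Matrix.of_apply, Fin.rev_rev, e]
      rcases lt_trichotomy α β.rev with f | f | f
      · rw [if_pos f, if_neg f.le.not_gt, add_zero]
      · rw [if_neg f.not_lt, if_neg f.not_gt, add_zero, ← hd α, f, Fin.rev_rev]
      · rw [if_neg f.le.not_gt, if_pos f, zero_add]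
    · exact ⟨(2 : ZMod p)⁻¹ • C, by
        rw [st_smul, H.st_eq, ← add_smul, ← two_mul, mul_inv_cancel₀ h, one_smul]⟩
  obtain ⟨M, rfl⟩ := h2
  have e := H.sub (pol_com M)
  obtain ⟨v, hv⟩ := Glu.exists_ip ((AddMonoidHom.mk' (θ - fun x => ip (M *ᵥ x) x) fun x y => by
    simpa using e x y).toZModLinearMap p)
  exact ⟨M, v, fun x => by rw [← hv x]; exact (add_sub_cancel _ _).symm⟩

end Pool.Agent.P.MP_f1a348_lc.CE
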