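import Pool.Agent.P.MP_f1a348_lc.CE.Base2

/-!
Project CE: cocycles with values in additive functions on generic tuples are coboundaries.
-/

namespace Pool.Agent.P.MP_f1a348_lc.CE

open Matrix Module Pool.Agent.P.MP_f1a348_lc.PG Pool.Agent.P.MP_f1a348_lc.UP Function

namespace TSHAP

variable {p n : ℕ} [Fact p.Prime] {ℓ : Ix n → ℕ} {B : Sub p n} {Q : QS p n} {U : VS p n}
  {a : ℕ → Ix n} {i j k : ℕ} {L : Set (Mat p n)} {c : Mat p n → Tup p n → ZMod p}

omit [Fact p.Prime] in
theorem nt_update (hn : ∀ i < k, ¬ Triv ℓ B (a i)) (hi : i < k) :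
    ∀ l < k + 1, ¬ Triv ℓ B (update a k (a i) l) := fun l hl => by
  by_cases e : l = k
  · rw [e, update_self]; exact hn i hi
  · rw [update_of_ne e]; exact hn l (by omega)

theorem out_upd (h : Str ℓ B) (hU : Stab B U) {z : Tup p n} {v : Vec p n} {b : Ix n} (hj : j < k)
    (hb : z k ∈ Vb ℓ b) (hz : z k ∉ U ⊔ spn B k z) (hv : v - z k ∈ orb (Com B) (z j))
    (H : ∀ i, j + 1 ≤ i → i < k → z i ∉ U ⊔ spn B k (update z i 0)) :
    ∀ i, j ≤ i → i < k → update z j v i ∉ U ⊔ spn B k (update (update z j v) i 0) := by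
  intro i hji hi e
  rcases hji.eq_or_lt with rfl | hlt
  · rw [update_self, update_idem] at e
    have := sub_mem (sup_le_sup_left oth_le_spn U e) (Submodule.mem_sup_right (orb_le_spn hj hv))
    exact hz (by simpa using this)
  · rw [update_of_ne hlt.ne'] at e
    have h1 : spn B k (update (update z j v) i 0) ≤ spn B k (update z i 0) ⊔ orb (Com B) (z k) := by
      refine oth_le (stab_spn.sup (stab_orb _)) fun l hl hli => ?_
      by_cases e' : l = j
      · rw [e', update_self, ← sub_add_cancel v (z k)]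
        exact Submodule.add_mem_sup (stab_spn.orb_le (mem_oth hj hlt.ne) hv) (self_mem_orb _)
      · rw [update_of_ne e']; exact Submodule.mem_sup_left (mem_oth hl hli)
    have h2 := exchange h (hU.sup stab_spn) hb
      (by rw [sup_assoc]; exact sup_le_sup_left h1 U e) (H i hlt hi)
    rw [sup_assoc] at h2
    exact hz (sup_le_sup_left (sup_le oth_le_spn (orb_le_spn hi)) U h2)

/-- the standing hypotheses -/
structure Hy (ℓ : Ix n → ℕ) (B : Sub p n) (Q : QS p n) (L : Set (Mat p n)) (k : ℕ) (a : ℕ → Ix n)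
    (c : Mat p n → Tup p n → ZMod p) : Prop where
  G : Geo ℓ B Q
  big : Big ℓ B 200
  btw : Btw B Q L
  k1 : 1 ≤ k
  k3 : k ≤ 3
  nt : ∀ i < k, ¬ Triv ℓ B (a i)
  ma : ∀ g ∈ L, MA ℓ B Q ⊥ k a (c g)
  coc : ∀ g ∈ L, ∀ h ∈ L, ∀ x, GenW ℓ B Q ⊥ k a x → c (g * h) x = c g (act h x) + c h x

theorem trans (hT : C_TRANS p n) (G : Geo ℓ B Q) (big : Big ℓ B 200) (hU : Small ℓ B 10 U)
    (hk : k ≤ 4) (nt : ∀ i < k, ¬ Triv ℓ B (a i)) {x y : Tup p n} (hx : GenW ℓ B Q U k a x)
    (hy : GenW ℓ B Q U k a y) : ∃ e ∈ EW ℓ B Q U, ∀ i < k, e *ᵥ x i = y i :=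
  (hT ℓ B Q U k a G hU.1 (fun i hi => ⟨nt i hi,
    rm_of_small G.str hU (le_trans (by omega) (big _ (nt i hi)))⟩) x y).2 hx hy

theorem gex (hG : C_GEX p n) (G : Geo ℓ B Q) (big : Big ℓ B 200) (hU : Small ℓ B 10 U)
    (hk : k ≤ 5) (nt : ∀ i < k, ¬ Triv ℓ B (a i)) : ∃ x, GenW ℓ B Q U k a x :=
  (hG ℓ B Q U U 10 10 k G hU hU).2.1 a fun i hi => ⟨nt i hi, le_trans (by omega) (big _ (nt i hi))⟩

theorem Hy.ew (H : Hy ℓ B Q L k a c) {e : Mat p n} (he : e ∈ EW ℓ B Q U) : e ∈ L :=
  H.btw.eu e (ew_le_eu H.G he)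

theorem Hy.fix (H : Hy ℓ B Q L k a c) {g h : Mat p n} (hg : g ∈ L) (hh : h ∈ L) {x y : Tup p n}
    (hx : GenW ℓ B Q ⊥ k a x) (e : ∀ i < k, h *ᵥ x i = y i) : c (g * h) x = c g y + c h x := by
  rw [H.coc g hg h hh x hx, (H.ma g hg).loc (act h x) y e]

theorem Hy.small (H : Hy ℓ B Q L k a c) (h0 : C_SHA0 p n) (hT : C_TRANS p n) {h : Mat p n}
    (hh : h ∈ L) (hs : Small ℓ B 10 (im (h - 1))) {x : Tup p n} (hx : GenW ℓ B Q ⊥ k a x)
    (e : ∀ i < k, h *ᵥ x i = x i) : c h x = 0 := by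
  have hu := H.btw.uq h hh
  refine h0 ℓ B Q _ k a (c h) H.G H.big hs H.k1 H.k3 H.nt (H.ma h hh) (fun x y hx hy => ?_) x hx
    fun i hi => le_perp_symm ((fx_spn hu.mem e).im_le hu.un) (mem_spn hi)
  obtain ⟨e, he, e1⟩ := trans hT H.G H.big hs (H.k3.trans (by omega)) H.nt hx hy
  have h1 := H.fix (H.ew he) hh (hx.anti bot_le) fun i hi => fx_perp_im hu.un _ (hx.prp i hi)
  have h2 := H.fix hh (H.ew he) (hx.anti bot_le) e1
  rw [(os_of_fx' (ew_uq H.G he).un hu.un (ew_fx H.G.str.alg hs.1 he)).comm, h2] at h1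
  linear_combination -h1

theorem Hy.stab (H : Hy ℓ B Q L k a c) (h0 : C_SHA0 p n) (hT : C_TRANS p n) (hR : C_GENR p n)
    {g : Mat p n} (hg : g ∈ L) {x : Tup p n} (hx : GenW ℓ B Q ⊥ k a x)
    (e : ∀ i < k, g *ᵥ x i = x i) : c g x = 0 := by
  have hu := H.btw.uq g hg
  have fx : ∀ z ∈ EW ℓ B Q (spn B k x), ∀ i < k, z *ᵥ x i = x i := fun z hz i hi =>
    ew_fx H.G.str.alg stab_spn hz _ (mem_spn hi)
  have h1 : ∀ z ∈ EW ℓ B Q (spn B k x), c z x = 0 := fun z hz => by
    refine ew_ind (P := fun z => c z x = 0) ?_ (fun N u v z hN hu hv hz ih => ?_) hz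
    · have := H.fix H.btw.grp.one H.btw.grp.one hx fun i _ => Matrix.one_mulVec (x i)
      rw [mul_one] at this
      exact left_eq_add.1 this
    · have m := hN.ew hu hv
      rw [H.fix (H.ew m) (H.ew hz) hx (fx z hz), ih, add_zero]
      exact H.small h0 hT (H.ew m) ((hN.small H.G).mono (by omega)) hx (fx _ m)
  obtain ⟨W, -, -, -, h2⟩ := hR ℓ B Q (spn B k x) 3 H.G ((hx.toInd.small H.G.str).mono H.k3)
    fun b hb => le_trans (by omega) (H.big b hb)
  obtain ⟨z, hz, -, h3⟩ := h2 g hu (fx_spn hu.mem e)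
  have h4 := H.small h0 hT (H.btw.grp.mul _ (H.ew hz) _ hg) h3 hx fun i hi => by
    rw [← Matrix.mulVec_mulVec, e i hi, fx z hz i hi]
  rwa [H.fix (H.ew hz) hg hx e, h1 z hz, zero_add] at h4

theorem Hy.prim (H : Hy ℓ B Q L k a c) (h0 : C_SHA0 p n) (hT : C_TRANS p n) (hR : C_GENR p n)
    (hG : C_GEX p n) : ∃ θ : Tup p n → ZMod p, (∀ x y, (∀ i < k, x i = y i) → θ x = θ y) ∧
      ∀ g ∈ L, ∀ x, GenW ℓ B Q ⊥ k a x → θ (act g x) = c g x + θ x := by
  have hb : Small ℓ B 10 ⊥ := small_bot.mono (by omega)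
  obtain ⟨x0, hx0⟩ := gex hG H.G H.big hb (H.k3.trans (by omega)) H.nt
  let P : Tup p n → Mat p n → Prop := fun x g => g ∈ L ∧ ∀ i < k, g *ᵥ x0 i = x i
  have h1 : ∀ x g, P x g → c (Classical.epsilon (P x)) x0 = c g x0 := by
    intro x g hg
    obtain ⟨m, e⟩ := Classical.epsilon_spec ⟨g, hg⟩
    generalize Classical.epsilon (P x) = g' at m e
    have hu := H.btw.grp.un _ m
    have m' := H.btw.grp.mul _ (H.btw.grp.star _ m) _ hg.1
    have e' : ∀ i < k, (st g' * g) *ᵥ x0 i = x0 i := fun i hi => by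
      rw [← Matrix.mulVec_mulVec, hg.2 i hi, ← e i hi, hu.st_mulVec]
    have := H.fix m m' hx0 e'
    rw [← mul_assoc, hu.mul_st, one_mul, H.stab h0 hT hR m' hx0 e', add_zero] at this
    exact this.symm
  refine ⟨fun x => c (Classical.epsilon (P x)) x0, fun x y e => ?_, fun g hg x hx => ?_⟩
  · have : P x = P y := funext fun g => propext (and_congr_right fun _ =>
      forall₂_congr fun i hi => by rw [e i hi])
    simp only [this]
  · obtain ⟨e, he, e1⟩ := trans hT H.G H.big hb (H.k3.trans (by omega)) H.nt hx0 hx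
    have m := H.ew he
    simp only
    rw [h1 x e ⟨m, e1⟩, h1 (act g x) (g * e) ⟨H.btw.grp.mul _ hg _ m, fun i hi => by
      rw [← Matrix.mulVec_mulVec, e1 i hi]; rfl⟩, H.fix hg m hx0 e1]

theorem Hy.const (H : Hy ℓ B Q L k a c) (hT : C_TRANS p n) {θ : Tup p n → ZMod p}
    (hl : ∀ x y, (∀ i < k, x i = y i) → θ x = θ y)
    (he : ∀ g ∈ L, ∀ x, GenW ℓ B Q ⊥ k a x → θ (act g x) = c g x + θ x) (hi : i < k)
    {z z' : Tup p n} (hz : GenW ℓ B Q ⊥ (k + 1) (update a k (a i)) z)
    (hz' : GenW ℓ B Q ⊥ (k + 1) (update a k (a i)) z') : dfc θ k i z' = dfc θ k i z := by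
  obtain ⟨e, me, e1⟩ := trans hT H.G H.big (small_bot.mono (by omega)) (Nat.succ_le_succ H.k3)
    (nt_update H.nt hi) hz hz'
  have m := H.ew me
  obtain ⟨g1, g2, g3⟩ := hz.three H.G stab_bot hi
  have h1 : ∀ v, θ (update z' i (e *ᵥ v)) = θ (act e (update z i v)) := fun v => hl _ _ fun l _ => by
    rw [act_update]
    by_cases e' : l = i
    · rw [e', update_self, update_self]
    · rw [update_of_ne e', update_of_ne e', ← e1 l (by omega)]; rfl
  rw [dfc, dfc, ← e1 i (by omega), ← e1 k (by omega), ← Matrix.mulVec_add, h1, h1,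
    hl z' (act e z) fun l hl => (e1 l (by omega)).symm, he e m _ g1, he e m _ g2, he e m _ g3,
    (H.ma e m).add i hi z hz]
  ring

theorem three (G : Geo ℓ B Q) {θ : Tup p n → ZMod p} {κ : ZMod p} (hj : j < k)
    (hij : i ≠ j) (hκ : ∀ z, GenW ℓ B Q ⊥ (k + 1) (update a k (a i)) z → dfc θ k i z = κ)
    {w : Tup p n} (hw : GenW ℓ B Q ⊥ (k + 2) (update (update a k (a i)) (k + 1) (a j)) w) :
    ∀ v ∈ [w j, w (k + 1), w j + w (k + 1)], θ (update (update w j v) i (w i + w k)) =
      θ (update (update w j v) i (w i)) + θ (update (update w j v) i (w k)) + κ := by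
  have h := GenW.three (k := k + 1) (a := update a k (a i)) (i := j) (x := w) G stab_bot (by omega)
    (by rwa [update_of_ne hj.ne])
  have key : ∀ v, GenW ℓ B Q ⊥ (k + 1) (update a k (a i)) (update w j v) →
      θ (update (update w j v) i (w i + w k)) =
        θ (update (update w j v) i (w i)) + θ (update (update w j v) i (w k)) + κ := fun v hv => by
    have e : update (update w j v) i (w i) = update w j v := by
      rw [← update_of_ne hij v w, update_eq_self]
    rw [← hκ _ hv, dfc, update_of_ne hij, update_of_ne hj.ne', e]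
    ring
  simp only [List.forall_mem_cons, List.not_mem_nil, false_imp_iff, implies_true, and_true]
  exact ⟨key _ (by simpa using h.1), key _ h.2.1, key _ h.2.2⟩

theorem Hy.same (H : Hy ℓ B Q L k a c) (hG : C_GEX p n) {θ : Tup p n → ZMod p} {κ κ' : ZMod p}
    (hl : ∀ x y, (∀ i < k, x i = y i) → θ x = θ y) (hi : i < k) (hj : j < k) (hij : i ≠ j)
    (hκ : ∀ z, GenW ℓ B Q ⊥ (k + 1) (update a k (a i)) z → dfc θ k i z = κ)
    (hκ' : ∀ z, GenW ℓ B Q ⊥ (k + 1) (update a k (a j)) z → dfc θ k j z = κ') : κ = κ' := by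
  obtain ⟨w, hw⟩ := gex (k := k + 2) (a := update (update a k (a i)) (k + 1) (a j)) hG H.G H.big
    (small_bot.mono (by omega)) (by have := H.k3; omega) (by
      have := nt_update (nt_update H.nt hi) (show j < k + 1 by omega)
      rwa [update_of_ne hj.ne] at this)
  let σ : ℕ → ℕ := fun l => if l = k then k + 1 else if l = k + 1 then k else l
  have s1 : ∀ l < k, σ l = l := fun l hl => by simp only [σ]; rw [if_neg hl.ne, if_neg (by omega)]
  have s2 : σ k = k + 1 := if_pos rfl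
  have s3 : σ (k + 1) = k := by simp [σ]
  have hw' : GenW ℓ B Q ⊥ (k + 2) (update (update a k (a j)) (k + 1) (a i)) fun l => w (σ l) := by
    refine (hw.comp H.G.str stab_bot σ (j := k + 2) (fun l hl => ?_) fun l hl m hm => ?_).congr
      (fun l hl => ?_) fun _ _ => rfl
    · simp only [σ]; split_ifs <;> omega
    · simp only [σ]; split_ifs <;> omega
    · rcases (by omega : l < k ∨ l = k ∨ l = k + 1) with e | rfl | rfl
      · rw [s1 l e]; simp only [update_of_ne e.ne, update_of_ne (show l ≠ k + 1 by omega)]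
      · rw [s2]; simp
      · rw [s3]; simp
  have h1 := three H.G hj hij hκ hw
  have h2 := three H.G hi hij.symm hκ' hw'
  have h3 : ∀ u v, θ (update (update (fun l => w (σ l)) i u) j v) = θ (update (update w j v) i u) :=
    fun u v => hl _ _ fun l hl => by
      rw [update_comm hij]
      by_cases e : l = i
      · rw [e, update_self, update_self]
      · rw [update_of_ne e, update_of_ne e]
        by_cases e' : l = j
        · rw [e', update_self, update_self]
        · rw [update_of_ne e', update_of_ne e', s1 l hl]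
  simp only [List.forall_mem_cons, h3, s1 i hi, s1 j hj, s2, s3] at h1 h2
  linear_combination h1.2.2.1 - h1.1 - h1.2.1 - h2.2.2.1 + h2.1 + h2.2.1

end TSHAP

open TSHAP

theorem c_SHA0 (p n : Nat) [Fact p.Prime] (hGEX : C_GEX p n) : C_SHA0 p n := by
  intro ℓ B Q U k a f G big hU k1 k3 nt ma hc
  have h0 : ∀ x, GenW ℓ B Q U k a x → f x = 0 := fun x hx => by
    obtain ⟨y, hy⟩ := gex hGEX G big hU (by omega) (nt_update nt k1)
    obtain ⟨g1, g2, g3⟩ := hy.three G hU.1 k1
    have := ma.add 0 k1 y (hy.anti bot_le)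
    rw [hc _ x g1 hx, hc _ x g2 hx, hc _ x g3 hx] at this
    exact left_eq_add.1 this
  have key : ∀ j ≤ k, ∀ x, GenW ℓ B Q ⊥ k a x → (∀ i < k, x i ∈ perp U) →
      (∀ i, j ≤ i → i < k → x i ∉ U ⊔ spn B k (update x i 0)) → f x = 0 := by
    intro j
    induction j with
    | zero =>
      exact fun _ x hx h1 h2 => h0 x ⟨ind_of_oth G.str hU.1 fun i hi =>
        ⟨hx.mem i hi, h2 i i.zero_le hi⟩, hx.sing, h1, hx.orth⟩
    | succ j ih =>
      intro hj x hx h1 h2
      obtain ⟨t, g, t1, t2⟩ := (hGEX ℓ B Q ⊥ U 0 10 k G small_bot hU).1 a x (a j) hx (nt j hj)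
        (le_trans (by omega) (big _ (nt j hj)))
      have e : ∀ i < k, update x k t i = x i := fun i hi => update_of_ne hi.ne _ _
      have ek : update x k t k = t := update_self ..
      replace t2 : update x k t k ∉ U ⊔ spn B k (update x k t) := by
        rwa [ek, spn_congr e, sup_comm, ← bot_sup_eq (spn B k x)]
      rw [← ek] at t1
      have h1' : ∀ i < k, update x k t i ∈ perp U := fun i hi => (e i hi).symm ▸ h1 i hi
      have h2' : ∀ i, j + 1 ≤ i → i < k →
          update x k t i ∉ U ⊔ spn B k (update (update x k t) i 0) := fun i a hi => by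
        rw [e i hi, update_comm hi.ne', spn_update_ge le_rfl]; exact h2 i a hi
      rw [← ma.loc _ _ e]
      generalize update x k t = z at g t1 t2 h1' h2'
      obtain ⟨-, g2, g3⟩ := g.three G stab_bot hj
      have z0 : ∀ v, GenW ℓ B Q ⊥ k a (update z j v) → v ∈ perp U → v - z k ∈ orb (Com B) (z j) →
          f (update z j v) = 0 := fun v hv p1 p2 => by
        refine ih (by omega) _ hv (fun i hi => ?_)
          (out_upd G.str hU.1 hj (g.mem k k.lt_succ_self) t2 p2 h2')
        by_cases e : i = j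
        · rw [e, update_self]; exact p1
        · rw [update_of_ne e]; exact h1' i hi
      have := ma.add j hj z g
      rw [z0 _ g2 t1 (by simp), z0 _ g3 (add_mem (h1' j hj) t1) (by simpa using self_mem_orb _),
        add_zero] at this
      exact this.symm
  exact fun x hx h1 => key k le_rfl x hx h1 fun i a b => absurd b (not_lt.2 a)

theorem c_SHAP (p n : Nat) [Fact p.Prime] (hSHA0 : C_SHA0 p n) (hTRANS : C_TRANS p n)
    (hGENR : C_GENR p n) (hGEX : C_GEX p n) : C_SHAP p n := by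
  intro ℓ B Q L k a c G big btw k1 k3 nt ma coc
  have H : Hy ℓ B Q L k a c := ⟨G, big, btw, k1, k3, nt, ma, coc⟩
  obtain ⟨θ, hl, he⟩ := H.prim hSHA0 hTRANS hGENR hGEX
  obtain ⟨z0, hz0⟩ := gex hGEX G big (small_bot.mono (by omega)) (by omega) (nt_update nt k1)
  refine ⟨fun x => θ x + dfc θ k 0 z0, ⟨fun x y e => by rw [hl x y e], fun i hi z hz => ?_⟩,
    fun g hg x hx => by simp only [he g hg x hx]; ring⟩
  have : dfc θ k i z = dfc θ k 0 z0 := by
    by_cases e : i = 0
    · subst e; exact H.const hTRANS hl he hi hz0 hz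
    · exact H.same hGEX hl hi k1 e (fun _ h => H.const hTRANS hl he hi hz h)
        fun _ h => H.const hTRANS hl he k1 hz0 h
  rw [← this, dfc]
  ring

end Pool.Agent.P.MP_f1a348_lc.CE
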