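import Pool.Agent.P.MP_f1a348_lc.CE.Base2

/-!
Project CE: singular vectors with prescribed products, and sums of singular vectors.
-/

namespace Pool.Agent.P.MP_f1a348_lc.CE

open Matrix Module Pool.Agent.P.MP_f1a348_lc.PG Pool.Agent.P.MP_f1a348_lc.UP

namespace TSOLV

variable {p n : ℕ} [Fact p.Prime] {ℓ : Ix n → ℕ} {B : Sub p n} {Q : QS p n} {W R : VS p n}
  {a b : Ix n} {v y : Vec p n} {r : ℕ}

theorem ex_ip (h : Str ℓ B) (hW : Stab B W) (hv : v ∈ Vb ℓ b.rev) (hn : v ∉ W) :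
    ∃ z ∈ Vb ℓ b, z ∈ perp W ∧ ip v z ≠ 0 := by
  by_contra! hc
  exact hn (mem_of_ip h.lab h.alg hW hv hc)

/-- a singular vector that is orthogonal to `W` and not to `v` -/
theorem ex_s0 (hCW : C_CW p n) (hHYP : C_HYP p n) (G : Geo ℓ B Q) (hW : Stab B W)
    (hb : ¬ Triv ℓ B b) (hr : Rm ℓ B W b 5) (hv : v ∈ Vb ℓ a) (hn : v ∉ W)
    (hc : Cb ℓ B b.rev a ≠ ⊥) : ∃ s, SV ℓ Q W b s ∧ s ∉ perp (orb (Com B) v) := by
  have h := G.str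
  have hW2 : Stab B (W ⊔ orb (Com B) v) := hW.sup (stab_orb v)
  obtain ⟨q, hq, hqn⟩ := hCW ℓ B Q (W ⊔ orb (Com B) v) ⊥ 0 b.rev G hW2 small_bot
    (fun t => hb ((triv_rev h).1 t)) ((Rm.sup_orb h hW hv hr).rev h hW2)
  rw [sup_bot_eq] at hqn
  obtain ⟨J, hJ, hJ0⟩ := exists_cb_ne hc
  have hv0 : v ≠ 0 := fun e => hn (e ▸ zero_mem _)
  have hJv : J *ᵥ v ∉ W := fun e =>
    hn (mem_of_mulVec_mem h hW hv hJ.1 (fun e0 => hJ0 (cb_inj h hJ hv hv0 e0)) e)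
  obtain ⟨z1, m1, p1, n1⟩ := ex_ip h hW (cb_mulVec_mem hJ v) hJv
  obtain ⟨z2, m2, p2, n2⟩ := ex_ip h hW2 hq.mem hqn
  have n1' : z1 ∉ perp (orb (Com B) v) := fun e => n1 (mem_perp_orb.1 e J hJ.1)
  have n2' : z2 ∉ perp (orb (Com B) q) := fun e => n2 (e q (self_mem_orb q))
  obtain ⟨z, mz, pz, nv, nq⟩ : ∃ z ∈ Vb ℓ b, z ∈ perp W ∧ z ∉ perp (orb (Com B) v) ∧
      z ∉ perp (orb (Com B) q) := by
    by_cases e : z1 ∈ perp (orb (Com B) q)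
    · refine ⟨z1 + z2, add_mem m1 m2, add_mem p1 (mem_perp_sup.1 p2).1, fun e' => n1' ?_,
        fun e' => n2' ?_⟩
      · simpa using sub_mem e' (mem_perp_sup.1 p2).2
      · simpa using sub_mem e' e
    · exact ⟨z1, m1, p1, n1', e⟩
  obtain ⟨C, hC, hs⟩ := (hHYP ℓ B Q G).2.2.2 b b.rev hb z mz q hq.mem hq.sing
    fun e => nq (perp_orb_symm h.alg e)
  have hCq := mem_perp_sup.1 (hW2.perp h.alg C hC.1 q hq.prp)
  refine ⟨z - C *ᵥ q, ⟨sub_mem mz (cb_mulVec_mem hC q), hs, sub_mem pz hCq.1⟩, fun e => nv ?_⟩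
  simpa using add_mem e hCq.2

theorem sp1 (hHYP : C_HYP p n) (hSOLV : C_SOLV p n) (G : Geo ℓ B Q) (hW : Stab B W)
    (hR : Small ℓ B r R) (hb : ¬ Triv ℓ B b) (hr : Rm ℓ B W b (r + 7)) (hy : y ∈ Vb ℓ b)
    (hp : y ∈ perp W) (hn : y ∉ W) :
    ∃ s, SV ℓ Q W b s ∧ SV ℓ Q W b (y - s) ∧ s ∉ W ⊔ R ∧ y - s ∉ W ⊔ R := by
  obtain ⟨μ, hμ⟩ := (hHYP ℓ B Q G).2.1 b hb y hy
  obtain ⟨s, hs, hsn, e⟩ := hSOLV ℓ B Q W R r b b y μ G hW hR hb hr hy hn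
  have hle : W ⊔ R ≤ W ⊔ orb (Com B) y ⊔ R := sup_le_sup_right le_sup_left R
  refine ⟨s, hs, ⟨sub_mem hy hs.mem, fun θ hθ => ?_, sub_mem hp hs.prp⟩, fun c => hsn (hle c),
    fun c => hsn ?_⟩
  · obtain ⟨P, hP, hpol⟩ := G.adm.pol θ hθ
    have e1 := e _ (cb_of_com G.str.alg hP b.rev b)
    rw [hμ θ hθ P hpol, cb_comp _ hy, ip_pr G.str.lab hs.mem] at e1
    rw [sub_eq_add_neg, hpol, hs.sing.neg G.adm θ hθ, ip_neg_right, e1]
    ring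
  · have c1 : y ∈ W ⊔ orb (Com B) y ⊔ R :=
      Submodule.mem_sup_left (Submodule.mem_sup_right (self_mem_orb y))
    simpa using sub_mem c1 (hle c)

end TSOLV

open TSOLV

theorem c_SOLV (p n : Nat) [Fact p.Prime] (hCW : C_CW p n) (hHYP : C_HYP p n) : C_SOLV p n := by
  intro ℓ B Q W R r a b v μ G hW hR hb hr hv hn
  have h := G.str
  by_cases hc : Cb ℓ B b.rev a = ⊥
  · obtain ⟨s, hs, hsn⟩ := hCW ℓ B Q W (orb (Com B) v ⊔ R) (1 + r) b G hW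
      ((small_orb h hv).sup h.alg hR) hb (hr.mono (by omega))
    refine ⟨s, hs, by rwa [sup_assoc], fun C hC => ?_⟩
    rw [hc, Submodule.mem_bot] at hC
    rw [hC, Matrix.zero_mulVec, ip_zero_left, map_zero]
  obtain ⟨s0, h0, n0⟩ := ex_s0 hCW hHYP G hW hb (hr.mono (by omega)) hv hn hc
  obtain ⟨C1, hC1, e1⟩ := (hHYP ℓ B Q G).2.2.1 a b v hv s0 h0.mem n0 b μ
  have hW2 : Stab B (W ⊔ orb (Com B) v) := hW.sup (stab_orb v)
  obtain ⟨t, ht, htn⟩ := hCW ℓ B Q (W ⊔ orb (Com B) v ⊔ orb (Com B) s0) R r b G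
    (hW2.sup (stab_orb s0)) hR hb (Rm.sup_orb h hW2 h0.mem (Rm.sup_orb h hW hv hr))
  obtain ⟨t1, t2⟩ := mem_perp_sup.1 ht.prp
  obtain ⟨t3, t4⟩ := mem_perp_sup.1 t1
  have hm : C1 *ᵥ s0 ∈ orb (Com B) s0 := mem_orb_com hC1.1 s0
  refine ⟨C1 *ᵥ s0 + t, ⟨add_mem (cb_mulVec_mem hC1 s0) ht.mem,
    (h0.sing.com G.adm hC1.1).add G.adm ht.sing (perp_anti ((stab_orb s0).orb_le hm) t2),
    add_mem (hW.perp h.alg C1 hC1.1 s0 h0.prp) t3⟩, fun c => htn ?_, fun C hC => ?_⟩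
  · have c1 : C1 *ᵥ s0 ∈ W ⊔ orb (Com B) v ⊔ orb (Com B) s0 ⊔ R :=
      Submodule.mem_sup_left (Submodule.mem_sup_right hm)
    have c2 : C1 *ᵥ s0 + t ∈ W ⊔ orb (Com B) v ⊔ orb (Com B) s0 ⊔ R :=
      (sup_le_sup_right le_sup_left R :
        W ⊔ orb (Com B) v ⊔ R ≤ W ⊔ orb (Com B) v ⊔ orb (Com B) s0 ⊔ R) c
    simpa using sub_mem c2 c1
  · rw [ip_add_right, e1 C hC, mem_perp_orb.1 t4 C hC.1, add_zero]

theorem c_SP (p n : Nat) [Fact p.Prime] (hCW : C_CW p n) (hHYP : C_HYP p n)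
    (hSOLV : C_SOLV p n) : C_SP p n := by
  intro ℓ B Q W R r b y G hW hR hb hr hy hp
  have h := G.str
  have h2 : ∃ s t u, y = s + t + u ∧ ∀ v ∈ [s, t, u], SV ℓ Q W b v ∧ v ∉ W ⊔ R := by
    by_cases hn : y ∈ W
    · obtain ⟨u, hu, hun⟩ := hCW ℓ B Q W R r b G hW hR hb (hr.mono (by omega))
      obtain ⟨s, a1, a2, a3, a4⟩ := sp1 hHYP hSOLV G hW hR hb hr (sub_mem hy hu.mem)
        (sub_mem hp hu.prp) fun c => hun (Submodule.mem_sup_left (by simpa using sub_mem hn c))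
      refine ⟨s, y - u - s, u, by abel, fun v hv => ?_⟩
      simp only [List.mem_cons, List.not_mem_nil, or_false] at hv
      rcases hv with rfl | rfl | rfl
      exacts [⟨a1, a3⟩, ⟨a2, a4⟩, ⟨hu, hun⟩]
    · obtain ⟨s, a1, a2, a3, a4⟩ := sp1 hHYP hSOLV G hW hR hb hr hy hp hn
      obtain ⟨t, ht, htn⟩ := hCW ℓ B Q (W ⊔ orb (Com B) s) R r b G (hW.sup (stab_orb s)) hR hb
        (Rm.sup_orb h hW a1.mem (hr.mono (by omega)))
      obtain ⟨t1, t2⟩ := mem_perp_sup.1 ht.prp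
      have hle : W ⊔ R ≤ W ⊔ orb (Com B) s ⊔ R := sup_le_sup_right le_sup_left R
      refine ⟨t, s - t, y - s, by abel, fun v hv => ?_⟩
      simp only [List.mem_cons, List.not_mem_nil, or_false] at hv
      rcases hv with rfl | rfl | rfl
      · exact ⟨ht.anti le_sup_left, fun c => htn (hle c)⟩
      · refine ⟨⟨sub_mem a1.mem ht.mem, a1.sing.sub G.adm ht.sing t2, sub_mem a1.prp t1⟩,
          fun c => htn ?_⟩
        have c1 : s ∈ W ⊔ orb (Com B) s ⊔ R :=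
          Submodule.mem_sup_left (Submodule.mem_sup_right (self_mem_orb s))
        simpa using sub_mem c1 (hle c)
      · exact ⟨a2, a4⟩
  refine ⟨sp1 hHYP hSOLV G hW hR hb hr hy hp, h2, fun X _ f hf h0 => ?_⟩
  obtain ⟨s, t, u, rfl, hv⟩ := h2
  obtain ⟨s1, s2⟩ := hv s (by simp)
  obtain ⟨t1, t2⟩ := hv t (by simp)
  obtain ⟨u1, u2⟩ := hv u (by simp)
  rw [hf _ (add_mem s1.mem t1.mem) (add_mem s1.prp t1.prp) u u1.mem u1.prp,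
    hf s s1.mem s1.prp t t1.mem t1.prp, h0 s s1 s2, h0 t t1 t2, h0 u u1 u2, add_zero, add_zero]

end Pool.Agent.P.MP_f1a348_lc.CE
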