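import Pool.Agent.P.MP_f1a348_lc.CE.Iface

/-!
Project CE: symmetric cocycles of exponent `p` split.
-/

namespace Pool.Agent.P.MP_f1a348_lc.CE

namespace TSPL

variable {V E : Type} [AddCommGroup V] [AddCommGroup E]

/-- the extension given by the cocycle -/
structure Xt (C : V → V → E) where
  a : V
  b : E

instance (C : V → V → E) : Add (Xt C) := ⟨fun x y => ⟨x.a + y.a, x.b + y.b + C x.a y.a⟩⟩
instance (C : V → V → E) : Zero (Xt C) := ⟨⟨0, -C 0 0⟩⟩
instance (C : V → V → E) : Neg (Xt C) := ⟨fun x => ⟨-x.a, -x.b - C 0 0 - C (-x.a) x.a⟩⟩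

omit [AddCommGroup V] [AddCommGroup E] in
theorem ext' {C : V → V → E} {x y : Xt C} (h1 : x.a = y.a) (h2 : x.b = y.b) : x = y := by
  cases x; cases y; simp_all

theorem add_a {C : V → V → E} (x y : Xt C) : (x + y).a = x.a + y.a := rfl
theorem add_b {C : V → V → E} (x y : Xt C) : (x + y).b = x.b + y.b + C x.a y.a := rfl

/-- the group structure -/
abbrev grp {C : V → V → E} (h1 : ∀ u v, C u v = C v u)
    (h2 : ∀ u v w, C u v + C (u + v) w = C v w + C u (v + w)) : AddCommGroup (Xt C) :=
  { AddGroup.ofLeftAxioms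
      (fun x y z => ext' (add_assoc _ _ _) (by
        simp only [add_a, add_b]
        linear_combination (norm := abel) h2 x.a y.a z.a))
      (fun x => ext' (zero_add _) (by
        have := h2 0 0 x.a
        rw [zero_add, zero_add] at this
        show -C 0 0 + x.b + C 0 x.a = x.b
        linear_combination (norm := abel) -this))
      (fun x => ext' (neg_add_cancel _) (by
        show -x.b - C 0 0 - C (-x.a) x.a + x.b + C (-x.a) x.a = -C 0 0
        abel)) with
    add_comm := fun x y => ext' (add_comm _ _) (by rw [add_b, add_b, h1, add_comm x.b]) }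

theorem sec {p : ℕ} [Fact p.Prime] [Module (ZMod p) V] {X : Type} [AddCommGroup X]
    (h : ∀ x : X, p • x = 0) (π : X →+ V) (hπ : ∀ u, ∃ x, π x = u) :
    ∃ s : V → X, (∀ u, π (s u) = u) ∧ ∀ u v, s (u + v) = s u + s v := by
  let _ : Module (ZMod p) X := AddCommGroup.zmodModule h
  obtain ⟨s, hs⟩ := LinearMap.exists_rightInverse_of_surjective (π.toZModLinearMap p)
    (LinearMap.range_eq_top.2 hπ)
  exact ⟨s.toFun, fun u => congrArg (fun φ => φ.toFun u) hs, s.map_add'⟩

end TSPL

open TSPL in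
theorem c_SPL (p : ℕ) [Fact p.Prime] : C_SPL p := by
  intro V E _ _ _ _ C h1 h2 h3
  let _ : AddCommGroup (Xt C) := grp h1 h2
  have hk : ∀ (x : Xt C) (k : ℕ), (k • x).a = k • x.a ∧
      (k • x).b = -C 0 0 + k • x.b + ∑ i ∈ Finset.range k, C x.a (i • x.a) := fun x k => by
    induction k with
    | zero => rw [zero_nsmul, zero_nsmul, zero_nsmul, Finset.sum_range_zero, add_zero, add_zero]
              exact ⟨rfl, rfl⟩
    | succ k ih =>
      rw [succ_nsmul, add_a, add_b, ih.1, ih.2, succ_nsmul, succ_nsmul, Finset.sum_range_succ,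
        h1 (k • x.a)]
      exact ⟨rfl, by abel⟩
  have z : ∀ {M : Type} [AddCommGroup M] [Module (ZMod p) M] (x : M), p • x = 0 := fun x => by
    rw [← Nat.cast_smul_eq_nsmul (ZMod p), ZMod.natCast_self, zero_smul]
  obtain ⟨s, e, hs⟩ := sec (p := p) (X := Xt C) (fun x => ext'
    (by rw [(hk x p).1, z]; rfl) (by rw [(hk x p).2, z, h3, add_zero, add_zero]; rfl))
    (AddMonoidHom.mk' (fun x : Xt C => x.a) add_a) fun u => ⟨⟨u, 0⟩, rfl⟩
  have e' : ∀ u, (s u).a = u := e
  exact ⟨fun u => (s u).b, fun u v => by simp only [hs, add_b, e']⟩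

end Pool.Agent.P.MP_f1a348_lc.CE
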