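import Pool.Agent.P.MP_f1a348_lc.CE.TNIL

/-! Lifting into a triangular algebra. -/

namespace Pool.Agent.P.MP_f1a348_lc.CE

open Matrix Module Pool.Agent.P.MP_f1a348_lc.PG Pool.Agent.P.MP_f1a348_lc.UP TNIL

namespace TTA

set_option linter.unusedSectionVars false

variable {p n : ℕ} [Fact p.Prime] {ℓ : Ix n → ℕ} {B A : Sub p n} {t : ℕ}

theorem cjr_apply (z w : Mat p n) : cjr z w = st z * w * z := rfl

/-- the relation at level `t` -/
def KT (ℓ : Ix n → ℕ) (B A : Sub p n) (t : ℕ) (z w : Mat p n) : Prop :=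
  U1 B z ∧ w ∈ Tf ℓ t ∧ ∃ y, ∃ a ∈ A, Par ℓ y ∧ gr ℓ y = z ∧ y - a - z * w ∈ Tf ℓ (t + 1)

theorem kt_kx (hDEG : C_DEG p n) (h : Str ℓ B) (h1 : (1 : Mat p n) ∈ A)
    (hm : ∀ x ∈ A, ∀ y ∈ A, x * y ∈ A) (ht : 1 ≤ t) : KX B 2 cjr (KT ℓ B A t) := by
  have one : KT ℓ B A t 1 0 := ⟨u1_one h.alg, zero_mem _, 1, 1, h1, Par.one, gr_one, by simp⟩
  refine ⟨LinearMap.ext fun w => by simp [cjr_apply], fun y z _ _ => LinearMap.ext fun w => ?_,
    fun _ _ e => e.1, one, ?_, fun l e1 _ e3 z w _ => ?_⟩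
  · rw [Module.End.mul_apply, cjr_apply, cjr_apply, cjr_apply, st_mul]
    simp only [mul_assoc]
  · rintro z w z' w' ⟨a1, a2, y, a, a3, a4, a5, a6⟩ ⟨b1, b2, y', a', b3, b4, b5, b6⟩
    have tz := (a1.lev h.lab h.alg).par.1
    have pz' := (b1.lev h.lab h.alg).par
    refine ⟨a1.mul h.lab h.alg b1, add_mem (tf_right (tf_left (pz'.star h.lab).1 a2) pz'.1) b2,
      y * y', a * a', hm a a3 a' b3, a4.mul b4, by rw [gr_mul a4.1 b4.1, a5, b5], ?_⟩
    have c1 : y' - z' ∈ Tf ℓ 1 := b5 ▸ tf_sub_gr h.lab b4.1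
    have c2 : y - z ∈ Tf ℓ 1 := a5 ▸ tf_sub_gr h.lab a4.1
    have c3 : y - a ∈ Tf ℓ t := by
      have := add_mem (tf_anti (Nat.le_succ t) a6) (tf_left tz a2)
      rwa [sub_add_cancel] at this
    have c4 : a - z ∈ Tf ℓ 1 := by
      have := sub_mem c2 (tf_anti ht c3)
      rwa [sub_sub_sub_cancel_left] at this
    have ta : Tri ℓ a := by simpa using (add_mem (tf_zero c4.1) (tf_zero tz)).1
    have e : y * y' - a * a' - z * z' * (cjr z' w + w') =
        (y - a - z * w) * y' + z * w * (y' - z') + a * (y' - a' - z' * w') +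
          (a - z) * (z' * w') := by
      have e1 : z * z' * cjr z' w = z * w * z' := by
        rw [cjr_apply, ← mul_assoc, ← mul_assoc, mul_assoc z z', b1.2.1.mul_st, mul_one]
      rw [mul_add, e1]
      noncomm_ring
    rw [e]
    refine add_mem (add_mem (add_mem (tf_right a6 b4.1) (tf_mul (tf_left tz a2) c1))
      (tf_left ta b6)) ?_
    rw [add_comm t]
    exact tf_mul c4 (tf_left pz'.1 b2)
  · rw [((hDEG l e3).2 e1).2.1, LinearMap.zero_apply]
    exact one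

theorem eu_u1 (h : Str ℓ B) {Q : QS p n} {z : Mat p n} (hz : z ∈ EU B Q) : U1 B z :=
  eu_ind (u1_one h.alg) (fun N _ H _ ih => U1.mul h.lab h.alg
    ⟨sub_mem (add_mem h.alg.one H.mem) (h.alg.star N H.mem), by
      rw [Un, st_sgl]
      simp only [sgl, st_neg, mul_sub, sub_mul, mul_add, add_mul, mul_one, one_mul, neg_mul, H.nn,
        H.sn, H.ns, H.ss]
      abel, by
      rw [sgl, Matrix.sub_apply, Matrix.add_apply, st_apply, rev_c0, Matrix.one_apply_eq]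
      ring⟩ ih) hz

end TTA

open TTA

theorem c_TA (p n : ℕ) [Fact p.Prime] (hDEG : C_DEG p n) (hLIF : C_LIF p n) : C_TA p n := by
  intro ℓ B A Y h hb h1 hm hT hY hs
  have key : ∀ t, 1 ≤ t → ∀ z ∈ EU B (QY B (gr ℓ '' Y)),
      ∃ y, ∃ a ∈ A, Par ℓ y ∧ gr ℓ y = z ∧ y - a ∈ Tf ℓ t := fun t ht => by
    induction ht with
    | refl =>
      intro z hz
      have u := eu_u1 h hz
      have e : B ≤ A.map (gr ℓ) := by
        rw [← hs.span, Submodule.span_le]
        rintro _ ⟨y, hy, rfl⟩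
        exact ⟨y, (hY y hy).1, rfl⟩
      obtain ⟨a, ha, e⟩ := e u.1
      refine ⟨z, a, ha, (u.lev h.lab h.alg).par, (h.alg.dg z u.1).gr_eq, ?_⟩
      rw [← e, ← neg_sub]
      exact neg_mem (tf_sub_gr h.lab (hT a ha))
    | @step t ht ih =>
      intro z hz
      obtain ⟨_, _, y, a, a1, a2, a3, a4⟩ := hLIF ℓ B 2 (Mat p n) cjr (KT ℓ B A t) _ h hb (by omega)
        (kt_kx hDEG h h1 hm ht) hs (by
          rintro _ ⟨y, hy, rfl⟩
          exact ⟨hs.mem _ ⟨y, hy, rfl⟩, zero_mem _, y, y, (hY y hy).1, (hY y hy).2, rfl, by simp⟩)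
        (fun z hz => by
          obtain ⟨y, a, a1, a2, a3, a4⟩ := ih z hz
          have u := eu_u1 h hz
          refine ⟨st z * (y - a), u, tf_left ((u.lev h.lab h.alg).par.star h.lab).1 a4, y, a, a1, a2,
            a3, ?_⟩
          rw [← mul_assoc, u.2.1.mul_st, one_mul, sub_self]
          exact zero_mem _) (by omega) z hz
      rw [mul_zero, sub_zero] at a4
      exact ⟨y, a, a1, a2, a3, a4⟩
  intro z hz
  obtain ⟨y, a, a1, a2, a3, a4⟩ := key (2 * n + 1) (by omega) z hz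
  rw [sub_eq_zero.1 (tf_top h.lab le_rfl a4)] at a2 a3
  exact ⟨a, a1, a2, a3⟩

end Pool.Agent.P.MP_f1a348_lc.CE
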