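import Pool.Agent.P.MP_f1a348_lc.CE.Base2

/-! Transitivity of the elementary groups; generation by operators of rank one. -/

namespace Pool.Agent.P.MP_f1a348_lc.CE

open Matrix Module Pool.Agent.P.MP_f1a348_lc.PG Pool.Agent.P.MP_f1a348_lc.UP

namespace TTRANS

set_option linter.unusedSectionVars false

variable {p n : ℕ} [Fact p.Prime] {ℓ : Ix n → ℕ} {B : Sub p n} {Q : QS p n}

theorem exists_max (S : Set (VS p n)) (hS : S.Nonempty) : ∃ M ∈ S, ∀ I ∈ S, ¬ M < I :=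
  set_has_maximal_iff_noetherian.2 inferInstance S hS

/-- a block vector of `U` outside `W` -/
theorem exists_block (h : Str ℓ B) {U W : VS p n} (hU : Stab B U) (e : ¬ U ≤ W) :
    ∃ b u, u ∈ Vb ℓ b ∧ u ∈ U ∧ u ∉ W := by
  by_contra! hc
  exact e fun x hx => mem_of_blocks h.lab fun a =>
    hc a _ (pr_mulVec_mem a x) (hU _ (com_pr h.alg a) x hx)

theorem trans (hMV2 : C_MV2 p n) {W : VS p n} {k : ℕ} {a : ℕ → Ix n} (G : Geo ℓ B Q)
    (hW : Stab B W) (hR : ∀ i < k, ¬ Triv ℓ B (a i) ∧ Rm ℓ B W (a i) (2 * k + 9)) {x y : Tup p n}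
    (hx : Ind ℓ B W k a x) (hy : Ind ℓ B W k a y) (h1 : ∀ i < k, y i - x i ∈ perp W)
    (h2 : ∀ i < k, ∀ θ ∈ Q, θ (y i) = θ (x i))
    (h3 : ∀ i < k, ∀ j < i, ∀ C ∈ Com B, ip (C *ᵥ y j) (y i) = ip (C *ᵥ x j) (x i)) :
    ∀ j ≤ k, ∃ e ∈ EW ℓ B Q W, ∀ i < j, e *ᵥ x i = y i := by
  intro j
  induction j with
  | zero => exact fun _ => ⟨1, one_mem _, fun i hi => absurd hi i.not_lt_zero⟩
  | succ j ih =>
    intro hj
    obtain ⟨e, he, h4⟩ := ih (by omega)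
    have hj' : j < k := hj
    have hq := ew_uq G he
    have hf := ew_fx G.str.alg hW he
    have hW' : Stab B (W ⊔ spn B j y) := hW.sup stab_spn
    have hs : Small ℓ B j (spn B j y) := small_spn G.str fun i hi => ⟨_, hy.mem i (by omega)⟩
    have h5 : e *ᵥ x j ∉ W ⊔ spn B j y := by
      have := (hx.map G.str hq.mem hq.un hf).not_mem_lt hj'
      rwa [spn_congr (y := y) fun i hi => by rw [act_apply, h4 i hi], act_apply] at this
    obtain ⟨-, e', he', h6⟩ := hMV2 ℓ B Q (W ⊔ spn B j y) (a j) (e *ᵥ x j) (y j) G hW'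
      (hR j hj').1 (Rm.sup_small G.str hW hs ((hR j hj').2.mono (by omega)))
      (hq.vb G.str (hx.mem j hj')) h5
      ⟨hy.mem j hj', mem_perp_sup.2 ⟨by
        have := sub_mem (h1 j hj') (hf.sub_mem hq.un (x j))
        rwa [sub_sub_sub_cancel_right] at this, mem_perp_spn.2 fun i hi => mem_perp_orb.2
          fun C hC => by
          rw [ip_sub_right, h3 j hj' i hi C hC, ← h4 i hi, com_mulVec hC hq.mem, hq.un.ip,
            sub_self]⟩, fun θ hθ => by rw [hq.2 θ hθ, h2 j hj' θ hθ], hy.not_mem_lt hj'⟩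
    refine ⟨e' * e, mul_mem (ew_anti le_sup_left he') he, fun i hi => ?_⟩
    rw [← Matrix.mulVec_mulVec]
    rcases Nat.lt_succ_iff_lt_or_eq.1 hi with h7 | rfl
    · rw [h4 i h7]
      exact ew_fx G.str.alg hW' he' _ (Submodule.mem_sup_right (mem_spn h7))
    · exact h6

theorem prod {N A A' ρ ρ' : Mat p n} (H : Sieg B Q N) (eA : A = ρ * N) (eA' : A' = ρ' * N)
    (iA : ∀ v, A *ᵥ v ∈ im N) (iA' : ∀ v, A' *ᵥ v ∈ im N) :
    A * A' = 0 ∧ st A * A' = 0 ∧ A * st A' = 0 := by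
  refine ⟨mat_ext fun v => ?_, mat_ext fun v => ?_, ?_⟩
  · obtain ⟨u, hu⟩ := mem_im.1 (iA' v)
    rw [← Matrix.mulVec_mulVec, ← hu, eA, Matrix.mulVec_mulVec, mul_assoc, H.nn, mul_zero,
      Matrix.zero_mulVec, Matrix.zero_mulVec]
  · rw [Matrix.zero_mulVec]
    refine ip_nondeg fun w => ?_
    obtain ⟨u, hu⟩ := mem_im.1 (iA' v)
    obtain ⟨t, ht⟩ := mem_im.1 (iA w)
    rw [← Matrix.mulVec_mulVec, ← ip_mulVec_right, ← hu, ← ht, ip_mulVec, Matrix.mulVec_mulVec,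
      H.sn, Matrix.zero_mulVec, ip_zero_right]
  · rw [eA, eA', st_mul, mul_assoc, ← mul_assoc N, H.ns, zero_mul, mul_zero]

theorem sieg_of (hB : Alg ℓ B) {N A ρ : Mat p n} (H : Sieg B Q N) (hρ : ρ ∈ B) (eA : A = ρ * N)
    (iA : ∀ v, A *ᵥ v ∈ im N) : Sieg B Q A := by
  obtain ⟨h1, h2, h3⟩ := prod H eA eA iA iA
  refine ⟨eA ▸ hB.mul _ hρ _ H.mem, h1, h2, h3, fun v => ?_, fun v => ?_⟩
  · obtain ⟨u, hu⟩ := mem_im.1 (iA v)
    rw [← hu]; exact H.im u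
  · rw [eA, st_mul, ← Matrix.mulVec_mulVec]; exact H.ims _

theorem sgl_add {A A' : Mat p n} (h1 : A * A' = 0) (h2 : st A * A' = 0) (h3 : A * st A' = 0)
    (h4 : A' * A = 0) : sgl (A + A') = sgl A * sgl A' := by
  have h5 : st A * st A' = 0 := by rw [← st_mul, h4, st_zero]
  simp only [sgl, st_add, mul_sub, sub_mul, mul_add, add_mul, mul_one, one_mul, h1, h2, h3, h5]
  abel

/-- the adjoint of an operator with image in a line has its image in a line -/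
theorem line_st (h : Str ℓ B) {ρ : Mat p n} (hρ : ρ ∈ B) {b : Ix n} {y : Vec p n}
    (hy : y ∈ Vb ℓ b) (h0 : y ≠ 0) (hi : im ρ ≤ orb (Com B) y) :
    ∃ x ∈ Vb ℓ b.rev, ∀ v, st ρ *ᵥ v ∈ orb (Com B) x := by
  obtain ⟨w, hw, h1⟩ : ∃ w ∈ Vb ℓ b.rev, ip y w ≠ 0 := by
    by_contra! hc
    exact h0 (eq_zero_of_ip h.lab (b := b.rev) (by rwa [Fin.rev_rev]) hc)
  refine ⟨st ρ *ᵥ w, (h.alg.dg _ (h.alg.star ρ hρ)).mulVec_mem hw, ims_of_kill fun v hv => ?_⟩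
  by_contra h2
  have h3 : ρ *ᵥ v ∈ perp (orb (Com B) w) := mem_perp_orb.2 fun C hC => by
    rw [ip_mulVec_right, ← com_mulVec hC (h.alg.star ρ hρ)]
    exact mem_perp_orb.1 hv C hC
  have h4 := mem_of_orb h ((stab_orb w).perp h.alg) hy (hi (mem_im.2 ⟨v, rfl⟩)) h2 h3
  exact h1 (by rw [ip_comm]; exact h4 w (self_mem_orb w))

theorem rk1 (G : Geo ℓ B Q) (m : ℕ) : ∀ N, Sieg B Q N → finrank (ZMod p) (im N) = m →
    sgl N ∈ EW ℓ B Q ⊥ := by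
  induction m using Nat.strong_induction_on with
  | _ m ih =>
  intro N H hm
  have h := G.str
  have hN := stab_im H.mem
  by_cases h0 : im N ≤ ⊥
  · rw [show N = 0 from mat_ext fun v => by
      rw [Matrix.zero_mulVec]; exact (Submodule.mem_bot _).1 (h0 (mem_im.2 ⟨v, rfl⟩)), sgl_zero]
    exact one_mem _
  obtain ⟨b, y, hy, hyN, hy0⟩ := exists_block h hN h0
  obtain ⟨W, ⟨hW, hWN, hyW⟩, hmax⟩ := exists_max {W | Stab B W ∧ W ≤ im N ∧ y ∉ W}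
    ⟨⊥, stab_bot, bot_le, hy0⟩
  have h1 : im N ≤ W ⊔ orb (Com B) y := by
    by_contra hc
    obtain ⟨c, w, hw, hwN, hw1⟩ := exists_block h hN hc
    refine hmax (W ⊔ orb (Com B) w) ⟨hW.sup (stab_orb w), sup_le hWN (hN.orb_le hwN),
      fun e => hw1 (exchange h hW hw e hyW)⟩ (lt_of_le_of_ne le_sup_left fun e => hw1 ?_)
    exact Submodule.mem_sup_left (e ▸ Submodule.mem_sup_right (self_mem_orb w))
  obtain ⟨ρ, hρ, -, h2, h3, h4⟩ := proj h hW hy hyW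
  have hy0' : y ≠ 0 := fun e => hy0 (e ▸ zero_mem _)
  obtain ⟨x, hx, h5⟩ := line_st h hρ hy hy0' h4
  have i1 : ∀ v, (ρ * N) *ᵥ v ∈ orb (Com B) y := fun v =>
    h4 (mem_im.2 ⟨N *ᵥ v, Matrix.mulVec_mulVec _ _ _⟩)
  have i1' : ∀ v, (ρ * N) *ᵥ v ∈ im N := fun v => hN.orb_le hyN (i1 v)
  have i2 : ∀ v, ((1 - ρ) * N) *ᵥ v ∈ W := fun v => by
    obtain ⟨w, hw, t, ht, e⟩ := Submodule.mem_sup.1 (h1 (mem_im.2 ⟨v, rfl⟩))
    rw [← Matrix.mulVec_mulVec, ← e, Matrix.sub_mulVec, Matrix.one_mulVec, Matrix.mulVec_add,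
      h3 w hw, fx_orb hρ h2 t ht, zero_add, add_sub_cancel_right]
    exact hw
  have i2' : ∀ v, ((1 - ρ) * N) *ᵥ v ∈ im N := fun v => hWN (i2 v)
  obtain ⟨u, hu⟩ := mem_im.1 hyN
  have hR : R1 ℓ B Q (ρ * N) (st N *ᵥ x) y :=
    ⟨h.alg.mul _ hρ _ H.mem, ⟨_, (h.alg.dg _ (h.alg.star N H.mem)).mulVec_mem hx⟩, ⟨b, hy⟩,
      H.ims x, hu ▸ H.im u, mem_perp_orb.2 fun C hC => by
        rw [com_mulVec hC (h.alg.star N H.mem), ← ip_mulVec_right, ← hu, Matrix.mulVec_mulVec,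
          H.nn, Matrix.zero_mulVec, ip_zero_right], i1, fun v => by
        rw [st_mul, ← Matrix.mulVec_mulVec]; exact orb_map (h.alg.star N H.mem) (h5 v)⟩
  obtain ⟨p1, p2, p3⟩ := prod H rfl rfl i1' i2'
  have e : N = ρ * N + (1 - ρ) * N := by rw [← add_mul, add_sub_cancel, one_mul]
  rw [e, sgl_add p1 p2 p3 (prod H rfl rfl i2' i1').1]
  refine mul_mem (hR.ew (by rw [perp_bot]; trivial) (by rw [perp_bot]; trivial))
    (ih _ ?_ _ (sieg_of h.alg H (sub_mem h.alg.one hρ) rfl i2') rfl)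
  rw [← hm]
  refine Submodule.finrank_lt_finrank_of_lt (lt_of_le_of_lt (fun w hw => ?_)
    (lt_of_le_of_ne hWN fun e => hyW (e ▸ hyN)))
  obtain ⟨v, rfl⟩ := mem_im.1 hw
  exact i2 v

end TTRANS

theorem c_TRANS (p n : Nat) [Fact p.Prime] (hMV2 : C_MV2 p n) : C_TRANS p n := by
  intro ℓ B Q W k a G hW hR x y
  refine ⟨fun hx hy h1 h2 h3 => TTRANS.trans hMV2 G hW hR hx hy h1 h2 h3 k le_rfl,
    fun hx hy => TTRANS.trans hMV2 G hW hR hx.toInd hy.toInd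
      (fun i hi => sub_mem (hy.prp i hi) (hx.prp i hi))
      (fun i hi θ hθ => by rw [hy.sing i hi θ hθ, hx.sing i hi θ hθ])
      (fun i hi j hj C hC => ?_) k le_rfl⟩
  rw [mem_perp_orb.1 (hy.orth j (hj.trans hi) i hi) C hC,
    mem_perp_orb.1 (hx.orth j (hj.trans hi) i hi) C hC]

theorem c_TRU (p n : Nat) [Fact p.Prime] (hMV2 : C_MV2 p n) : C_TRU p n := by
  intro ℓ B Q W U s g G hW hU hR hg hf
  have h := G.str
  obtain ⟨U', ⟨hU', hle, e, he, h1⟩, hmax⟩ := TTRANS.exists_max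
    {U' | Stab B U' ∧ U' ≤ U ∧ ∃ e ∈ EW ℓ B Q W, Fx (W ⊔ U') (e * g)}
    ⟨⊥, stab_bot, bot_le, 1, one_mem _, by rwa [sup_bot_eq, one_mul]⟩
  refine ⟨e, he, h1.anti (sup_le le_sup_left ?_)⟩
  by_contra hc
  obtain ⟨b, u, hu, huU, hn⟩ := TTRANS.exists_block h hU.1 hc
  have hq : UQ B Q (e * g) := (ew_uq G he).mul h hg
  have hW' := hW.sup hU'
  refine hmax (U' ⊔ orb (Com B) u) ⟨hU'.sup (stab_orb u), sup_le hle (hU.1.orb_le huU), ?_⟩
    (lt_of_le_of_ne le_sup_left fun e => hn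
      (Submodule.mem_sup_right (e ▸ Submodule.mem_sup_right (self_mem_orb u))))
  rw [← sup_assoc]
  by_cases t : Triv ℓ B b
  · exact ⟨e, he, h1.sup (fx_orb hq.mem (hq.1.triv h t hu))⟩
  obtain ⟨-, e', he', h2⟩ := hMV2 ℓ B Q (W ⊔ U') b ((e * g) *ᵥ u) u G hW' t
    (Rm.sup_small h hW (hU.of_le hU' hle) ((hR b t).mono (by omega))) (hq.vb h hu)
    (h1.not_mem hq.un hn)
    ⟨hu, by simpa using neg_mem (h1.sub_mem hq.un u), fun θ hθ => (hq.2 θ hθ u).symm, hn⟩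
  refine ⟨e' * e, mul_mem (ew_anti le_sup_left he') he, ?_⟩
  rw [mul_assoc]
  exact ((ew_fx h.alg hW' he').mul h1).sup (fx_orb ((ew_uq G he').mul h hq).mem
    (by rw [← Matrix.mulVec_mulVec, h2]))

theorem c_RK1 (p n : Nat) [Fact p.Prime] : C_RK1 p n := by
  intro ℓ B Q G
  refine Submonoid.closure_le.2 ?_
  rintro _ ⟨N, hN, rfl⟩
  exact TTRANS.rk1 G _ N hN rfl

end Pool.Agent.P.MP_f1a348_lc.CE
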