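import Pool.Agent.P.MP_f1a348_lc.CE.TADM
import Pool.Agent.P.MP_f1a348_lc.CE.TBND
import Pool.Agent.P.MP_f1a348_lc.CE.TCW
import Pool.Agent.P.MP_f1a348_lc.CE.TDEF
import Pool.Agent.P.MP_f1a348_lc.CE.TDEG
import Pool.Agent.P.MP_f1a348_lc.CE.TDROP
import Pool.Agent.P.MP_f1a348_lc.CE.TEMB
import Pool.Agent.P.MP_f1a348_lc.CE.TENG
import Pool.Agent.P.MP_f1a348_lc.CE.TENG1
import Pool.Agent.P.MP_f1a348_lc.CE.TENGA
import Pool.Agent.P.MP_f1a348_lc.CE.TGENR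
import Pool.Agent.P.MP_f1a348_lc.CE.TGL0
import Pool.Agent.P.MP_f1a348_lc.CE.TGL1
import Pool.Agent.P.MP_f1a348_lc.CE.TGLA
import Pool.Agent.P.MP_f1a348_lc.CE.TGLH
import Pool.Agent.P.MP_f1a348_lc.CE.THD
import Pool.Agent.P.MP_f1a348_lc.CE.THYP
import Pool.Agent.P.MP_f1a348_lc.CE.TKX
import Pool.Agent.P.MP_f1a348_lc.CE.TLIF
import Pool.Agent.P.MP_f1a348_lc.CE.TLIFT
import Pool.Agent.P.MP_f1a348_lc.CE.TMOVE
import Pool.Agent.P.MP_f1a348_lc.CE.TMOVE1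
import Pool.Agent.P.MP_f1a348_lc.CE.TMOVE2
import Pool.Agent.P.MP_f1a348_lc.CE.TMV
import Pool.Agent.P.MP_f1a348_lc.CE.TNIL
import Pool.Agent.P.MP_f1a348_lc.CE.TPERF
import Pool.Agent.P.MP_f1a348_lc.CE.TPLR
import Pool.Agent.P.MP_f1a348_lc.CE.TQP2
import Pool.Agent.P.MP_f1a348_lc.CE.TSHAP
import Pool.Agent.P.MP_f1a348_lc.CE.TSOLV
import Pool.Agent.P.MP_f1a348_lc.CE.TSPL
import Pool.Agent.P.MP_f1a348_lc.CE.TTA
import Pool.Agent.P.MP_f1a348_lc.CE.TTFT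
import Pool.Agent.P.MP_f1a348_lc.CE.TTRANS
import Pool.Agent.P.MP_f1a348_lc.CU.TLT0
import Pool.Agent.P.MP_f1a348_lc.CU.TSEM0

/-!
Project CE: all statements, without hypotheses.
-/

namespace Pool.Agent.P.MP_f1a348_lc.CE

theorem a_LT0 (p n : ℕ) [Fact p.Prime] : UP.S_LT0 p n :=
  UP.CU.s_LT0 p n (UP.CU.pm_all p n) (UP.CU.s_SEM0 p n (UP.CU.pm_all p n))

theorem a_QP (p n : ℕ) [Fact p.Prime] : C_QP p n :=
  c_QP2 p n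

theorem a_CW (p n : ℕ) [Fact p.Prime] : C_CW p n :=
  c_CW p n (a_QP p n)

theorem a_HYP (p n : ℕ) [Fact p.Prime] : C_HYP p n :=
  c_HYP p n

theorem a_SOLV (p n : ℕ) [Fact p.Prime] : C_SOLV p n :=
  c_SOLV p n (a_CW p n) (a_HYP p n)

theorem a_SP (p n : ℕ) [Fact p.Prime] : C_SP p n :=
  c_SP p n (a_CW p n) (a_HYP p n) (a_SOLV p n)

theorem a_HP (p n : ℕ) [Fact p.Prime] : C_HP p n :=
  c_HP p n (a_HYP p n) (a_CW p n)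

theorem a_MV (p n : ℕ) [Fact p.Prime] : C_MV p n :=
  c_MV p n (a_SOLV p n) (a_HYP p n)

theorem a_MV2 (p n : ℕ) [Fact p.Prime] : C_MV2 p n :=
  c_MV2 p n (a_MV p n) (a_SOLV p n) (a_CW p n)

theorem a_TRANS (p n : ℕ) [Fact p.Prime] : C_TRANS p n :=
  c_TRANS p n (a_MV2 p n)

theorem a_GEX (p n : ℕ) [Fact p.Prime] : C_GEX p n :=
  c_GEX p n (a_CW p n)

theorem a_TRU (p n : ℕ) [Fact p.Prime] : C_TRU p n :=
  c_TRU p n (a_MV2 p n)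

theorem a_RK1 (p n : ℕ) [Fact p.Prime] : C_RK1 p n :=
  c_RK1 p n

theorem a_PERF (p n : ℕ) [Fact p.Prime] : C_PERF p n :=
  c_PERF p n (a_RK1 p n) (a_CW p n) (a_HP p n)

theorem a_SPAN (p n : ℕ) [Fact p.Prime] : C_SPAN p n :=
  c_SPAN p n (a_PERF p n) (a_SP p n) (a_CW p n) (a_HP p n)

theorem a_GENR (p n : ℕ) [Fact p.Prime] : C_GENR p n :=
  c_GENR p n (a_MV2 p n) (a_CW p n)

theorem a_ABEL (p n : ℕ) [Fact p.Prime] : C_ABEL p n :=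
  c_ABEL p n (a_GENR p n) (a_TRU p n)

theorem a_HD (p n : ℕ) [Fact p.Prime] : C_HD p n :=
  c_HD p n

theorem a_IDX1 (p n : ℕ) [Fact p.Prime] : C_IDX1 p n :=
  c_IDX1 p n

theorem a_IDX (p n : ℕ) [Fact p.Prime] : C_IDX p n :=
  c_IDX p n (a_GENR p n) (a_HD p n) (a_IDX1 p n)

theorem a_ADM (p n : ℕ) [Fact p.Prime] : C_ADM p n :=
  c_ADM p n

theorem a_TR (p n : ℕ) [Fact p.Prime] : C_TR p n :=
  c_TR p n (a_SP p n)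

theorem a_MOVE1 (p n : ℕ) [Fact p.Prime] : C_MOVE1 p n :=
  c_MOVE1 p n (a_MV2 p n)

theorem a_MOVE2 (p n : ℕ) [Fact p.Prime] : C_MOVE2 p n :=
  c_MOVE2 p n

theorem a_MOVE3 (p n : ℕ) [Fact p.Prime] : C_MOVE3 p n :=
  c_MOVE3 p n (a_MOVE2 p n) (a_SOLV p n)

theorem a_MOVE (p n : ℕ) [Fact p.Prime] : C_MOVE p n :=
  c_MOVE p n (a_MOVE1 p n) (a_MOVE2 p n) (a_MOVE3 p n) (a_MV2 p n) (a_TRANS p n) (a_GEX p n)

theorem a_BND (p n : ℕ) [Fact p.Prime] : C_BND p n :=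
  c_BND p n (a_MV p n) (a_TRANS p n) (a_GEX p n)

theorem a_EMB (p n : ℕ) [Fact p.Prime] : C_EMB p n :=
  c_EMB p n (a_GENR p n) (a_MOVE p n) (a_BND p n)

theorem a_SHA0 (p n : ℕ) [Fact p.Prime] : C_SHA0 p n :=
  c_SHA0 p n (a_GEX p n)

theorem a_SHAP (p n : ℕ) [Fact p.Prime] : C_SHAP p n :=
  c_SHAP p n (a_SHA0 p n) (a_TRANS p n) (a_GENR p n) (a_GEX p n)

theorem a_GL0 (p n : ℕ) [Fact p.Prime] : C_GL0 p n :=
  c_GL0 p n (a_CW p n)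

theorem a_GLH (p n : ℕ) [Fact p.Prime] : C_GLH p n :=
  c_GLH p n (a_HYP p n) (a_SP p n)

theorem a_GL1 (p n : ℕ) [Fact p.Prime] : C_GL1 p n :=
  c_GL1 p n (a_GL0 p n) (a_GLH p n) (a_CW p n) (a_HP p n) (a_SOLV p n)

theorem a_GLZ (p n : ℕ) [Fact p.Prime] : C_GLZ p n :=
  c_GLZ p n (a_GL1 p n) (a_SOLV p n)

theorem a_PLR (p n : ℕ) [Fact p.Prime] : C_PLR p n :=
  c_PLR p n

theorem a_GL2 (p n : ℕ) [Fact p.Prime] : C_GL2 p n :=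
  c_GL2 p n (a_PLR p n)

theorem a_SPL (p : ℕ) [Fact p.Prime] : C_SPL p :=
  c_SPL p

theorem a_DROP (p n : ℕ) [Fact p.Prime] : C_DROP p n :=
  c_DROP p n (a_GL2 p n) (a_SPL p)

theorem a_GLA (p n : ℕ) [Fact p.Prime] : C_GLA p n :=
  c_GLA p n (a_GLZ p n) (a_SP p n)

theorem a_GL3 (p n : ℕ) [Fact p.Prime] : C_GL3 p n :=
  c_GL3 p n (a_GLA p n) (a_DROP p n)

theorem a_DEF (p n : ℕ) [Fact p.Prime] : C_DEF p n :=
  c_DEF p n (a_GL1 p n) (a_CW p n) (a_SOLV p n)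

theorem a_KX (p n : ℕ) [Fact p.Prime] : C_KX p n :=
  c_KX p n

theorem a_ENG1 (p n : ℕ) [Fact p.Prime] : C_ENG1 p n :=
  c_ENG1 p n (a_KX p n) (a_TR p n) (a_EMB p n) (a_DEF p n) (a_GL3 p n)

theorem a_ENG (p n : ℕ) [Fact p.Prime] : C_ENG p n :=
  c_ENG p n (a_KX p n) (a_TR p n) (a_SP p n) (a_SHAP p n) (a_GL1 p n) (a_GL3 p n) (a_DEF p n) (a_BND p n)

theorem a_DEG (p n : ℕ) [Fact p.Prime] : C_DEG p n :=
  c_DEG p n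

theorem a_LIF (p n : ℕ) [Fact p.Prime] : C_LIF p n :=
  c_LIF p n (a_KX p n) (a_ADM p n) (a_PERF p n) (a_TR p n) (a_ENG1 p n) (a_ENG p n) (a_LT0 p n)

theorem a_NIL (p n : ℕ) [Fact p.Prime] : C_NIL p n :=
  c_NIL p n

theorem a_LIFT (p n : ℕ) [Fact p.Prime] : C_LIFT p n :=
  c_LIFT p n (a_NIL p n) (a_LIF p n)

theorem a_TA (p n : ℕ) [Fact p.Prime] : C_TA p n :=
  c_TA p n (a_DEG p n) (a_LIF p n)

theorem a_TFT (p n : ℕ) [Fact p.Prime] : C_TFT p n :=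
  c_TFT p n (a_DEG p n) (a_LIFT p n) (a_TA p n)

theorem a_TF3 (p n : ℕ) [Fact p.Prime] : C_TF3 p n :=
  c_TF3 p n (a_TFT p n)

theorem a_TFULL (p n : ℕ) [Fact p.Prime] : C_TFULL p n :=
  c_TFULL p n (a_ADM p n) (a_PERF p n) (a_ABEL p n) (a_TFT p n)

theorem a_ENGA (p n : ℕ) [Fact p.Prime] : C_ENGA p n :=
  c_ENGA p n (a_DEG p n) (a_ENG1 p n) (a_ENG p n)

theorem a_LIFK (p n : ℕ) [Fact p.Prime] : C_LIFK p n :=
  c_LIFK p n (a_DEG p n) (a_LIF p n)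

end Pool.Agent.P.MP_f1a348_lc.CE
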