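import Pool.Agent.P.MP_f1a348_lc.CE.Base

/-!
Project CE: small facts on generic tuples, used by the engine.
-/

namespace Pool.Agent.P.MP_f1a348_lc.CE.EB

open Matrix Module Pool.Agent.P.MP_f1a348_lc.PG Pool.Agent.P.MP_f1a348_lc.UP

set_option linter.unusedSectionVars false

variable {p n : ℕ} [Fact p.Prime] {ℓ : Ix n → ℕ} {B : Sub p n} {Q : QS p n} {C g : Mat p n}
  {x : Tup p n} {y y' : Vec p n} {W : VS p n} {b : Ix n} {a : ℕ → Ix n} {k i : ℕ}

theorem kill_pr (h : Str ℓ B) (hC : C ∈ Com B) (hy : y ∈ Vb ℓ b) (h0 : y ≠ 0) (e : C *ᵥ y = 0) :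
    C * pr ℓ b = 0 := mat_ext fun v => by
  obtain ⟨c, hc, e'⟩ := h.sim b y hy h0 _ (pr_mulVec_mem b v)
  rw [← Matrix.mulVec_mulVec, ← e', com_mulVec hC hc, e, Matrix.mulVec_zero, Matrix.zero_mulVec]

theorem act_update (g : Mat p n) (x : Tup p n) (i : ℕ) (v : Vec p n) :
    act g (Function.update x i v) = Function.update (act g x) i (g *ᵥ v) := by
  funext j
  by_cases e : j = i
  · subst e; simp
  · simp [e]

theorem ind_act (S : Str ℓ B) (hg : UQ B Q g) (hW : Fx W g) (H : Ind ℓ B W k a x) :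
    Ind ℓ B W k a (act g x) where
  mem i hi := hg.vb S (H.mem i hi)
  ind C hC e := H.ind C hC (by
    by_contra h
    refine hW.not_mem hg.un h ?_
    rw [Matrix.mulVec_sum]
    simpa only [act_apply, com_mulVec (hC _) hg.mem] using e)

theorem gen_act (S : Str ℓ B) (hg : UQ B Q g) (hW : Fx W g) (H : GenW ℓ B Q W k a x) :
    GenW ℓ B Q W k a (act g x) where
  toInd := ind_act S hg hW H.toInd
  sing i hi := hg.sing (H.sing i hi)
  prp i hi := hW.perp hg.un (H.prp i hi)
  orth i hi j hj := perp_orb_map hg.mem hg.un (H.orth i hi j hj)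

theorem gen_zero : GenW ℓ B Q W 0 a x :=
  ⟨⟨fun _ h => absurd h (Nat.not_lt_zero _), fun _ _ _ _ h => absurd h (Nat.not_lt_zero _)⟩,
    fun _ h => absurd h (Nat.not_lt_zero _), fun _ h => absurd h (Nat.not_lt_zero _),
    fun _ h => absurd h (Nat.not_lt_zero _)⟩

theorem gen_one (G : Geo ℓ B Q) (hm : x 0 ∈ Vb ℓ (a 0)) (hs : Sing Q (x 0)) (h0 : x 0 ≠ 0) :
    GenW ℓ B Q ⊥ 1 a x where
  mem i hi := by rw [Nat.lt_one_iff.1 hi]; exact hm
  ind C hC e i hi := by
    rw [Nat.lt_one_iff.1 hi]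
    exact kill_pr G.str (hC 0) hm h0 (by simpa using e)
  sing i hi := by rw [Nat.lt_one_iff.1 hi]; exact hs
  prp i _ := by rw [perp_bot]; trivial
  orth i hi j hj := by rw [Nat.lt_one_iff.1 hi, Nat.lt_one_iff.1 hj]; exact hs.isot G.adm

theorem gen_two (G : Geo ℓ B Q) (hm : x 0 ∈ Vb ℓ (a 0)) (hs : Sing Q (x 0)) (h0 : x 0 ≠ 0)
    (hm' : x 1 ∈ Vb ℓ (a 1)) (hs' : Sing Q (x 1)) (h1 : x 1 ∉ orb (Com B) (x 0))
    (ho : x 1 ∈ perp (orb (Com B) (x 0))) : GenW ℓ B Q ⊥ 2 a x := by
  have two : ∀ {P : ℕ → Prop}, P 0 → P 1 → ∀ i < 2, P i := fun h h' i hi => by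
    interval_cases i
    exacts [h, h']
  refine ⟨⟨two hm hm', fun C hC e => ?_⟩, two hs hs', fun i _ => by rw [perp_bot]; trivial,
    two (two (hs.isot G.adm) ho) (two (perp_orb_symm G.str.alg ho) (hs'.isot G.adm))⟩
  rw [Finset.sum_range_succ, Finset.sum_range_one, Submodule.mem_bot] at e
  have e1 : C 1 *ᵥ x 1 = 0 := by
    by_contra h
    refine h1 (mem_of_mulVec_mem G.str (stab_orb _) hm' (hC 1) h ?_)
    rw [eq_neg_of_add_eq_zero_right e]
    exact neg_mem (mem_orb_com (hC 0) _)
  rw [e1, add_zero] at e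
  exact two (kill_pr G.str (hC 0) hm h0 e)
    (kill_pr G.str (hC 1) hm' (fun h => h1 (h ▸ zero_mem _)) e1)

/-- the third generic tuple of a defect -/
theorem zc_add (G : Geo ℓ B Q) (hi : i < k) (H : Zc ℓ B Q k a i x) :
    GenW ℓ B Q ⊥ k a (Function.update x i (x i + x k)) := by
  have hk : x k ∈ Vb ℓ (a i) := by simpa using H.gen'.mem i hi
  have ho : ∀ j < k, j ≠ i → x i + x k ∈ perp (orb (Com B) (x j)) := fun j hj e =>
    add_mem (H.gen.orth j hj i hi) (by simpa [e] using H.gen'.orth j hj i hi)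
  refine ⟨⟨fun j hj => ?_, fun C hC e j hj => ?_⟩, fun j hj => ?_,
    fun j _ => by rw [perp_bot]; trivial, fun j hj j' hj' => ?_⟩
  · by_cases e : j = i
    · subst e; simpa using add_mem (H.gen.mem j hj) hk
    · simpa [e] using H.gen.mem j hj
  · have h := H.ind.ind (Function.update C k (C i)) (fun j => by
      by_cases e : j = k
      · subst e; simpa using hC i
      · simpa [e] using hC j) (by
      rw [Finset.sum_range_succ, Function.update_self]
      convert e using 1
      have : ∀ j ∈ Finset.range k, C j *ᵥ Function.update x i (x i + x k) j =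
          Function.update C k (C i) j *ᵥ x j + if j = i then C i *ᵥ x k else 0 := fun j hj => by
        rw [Function.update_of_ne (Finset.mem_range.1 hj).ne]
        by_cases e : j = i
        · subst e; simp [Matrix.mulVec_add]
        · simp [e]
      rw [Finset.sum_congr rfl this, Finset.sum_add_distrib, Finset.sum_ite_eq',
        if_pos (Finset.mem_range.2 hi)]) j (by omega)
    simpa [hj.ne] using h
  · by_cases e : j = i
    · subst e; simpa using H.sing
    · simpa [e] using H.gen.sing j hj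
  · by_cases e : j = i <;> by_cases e' : j' = i
    · subst e; subst e'; simpa using H.sing.isot G.adm
    · subst e; simpa [e'] using perp_orb_symm G.str.alg (ho j' hj' e')
    · subst e'; simpa [e] using ho j hj e
    · simpa [e, e'] using H.gen.orth j hj j' hj'

/-- defects of equivariant functions are equivariant -/
theorem dfc_act {M : Type} [AddCommGroup M] (F : Tup p n → M) (g : Mat p n) (k i : ℕ)
    (x : Tup p n) : dfc F k i (act g x) = dfc (fun y => F (act g y)) k i x := by
  simp only [dfc, act_update, act_apply, Matrix.mulVec_add]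

/-- functions that agree on generic tuples have the same defects -/
theorem dfc_congr {M : Type} [AddCommGroup M] {F F' : Tup p n → M} (G : Geo ℓ B Q) (hi : i < k)
    (H : Zc ℓ B Q k a i x) (e : ∀ y, GenW ℓ B Q ⊥ k a y → F y = F' y) :
    dfc F k i x = dfc F' k i x := by
  rw [dfc, dfc, e _ (zc_add G hi H), e _ H.gen, e _ H.gen']

theorem tx_zero (x : Tup p n) : tx 0 x = fun _ => e0 := funext fun _ => if_neg (Nat.not_lt_zero _)

theorem tx_one (x : Tup p n) : tx 1 x = ![x 0, e0, e0] := by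
  funext j
  fin_cases j <;> rfl

theorem big30 (h : Big ℓ B 200) : Big ℓ B 30 := fun a t => le_trans (by omega) (h a t)

end Pool.Agent.P.MP_f1a348_lc.CE.EB
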