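import Pool.Agent.P.MP_f1a348_lc.CE.Base2

/-!
Project CE: totally singular subspaces, generic singular vectors.
-/

namespace Pool.Agent.P.MP_f1a348_lc.CE.Glu

open Matrix Module Pool.Agent.P.MP_f1a348_lc.PG Pool.Agent.P.MP_f1a348_lc.UP

set_option linter.unusedSectionVars false

variable {p n : ℕ} [Fact p.Prime] {ℓ : Ix n → ℕ} {B : Sub p n} {Q : QS p n}
  {x y t : Vec p n} {W W' T : VS p n} {b : Ix n} {r k : ℕ}

theorem rm_small (S : Str ℓ B) (hW : Small ℓ B r W) (hd : 2 * r + k ≤ db ℓ B b) :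
    Rm ℓ B W b k := by
  have h1 := finrank_perp_inf S hW b
  have h2 : finrank (ZMod p) (perp W ⊓ W ⊓ Vb ℓ b : VS p n) ≤ r * eb ℓ B b :=
    (Submodule.finrank_mono (inf_le_inf_right _ inf_le_right)).trans (hW.2 b)
  have h3 := Nat.mul_le_mul_right (eb ℓ B b) hd
  rw [db_mul_eb S, add_mul, mul_assoc] at h3
  unfold Rm
  omega

theorem small_add (S : Str ℓ B) (hW : Small ℓ B r W) (hx : x ∈ Vb ℓ b) :
    Small ℓ B (r + 1) (W ⊔ orb (Com B) x) := hW.sup S.alg (small_orb S hx)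

theorem gen (hC : C_CW p n) (G : Geo ℓ B Q) (hW : Small ℓ B r W) (nt : ¬ Triv ℓ B b)
    (hd : 2 * r + 3 ≤ db ℓ B b) : ∃ t, SV ℓ Q W b t ∧ t ∉ W := by
  simpa using hC ℓ B Q W ⊥ 0 b G hW.1 small_bot nt (rm_small G.str hW hd)

theorem mem_l (hx : x ∈ W) : x ∈ W ⊔ W' := Submodule.mem_sup_left hx
theorem mem_o (x : Vec p n) : x ∈ W ⊔ orb (Com B) x := Submodule.mem_sup_right (self_mem_orb x)

theorem mem_m (e : W ≤ W') (hx : x ∈ W ⊔ T) : x ∈ W' ⊔ T :=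
  (sup_le_sup_right e T : W ⊔ T ≤ W' ⊔ T) hx

theorem sup_orb_le (hW : Stab B W') (e : W ≤ W') (hx : x ∈ W') : W ⊔ orb (Com B) x ≤ W' :=
  sup_le e (hW.orb_le hx)

/-- totally singular subspaces orthogonal to `W` -/
structure TS (B : Sub p n) (Q : QS p n) (W T : VS p n) : Prop where
  stab : Stab B T
  prp : T ≤ perp W
  iso : T ≤ perp T
  sing : ∀ x ∈ T, Sing Q x

theorem ts_bot (G : Geo ℓ B Q) : TS B Q W ⊥ :=
  ⟨stab_bot, bot_le, bot_le, fun x hx => by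
    rw [(Submodule.mem_bot _).1 hx]; exact Sing.zero G.adm⟩

theorem TS.add (G : Geo ℓ B Q) (hW : Stab B W) (h : TS B Q W T) (hs : Sing Q t) (h1 : t ∈ perp W)
    (h2 : t ∈ perp T) : TS B Q W (T ⊔ orb (Com B) t) := by
  have h3 := orb_le_perp G.str.alg h.stab h2
  refine ⟨h.stab.sup (stab_orb t), sup_le h.prp (orb_le_perp G.str.alg hW h1),
    sup_le (fun w hw => mem_perp_sup.2 ⟨h.iso hw, le_perp_symm h3 hw⟩)
      fun w hw => mem_perp_sup.2 ⟨h3 hw, hs.orb_le G hw⟩, fun w hw => ?_⟩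
  obtain ⟨u, hu, v, hv, rfl⟩ := Submodule.mem_sup.1 hw
  exact (h.sing u hu).add G.adm (hs.of_orb G.adm hv) (perp_anti (h.stab.orb_le hu) (h3 hv))

theorem TS.sv (h : TS B Q W T) (hx : x ∈ T) (hb : x ∈ Vb ℓ b) : SV ℓ Q W b x :=
  ⟨hb, h.sing x hx, h.prp hx⟩

theorem TS.orth (h : TS B Q W T) (hx : x ∈ T) (hy : y ∈ T) : y ∈ perp (orb (Com B) x) :=
  perp_anti (h.stab.orb_le hx) (h.iso hy)

theorem ts_one (G : Geo ℓ B Q) (hW : Stab B W) (h : SV ℓ Q W b x) : TS B Q W (orb (Com B) x) := by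
  simpa using (ts_bot G).add G hW h.sing h.prp (by simp)

/-- functionals are given by vectors -/
theorem exists_ip (L : Vec p n →ₗ[ZMod p] ZMod p) : ∃ v, ∀ y, L y = ip v y := by
  refine ⟨fun α => L (Pi.single α.rev 1), fun y => ?_⟩
  conv_lhs => rw [← Finset.univ_sum_single y, map_sum]
  rw [ip, ← sum_rev]
  refine Finset.sum_congr rfl fun α _ => ?_
  rw [show (Pi.single α.rev (y α.rev) : Vec p n) = y α.rev • Pi.single α.rev 1 by
    rw [← Pi.single_smul, smul_eq_mul, mul_one], map_smul, smul_eq_mul, mul_comm]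

/-- only the component between the two blocks matters -/
theorem ip_cb (hl : Lab ℓ) (C : Mat p n) {a : Ix n} (hx : x ∈ Vb ℓ a) (hy : y ∈ Vb ℓ b) :
    ip ((pr ℓ b.rev * C * pr ℓ a) *ᵥ x) y = ip (C *ᵥ x) y := by
  rw [cb_comp _ hx, ip_pr hl hy]

theorem ip_zero (hW : Stab B W) {C : Mat p n} (hC : C ∈ Com B) (hx : x ∈ W) (hy : y ∈ perp W) :
    ip (C *ᵥ x) y = 0 := hy _ (hW C hC x hx)

theorem ip_zero' (hB : Alg ℓ B) (hW : Stab B W) {C : Mat p n} (hC : C ∈ Com B) (hx : x ∈ perp W)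
    (hy : y ∈ W) : ip (C *ᵥ x) y = 0 := by
  rw [ip_comm]; exact hW.perp hB C hC x hx y hy

end Pool.Agent.P.MP_f1a348_lc.CE.Glu
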