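import Pool.Agent.P.MP_f1a348_lc.CE.Base2
import Pool.Agent.P.MP_f1a348_lc.CF.TPEEL
import Pool.Agent.P.MP_f1a348_lc.CF.TREL

/-!
Project CE: invariant quadratic functions, and traces on generic tuples.
-/

namespace Pool.Agent.P.MP_f1a348_lc.CE

open Matrix Module Pool.Agent.P.MP_f1a348_lc.PG Pool.Agent.P.MP_f1a348_lc.UP

namespace TADM

open Function

set_option linter.unusedSectionVars false

variable {p n : ℕ} [Fact p.Prime] {ℓ : Ix n → ℕ} {B : Sub p n} {Q : QS p n}

/-- an additive invariant function is a multiple of the action on the centre -/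
theorem inv_act {Y : Set (Mat p n)} (hY : ∀ y ∈ Y, U1 B y) (hs : Submodule.span (ZMod p) Y = B)
    {S : VS p n} (hS : ∀ b ∈ B, ∀ x ∈ S, b *ᵥ x ∈ S) {d : Fn p n}
    (ha : ∀ x ∈ S, ∀ y ∈ S, d (x + y) = d x + d y) (hi : ∀ y ∈ Y, ∀ x ∈ S, d (y *ᵥ x) = d x)
    {x : Vec p n} (hx : x ∈ S) {b : Mat p n} (hb : b ∈ B) :
    d (b *ᵥ x) = b (c0 n) (c0 n) * d x := by
  have h0 : d 0 = 0 := by
    have := ha 0 (zero_mem _) 0 (zero_mem _)
    rw [add_zero] at this
    exact left_eq_add.1 this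
  have hm : ∀ (c : ZMod p), ∀ v ∈ S, d (c • v) = c * d v := fun c v hv => by
    rw [← ZMod.natCast_zmod_val c]
    induction c.val with
    | zero => simpa using h0
    | succ k ih =>
      rw [Nat.cast_succ, add_smul, one_smul, ha _ (S.smul_mem _ hv) _ hv, ih, add_mul, one_mul]
  rw [← hs] at hb
  induction hb using Submodule.span_induction with
  | mem y hy => rw [hi y hy x hx, (hY y hy).2.2, one_mul]
  | zero => rw [Matrix.zero_mulVec, h0, Matrix.zero_apply, zero_mul]
  | add u v hu hv a b =>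
    rw [Matrix.add_mulVec, ha _ (hS u (hs ▸ hu) x hx) _ (hS v (hs ▸ hv) x hx), a, b,
      Matrix.add_apply, add_mul]
  | smul c u hu a =>
    rw [Matrix.smul_mulVec, hm c _ (hS u (hs ▸ hu) x hx), a, Matrix.smul_apply, smul_eq_mul,
      mul_assoc]

theorem fix_triv (h : Str ℓ B) {z : Mat p n} (hz : U1 B z) (x : Vec p n) :
    z *ᵥ (x - eo ℓ B *ᵥ x) = x - eo ℓ B *ᵥ x := by
  have : x - eo ℓ B *ᵥ x ∈ LinearMap.eqLocus z.mulVecLin LinearMap.id := by
    refine mem_of_blocks h.lab fun a => ?_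
    change z *ᵥ _ = _
    by_cases t : Triv ℓ B a
    · exact hz.triv h t (pr_mulVec_mem _ _)
    · rw [Matrix.mulVec_sub, Matrix.mulVec_mulVec, pr_mul_eo_ntriv t, sub_self]
      simp
  exact this

theorem e0_mem : (e0 : Vec p n) ∈ Vb ℓ (c0 n) := single_mem_Vb rfl 1

theorem tx_update {k i : ℕ} (hk : k ≤ 3) (hi : i < k) (x : Tup p n) (v : Vec p n) :
    tx k (update x i v) = update (tx k x) ⟨i, by omega⟩ v := by
  funext j
  by_cases e : j = ⟨i, by omega⟩
  · subst e
    simp [tx, hi]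
  · have e' : j.val ≠ i := fun e' => e (Fin.ext e')
    rw [update_of_ne e, tx, tx, update_of_ne e']

theorem tx_add {k i : ℕ} (hk : k ≤ 3) (hi : i < k) (w : Frm p n) (x : Tup p n) (u v : Vec p n) :
    ev w (tx k (update x i (u + v))) = ev w (tx k (update x i u)) + ev w (tx k (update x i v)) := by
  rw [tx_update hk hi, tx_update hk hi, tx_update hk hi, ev_update_add]

/-- the places are freed one by one -/
theorem free (hSP : C_SP p n) (G : Geo ℓ B Q) (hb : Big ℓ B 30) {k : ℕ} (hk : k ≤ 3)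
    {a : ℕ → Ix n} (ht : ∀ i < k, ¬ Triv ℓ B (a i)) {w : Frm p n}
    (H : ∀ x, GenW ℓ B Q ⊥ k a x → ev w (tx k x) = 0) (m : ℕ) (hm : m ≤ k) :
    ∀ y : Tup p n, (∀ i < k, y i ∈ Vb ℓ (a i)) →
      (∀ i < k, ∀ j < k, i ≠ j → y j ∈ perp (orb (Com B) (y i))) →
      (∀ i < k, m ≤ i → Sing Q (y i) ∧ y i ∉ spn B k (update y i 0)) → ev w (tx k y) = 0 := by
  induction m with
  | zero =>
    intro y h1 h2 h3
    refine H y ⟨ind_of_oth G.str stab_bot fun i hi => ⟨h1 i hi, ?_⟩,
      fun i hi => (h3 i hi i.zero_le).1, fun i _ => by rw [perp_bot]; trivial, fun i hi j hj => ?_⟩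
    · rw [bot_sup_eq]; exact (h3 i hi i.zero_le).2
    · by_cases e : i = j
      · subst e; exact (h3 i hi i.zero_le).1.isot G.adm
      · exact h2 i hi j hj e
  | succ m ih =>
    intro y h1 h2 h3
    have hmk : m < k := hm
    have hW : Small ℓ B k (spn B k (update y m 0)) := small_spn G.str fun i hi => ⟨a i, by
      by_cases e : i = m
      · rw [e, update_self]; exact zero_mem _
      · rw [update_of_ne e]; exact h1 i hi⟩
    have hy : y m ∈ perp (spn B k (update y m 0)) := mem_perp_spn.2 fun i hi => by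
      by_cases e : i = m
      · rw [e, update_self, orb_zero, perp_bot]; trivial
      · rw [update_of_ne e]; exact h2 i hi m hmk e
    have key := (hSP ℓ B Q (spn B k (update y m 0)) ⊥ 0 (a m) (y m) G stab_spn small_bot (ht m hmk)
      (rm_of_small G.str hW (le_trans (by omega) (hb _ (ht m hmk)))) (h1 m hmk) hy).2.2 (ZMod p)
      (fun v => ev w (tx k (update y m v))) (fun u _ _ v _ _ => tx_add hk hmk w y u v)
      fun v hv hn => ?_
    · simpa only [update_eq_self] using key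
    rw [sup_bot_eq] at hn
    have ho : ∀ j < k, j ≠ m → v ∈ perp (orb (Com B) (y j)) := fun j hj e =>
      perp_anti (stab_spn.orb_le (mem_oth hj e)) hv.prp
    refine ih hmk.le _ (fun i hi => ?_) (fun i hi j hj e => ?_) fun i hi e => ?_
    · by_cases e : i = m
      · rw [e, update_self]; exact hv.mem
      · rw [update_of_ne e]; exact h1 i hi
    · by_cases e1 : i = m <;> by_cases e2 : j = m
      · exact absurd (e1.trans e2.symm) e
      · rw [e1, update_self, update_of_ne e2]; exact perp_orb_symm G.str.alg (ho j hj e2)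
      · rw [e2, update_self, update_of_ne e1]; exact ho i hi e1
      · rw [update_of_ne e1, update_of_ne e2]; exact h2 i hi j hj e
    · by_cases e1 : i = m
      · rw [e1, update_self, update_idem]; exact ⟨hv.sing, hn⟩
      · obtain ⟨s1, s2⟩ := h3 i hi (by omega)
        rw [update_of_ne e1]
        refine ⟨s1, fun e2 => hn ?_⟩
        rw [update_comm (Ne.symm e1)] at e2
        have h4 := exchange G.str stab_spn hv.mem (spn_update_le e2) fun e3 => s2 (oth_le_spn e3)
        have h5 : spn B k (update (update y i 0) m 0) ⊔ orb (Com B) (y i) ≤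
            spn B k (update y m 0) := by
          refine sup_le ?_ (stab_spn.orb_le (mem_oth hi e1))
          rw [update_comm e1]; exact oth_le_spn
        exact h5 h4

theorem all (hSP : C_SP p n) (G : Geo ℓ B Q) (hb : Big ℓ B 30) {k : ℕ} (hk : k ≤ 3)
    {a : ℕ → Ix n} (ht : ∀ i < k, ¬ Triv ℓ B (a i)) {w : Frm p n}
    (H : ∀ x, GenW ℓ B Q ⊥ k a x → ev w (tx k x) = 0) (x : Fin 3 → Vec p n)
    (hx : ∀ j, x j ∈ Vb ℓ (bx k a j))
    (ho : ∀ m, x (m + 2) ∈ perp (orb (Co ℓ B) (x (m + 1)))) : ev w x = 0 := by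
  have h1 : ∀ i j : Fin 3, i ≠ j → x j ∈ perp (orb (Co ℓ B) (x i)) := fun i j e => by
    fin_cases i <;> fin_cases j
    exacts [absurd rfl e, ho 2, perp_orb_co_symm G.str (ho 1), perp_orb_co_symm G.str (ho 2),
      absurd rfl e, ho 0, ho 1, perp_orb_co_symm G.str (ho 0), absurd rfl e]
  let y : Tup p n := fun i => if h : i < 3 then x ⟨i, h⟩ else 0
  have hy : ∀ i (h : i < 3), y i = x ⟨i, h⟩ := fun i h => dif_pos h
  have h2 : ∀ i < k, y i ∈ Vb ℓ (a i) := fun i hi => by
    have := hx ⟨i, by omega⟩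
    rw [bx, if_pos hi] at this
    rwa [hy i (by omega)]
  have h3 := free hSP G hb hk ht H k le_rfl y h2 (fun i hi j hj e => by
    rw [← orb_co_ntriv G.str.alg (h2 i hi) (ht i hi), hy i (by omega), hy j (by omega)]
    exact h1 _ _ fun e' => e (congrArg Fin.val e')) fun i hi e => absurd hi (by omega)
  have h4 : x = fun j => (if j.val < k then 1 else x j (c0 n)) • tx k y j := by
    funext j
    by_cases e : j.val < k
    · rw [tx, if_pos e, if_pos e, one_smul, hy _ j.2]
    · have := hx j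
      rw [bx, if_neg e] at this
      rw [tx, if_neg e, if_neg e]
      exact Vb_c0 G.str.lab this
  rw [h4, ev_smul_slots, h3, mul_zero]

end TADM

open TADM in
theorem c_ADM (p n : ℕ) [Fact p.Prime] : C_ADM p n := by
  intro ℓ B Y h hY hs
  refine ⟨⟨h, fun θ hθ => hθ.1, fun C hC => ⟨⟨_, add_mem hC (com_st h.alg hC), pol_com C⟩,
    fun y hy x => ?_⟩, fun θ hθ C hC => ⟨?_, fun y hy x => ?_⟩, fun θ hθ b t ha x hx => ?_⟩,
    fun y hy => ⟨hY y hy, fun θ hθ => hθ.2 y hy⟩, fun z hz hn => ⟨hz, fun θ hθ x => ?_⟩,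
    fun Q H hQ θ hθ => ⟨H.pol θ hθ, fun y hy => (hQ y hy).2 θ hθ⟩⟩
  · change ip (C *ᵥ (y *ᵥ x)) (y *ᵥ x) = ip (C *ᵥ x) x
    rw [com_mulVec hC (hY y hy).1, (hY y hy).2.1.ip]
  · obtain ⟨D, hD, e⟩ := hθ.1
    exact ⟨_, com_mul (com_mul (com_st h.alg hC) hD) hC, e.comp C⟩
  · change θ (C *ᵥ (y *ᵥ x)) = θ (C *ᵥ x)
    rw [com_mulVec hC (hY y hy).1, hθ.2 y hy]
  · have := inv_act hY hs (S := Vb ℓ b) (fun c hc v hv => (h.alg.dg c hc).mulVec_mem hv) ha
      (fun y hy v _ => hθ.2 y hy v) hx (eo_mem h)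
    rwa [eo_mulVec_ntriv hx t, eo_c0 h.alg, zero_mul] at this
  · obtain ⟨C, hC, e⟩ := hθ.1
    have ha : ∀ u v, θ (z *ᵥ (u + v)) - θ (u + v) =
        (θ (z *ᵥ u) - θ u) + (θ (z *ᵥ v) - θ v) := fun u v => by
      rw [Matrix.mulVec_add, e, e, com_mulVec hC hz.1, hz.2.1.ip]; ring
    have h1 := inv_act hY hs (S := ⊤) (fun _ _ _ _ => trivial) (d := fun v => θ (z *ᵥ v) - θ v)
      (fun u _ v _ => ha u v) (fun y hy v _ => by
        have := hθ.2 _ (hn y hy) (z *ᵥ v)
        rw [← Matrix.mulVec_mulVec, hz.2.1.st_mulVec, ← Matrix.mulVec_mulVec] at this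
        rw [this, hθ.2 y hy]) (x := x) trivial (eo_mem h)
    have h2 := ha (eo ℓ B *ᵥ x) (x - eo ℓ B *ᵥ x)
    rw [eo_c0 h.alg, zero_mul] at h1
    rw [add_sub_cancel, h1, fix_triv h hz, sub_self, add_zero] at h2
    exact sub_eq_zero.1 h2

open TADM in
theorem c_TR (p n : ℕ) [Fact p.Prime] (hSP : C_SP p n) : C_TR p n := by
  intro ℓ B Q k a w G hk ht
  have h := G.str
  have hd : ∀ i < k, ∀ x, dfc (fun x => ev w (tx k x)) k i x = 0 := fun i hi x => by
    rw [dfc, tx_add hk hi, Function.update_eq_self]; ring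
  refine ⟨fun hw x hx => ev_Tr (fun m => ?_) hw, fun hb hw H => ?_, fun h1 hw hT => ?_,
    ⟨fun x y e => ?_, fun i hi x _ => ?_⟩, hd, fun z hz x => ?_⟩
  · have t0 := triv_mem_perp h (e0_mem (p := p)) (triv_c0 h.alg)
    unfold tx
    split_ifs with e1 e2
    · exact perp_anti (Submodule.map_mono co_le_com) (hx.orth _ e1 _ e2)
    · exact t0 _
    · exact perp_orb_co_symm h (t0 _)
    · exact t0 _
  · have hP := CF.s_PEEL p n (CF.s_REL p n)
    obtain ⟨w1, t1, e1⟩ := hP ℓ B (bx k a) 0 (fun _ => True) w h hb fun x hx ho =>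
      all hSP G hb hk ht H x hx fun m => ho m (Or.inl trivial)
    obtain ⟨w2, t2, e2⟩ := hP ℓ B (bx k a) 1 (fun k => k ≠ 0) (w - w1) h hb fun x hx ho => by
      rw [ev_sub, e1 x hx fun k _ hk => ho k (Or.inl hk), sub_self]
    obtain ⟨w3, t3, e3⟩ := hP ℓ B (bx k a) 2 (fun _ => False) (w - w1 - w2) h hb fun x hx ho => by
      rw [ev_sub, e2 x hx fun k h0 h1 => ho k (Or.inr (by omega)), sub_self]
    have e : w = cmp ℓ (key ℓ (bx k a)) (w1 + w2 + w3) := by
      refine Wt_ext h.lab hw (cmp_mem _ _) fun x hx => ?_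
      have h1 := e3 x hx fun k h0 => h0.elim
      rw [ev_sub, ev_sub] at h1
      rw [ev_cmp h.lab _ hx, ev_add, ev_add, ← h1]
      ring
    rw [e]
    exact cmp_mem_Tr h _ (add_mem (add_mem t1 t2) t3)
  · have e : bx k a = CU.RN.bx (bx k a 0) := by
      funext j
      fin_cases j
      · rfl
      · exact if_neg (by simp; omega)
      · exact if_neg (by simp; omega)
    rw [e] at hw
    exact CU.RN.tr_bx h hT hw
  · congr 1
    funext j
    unfold tx
    split_ifs with e1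
    exacts [e _ e1, rfl]
  · rw [tx_add hk hi, Function.update_eq_self]
  · rw [ev_pull1]
    congr 1
    funext j
    unfold tx
    split_ifs
    exacts [rfl, hz.triv h (triv_c0 h.alg) e0_mem]

end Pool.Agent.P.MP_f1a348_lc.CE
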