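import Pool.Agent.P.MP_f1a348_lc.CE.Base2

/-!
Project CE: reduction to small support, the commutator subgroup and the index of `EU`.
-/

namespace Pool.Agent.P.MP_f1a348_lc.CE

open Matrix Module Pool.Agent.P.MP_f1a348_lc.PG Pool.Agent.P.MP_f1a348_lc.UP

namespace TGENR

variable {p n : ℕ} [Fact p.Prime] {ℓ : Ix n → ℕ} {B : Sub p n} {Q : QS p n} {U W : VS p n}
  {x y : Vec p n} {b c : Ix n}

theorem cb_comm (h : Str ℓ B) (a b : Ix n) :
    finrank (ZMod p) (Cb ℓ B a b) = finrank (ZMod p) (Cb ℓ B b a) := by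
  by_cases e : Cb ℓ B a b = ⊥
  · have e' : Cb ℓ B b a = ⊥ := by_contra fun c => cb_symm h c e
    rw [e, e']
  · rw [finrank_cb_eq h e, finrank_cb_eq h (cb_symm h e), eb_eq h e]

theorem sup_orb (h : Str ℓ B) (hW : Stab B W) (hx : x ∈ Vb ℓ b) (hn : x ∉ W) (c : Ix n) :
    finrank (ZMod p) ((W ⊔ orb (Com B) x) ⊓ Vb ℓ c : VS p n) =
      finrank (ZMod p) (W ⊓ Vb ℓ c : VS p n) + finrank (ZMod p) (Cb ℓ B c b) := by
  have h0 : x ≠ 0 := fun e => hn (e ▸ zero_mem _)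
  have h1 := Submodule.finrank_sup_add_finrank_inf_eq (W ⊓ Vb ℓ c) (orb (Com B) x ⊓ Vb ℓ c)
  have h2 : W ⊓ Vb ℓ c ⊓ (orb (Com B) x ⊓ Vb ℓ c) = ⊥ := by
    rw [eq_bot_iff]
    intro v hv
    by_contra e
    exact hn (mem_of_orb h hW hx hv.2.1 e hv.1.1)
  rw [h2, finrank_bot, add_zero, ← sup_inf_Vb h.alg hW (stab_orb x)] at h1
  rw [h1, orb_inf_Vb h.alg hx, finrank_orb_cb h hx h0]

/-- the invariant in one block -/
def Iv (ℓ : Ix n → ℕ) (B : Sub p n) (W : VS p n) (c : Ix n) : Prop :=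
  Rm ℓ B W c 9 ∨ finrank (ZMod p) (perp W ⊓ W ⊓ Vb ℓ c : VS p n) ≤ eb ℓ B c

theorem far (h : Str ℓ B) (hW : Stab B W) (hx : x ∈ Vb ℓ b) (e1 : Cb ℓ B c b = ⊥)
    (e2 : Cb ℓ B c.rev b = ⊥) (H : Iv ℓ B W c) : Iv ℓ B (W ⊔ orb (Com B) x) c := by
  have k : ∀ a, Cb ℓ B a b = ⊥ → (W ⊔ orb (Com B) x) ⊓ Vb ℓ a = W ⊓ Vb ℓ a := fun a e => by
    rw [sup_inf_Vb h.alg hW (stab_orb x), orb_inf_Vb h.alg hx, e, orb, Submodule.map_bot,
      sup_bot_eq]
  have h1 := finrank_perp_Vb h hW c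
  have h2 := finrank_perp_Vb h (hW.sup (stab_orb x)) c
  rw [k _ e2] at h2
  have h3 := Submodule.finrank_mono (show perp (W ⊔ orb (Com B) x) ⊓ (W ⊔ orb (Com B) x) ⊓ Vb ℓ c ≤
      perp W ⊓ W ⊓ Vb ℓ c by
    rw [inf_assoc, k _ e1, inf_assoc]; exact inf_le_inf_right _ (perp_anti le_sup_left))
  unfold Iv Rm at H ⊢
  omega

theorem partner (h : Str ℓ B) (hW : Stab B W) (hy : y ∈ perp W ⊓ W ⊓ Vb ℓ b) (hx : x ∈ Vb ℓ b.rev)
    (e : ip y x ≠ 0) (H : Iv ℓ B W c) : Iv ℓ B (W ⊔ orb (Com B) x) c := by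
  have hn : x ∉ W := fun a => e (by rw [ip_comm]; exact hy.1.1 x a)
  have hR := (hW.perp h.alg).inf hW
  have hR' := hR.inf ((stab_orb (B := B) x).perp h.alg)
  have h1 := finrank_perp_Vb h hW c
  have h2 := finrank_perp_Vb h (hW.sup (stab_orb x)) c
  rw [sup_orb h hW hx hn, finrank_cb_rev h, cb_comm h] at h2
  have h3 := sup_orb h hR' hy.2 (fun a => e (by rw [ip_comm]; exact a.2 x (self_mem_orb x))) c
  have h4 := Submodule.finrank_mono (inf_le_inf_right (Vb ℓ c)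
    (sup_le inf_le_left (hR.orb_le hy.1) :
      perp W ⊓ W ⊓ perp (orb (Com B) x) ⊔ orb (Com B) y ≤ perp W ⊓ W))
  have h5 := Submodule.finrank_mono (inf_le_inf_right (Vb ℓ c)
    (show perp (W ⊔ orb (Com B) x) ⊓ (W ⊔ orb (Com B) x) ≤ perp W ⊓ W ⊓ perp (orb (Com B) x) from
      fun v hv => by
      obtain ⟨a1, a2⟩ := mem_perp_sup.1 hv.1
      obtain ⟨w, hw, t, ht, rfl⟩ := Submodule.mem_sup.1 hv.2
      by_cases t0 : t = 0
      · exact ⟨⟨a1, by rwa [t0, add_zero]⟩, a2⟩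
      · refine (e (mem_of_orb h ((stab_orb y).perp h.alg) hx ht t0 ?_ y (self_mem_orb y))).elim
        simpa using sub_mem (perp_anti (hW.orb_le hy.1.2) a1) (perp_of_perp h.alg hW hy.1.1 hw)))
  unfold Iv Rm at H ⊢
  omega

theorem near (h : Str ℓ B) (hW : Stab B W) (hx : x ∈ Vb ℓ b) {a : Ix n} (e : Cb ℓ B c a ≠ ⊥)
    (h0 : perp W ⊓ W ⊓ Vb ℓ a = ⊥) : Iv ℓ B (W ⊔ orb (Com B) x) c := by
  have h1 := finrank_im_inf h ((hW.perp h.alg).inf hW) e
  rw [h0, finrank_bot] at h1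
  have h2 := finrank_perp_sup_inf h.alg hW (small_orb h hx) (perp (W ⊔ orb (Com B) x)) c
  have h3 := Submodule.finrank_mono (inf_le_inf_right (Vb ℓ c) (inf_le_inf_right W
    (perp_anti le_sup_left)) : perp (W ⊔ orb (Com B) x) ⊓ W ⊓ Vb ℓ c ≤ perp W ⊓ W ⊓ Vb ℓ c)
  exact Or.inr (by omega)

/-- the elements that fix `U` can be moved to elements that fix `W` -/
def Pw (ℓ : Ix n → ℕ) (B : Sub p n) (Q : QS p n) (U W : VS p n) : Prop :=
  Stab B W ∧ U ≤ W ∧ ∀ y, UQ B Q y → Fx U y → ∃ e ∈ EW ℓ B Q U, Fx W (e * y)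

theorem step (hMV2 : C_MV2 p n) (G : Geo ℓ B Q) (H : Pw ℓ B Q U W) (hx : x ∈ Vb ℓ b) (hn : x ∉ W)
    (hb : ¬ Triv ℓ B b → Rm ℓ B W b 9) : Pw ℓ B Q U (W ⊔ orb (Com B) x) := by
  refine ⟨H.1.sup (stab_orb x), H.2.1.trans le_sup_left, fun y hy hU => ?_⟩
  obtain ⟨e, he, hf⟩ := H.2.2 y hy hU
  have hg := (ew_uq G he).mul G.str hy
  by_cases t : Triv ℓ B b
  · exact ⟨e, he, hf.sup (fx_orb hg.mem (hg.1.triv G.str t hx))⟩
  · obtain ⟨-, e2, h2, h3⟩ := hMV2 ℓ B Q W b ((e * y) *ᵥ x) x G H.1 t (hb t) (hg.vb G.str hx)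
      (hf.not_mem hg.un hn) ⟨hx, by simpa using neg_mem (hf.sub_mem hg.un x),
        fun θ hθ => (hg.2 θ hθ x).symm, hn⟩
    refine ⟨e2 * e, mul_mem (ew_anti H.2.1 h2) he, ?_⟩
    rw [mul_assoc]
    exact ((ew_fx G.str.alg H.1 h2).mul hf).sup (fx_orb ((ew_uq G h2).mul G.str hg).mem
      (by rw [← Matrix.mulVec_mulVec, h3]))

end TGENR

open TGENR in
theorem c_GENR (p n : Nat) [Fact p.Prime] (hMV2 : C_MV2 p n) (hCW : C_CW p n) : C_GENR p n := by
  intro ℓ B Q U r G hU hB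
  have h := G.str
  obtain ⟨W, ⟨hP, hI⟩, hmax⟩ := set_has_maximal_iff_noetherian.2
    (inferInstance : IsNoetherian (ZMod p) (Vec p n))
    {W : VS p n | Pw ℓ B Q U W ∧ ∀ c, ¬ Triv ℓ B c → Iv ℓ B W c}
    ⟨U, ⟨hU.1, le_rfl, fun y _ hy => ⟨1, one_mem _, by rwa [one_mul]⟩⟩,
      fun c t => Or.inl (rm_of_small h hU (hB c t))⟩
  have hW := hP.1
  have key : ∀ b x, x ∈ Vb ℓ b → (¬ Triv ℓ B b → Rm ℓ B W b 9) →
      (∀ c, ¬ Triv ℓ B c → Iv ℓ B (W ⊔ orb (Com B) x) c) → x ∈ W := fun b x hx hb hc => by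
    by_contra hn
    exact hmax _ ⟨step hMV2 G hP hx hn hb, hc⟩
      (lt_of_le_of_ne le_sup_left fun e => hn (e ▸ Submodule.mem_sup_right (self_mem_orb x)))
  have k1 : ∀ b, Rm ℓ B W b 9 → perp W ⊓ W ⊓ Vb ℓ b = ⊥ := fun b hb => by
    refine (Submodule.eq_bot_iff _).2 fun y hy => eq_zero_of_ip h.lab (b := b.rev)
      (by rw [Fin.rev_rev]; exact hy.2) fun x hx => ?_
    by_contra e
    have := key _ x hx (fun _ => hb.rev h hW) fun c t => partner h hW hy hx e (hI c t)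
    exact e (by rw [ip_comm]; exact hy.1.1 x this)
  have k2 : ∀ b, ¬ Rm ℓ B W b 9 := fun b hb => by
    obtain ⟨x, hx, -, hn⟩ := (hb.mono (by omega)).out h hW small_bot
    refine hn (Submodule.mem_sup_left (key b x hx (fun _ => hb) fun c t => ?_))
    by_cases e1 : Cb ℓ B c b = ⊥
    · by_cases e2 : Cb ℓ B c.rev b = ⊥
      · exact far h hW hx e1 e2 (hI c t)
      · refine near h hW hx (a := b.rev) ?_ (k1 _ (hb.rev h hW))
        simpa using cb_symm h (cb_rev h e2)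
    · exact near h hW hx e1 (k1 b hb)
  have hS : Small ℓ B 10 (perp W) := ⟨hW.perp h.alg, fun a => by
    by_cases t : Triv ℓ B a
    · have h1 := finrank_perp_Vb h hW a
      have t' := (triv_rev h).2 t
      rw [inf_eq_right.2 (show Vb ℓ a.rev ≤ W from fun x hx => key _ x hx (fun c => (c t').elim)
        fun c hc => far h hW hx (cb_eq_bot' h hc t') (cb_eq_bot' h (by rwa [triv_rev h]) t')
          (hI c hc)), finrank_Vb, h.lab.nb_rev] at h1
      omega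
    · have h1 := k2 a
      have h2 := (hI a t).resolve_left h1
      unfold Rm at h1
      omega⟩
  refine ⟨W, hW, hP.2.1, hS, fun y hy hf => ?_⟩
  obtain ⟨e, he, h1⟩ := hP.2.2 y hy hf
  have hg := (ew_uq G he).mul h hy
  exact ⟨e, he, h1, hS.of_le (stab_im (sub_mem hg.mem h.alg.one)) (h1.im_le hg.un)⟩

theorem c_ABEL (p n : Nat) [Fact p.Prime] (hGENR : C_GENR p n) (hTRU : C_TRU p n) :
    C_ABEL p n := by
  intro ℓ B Q G hB a b ha hb
  have h := G.str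
  obtain ⟨W, -, -, -, H⟩ := hGENR ℓ B Q ⊥ 0 G small_bot fun c t => le_trans (by omega) (hB c t)
  obtain ⟨e, he, -, hS⟩ := H a ha fx_bot
  obtain ⟨f, hf, h1⟩ := hTRU ℓ B Q ⊥ _ 10 b G stab_bot hS
    (fun c t => rm_of_small h small_bot (le_trans (by omega) (hB c t))) hb fx_bot
  have ue := ew_uq G he
  have uf := ew_uq G hf
  have ua := ue.mul h ha
  have ub := uf.mul h hb
  have c := (os_of_fx' ub.un ua.un (h1.anti le_sup_right)).comm
  have k := mul_mem (mul_mem (mul_mem (eu_star G.adm (ew_le_eu G he))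
    (eu_conj h.alg ua (eu_star G.adm (ew_le_eu G hf)))) (eu_conj h.alg ub (ew_le_eu G he)))
    (ew_le_eu G hf)
  have e1 : a = st e * (e * a) := by rw [← mul_assoc, ue.un.st_mul, one_mul]
  have e2 : b = st f * (f * b) := by rw [← mul_assoc, uf.un.st_mul, one_mul]
  generalize e * a = a' at *
  generalize f * b = b' at *
  have e3 : st a' * b' = b' * st a' := by
    rw [← mul_one (st a' * b'), ← ua.un.mul_st, ← mul_assoc, mul_assoc _ b', c, ← mul_assoc,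
      ua.un.st_mul, one_mul]
  have e4 : ∀ z, st a' * (b' * z) = b' * (st a' * z) := fun z => by
    rw [← mul_assoc, e3, mul_assoc]
  rw [e1, e2]
  simpa only [st_mul, st_st, mul_assoc, e4] using k

theorem c_IDX (p n : Nat) [Fact p.Prime] (hGENR : C_GENR p n) (hHD : C_HD p n)
    (hIDX1 : C_IDX1 p n) : C_IDX p n := by
  classical
  intro ℓ B Q G hB
  have h := G.str
  obtain ⟨W, -, -, hS, H⟩ := hGENR ℓ B Q ⊥ 0 G small_bot fun c t => le_trans (by omega) (hB c t)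
  obtain ⟨f, hf⟩ := hIDX1 ℓ B Q G
  let T : Sub p n := ann B (perp W) ⊤
  have hT := hHD ℓ B T _ 10 h hS (fun _ a => a.1) fun _ a v => a.2 v trivial
  have hg : ∀ v, ∃ z, (∃ z, U1 B z ∧ f z = v) → U1 B z ∧ f z = v := fun v => by
    by_cases e : ∃ z, U1 B z ∧ f z = v
    · exact ⟨e.choose, fun _ => e.choose_spec⟩
    · exact ⟨1, fun c => (e c).elim⟩
  choose g hg using hg
  refine ⟨(Finset.univ.image fun q : Vec p n × T => g q.1 * st (1 + q.2.1)).filter (U1 B), ?_,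
    fun t ht => (Finset.mem_filter.1 ht).2, fun z hz => ?_⟩
  · refine (Finset.card_filter_le _ _).trans (Finset.card_image_le.trans ?_)
    rw [Finset.card_univ, Fintype.card_prod, Module.card_eq_pow_finrank (K := ZMod p) (V := T),
      Fintype.card_fun, ZMod.card, Fintype.card_fin, ← pow_add]
    exact Nat.pow_le_pow_right (Fact.out : p.Prime).pos (by omega)
  · obtain ⟨h1, h2⟩ := hg (f z) ⟨z, hz, rfl⟩
    have u := (hf z _ hz h1 h2.symm).star h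
    obtain ⟨e, he, h3, -⟩ := H _ u fx_bot
    have ue := ew_uq G he
    have u2 := ue.mul h u
    refine ⟨z * st e, Finset.mem_filter.2 ⟨Finset.mem_image.2 ⟨(f z, ⟨e * st (st (g (f z)) * z) - 1,
      sub_mem u2.mem h.alg.one, fun v _ => h3.im_le u2.un (mem_im.2 ⟨v, rfl⟩)⟩), Finset.mem_univ _,
      ?_⟩, hz.mul h.lab h.alg (ue.star h).1⟩, ?_⟩
    · simp only [add_sub_cancel, st_mul, st_st]
      rw [← mul_assoc, ← mul_assoc, h1.2.1.mul_st, one_mul]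
    · rw [st_mul, st_st, mul_assoc, hz.2.1.st_mul, mul_one]
      exact ew_le_eu G he

end Pool.Agent.P.MP_f1a348_lc.CE
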