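import Pool.Agent.P.MP_f1a348_lc.CE.Base2

namespace Pool.Agent.P.MP_f1a348_lc.CE

open Matrix Module Pool.Agent.P.MP_f1a348_lc.PG Pool.Agent.P.MP_f1a348_lc.UP

namespace TMOVE1

variable {p n : ℕ} [Fact p.Prime] {ℓ : Ix n → ℕ} {B : Sub p n} {Q : QS p n} {g : Mat p n}
  {u v : Vec p n} {x : Tup p n} {W : VS p n} {b : Ix n} {a : ℕ → Ix n} {k : ℕ}

theorem key (h : Str ℓ B) (hg : UQ B Q g) (e : Fx W g) (huv : g *ᵥ u = v)
    (H : GenW ℓ B Q (W ⊔ orb (Com B) u) k a x) :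
    GenW ℓ B Q (W ⊔ orb (Com B) v) k a (act g x) := by
  subst huv
  refine ⟨⟨fun i hi => hg.vb h (H.mem i hi), fun C hC hs => H.ind C hC ?_⟩,
    fun i hi => hg.sing (H.sing i hi), fun i hi => mem_perp_sup.2
      ⟨e.perp hg.un (mem_perp_sup.1 (H.prp i hi)).1,
        perp_orb_map hg.mem hg.un (mem_perp_sup.1 (H.prp i hi)).2⟩,
    fun i hi j hj => perp_orb_map hg.mem hg.un (H.orth i hi j hj)⟩
  have := (e.star hg.un).map_sup (hg.star h).mem hs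
  rw [hg.un.st_mulVec, Matrix.mulVec_sum] at this
  rwa [Finset.sum_congr rfl fun i _ => by
    rw [act_apply, com_mulVec (hC i) hg.mem, hg.un.st_mulVec]] at this

omit [Fact p.Prime] in
theorem inv (hu : Un g) (e : g *ᵥ u = v) : st g *ᵥ v = u := by rw [← e, hu.st_mulVec]

theorem orb_map' (h : Str ℓ B) (hg : UQ B Q g) (e : Fx W g) (H : Orb ℓ Q W b u v) :
    Orb ℓ Q W b u (g *ᵥ v) :=
  ⟨hg.vb h H.mem, by simpa using add_mem (e.sub_mem hg.un v) H.prp,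
    fun θ hθ => by rw [hg.2 θ hθ, H.val θ hθ], e.not_mem hg.un H.out⟩

end TMOVE1

open TMOVE1 in
theorem c_MOVE1 (p n : ℕ) [Fact p.Prime] (hMV2 : C_MV2 p n) : C_MOVE1 p n := by
  intro ℓ B Q L d M _ _ ρ W b u k a F G hL hM hW nt rm hu hn E
  have ex : ∀ v, ∃ e, Orb ℓ Q W b u v → e ∈ L ∧ UQ B Q e ∧ Fx W e ∧ e *ᵥ u = v := fun v => by
    by_cases h : Orb ℓ Q W b u v
    · obtain ⟨e, he, h1⟩ := (hMV2 ℓ B Q W b u v G hW nt rm hu hn h).2
      exact ⟨e, fun _ => ⟨hL.eu e (ew_le_eu G he), ew_uq G he, ew_fx G.str.alg hW he, h1⟩⟩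
    · exact ⟨1, fun h' => (h h').elim⟩
  choose e he using ex
  have gen : ∀ v, Orb ℓ Q W b u v → ∀ j a' x, GenW ℓ B Q (W ⊔ orb (Com B) v) j a' x →
      GenW ℓ B Q (W ⊔ orb (Com B) u) j a' (act (st (e v)) x) := fun v h j a' x hx => by
    obtain ⟨-, h2, h3, h4⟩ := he v h
    exact key G.str (h2.star G.str) (h3.star h2.un) (inv h2.un h4) hx
  have loc : ∀ v x y, (∀ i < k, x i = y i) →
      ρ (e v) (F (act (st (e v)) x)) = ρ (e v) (F (act (st (e v)) y)) := fun v x y h =>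
    congrArg _ (E.loc _ _ fun i hi => by rw [act_apply, act_apply, h i hi])
  refine ⟨fun v x => ρ (e v) (F (act (st (e v)) x)), loc, fun v h => ⟨loc v, fun i hi x hx => ?_⟩,
    fun g hg fg v h x hx => ?_, ?_⟩
  · rw [act_update, act_update, Matrix.mulVec_add, ← map_add]
    exact congrArg _ (E.add i hi _ (gen v h _ _ x hx))
  · have ug := hL.uq g hg
    obtain ⟨a1, a2, a3, a4⟩ := he v h
    obtain ⟨b1, b2, b3, b4⟩ := he _ (orb_map' G.str ug fg h)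
    have m1 := hL.grp.mul _ hg _ a1
    have m2 := hL.grp.mul _ (hL.grp.star _ b1) _ m1
    have f1 : Fx (W ⊔ orb (Com B) u) (st (e (g *ᵥ v)) * (g * e v)) :=
      ((b3.star b2.un).mul (fg.mul a3)).sup (fx_orb (hL.uq _ m2).mem (by
        rw [← Matrix.mulVec_mulVec, ← Matrix.mulVec_mulVec, a4]
        exact inv b2.un b4))
    have f2 := E.eqv _ m2 f1 _ (gen v h _ _ x hx)
    rw [← PG.act_mul, mul_assoc, mul_assoc, a2.un.mul_st, mul_one, PG.act_mul] at f2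
    show ρ _ (F _) = ρ g (ρ _ (F _))
    rw [f2, ← Module.End.mul_apply, ← Module.End.mul_apply, ← hM.mul _ b1 _ m2,
      ← hM.mul _ hg _ a1, ← mul_assoc, b2.un.mul_st, one_mul]
  · obtain ⟨x, hx, h0⟩ := E.ne
    have h : Orb ℓ Q W b u u := ⟨hu, by rw [sub_self]; exact zero_mem _, fun _ _ => rfl, hn⟩
    obtain ⟨a1, a2, a3, a4⟩ := he u h
    refine ⟨x, hx, ?_⟩
    show ρ _ (F _) ≠ 0
    rwa [← E.eqv _ a1 (a3.sup (fx_orb a2.mem a4)) _ (gen u h _ _ x hx), ← PG.act_mul, a2.un.mul_st,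
      act_one]

end Pool.Agent.P.MP_f1a348_lc.CE
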