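import Pool.Agent.P.MP_f1a348_lc.CE.Base

/-! Fullness of the stabiliser of the quadratic functions. -/

namespace Pool.Agent.P.MP_f1a348_lc.CE

open Matrix Module Pool.Agent.P.MP_f1a348_lc.PG Pool.Agent.P.MP_f1a348_lc.UP

namespace TTFT

set_option linter.unusedSectionVars false

variable {p n : ℕ} [Fact p.Prime] {ℓ : Ix n → ℕ} {B : Sub p n} {Y : Set (Mat p n)}

/-- all quadratic functions -/
def Q2 (p n : ℕ) : QS p n where
  carrier := {θ | ∃ C, Pol θ C}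
  add_mem' := by
    rintro θ η ⟨C, a⟩ ⟨D, b⟩
    refine ⟨C + D, fun x y => ?_⟩
    simp only [Pi.add_apply, a x y, b x y, Matrix.add_mulVec, ip_add_left]; ring
  zero_mem' := ⟨0, fun x y => by simp⟩
  smul_mem' := by
    rintro c θ ⟨C, a⟩
    refine ⟨c • C, fun x y => ?_⟩
    simp only [Pi.smul_apply, smul_eq_mul, a x y, Matrix.smul_mulVec, ip_smul_left]; ring

/-- the action on quadratic functions -/
noncomputable def cq (z : Mat p n) : Module.End (ZMod p) (Q2 p n) :=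
  (cmpf z).restrict fun _ ⟨_, h⟩ => ⟨_, h.comp z⟩

theorem cq_val (z : Mat p n) (θ : Q2 p n) (x : Vec p n) : (cq z θ).1 x = θ.1 (z *ᵥ x) := rfl

theorem dif_cq (l : List (Mat p n)) (θ : Q2 p n) : (dif cq l θ).1 = dif cmpf l θ.1 := by
  induction l with
  | nil => rfl
  | cons y l ih =>
    have e1 : dif cq (y :: l) = (cq y - 1) * dif cq l := by simp [dif]
    have e2 : dif cmpf (y :: l) = (cmpf y - 1) * dif cmpf l := by simp [dif]
    rw [e1, e2, Module.End.mul_apply, Module.End.mul_apply, ← ih]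
    rfl

theorem span_mul (g : Grp Y) : ∀ x ∈ Submodule.span (ZMod p) Y, ∀ y ∈ Submodule.span (ZMod p) Y,
    x * y ∈ Submodule.span (ZMod p) Y := fun x hx y hy => by
  have := Submodule.mul_mem_mul hx hy
  rw [Submodule.span_mul_span] at this
  refine Submodule.span_mono ?_ this
  rintro _ ⟨a, ha, b, hb, rfl⟩
  exact g.mul a ha b hb

theorem span_tri (hY : ∀ y ∈ Y, Tri ℓ y) : ∀ x ∈ Submodule.span (ZMod p) Y, Tri ℓ x :=
  fun _ hx =>
    have e : Submodule.span (ZMod p) Y ≤ Tf ℓ 0 :=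
      Submodule.span_le.2 fun y hy => ⟨hY y hy, fun α β e => (hY y hy α β e).1⟩
    (e hx).1

/-- images of groups under homomorphisms -/
theorem grp_image (g : Grp Y) (φ : Mat p n → Mat p n) (h1 : φ 1 = 1)
    (hm : ∀ a ∈ Y, ∀ b ∈ Y, φ (a * b) = φ a * φ b) (hs : ∀ a, φ (st a) = st (φ a)) :
    Grp (φ '' Y) where
  one := ⟨1, g.one, h1⟩
  mul := by
    rintro _ ⟨a, ha, rfl⟩ _ ⟨b, hb, rfl⟩
    exact ⟨a * b, g.mul a ha b hb, hm a ha b hb⟩
  un := by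
    rintro _ ⟨a, ha, rfl⟩
    rw [Un, ← hs, ← hm _ (g.star a ha) a ha, (g.un a ha).st_mul, h1]
  star := by
    rintro _ ⟨a, ha, rfl⟩
    exact ⟨st a, g.star a ha, hs a⟩

theorem pps_image (q : PPs Y) (φ : Mat p n → Mat p n)
    (hm : ∀ a ∈ Y, ∀ b ∈ Y, φ (a * b) = φ a * φ b) : PPs (φ '' Y) := by
  rintro f hf _ ⟨a, ha, rfl⟩
  exact q (fun x => f (φ x)) (fun a ha b hb => by
    rw [hm a ha b hb]; exact hf _ ⟨a, ha, rfl⟩ _ ⟨b, hb, rfl⟩) a ha

theorem spans_gr (h : Str ℓ B) (g : Grp Y) (q : PPs Y) (hY : ∀ y ∈ Y, Par ℓ y)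
    (e : Submodule.span (ZMod p) (gr ℓ '' Y) = B) : Spans B (gr ℓ '' Y) :=
  have hm : ∀ a ∈ Y, ∀ b ∈ Y, gr ℓ (a * b) = gr ℓ a * gr ℓ b := fun a ha b hb =>
    gr_mul (hY a ha).1 (hY b hb).1
  ⟨grp_image g _ gr_one hm (gr_st h.lab), pps_image q _ hm, by
    rintro _ ⟨y, hy, rfl⟩
    exact ⟨e ▸ Submodule.subset_span ⟨y, hy, rfl⟩, ((hY y hy).gr h.lab).2⟩, e⟩

theorem fr_eq (f : GG p n) (x : Mat p n) : fr f x = st f.1 * x * f.1 := by
  simp [fr]

theorem fr_mul (f : GG p n) (x y : Mat p n) : fr f (x * y) = fr f x * fr f y := by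
  simp only [fr_eq, mul_assoc]
  rw [← mul_assoc f.1, f.2.2.1.mul_st, one_mul]

theorem fr_back (f : GG p n) (x : Mat p n) : f.1 * fr f x * st f.1 = x := by
  simp only [fr_eq, mul_assoc]
  rw [f.2.2.1.mul_st, mul_one, ← mul_assoc, f.2.2.1.mul_st, one_mul]

end TTFT

open TTFT

theorem c_TFT (p n : ℕ) [Fact p.Prime] (hDEG : C_DEG p n) (hLIFT : C_LIFT p n)
    (hTA : C_TA p n) : C_TFT p n := by
  intro ℓ B Y h hb g q hY e
  have hs := spans_gr h g q hY e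
  have hm := span_mul g
  have hT := span_tri fun y hy => (hY y hy).1
  have hB : ∀ y ∈ Submodule.span (ZMod p) Y, gr ℓ y ∈ B := fun y hy => by
    rw [← e, ← Submodule.map_span]; exact ⟨y, hy, rfl⟩
  generalize hA : Submodule.span (ZMod p) Y = A at hm hT hB ⊢
  have hle : ∀ y ∈ Y, y ∈ A := fun y hy => hA ▸ Submodule.subset_span hy
  have key : ∀ S : Set (Fn p n), S.Finite → S ⊆ QY A Y → ∀ z ∈ EU B (QY B (gr ℓ '' Y)),
      ∃ u, (u ∈ A ∧ Par ℓ u ∧ ∀ θ ∈ S, ∀ x, θ (u *ᵥ x) = θ x) ∧ gr ℓ u = z := fun S hS => by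
    induction S, hS using Set.Finite.induction_on with
    | empty =>
      intro _ z hz
      obtain ⟨y, a, b, c⟩ := hTA ℓ B A Y h hb (hle 1 g.one) hm hT
        (fun y hy => ⟨hle y hy, hY y hy⟩) hs z hz
      exact ⟨y, ⟨a, b, fun _ c => c.elim⟩, c⟩
    | @insert θ S _ _ ih =>
      intro hS z hz
      have m := hS (Set.mem_insert θ S)
      have hS' := (Set.subset_insert θ S).trans hS
      let t : Q2 p n := ⟨θ, m.1.imp fun _ c => c.2⟩
      obtain ⟨y, ⟨⟨a1, a2, a3⟩, a4⟩, a5⟩ := hLIFT ℓ B 2 (Q2 p n) cq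
        (fun u w => (u ∈ A ∧ Par ℓ u ∧ ∀ θ ∈ S, ∀ x, θ (u *ᵥ x) = θ x) ∧ w = cq u t - t) Y h hb
        (by omega)
        ⟨LinearMap.ext fun w => Subtype.ext (funext fun x => by
            rw [cq_val, Matrix.one_mulVec]; rfl),
          fun y z _ _ _ _ => LinearMap.ext fun w => Subtype.ext (funext fun x => by
            rw [Module.End.mul_apply, cq_val, cq_val, cq_val, Matrix.mulVec_mulVec]),
          fun l e1 _ e3 => LinearMap.ext fun w => Subtype.ext (by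
            obtain ⟨C, hC⟩ := w.2
            rw [dif_cq, ((hDEG l e3).2 e1).2.2 _ C hC]; rfl),
          fun z w k => ⟨k.1.2.1, hB z k.1.1⟩,
          ⟨⟨hle 1 g.one, Par.one, fun _ _ x => by rw [Matrix.one_mulVec]⟩,
            Subtype.ext (funext fun x => by
              change (0 : ZMod p) = θ ((1 : Mat p n) *ᵥ x) - θ x
              rw [Matrix.one_mulVec, sub_self])⟩,
          by
            rintro z _ y _ ⟨⟨a1, a2, a3⟩, rfl⟩ ⟨⟨b1, b2, b3⟩, rfl⟩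
            refine ⟨⟨hm z a1 y b1, a2.mul b2, fun η hη x => by
              rw [← Matrix.mulVec_mulVec, a3 η hη, b3 η hη]⟩, Subtype.ext (funext fun x => ?_)⟩
            change θ (z *ᵥ (y *ᵥ x)) - θ (y *ᵥ x) + (θ (y *ᵥ x) - θ x) = θ ((z * y) *ᵥ x) - θ x
            rw [Matrix.mulVec_mulVec]; ring⟩
        hs (fun y hy => ⟨⟨hle y hy, hY y hy, fun η hη => (hS' hη).2 y hy⟩,
          Subtype.ext (funext fun x => by
            change (0 : ZMod p) = θ (y *ᵥ x) - θ x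
            rw [m.2 y hy, sub_self])⟩)
        (fun z hz => let ⟨u, a, b⟩ := ih hS' z hz; ⟨u, _, ⟨a, rfl⟩, b⟩) (by omega) z hz
      refine ⟨y, ⟨a1, a2, fun η hη x => ?_⟩, a5⟩
      rcases hη with rfl | hη
      · have : (0 : ZMod p) = η (y *ᵥ x) - η x := congrFun (congrArg Subtype.val a4) x
        exact sub_eq_zero.1 this.symm
      · exact a3 η hη x
  intro z hz
  obtain ⟨u, ⟨a1, a2, a3⟩, a4⟩ := key _ (Set.toFinite _) subset_rfl z hz
  exact ⟨u, ⟨⟨a1, a2.2⟩, a3⟩, a4⟩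

theorem c_TF3 (p n : ℕ) [Fact p.Prime] (hTFT : C_TFT p n) : C_TF3 p n := by
  intro ℓ f Y g q hY hT h hb z hz
  have hf := f.2.2.1
  have e1 : Submodule.span (ZMod p) (fr f '' Y) = (Submodule.span (ZMod p) Y).map (fr f) :=
    (Submodule.map_span _ _).symm
  have pf : ∀ y, Par (l0 n) y → Par (l0 n) (fr f y) := fun y hy => by
    rw [fr_eq]; exact ((f.2.star lab_l0).mul hy).mul f.2
  obtain ⟨_, ⟨⟨⟨u, hu, rfl⟩, a2⟩, a3⟩, a4⟩ : ∃ u, UQ ((Submodule.span (ZMod p) Y).map (fr f))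
      (QY ((Submodule.span (ZMod p) Y).map (fr f)) (fr f '' Y)) u ∧ gr ℓ u = z := by
    rw [← e1]
    refine hTFT ℓ _ (fr f '' Y) h hb
      (grp_image g _ (by rw [fr_eq, mul_one, hf.st_mul]) (fun a _ b _ => fr_mul f a b) fun a => by
        rw [fr_eq, fr_eq, st_mul, st_mul, st_st, mul_assoc])
      (pps_image q _ fun a _ b _ => fr_mul f a b) ?_ ?_ z (by rwa [Set.image_image])
    · rintro _ ⟨y, hy, rfl⟩
      exact ⟨hT y (Submodule.subset_span hy), (pf y (hY y hy)).2⟩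
    · rw [gB, Submodule.map_span, Set.image_image]; rfl
  have tu : Tri (l0 n) u := span_tri (fun y hy => (hY y hy).1) u hu
  have pu : Par (l0 n) u := by
    have t : Tri (l0 n) (fr f u) := by
      rw [fr_eq]; exact ((f.2.star lab_l0).1.mul tu).mul f.2.1
    rw [← fr_back f u]
    exact (f.2.mul ⟨t, a2⟩).mul (f.2.star lab_l0)
  refine ⟨u, ⟨⟨hu, pu.2⟩, fun θ ⟨⟨C, hC, pC⟩, iv⟩ x => ?_⟩, a4⟩
  have k : ∀ y x, f.1 *ᵥ (fr f y *ᵥ x) = y *ᵥ (f.1 *ᵥ x) := fun y x => by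
    rw [fr_eq, ← Matrix.mulVec_mulVec, ← Matrix.mulVec_mulVec, hf.mulVec_st]
  have := a3 (fun x => θ (f.1 *ᵥ x)) ⟨⟨_, ?_, pC.comp f.1⟩, ?_⟩ (st f.1 *ᵥ x)
  · simpa only [k, hf.mulVec_st] using this
  · rintro _ ⟨b, hb, rfl⟩
    rw [← fr_eq, ← fr_mul, ← fr_mul, hC b hb]
  · rintro _ ⟨y, hy, rfl⟩ x
    simp only [k, iv y hy]

theorem c_TFULL (p n : ℕ) [Fact p.Prime] (hADM : C_ADM p n) (hPERF : C_PERF p n)
    (hABEL : C_ABEL p n) (hTFT : C_TFT p n) : C_TFULL p n := by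
  intro ℓ ℓ' B Bt B' Q Y s hb hb' hQ g q hY e
  have hT : ∀ b ∈ Bt, Tri ℓ' b := fun b hb => by simpa using s.ref.tri b hb
  have hP : ∀ y ∈ Y, Par ℓ' y := fun y hy => ⟨hT y (hY y hy).2, (hY y hy).1.1.2⟩
  have hs := spans_gr s.str' g q hP e
  have le : Submodule.span (ZMod p) Y ≤ Bt := Submodule.span_le.2 fun y hy => (hY y hy).2
  have G : Geo ℓ B Q := ⟨s.str, hQ⟩
  have key : ∀ z ∈ EU B' (QY B' (gr ℓ' '' Y)), ∃ u, UQ B Q u ∧ u ∈ Bt ∧ gr ℓ' u = z :=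
    fun z hz => by
    obtain ⟨u, ⟨a1, a2⟩, a3⟩ := hTFT ℓ' B' Y s.str' hb' g q hP e z hz
    refine ⟨u, ⟨a1.mono (le.trans s.le), fun θ hθ => a2 θ ⟨?_, fun y hy => (hY y hy).1.2 θ hθ⟩⟩,
      le a1.1, a3⟩
    obtain ⟨C, hC, pC⟩ := hQ.pol θ hθ
    exact ⟨C, fun b hb => hC b (s.le (le hb)), pC⟩
  intro z hz
  have hz' := (hPERF ℓ' B' _ (hADM ℓ' B' _ s.str' hs.mem e).1
    fun a t => le_trans (by omega) (hb' a t)).2.1 hz
  clear hz
  induction hz' using Submonoid.closure_induction with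
  | mem z hz =>
    obtain ⟨a, ha, b, hb1, rfl⟩ := hz
    obtain ⟨u, u1, u2, rfl⟩ := key a ha
    obtain ⟨v, v1, v2, rfl⟩ := key b hb1
    have su := s.alg.star u u2
    have sv := s.alg.star v v2
    have m1 := s.alg.mul u u2 v v2
    have m2 := s.alg.mul _ m1 _ su
    refine ⟨u * v * st u * st v, hABEL ℓ B Q G (fun a t => le_trans (by omega) (hb a t)) u v u1 v1,
      s.alg.mul _ m2 _ sv, ?_⟩
    rw [gr_mul (hT _ m2) (hT _ sv), gr_mul (hT _ m1) (hT _ su), gr_mul (hT _ u2) (hT _ v2),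
      gr_st s.ref.lab, gr_st s.ref.lab]
  | one => exact ⟨1, one_mem _, s.alg.one, gr_one⟩
  | mul x y _ _ ihx ihy =>
    obtain ⟨u, u1, u2, rfl⟩ := ihx
    obtain ⟨v, v1, v2, rfl⟩ := ihy
    exact ⟨u * v, mul_mem u1 v1, s.alg.mul u u2 v v2, gr_mul (hT _ u2) (hT _ v2)⟩

end Pool.Agent.P.MP_f1a348_lc.CE
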