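import Pool.Agent.P.MP_f1a348_lc.CE.Base

/-!
Project CE: tuples of vectors.
-/

namespace Pool.Agent.P.MP_f1a348_lc.CE

open Matrix Module Pool.Agent.P.MP_f1a348_lc.PG Pool.Agent.P.MP_f1a348_lc.UP

set_option linter.unusedSectionVars false

namespace Tu

variable {p n : ℕ} [Fact p.Prime] {ℓ : Ix n → ℕ} {B : Sub p n} {Q : QS p n} {W U : VS p n}
  {k i j : ℕ} {a a' : ℕ → Ix n} {b : Ix n} {x y : Tup p n} {v : Vec p n} {g : Mat p n}

theorem orb_le (h : i < k) : orb (Com B) (x i) ≤ spn B k x :=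
  le_iSup₂_of_le (f := fun i (_ : i < k) => orb (Com B) (x i)) i h le_rfl

theorem mem (h : i < k) : x i ∈ spn B k x := orb_le h (self_mem_orb _)

theorem spn_le (hU : Stab B U) (h : ∀ i < k, x i ∈ U) : spn B k x ≤ U :=
  iSup₂_le fun i hi => hU.orb_le (h i hi)

theorem spn_zero : spn B 0 x = ⊥ := le_bot_iff.1 (spn_le stab_bot fun _ h => absurd h (by omega))

theorem spn_succ : spn B (k + 1) x = spn B k x ⊔ orb (Com B) (x k) :=
  le_antisymm (iSup₂_le fun i hi => by
    rcases Nat.lt_succ_iff_lt_or_eq.1 hi with h | rfl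
    · exact (orb_le h).trans le_sup_left
    · exact le_sup_right)
    (sup_le (iSup₂_le fun i hi => orb_le (by omega)) (orb_le (by omega)))

theorem stab : Stab B (spn B k x) := by
  induction k with
  | zero => rw [spn_zero]; exact stab_bot
  | succ k ih => rw [spn_succ]; exact ih.sup (stab_orb _)

theorem small (h : Str ℓ B) (hx : ∀ i < k, x i ∈ Vb ℓ (a i)) : Small ℓ B k (spn B k x) := by
  induction k with
  | zero => rw [spn_zero]; exact small_bot
  | succ k ih =>
    rw [spn_succ]; exact (ih fun i hi => hx i (by omega)).sup h.alg (small_orb h (hx k (by omega)))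

theorem spn_congr (e : ∀ i < k, x i = y i) : spn B k x = spn B k y :=
  le_antisymm (spn_le stab fun i hi => e i hi ▸ mem hi) (spn_le stab fun i hi => e i hi ▸ mem hi)

theorem spn_mono (h : j ≤ k) : spn B j x ≤ spn B k x := spn_le stab fun _ hi => mem (by omega)

theorem spn_upd (h : k ≤ j) : spn B k (Function.update x j v) = spn B k x :=
  spn_congr fun _ _ => Function.update_of_ne (by omega) _ _

theorem spn_snoc : spn B (k + 1) (Function.update x k v) = spn B k x ⊔ orb (Com B) v := by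
  rw [spn_succ, spn_upd le_rfl, Function.update_self]

theorem mem_perp_spn : v ∈ perp (spn B k x) ↔ ∀ i < k, v ∈ perp (orb (Com B) (x i)) := by
  refine ⟨fun h i hi => perp_anti (orb_le hi) h, fun h => ?_⟩
  induction k with
  | zero => rw [spn_zero, perp_bot]; trivial
  | succ k ih =>
    rw [spn_succ]; exact mem_perp_sup.2 ⟨ih fun i hi => h i (by omega), h k (by omega)⟩

theorem sum_mem {C : ℕ → Mat p n} (hC : ∀ i, C i ∈ Com B) :
    ∑ i ∈ Finset.range k, C i *ᵥ x i ∈ spn B k x :=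
  Submodule.sum_mem _ fun i hi => orb_le (Finset.mem_range.1 hi) (mem_orb_com (hC i) _)

theorem sum_upd (C : ℕ → Mat p n) (D : Mat p n) :
    ∑ i ∈ Finset.range (k + 1), Function.update C k D i *ᵥ x i =
      ∑ i ∈ Finset.range k, C i *ᵥ x i + D *ᵥ x k := by
  rw [Finset.sum_range_succ, Function.update_self]
  exact congrArg (· + _) (Finset.sum_congr rfl fun i hi => by
    rw [Function.update_of_ne (Finset.mem_range.1 hi).ne])

theorem upd_com {C : ℕ → Mat p n} {D : Mat p n} (hC : ∀ i, C i ∈ Com B) (hD : D ∈ Com B) (i : ℕ) :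
    Function.update C k D i ∈ Com B := by
  rcases eq_or_ne i k with rfl | h
  · rwa [Function.update_self]
  · rw [Function.update_of_ne h]; exact hC i

theorem ex_sum (h : v ∈ spn B k x) :
    ∃ C : ℕ → Mat p n, (∀ i, C i ∈ Com B) ∧ ∑ i ∈ Finset.range k, C i *ᵥ x i = v := by
  induction k generalizing v with
  | zero => rw [spn_zero] at h; exact ⟨0, fun _ => zero_mem _, by rw [(Submodule.mem_bot _).1 h]; rfl⟩
  | succ k ih =>
    rw [spn_succ] at h
    obtain ⟨u, hu, w, hw, rfl⟩ := Submodule.mem_sup.1 h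
    obtain ⟨C, hC, rfl⟩ := ih hu
    obtain ⟨D, hD, rfl⟩ := mem_orb.1 hw
    exact ⟨_, upd_com hC hD, sum_upd C D⟩

theorem ind_congr (h : Ind ℓ B W k a x) (e : ∀ i < k, a' i = a i) (e' : ∀ i < k, y i = x i) :
    Ind ℓ B W k a' y :=
  ⟨fun i hi => by rw [e i hi, e' i hi]; exact h.mem i hi, fun C hC hm i hi => by
    rw [e i hi]
    exact h.ind C hC (by
      rwa [Finset.sum_congr rfl fun i hi => by rw [e' i (Finset.mem_range.1 hi)]] at hm) i hi⟩

theorem gen_congr (h : GenW ℓ B Q W k a x) (e : ∀ i < k, a' i = a i) (e' : ∀ i < k, y i = x i) :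
    GenW ℓ B Q W k a' y :=
  ⟨ind_congr h.toInd e e', fun i hi => e' i hi ▸ h.sing i hi, fun i hi => e' i hi ▸ h.prp i hi,
    fun i hi j hj => by rw [e' i hi, e' j hj]; exact h.orth i hi j hj⟩

theorem ind_succ (S : Str ℓ B) (hW : Stab B W) : Ind ℓ B W (k + 1) a x ↔
    Ind ℓ B W k a x ∧ x k ∈ Vb ℓ (a k) ∧ x k ∉ W ⊔ spn B k x := by
  refine ⟨fun h => ⟨⟨fun i hi => h.mem i (by omega), fun C hC hm i hi => ?_⟩, h.mem k (by omega),
    fun e => ?_⟩, fun ⟨h, h1, h2⟩ => ⟨fun i hi => ?_, fun C hC hm => ?_⟩⟩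
  · have := h.ind _ (upd_com (k := k) hC (zero_mem _)) (by
      rwa [sum_upd, Matrix.zero_mulVec, add_zero]) i (by omega)
    rwa [Function.update_of_ne hi.ne] at this
  · obtain ⟨w, hw, u, hu, e⟩ := Submodule.mem_sup.1 e
    obtain ⟨C, hC, rfl⟩ := ex_sum hu
    have := h.ind _ (upd_com (k := k) hC (neg_mem com_one)) (by
      rw [sum_upd, Matrix.neg_mulVec, Matrix.one_mulVec, ← e]; simpa using hw) k (by omega)
    rw [Function.update_self, neg_mul, one_mul, neg_eq_zero] at this
    exact pr_ne_zero _ this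
  · rcases Nat.lt_succ_iff_lt_or_eq.1 hi with h' | rfl
    · exact h.mem i h'
    · exact h1
  · rw [Finset.sum_range_succ] at hm
    have h3 : C k *ᵥ x k = 0 := by
      by_contra h0
      exact h2 (mem_of_mulVec_mem S (hW.sup stab) h1 (hC k) h0 (by
        simpa using sub_mem (Submodule.mem_sup_left (T := spn B k x) hm)
          (Submodule.mem_sup_right (sum_mem hC))))
    rw [h3, add_zero] at hm
    intro i hi
    rcases Nat.lt_succ_iff_lt_or_eq.1 hi with h' | rfl
    · exact h.ind C hC hm i h'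
    · have h0 : x i ≠ 0 := fun e => h2 (e ▸ zero_mem _)
      refine mat_ext fun u => ?_
      rw [Matrix.zero_mulVec]
      refine mem_of_blocks (W := ⊥) S.lab fun c => ?_
      have := cb_inj S (cb_of_com S.alg (hC i) c (a i)) h1 h0 (by
        rw [cb_comp c h1, h3, Matrix.mulVec_zero])
      rw [Matrix.mulVec_mulVec, ← mul_assoc, this, Matrix.zero_mulVec]
      exact zero_mem _

theorem gen_succ (G : Geo ℓ B Q) (hW : Stab B W) : GenW ℓ B Q W (k + 1) a x ↔
    GenW ℓ B Q W k a x ∧ SV ℓ Q (W ⊔ spn B k x) (a k) (x k) ∧ x k ∉ W ⊔ spn B k x := by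
  refine ⟨fun h => ?_, fun ⟨h, h1, h2⟩ => ⟨(ind_succ G.str hW).2 ⟨h.toInd, h1.mem, h2⟩,
    fun i hi => ?_, fun i hi => ?_, fun i hi j hj => ?_⟩⟩
  · obtain ⟨h1, h2, h3⟩ := (ind_succ G.str hW).1 h.toInd
    exact ⟨⟨h1, fun i hi => h.sing i (by omega), fun i hi => h.prp i (by omega),
      fun i hi j hj => h.orth i (by omega) j (by omega)⟩, ⟨h2, h.sing k (by omega),
      mem_perp_sup.2 ⟨h.prp k (by omega),
        mem_perp_spn.2 fun i hi => h.orth i (by omega) k (by omega)⟩⟩, h3⟩
  · rcases Nat.lt_succ_iff_lt_or_eq.1 hi with h' | rfl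
    · exact h.sing i h'
    · exact h1.sing
  · rcases Nat.lt_succ_iff_lt_or_eq.1 hi with h' | rfl
    · exact h.prp i h'
    · exact (mem_perp_sup.1 h1.prp).1
  · have o := mem_perp_spn.1 (mem_perp_sup.1 h1.prp).2
    rcases Nat.lt_succ_iff_lt_or_eq.1 hi with h' | rfl <;>
      rcases Nat.lt_succ_iff_lt_or_eq.1 hj with h'' | rfl
    · exact h.orth i h' j h''
    · exact o i h'
    · exact perp_orb_symm G.str.alg (o j h'')
    · exact h1.sing.isot G.adm

theorem ind_snoc (S : Str ℓ B) (hW : Stab B W) (h : Ind ℓ B W k a x) (h1 : v ∈ Vb ℓ b)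
    (h2 : v ∉ W ⊔ spn B k x) :
    Ind ℓ B W (k + 1) (Function.update a k b) (Function.update x k v) :=
  (ind_succ S hW).2 (by
    rw [spn_upd le_rfl, Function.update_self, Function.update_self]
    exact ⟨ind_congr h (fun i hi => Function.update_of_ne hi.ne _ _)
      fun i hi => Function.update_of_ne hi.ne _ _, h1, h2⟩)

theorem gen_snoc (G : Geo ℓ B Q) (hW : Stab B W) (h : GenW ℓ B Q W k a x)
    (h1 : SV ℓ Q (W ⊔ spn B k x) b v) (h2 : v ∉ W ⊔ spn B k x) :
    GenW ℓ B Q W (k + 1) (Function.update a k b) (Function.update x k v) :=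
  (gen_succ G hW).2 (by
    rw [spn_upd le_rfl, Function.update_self, Function.update_self]
    exact ⟨gen_congr h (fun i hi => Function.update_of_ne hi.ne _ _)
      fun i hi => Function.update_of_ne hi.ne _ _, h1, h2⟩)

theorem gen_le (G : Geo ℓ B Q) (hW : Stab B W) (h : GenW ℓ B Q W k a x) (e : j ≤ k) :
    GenW ℓ B Q W j a x := by
  induction k with
  | zero => rwa [Nat.le_zero.1 e]
  | succ k ih =>
    rcases Nat.le_succ_iff.1 e with e | rfl
    · exact ih ((gen_succ G hW).1 h).1 e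
    · exact h

theorem swap_lt (hi : i < k) (hj : j < k) (m : ℕ) : Equiv.swap i j m < k ↔ m < k := by
  rw [Equiv.swap_apply_def]; split_ifs <;> omega

theorem ind_perm {σ : Equiv.Perm ℕ} (hσ : ∀ m, σ m < k ↔ m < k) (h : Ind ℓ B W k a x) :
    Ind ℓ B W k (a ∘ σ) (x ∘ σ) :=
  ⟨fun i hi => h.mem _ ((hσ i).2 hi), fun C hC hm i hi => by
    have := h.ind (C ∘ σ.symm) (fun i => hC _) (by
      rw [← Finset.sum_equiv σ (s := Finset.range k) (f := fun i => C i *ᵥ (x ∘ σ) i)
        (by simp [hσ]) (by simp)]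
      exact hm) (σ i) ((hσ i).2 hi)
    simpa using this⟩

theorem gen_perm {σ : Equiv.Perm ℕ} (hσ : ∀ m, σ m < k ↔ m < k) (h : GenW ℓ B Q W k a x) :
    GenW ℓ B Q W k (a ∘ σ) (x ∘ σ) :=
  ⟨ind_perm hσ h.toInd, fun i hi => h.sing _ ((hσ i).2 hi), fun i hi => h.prp _ ((hσ i).2 hi),
    fun i hi j hj => h.orth _ ((hσ i).2 hi) _ ((hσ j).2 hj)⟩

/-- the extra vector replaces the vector in place `j` -/
theorem gen_rep (G : Geo ℓ B Q) (hW : Stab B W) (hj : j < k)
    (h : GenW ℓ B Q W (k + 1) (Function.update a k (a j)) x) :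
    GenW ℓ B Q W k a x ∧ GenW ℓ B Q W k a (Function.update x j (x k)) ∧
      GenW ℓ B Q W k a (Function.update x j (x j + x k)) := by
  have h0 : GenW ℓ B Q W k a x := gen_congr ((gen_succ G hW).1 h).1
    (fun i hi => (Function.update_of_ne hi.ne _ _).symm) fun _ _ => rfl
  have hk := ((gen_succ G hW).1 h).2.1
  rw [Function.update_self] at hk
  have cs : ∀ (P : ℕ → Vec p n → Prop) v, P j v → (∀ i < k, P i (x i)) →
      ∀ i < k, P i (Function.update x j v i) := fun P v h1 h2 i hi => by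
    rcases eq_or_ne i j with rfl | e
    · rwa [Function.update_self]
    · rw [Function.update_of_ne e]; exact h2 i hi
  refine ⟨h0, gen_congr ((gen_succ G hW).1 (gen_perm (swap_lt (k := k + 1) (i := j) (j := k)
    (by omega) (by omega)) h)).1 (fun i hi => ?_) fun i hi => ?_, ⟨cs (fun i v => v ∈ Vb ℓ (a i)) _
      (add_mem (h0.mem j hj) hk.mem) h0.mem, fun C hC hm i hi => ?_⟩, cs (fun _ v => Sing Q v) _
      ((h0.sing j hj).add G.adm hk.sing (h.orth j (by omega) k (by omega))) h0.sing,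
      cs (fun _ v => v ∈ perp W) _ (add_mem (h0.prp j hj) (h.prp k (by omega))) h0.prp,
      fun i hi m hm => ?_⟩
  · rcases eq_or_ne i j with rfl | e
    · simp
    · simp [Equiv.swap_apply_of_ne_of_ne e hi.ne, hi.ne]
  · rcases eq_or_ne i j with rfl | e
    · simp
    · simp [Equiv.swap_apply_of_ne_of_ne e hi.ne, e]
  · have := h.ind _ (upd_com (k := k) hC (hC j)) (by
      rw [sum_upd]
      refine (congrArg (· ∈ W) ?_).mp hm
      rw [← Finset.add_sum_erase _ _ (Finset.mem_range.2 hj),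
        ← Finset.add_sum_erase _ _ (Finset.mem_range.2 hj), Function.update_self, Matrix.mulVec_add,
        Finset.sum_congr rfl fun i hi => by rw [Function.update_of_ne (Finset.ne_of_mem_erase hi)]]
      abel) i (by omega)
    rwa [Function.update_of_ne hi.ne, Function.update_of_ne hi.ne] at this
  · have m1 : ∀ i < k, Function.update x j (x j + x k) i ∈ spn B (k + 1) x :=
      cs (fun _ v => v ∈ spn B (k + 1) x) _ (add_mem (mem (by omega)) (mem (by omega)))
        fun i hi => mem (by omega)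
    have m2 : spn B (k + 1) x ≤ perp (spn B (k + 1) x) :=
      spn_le (stab.perp G.str.alg) fun i hi => mem_perp_spn.2 fun m hm => h.orth m hm i hi
    exact perp_of_perp G.str.alg stab (m2 (m1 i hi)) (m1 m hm)

theorem ind_act (S : Str ℓ B) (hg : g ∈ B) (hu : Un g) (hf : Fx W g) (h : Ind ℓ B W k a x) :
    Ind ℓ B W k a (act g x) :=
  ⟨fun i hi => (S.alg.dg g hg).mulVec_mem (h.mem i hi), fun C hC hm => h.ind C hC (by
    by_contra e
    refine hf.not_mem hu e ?_
    rw [Matrix.mulVec_sum]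
    rwa [Finset.sum_congr rfl fun i _ => by rw [act_apply, com_mulVec (hC i) hg]] at hm)⟩

theorem gen_act (S : Str ℓ B) (hg : UQ B Q g) (hf : Fx W g) (h : GenW ℓ B Q W k a x) :
    GenW ℓ B Q W k a (act g x) :=
  ⟨ind_act S hg.mem hg.un hf h.toInd, fun i hi => hg.sing (h.sing i hi),
    fun i hi => hf.perp hg.un (h.prp i hi),
    fun i hi j hj => perp_orb_map hg.mem hg.un (h.orth i hi j hj)⟩

theorem act_upd (g : Mat p n) (x : Tup p n) (j : ℕ) (v : Vec p n) :
    act g (Function.update x j v) = Function.update (act g x) j (g *ᵥ v) :=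
  funext fun i => by
    rcases eq_or_ne i j with rfl | e
    · simp
    · simp [e]

end Tu

end Pool.Agent.P.MP_f1a348_lc.CE
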